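import Pool.Agent.Lib.MP_d8ef8f_an.Ff.Stm
import Pool.Agent.Lib.MP_d8ef8f_an.Gd.A2
import Pool.Agent.Lib.MP_d8ef8f_an.Gd.A3

/-!
# Piece F4: derivative of the masses and exponential bounds
-/

set_option autoImplicit false

namespace Pool.Agent.Lib.MP_d8ef8f_an.Ff

open Set Filter Topology MeasureTheory
open Pool.Agent.Lib.MP_d8ef8f_an.Gd

theorem p_F4 : StmF4 := by
  intro n N Ω hO hb d m hm T hT u ut Du lu hs j
  have hcu : ∀ i, ∀ t ∈ T, ContinuousOn (u i t) (closure Ω) := by
    intro i t ht
    exact (hs.cu i).comp (f := fun x => (t, x)) (by fun_prop) (fun x hx => ⟨ht, hx⟩)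
  have hcl : ∀ i, ∀ t ∈ T, ContinuousOn (lu i t) (closure Ω) := by
    intro i t ht
    exact (hs.cl i).comp (f := fun x => (t, x)) (by fun_prop) (fun x hx => ⟨ht, hx⟩)
  have hD0 : ∀ t ∈ T, HasDerivAt (fun s => ∫ x in Ω, u j s x) (∫ x in Ω, ut j t x) t :=
    p_A3 Ω hb hO.measurableSet T hT (u j) (ut j) (hs.cu j) (hs.ct j) (hs.dt j)
  have hlu : ∀ t ∈ T, ∫ x in Ω, lu j t x = 0 := by
    intro t ht
    have h1 := (hs.lap j t ht).green (fun _ => 1) (fun _ => 0)
      ⟨continuousOn_const, continuousOn_const, fun x _ => by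
        simpa using hasGradientAt_const x (1 : ℝ)⟩
    simpa using h1
  have hir : ∀ t ∈ T, IntegrableOn (fun x => u j t x * (m x - ∑ k, u k t x)) Ω := by
    intro t ht
    have hsum : ContinuousOn (fun x => ∑ k, u k t x) (closure Ω) :=
      continuousOn_finsetSum _ (fun k _ => hcu k t ht)
    exact p_A2 Ω hb _ ((hcu j t ht).mul (hm.sub hsum))
  have hEq : ∀ t ∈ T, ∫ x in Ω, ut j t x = ∫ x in Ω, u j t x * (m x - ∑ k, u k t x) := by
    intro t ht
    have hil : IntegrableOn (lu j t) Ω := p_A2 Ω hb _ (hcl j t ht)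
    have h1 : ∫ x in Ω, ut j t x
        = ∫ x in Ω, (d j * lu j t x + u j t x * (m x - ∑ k, u k t x)) :=
      setIntegral_congr_fun hO.measurableSet (fun x hx => hs.eq j t ht x (subset_closure hx))
    rw [h1, integral_add (hil.const_mul _) (hir t ht), integral_const_mul, hlu t ht]
    ring
  have hD : ∀ t ∈ T, HasDerivAt (fun s => mass Ω (u j s))
      (∫ x in Ω, u j t x * (m x - ∑ i, u i t x)) t := by
    intro t ht
    have h1 := hD0 t ht
    rw [hEq t ht] at h1
    exact h1
  refine ⟨hD, ?_⟩
  intro R a b hab hIcc hpt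
  have hbd : ∀ t ∈ Icc a b,
      - R * mass Ω (u j t) ≤ (∫ x in Ω, u j t x * (m x - ∑ i, u i t x)) ∧
      (∫ x in Ω, u j t x * (m x - ∑ i, u i t x)) ≤ R * mass Ω (u j t) := by
    intro t ht
    have htT := hIcc ht
    have hiu : IntegrableOn (u j t) Ω := p_A2 Ω hb _ (hcu j t htT)
    unfold mass
    constructor
    · rw [← integral_const_mul]
      refine setIntegral_mono_on (hiu.const_mul _) (hir t htT) hO.measurableSet ?_
      intro x hx
      have hx' := subset_closure hx
      have h0 := hs.nonneg j t htT x hx'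
      have h1 := (abs_le.mp (hpt t ht x hx')).1
      nlinarith
    · rw [← integral_const_mul]
      refine setIntegral_mono_on (hir t htT) (hiu.const_mul _) hO.measurableSet ?_
      intro x hx
      have hx' := subset_closure hx
      have h0 := hs.nonneg j t htT x hx'
      have h1 := (abs_le.mp (hpt t ht x hx')).2
      nlinarith
  have hexp : ∀ c t : ℝ, HasDerivAt (fun s => Real.exp (c * (s - a)))
      (Real.exp (c * (t - a)) * c) t := by
    intro c t
    have h1 : HasDerivAt (fun s : ℝ => c * (s - a)) c t := by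
      simpa using ((hasDerivAt_id t).sub_const a).const_mul c
    exact h1.exp
  have hprod : ∀ c : ℝ, ∀ t ∈ Icc a b,
      HasDerivAt (fun s => mass Ω (u j s) * Real.exp (c * (s - a)))
        (((∫ x in Ω, u j t x * (m x - ∑ i, u i t x)) + c * mass Ω (u j t))
          * Real.exp (c * (t - a))) t := by
    intro c t ht
    have h1 : HasDerivAt (fun s => mass Ω (u j s) * Real.exp (c * (s - a)))
        ((∫ x in Ω, u j t x * (m x - ∑ i, u i t x)) * Real.exp (c * (t - a))
          + mass Ω (u j t) * (Real.exp (c * (t - a)) * c)) t :=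
      (hD t (hIcc ht)).mul (hexp c t)
    exact h1.congr_deriv (by ring)
  have ha : a ∈ Icc a b := ⟨le_refl _, hab⟩
  have hb' : b ∈ Icc a b := ⟨hab, le_refl _⟩
  constructor
  · have hmono : MonotoneOn (fun s => mass Ω (u j s) * Real.exp (R * (s - a))) (Icc a b) := by
      refine monotoneOn_of_deriv_nonneg (convex_Icc a b)
        (fun t ht => (hprod R t ht).continuousAt.continuousWithinAt)
        (fun t ht => (hprod R t (interior_subset ht)).differentiableAt.differentiableWithinAt) ?_
      intro t ht
      have ht' := interior_subset ht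
      rw [(hprod R t ht').deriv]
      have h1 := (hbd t ht').1
      have h2 : 0 ≤ (∫ x in Ω, u j t x * (m x - ∑ i, u i t x)) + R * mass Ω (u j t) := by
        linarith
      exact mul_nonneg h2 (Real.exp_pos _).le
    have h1 := hmono ha hb' hab
    simp only [sub_self, mul_zero, Real.exp_zero, mul_one] at h1
    have h2 : mass Ω (u j a) * Real.exp (- (R * (b - a)))
        ≤ mass Ω (u j b) * Real.exp (R * (b - a)) * Real.exp (- (R * (b - a))) :=
      mul_le_mul_of_nonneg_right h1 (Real.exp_pos _).le
    rw [mul_assoc, ← Real.exp_add] at h2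
    have h3 : R * (b - a) + - (R * (b - a)) = 0 := by ring
    rw [h3, Real.exp_zero, mul_one] at h2
    exact h2
  · have hmono : AntitoneOn (fun s => mass Ω (u j s) * Real.exp (-R * (s - a))) (Icc a b) := by
      refine antitoneOn_of_deriv_nonpos (convex_Icc a b)
        (fun t ht => (hprod (-R) t ht).continuousAt.continuousWithinAt)
        (fun t ht => (hprod (-R) t (interior_subset ht)).differentiableAt.differentiableWithinAt) ?_
      intro t ht
      have ht' := interior_subset ht
      rw [(hprod (-R) t ht').deriv]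
      have h1 := (hbd t ht').2
      have h2 : (∫ x in Ω, u j t x * (m x - ∑ i, u i t x)) + -R * mass Ω (u j t) ≤ 0 := by
        linarith
      exact mul_nonpos_of_nonpos_of_nonneg h2 (Real.exp_pos _).le
    have h1 := hmono ha hb' hab
    simp only [sub_self, mul_zero, Real.exp_zero, mul_one] at h1
    have h2 : mass Ω (u j b) * Real.exp (-R * (b - a)) * Real.exp (R * (b - a))
        ≤ mass Ω (u j a) * Real.exp (R * (b - a)) :=
      mul_le_mul_of_nonneg_right h1 (Real.exp_pos _).le
    rw [mul_assoc, ← Real.exp_add] at h2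
    have h3 : -R * (b - a) + R * (b - a) = 0 := by ring
    rw [h3, Real.exp_zero, mul_one] at h2
    exact h2

end Pool.Agent.Lib.MP_d8ef8f_an.Ff
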