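import Pool.Agent.Lib.MP_d8ef8f_an.Ff.Stm
import Pool.Agent.Lib.MP_d8ef8f_an.Ff.F4
import Pool.Agent.Lib.MP_d8ef8f_an.Gd.At
import Pool.Agent.Lib.MP_d8ef8f_an.Gd.A2

/-!
# Attraction with an arbitrary set of low species; renumbering; elimination of fast species
-/

set_option autoImplicit false

namespace Pool.Agent.Lib.MP_d8ef8f_an.Ff

open Set Filter Topology MeasureTheory
open Pool.Agent.Lib.MP_d8ef8f_an.Gd

/-- Attraction towards `E_k` (up to the species in `L`) as long as the species in `L` are small. -/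
def AttrS {n N : ℕ} (Ω : Set (Sp n)) (d : Fin N → ℝ) (m : Sp n → ℝ) (k : Fin N)
    (θ : Sp n → ℝ) (L : Finset (Fin N)) : Prop :=
  ∀ (M A : ℝ), 0 < A → ∀ η : ℝ, 0 < η →
    ∃ τ ν : ℝ, 0 < τ ∧ 0 < ν ∧ ∀ (T : Set ℝ), IsOpen T → ∀ (a b : ℝ), a + 1 ≤ b → Icc a b ⊆ T →
    ∀ (u ut : Fin N → ℝ → Sp n → ℝ) (Du : Fin N → ℝ → Sp n → Sp n) (lu : Fin N → ℝ → Sp n → ℝ),
      IsSol Ω d m T u ut Du lu → (∀ j, ∀ t ∈ Icc a b, ∀ x ∈ closure Ω, u j t x ≤ M) →
      A ≤ mass Ω (u k a) → (∀ t ∈ Icc a b, (∑ j ∈ L, mass Ω (u j t)) ≤ ν) →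
      ∀ t ∈ Icc (a + 1 + τ) b, (∫ x in Ω, (u k t x - θ x) ^ 2) ≤ η ∧
        ∀ j, j ≠ k → j ∉ L → (∫ x in Ω, u j t x ^ 2) ≤ η

/-- `AttrS` with the threshold `ν` chosen before the mass `A` -/
def AttrSU {n N : ℕ} (Ω : Set (Sp n)) (d : Fin N → ℝ) (m : Sp n → ℝ) (k : Fin N)
    (θ : Sp n → ℝ) (L : Finset (Fin N)) : Prop :=
  ∀ M : ℝ, ∀ η : ℝ, 0 < η → ∃ ν : ℝ, 0 < ν ∧ ∀ A : ℝ, 0 < A → ∃ τ : ℝ, 0 < τ ∧
    ∀ (T : Set ℝ), IsOpen T → ∀ (a b : ℝ), a + 1 ≤ b → Icc a b ⊆ T →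
    ∀ (u ut : Fin N → ℝ → Sp n → ℝ) (Du : Fin N → ℝ → Sp n → Sp n) (lu : Fin N → ℝ → Sp n → ℝ),
      IsSol Ω d m T u ut Du lu → (∀ j, ∀ t ∈ Icc a b, ∀ x ∈ closure Ω, u j t x ≤ M) →
      A ≤ mass Ω (u k a) → (∀ t ∈ Icc a b, (∑ j ∈ L, mass Ω (u j t)) ≤ ν) →
      ∀ t ∈ Icc (a + 1 + τ) b, (∫ x in Ω, (u k t x - θ x) ^ 2) ≤ η ∧
        ∀ j, j ≠ k → j ∉ L → (∫ x in Ω, u j t x ^ 2) ≤ η

/-- `Attr` with the threshold `ν` chosen before the mass `A` -/
def AttrU {n N : ℕ} (Ω : Set (Sp n)) (d : Fin N → ℝ) (m : Sp n → ℝ) (k : Fin N)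
    (θ : Sp n → ℝ) : Prop :=
  ∀ M : ℝ, ∀ η : ℝ, 0 < η → ∃ ν : ℝ, 0 < ν ∧ ∀ A : ℝ, 0 < A → ∃ τ : ℝ, 0 < τ ∧
    ∀ (T : Set ℝ), IsOpen T → ∀ (a b : ℝ), a + 1 ≤ b → Icc a b ⊆ T →
    ∀ (u ut : Fin N → ℝ → Sp n → ℝ) (Du : Fin N → ℝ → Sp n → Sp n) (lu : Fin N → ℝ → Sp n → ℝ),
      IsSol Ω d m T u ut Du lu → (∀ j, ∀ t ∈ Icc a b, ∀ x ∈ closure Ω, u j t x ≤ M) →
      A ≤ (∫ x in Ω, u k a x) →
      (∀ t ∈ Icc a b, (∫ x in Ω, ∑ j ∈ Finset.univ.filter (fun j => j < k), u j t x) ≤ ν) →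
      ∀ t ∈ Icc (a + 1 + τ) b, Close Ω k θ η (fun j => u j t)

theorem attrS_of_attrSU {n N : ℕ} {Ω : Set (Sp n)} {d : Fin N → ℝ} {m : Sp n → ℝ} {k : Fin N}
    {θ : Sp n → ℝ} {L : Finset (Fin N)} (h : AttrSU Ω d m k θ L) : AttrS Ω d m k θ L := by
  intro M A hA η hη
  obtain ⟨ν, hν, H⟩ := h M η hη
  obtain ⟨τ, hτ, H⟩ := H A hA
  exact ⟨τ, ν, hτ, hν, H⟩

theorem attr_of_attrS {n N : ℕ} {Ω : Set (Sp n)} (hb : Bornology.IsBounded Ω) {d : Fin N → ℝ}
    {m : Sp n → ℝ} {k : Fin N} {θ : Sp n → ℝ}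
    (h : AttrS Ω d m k θ (Finset.univ.filter (fun j => j < k))) : Attr Ω d m k θ := by
  intro M A hA η hη
  obtain ⟨τ, ν, hτ, hν, H⟩ := h M A hA η hη
  refine ⟨τ, ν, hτ, hν, ?_⟩
  intro T hT a b hab hsub u ut Du lu hs hM hA' hlow t ht
  have h1 := H T hT a b hab hsub u ut Du lu hs hM hA' (fun s hs' => by
    have h2 := hlow s hs'
    rw [integral_finsetSum _ fun j _ => p_A2 Ω hb _ (hs.lap j s (hsub hs')).c1.cont] at h2
    exact h2) t ht
  refine ⟨h1.1, fun j hj => h1.2 j hj.ne' ?_⟩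
  simp [hj.le]

/-- renumbering -/
theorem isSol_perm {n N : ℕ} {Ω : Set (Sp n)} {d : Fin N → ℝ} {m : Sp n → ℝ} {T : Set ℝ}
    {u ut : Fin N → ℝ → Sp n → ℝ} {Du : Fin N → ℝ → Sp n → Sp n} {lu : Fin N → ℝ → Sp n → ℝ}
    (hs : IsSol Ω d m T u ut Du lu) (σ : Equiv.Perm (Fin N)) :
    IsSol Ω (fun j => d (σ j)) m T (fun j => u (σ j)) (fun j => ut (σ j)) (fun j => Du (σ j))
      (fun j => lu (σ j)) where
  cu j := hs.cu (σ j)
  ct j := hs.ct (σ j)
  cD j := hs.cD (σ j)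
  cl j := hs.cl (σ j)
  dt j := hs.dt (σ j)
  lap j := hs.lap (σ j)
  nonneg j := hs.nonneg (σ j)
  eq j t ht x hx := by
    rw [hs.eq (σ j) t ht x hx]
    have : ∑ k, u (σ k) t x = ∑ k, u k t x := Equiv.sum_comp σ (fun k => u k t x)
    rw [this]

theorem attrSU_of_perm {n N : ℕ} {Ω : Set (Sp n)} (hb : Bornology.IsBounded Ω) {d : Fin N → ℝ}
    {m : Sp n → ℝ} {θ : Sp n → ℝ} (σ : Equiv.Perm (Fin N)) (k' k : Fin N) (L : Finset (Fin N))
    (hk : σ k' = k) (hL : ∀ j, j < k' ↔ σ j ∈ L)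
    (h : AttrU Ω (fun j => d (σ j)) m k' θ) : AttrSU Ω d m k θ L := by
  subst hk
  intro M η hη
  obtain ⟨ν, hν, H⟩ := h M η hη
  refine ⟨ν, hν, ?_⟩
  intro A hA
  obtain ⟨τ, hτ, H⟩ := H A hA
  refine ⟨τ, hτ, ?_⟩
  intro T hT a b hab hsub u ut Du lu hs hM hA' hlow t ht
  have h1 := H T hT a b hab hsub _ _ _ _ (isSol_perm hs σ) (fun j t ht x hx => hM (σ j) t ht x hx)
    hA' (fun s hs' => by
      rw [integral_finsetSum _ fun j _ => p_A2 Ω hb _ (hs.lap (σ j) s (hsub hs')).c1.cont]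
      refine le_trans (le_of_eq ?_) (hlow s hs')
      refine Finset.sum_nbij' (fun j => σ j) (fun j => σ.symm j) ?_ ?_ ?_ ?_ ?_
      · intro j hj
        exact (hL j).1 (Finset.mem_filter.1 hj).2
      · intro j hj
        refine Finset.mem_filter.2 ⟨Finset.mem_univ _, (hL _).2 ?_⟩
        simpa using hj
      · intro j _
        simp
      · intro j _
        simp
      · intro j _
        rfl) t ht
  refine ⟨h1.1, fun j hj hjL => ?_⟩
  have h2 := h1.2 (σ.symm j) (by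
    rcases lt_trichotomy k' (σ.symm j) with h | h | h
    · exact h
    · exact absurd (by rw [h]; simp) hj
    · exact absurd (by simpa using (hL _).1 h) hjL)
  simpa using h2

/-- existence of the renumbering -/
theorem exists_perm {N : ℕ} (k : Fin N) (L : Finset (Fin N)) (hk : k ∉ L) :
    ∃ (σ : Equiv.Perm (Fin N)) (k' : Fin N), σ k' = k ∧ ∀ j, j < k' ↔ σ j ∈ L := by
  classical
  let key : Fin N → ℕ := fun j => if j ∈ L then 0 else if j = k then 1 else 2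
  let σ := Tuple.sort key
  have hmono : Monotone (key ∘ σ) := Tuple.monotone_sort key
  have hkey0 : ∀ j, key j = 0 ↔ j ∈ L := fun j => by
    by_cases h : j ∈ L
    · simp [key, h]
    · by_cases h' : j = k
      · simp [key, h, h', hk]
      · simp [key, h, h']
  have hkeyk : key k = 1 := by simp [key, hk]
  refine ⟨σ, σ.symm k, by simp, fun j => ?_⟩
  constructor
  · intro h
    have h1 := hmono h.le
    simp only [Function.comp_apply, Equiv.apply_symm_apply, hkeyk] at h1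
    rw [← hkey0]
    have h2 : key (σ j) ≠ 1 := by
      intro h3
      have h4 : σ j = k := by
        by_contra h5
        by_cases h6 : σ j ∈ L
        · simp [key, h6] at h3
        · simp [key, h6, h5] at h3
      have h5 : j = σ.symm k := by rw [← h4]; simp
      exact absurd h5 h.ne
    omega
  · intro h
    by_contra hlt
    have h1 := hmono (not_lt.1 hlt)
    simp only [Function.comp_apply, Equiv.apply_symm_apply, hkeyk] at h1
    rw [(hkey0 _).2 h] at h1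
    omega

/-- Species `l` dies out when species `k` is present and the species in `L` are small: if it has
mass `≥ κ` at the end of an interval, then the interval is short. -/
def Dies {n N : ℕ} (Ω : Set (Sp n)) (d : Fin N → ℝ) (m : Sp n → ℝ) (k l : Fin N)
    (L : Finset (Fin N)) : Prop :=
  ∀ (M A κ : ℝ), 0 < A → 0 < κ →
    ∃ S ν : ℝ, 0 < ν ∧ ∀ (T : Set ℝ), IsOpen T → ∀ (a b : ℝ), a ≤ b → Icc a b ⊆ T →
    ∀ (u ut : Fin N → ℝ → Sp n → ℝ) (Du : Fin N → ℝ → Sp n → Sp n) (lu : Fin N → ℝ → Sp n → ℝ),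
      IsSol Ω d m T u ut Du lu → (∀ j, ∀ t ∈ Icc a b, ∀ x ∈ closure Ω, u j t x ≤ M) →
      A ≤ mass Ω (u k a) → (∀ t ∈ Icc a b, (∑ j ∈ L, mass Ω (u j t)) ≤ ν) →
      κ ≤ mass Ω (u l b) → b - a ≤ S

/-- **elimination of fast species** -/
theorem attrS_of_dies {n N : ℕ} {Ω : Set (Sp n)} {P : ℝ} (hD : Dom Ω P) {m : Sp n → ℝ}
    (hm : ContinuousOn m (closure Ω)) {d : Fin N → ℝ} {k : Fin N} {L F : Finset (Fin N)}
    (hLF : Disjoint L F) (hF : ∀ l ∈ F, Dies Ω d m k l L) {θ : Sp n → ℝ}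
    (hA : AttrSU Ω d m k θ (L ∪ F)) : AttrS Ω d m k θ L := by
  classical
  intro M A hA0 η hη
  have hO := hD.isOpen
  have hb := hD.bdd
  obtain ⟨Rm, hRm⟩ := hb.isCompact_closure.exists_bound_of_continuousOn hm
  set R := |Rm| + N * |M| with hR
  have hR0 : 0 ≤ R := by positivity
  -- the waiting time after which the far species are small
  have key : ∀ κ : ℝ, 0 < κ → ∃ S ν : ℝ, 0 ≤ S ∧ 0 < ν ∧ ∀ (T : Set ℝ), IsOpen T →
      ∀ (a b : ℝ), a ≤ b → Icc a b ⊆ T →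
      ∀ (u ut : Fin N → ℝ → Sp n → ℝ) (Du : Fin N → ℝ → Sp n → Sp n)
        (lu : Fin N → ℝ → Sp n → ℝ),
      IsSol Ω d m T u ut Du lu → (∀ j, ∀ t ∈ Icc a b, ∀ x ∈ closure Ω, u j t x ≤ M) →
      A ≤ mass Ω (u k a) → (∀ t ∈ Icc a b, (∑ j ∈ L, mass Ω (u j t)) ≤ ν) →
      ∀ l ∈ F, κ ≤ mass Ω (u l b) → b - a ≤ S := by
    intro κ hκ
    have h1 : ∀ l : Fin N, ∃ S ν : ℝ, 0 < ν ∧ (l ∈ F → ∀ (T : Set ℝ), IsOpen T →
      ∀ (a b : ℝ), a ≤ b → Icc a b ⊆ T →
      ∀ (u ut : Fin N → ℝ → Sp n → ℝ) (Du : Fin N → ℝ → Sp n → Sp n)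
        (lu : Fin N → ℝ → Sp n → ℝ),
      IsSol Ω d m T u ut Du lu → (∀ j, ∀ t ∈ Icc a b, ∀ x ∈ closure Ω, u j t x ≤ M) →
      A ≤ mass Ω (u k a) → (∀ t ∈ Icc a b, (∑ j ∈ L, mass Ω (u j t)) ≤ ν) →
      κ ≤ mass Ω (u l b) → b - a ≤ S) := by
      intro l
      by_cases hl : l ∈ F
      · obtain ⟨S, ν, hν, H⟩ := hF l hl M A κ hA0 hκ
        exact ⟨S, ν, hν, fun _ => H⟩
      · exact ⟨0, 1, one_pos, fun h => absurd h hl⟩
    choose S ν hν H using h1
    refine ⟨∑ l, |S l|, (Finset.univ.image ν ∪ {1}).min' (by simp), ?_, ?_, ?_⟩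
    · exact Finset.sum_nonneg fun l _ => abs_nonneg _
    · rw [Finset.lt_min'_iff]
      intro y hy
      rcases Finset.mem_union.1 hy with h | h
      · obtain ⟨l, _, rfl⟩ := Finset.mem_image.1 h
        exact hν l
      · rw [Finset.mem_singleton.1 h]
        exact one_pos
    · intro T hT a b hab hsub u ut Du lu hs hM hmk hlow l hl hml
      have h2 := H l hl T hT a b hab hsub u ut Du lu hs hM hmk (fun t ht =>
        (hlow t ht).trans (Finset.min'_le _ _ (Finset.mem_union_left _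
          (Finset.mem_image_of_mem _ (Finset.mem_univ l))))) hml
      have h3 := Finset.single_le_sum (f := fun l => |S l|) (fun l _ => abs_nonneg _)
        (Finset.mem_univ l)
      exact (h2.trans (le_abs_self _)).trans h3
  obtain ⟨ν', hν', HA⟩ := hA M η hη
  set κ := min (η / (|M| + 1)) (ν' / (2 * (N + 1))) with hκ
  have hκ0 : 0 < κ := lt_min (by positivity) (by positivity)
  have hκ1 : |M| * κ ≤ η := by
    have h1 : κ ≤ η / (|M| + 1) := min_le_left _ _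
    rw [le_div_iff₀ (by positivity)] at h1
    nlinarith [abs_nonneg M]
  have hκ2 : N * κ ≤ ν' / 2 := by
    have h1 : κ ≤ ν' / (2 * (N + 1)) := min_le_right _ _
    have h2 : 0 ≤ (N : ℝ) := Nat.cast_nonneg N
    rw [le_div_iff₀ (by positivity)] at h1
    nlinarith
  obtain ⟨S, ν, hS, hν, hkey⟩ := key κ hκ0
  obtain ⟨τ', hτ', HT⟩ := HA (A * Real.exp (- (R * (S + 1)))) (by positivity)
  refine ⟨S + 1 + τ', min ν (ν' / 2), by positivity, lt_min hν (by positivity), ?_⟩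
  intro T hT a b hab hsub u ut Du lu hs hM hmk hlow t ht
  have hn := hs.nonneg
  have hb' : a + S + 1 + 1 + τ' ≤ b := by
    have := ht.1.trans ht.2
    linarith
  have hsub' : Icc (a + S + 1) b ⊆ Icc a b := Icc_subset_Icc_left (by linarith)
  have hm0 : ∀ j, ∀ s ∈ Icc a b, 0 ≤ mass Ω (u j s) := fun j s hs' =>
    setIntegral_nonneg hO.measurableSet fun x hx => hn j s (hsub hs') x (subset_closure hx)
  -- far species are small
  have hfar : ∀ l ∈ F, ∀ s ∈ Icc (a + S + 1) b, mass Ω (u l s) ≤ κ := by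
    intro l hl s hs'
    by_contra hcon
    push Not at hcon
    have has : a ≤ s := by linarith [hs'.1]
    have hsub2 : Icc a s ⊆ Icc a b := Icc_subset_Icc_right hs'.2
    have h1 := hkey T hT a s has (hsub2.trans hsub) u ut Du lu hs
      (fun j t ht => hM j t (hsub2 ht)) hmk
      (fun t ht => (hlow t (hsub2 ht)).trans (min_le_left _ _)) l hl hcon.le
    linarith [hs'.1]
  have hmass : A * Real.exp (- (R * (S + 1))) ≤ mass Ω (u k (a + S + 1)) := by
    have hsub2 : Icc a (a + S + 1) ⊆ Icc a b := Icc_subset_Icc_right (by linarith)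
    have h1 := ((p_F4 Ω hO hb d m hm T hT u ut Du lu hs k).2 R a (a + S + 1) (by linarith)
      (hsub2.trans hsub) (fun t ht x hx => by
        have htI := hsub2 ht
        have h1 : |m x| ≤ |Rm| := by
          have := hRm x hx
          rw [Real.norm_eq_abs] at this
          exact this.trans (le_abs_self _)
        have h2 : |∑ k, u k t x| ≤ N * |M| := by
          refine (Finset.abs_sum_le_sum_abs _ _).trans ?_
          refine (Finset.sum_le_card_nsmul _ _ |M| fun i _ => ?_).trans (le_of_eq ?_)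
          · rw [abs_of_nonneg (hn i t (hsub htI) x hx)]
            exact (hM i t htI x hx).trans (le_abs_self _)
          · simp
        exact (abs_sub _ _).trans (by linarith))).1
    have h2 : a + S + 1 - a = S + 1 := by ring
    rw [h2] at h1
    exact (mul_le_mul_of_nonneg_right hmk (Real.exp_pos _).le).trans h1
  have hnear := HT T hT (a + S + 1) b (by linarith) (hsub'.trans hsub) u ut Du lu hs
    (fun j t ht => hM j t (hsub' ht)) hmass (fun s hs' => by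
      rw [Finset.sum_union hLF]
      have h1 := (hlow s (hsub' hs')).trans (min_le_right _ _)
      have h2 : ∑ j ∈ F, mass Ω (u j s) ≤ N * κ := by
        refine (Finset.sum_le_card_nsmul F _ κ fun l hl => hfar l hl s hs').trans ?_
        rw [nsmul_eq_mul]
        refine mul_le_mul_of_nonneg_right ?_ hκ0.le
        have h3 : F.card ≤ N := by simpa using Finset.card_le_univ F
        exact_mod_cast h3
      linarith) t ⟨by linarith [ht.1], ht.2⟩
  refine ⟨hnear.1, fun j hj hjL => ?_⟩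
  by_cases hjF : j ∈ F
  · have htI : t ∈ Icc (a + S + 1) b := ⟨by linarith [ht.1], ht.2⟩
    have htI' := hsub' htI
    have hc : ContinuousOn (u j t) (closure Ω) := (hs.lap j t (hsub htI')).c1.cont
    have h1 : (∫ x in Ω, u j t x ^ 2) ≤ |M| * mass Ω (u j t) := by
      unfold mass
      rw [← integral_const_mul]
      refine setIntegral_mono_on (p_A2 Ω hb _ (hc.pow 2)) ((p_A2 Ω hb _ hc).const_mul _)
        hO.measurableSet fun x hx => ?_
      have h2 := hn j t (hsub htI') x (subset_closure hx)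
      have h3 := (hM j t htI' x (subset_closure hx)).trans (le_abs_self M)
      nlinarith
    have h2 := hfar j hjF t htI
    have h3 := mul_le_mul_of_nonneg_left h2 (abs_nonneg M)
    linarith
  · refine hnear.2 j hj ?_
    rw [Finset.mem_union]
    tauto

end Pool.Agent.Lib.MP_d8ef8f_an.Ff
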