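import Pool.Agent.Lib.MP_d8ef8f_an.Ff.Stm
import Pool.Agent.Lib.MP_d8ef8f_an.Gd.A2

/-!
# Piece F10: a fast species dies out (assembly)
-/

set_option autoImplicit false

namespace Pool.Agent.Lib.MP_d8ef8f_an.Ff

open Set Filter Topology MeasureTheory
open Pool.Agent.Lib.MP_d8ef8f_an.Gd

theorem f10_sp_nonneg (g : ℝ) : 0 ≤ sp g := by
  unfold sp
  exact Real.log_nonneg (by linarith [Real.exp_pos g])

theorem f10_sp_le {g c : ℝ} (h : g ≤ c) (hc : 0 ≤ c) : sp g ≤ Real.log 2 + c := by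
  unfold sp
  have h1 : Real.exp g ≤ Real.exp c := Real.exp_le_exp.2 h
  have h2 : 1 ≤ Real.exp c := Real.one_le_exp hc
  have h3 : Real.log (2 * Real.exp c) = Real.log 2 + c := by
    rw [Real.log_mul (by norm_num) (Real.exp_pos c).ne', Real.log_exp]
  rw [← h3]
  exact Real.log_le_log (by linarith [Real.exp_pos g]) (by linarith)

theorem f10_sg_nonneg (g : ℝ) : 0 ≤ sg g := by
  unfold sg
  have := Real.exp_pos g
  positivity

theorem f10_sg_le_one (g : ℝ) : sg g ≤ 1 := by
  unfold sg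
  have := Real.exp_pos g
  rw [div_le_one (by linarith)]
  linarith

theorem f10_sg_le_exp (g : ℝ) : sg g ≤ Real.exp g := by
  unfold sg
  have := Real.exp_pos g
  exact div_le_self this.le (by linarith)

theorem f10_vol_pos {n : ℕ} {Ω : Set (Sp n)} {P : ℝ} (hD : Dom Ω P) : 0 < vol Ω := by
  rw [vol, Measure.real]
  exact ENNReal.toReal_pos (hD.isOpen.measure_pos _ hD.nonempty).ne' hD.bdd.measure_lt_top.ne

section
variable {n : ℕ} {Ω : Set (Sp n)} {w : Sp n → ℝ} {K ε : ℝ}

theorem f10_cont (hw : ContinuousOn w (closure Ω)) (h0 : ∀ x ∈ closure Ω, 0 ≤ w x) (hε : 0 < ε) :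
    ContinuousOn (fun x => Real.log (w x + ε)) (closure Ω) :=
  (hw.add continuousOn_const).log fun x hx => by
    have := h0 x hx
    exact (by linarith : (0:ℝ) < w x + ε).ne'

theorem f10_Lg_le (hΩ : IsOpen Ω) (hb : Bornology.IsBounded Ω) (hw : ContinuousOn w (closure Ω))
    (h0 : ∀ x ∈ closure Ω, 0 ≤ w x) (h1 : ∀ x ∈ closure Ω, w x ≤ K) (hε : 0 < ε) (hε1 : ε ≤ 1) :
    Lg Ω ε w ≤ vol Ω * Real.log (K + 1) := by
  have hi : IntegrableOn (fun x => Real.log (w x + ε)) Ω := p_A2 Ω hb _ (f10_cont hw h0 hε)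
  have hc : IntegrableOn (fun _ : Sp n => Real.log (K + 1)) Ω :=
    integrableOn_const hb.measure_lt_top.ne
  have h2 := setIntegral_mono_on hi hc hΩ.measurableSet fun x hx => by
    have h3 := h0 x (subset_closure hx)
    have h4 := h1 x (subset_closure hx)
    exact Real.log_le_log (by linarith) (by linarith)
  rw [setIntegral_const, smul_eq_mul] at h2
  exact h2

theorem f10_phi (hΩ : IsOpen Ω) (hb : Bornology.IsBounded Ω) (hw : ContinuousOn w (closure Ω))
    (h0 : ∀ x ∈ closure Ω, 0 ≤ w x) (h1 : ∀ x ∈ closure Ω, w x ≤ K) (hK : 0 ≤ K) (hε : 0 < ε)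
    (hε1 : ε ≤ 1) {φ : Sp n → ℝ} (hφ : ContinuousOn φ (closure Ω)) {Φ η : ℝ}
    (hΦ : ∀ x ∈ closure Ω, |φ x| ≤ Φ) (hη : 0 ≤ η) (hηΦ : η * Φ ≤ 1 / 8) :
    |η * ∫ x in Ω, φ x * Real.log (w x + ε)| ≤
      1 / 8 * (2 * (vol Ω * Real.log (K + 1)) - Lg Ω ε w) := by
  have hcl := f10_cont hw h0 hε
  have hi : IntegrableOn (fun x => Real.log (w x + ε)) Ω := p_A2 Ω hb _ hcl
  have hc : IntegrableOn (fun _ : Sp n => 2 * Real.log (K + 1)) Ω :=
    integrableOn_const hb.measure_lt_top.ne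
  have hi2 : IntegrableOn (fun x => 1 / 8 * (2 * Real.log (K + 1) - Real.log (w x + ε))) Ω :=
    (hc.sub hi).const_mul _
  have hi3 : IntegrableOn (fun x => η * (φ x * Real.log (w x + ε))) Ω :=
    (p_A2 Ω hb _ (hφ.mul hcl)).const_mul η
  have e1 : ∫ x in Ω, 1 / 8 * (2 * Real.log (K + 1) - Real.log (w x + ε)) =
      1 / 8 * (2 * (vol Ω * Real.log (K + 1)) - Lg Ω ε w) := by
    rw [integral_const_mul, integral_sub hc hi, setIntegral_const, smul_eq_mul]
    unfold Lg vol
    ring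
  rw [← e1, ← integral_const_mul]
  have h2 : ∀ x ∈ Ω, |η * (φ x * Real.log (w x + ε))| ≤
      1 / 8 * (2 * Real.log (K + 1) - Real.log (w x + ε)) := by
    intro x hx
    have h3 := h0 x (subset_closure hx)
    have h4 := h1 x (subset_closure hx)
    have h5 := hΦ x (subset_closure hx)
    have h6 : Real.log (w x + ε) ≤ Real.log (K + 1) :=
      Real.log_le_log (by linarith) (by linarith)
    have h7 : 0 ≤ Real.log (K + 1) := Real.log_nonneg (by linarith)
    have h8 : |Real.log (w x + ε)| ≤ 2 * Real.log (K + 1) - Real.log (w x + ε) := by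
      rw [abs_le]
      constructor <;> linarith
    rw [abs_mul, abs_mul, abs_of_nonneg hη]
    have h9 : 0 ≤ |Real.log (w x + ε)| := abs_nonneg _
    calc η * (|φ x| * |Real.log (w x + ε)|) ≤ η * (Φ * |Real.log (w x + ε)|) := by gcongr
      _ = (η * Φ) * |Real.log (w x + ε)| := by ring
      _ ≤ 1 / 8 * |Real.log (w x + ε)| := by gcongr
      _ ≤ _ := by gcongr
  rw [abs_le]
  constructor
  · rw [← integral_neg]
    exact setIntegral_mono_on hi2.neg hi3 hΩ.measurableSet fun x hx => (abs_le.1 (h2 x hx)).1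
  · exact setIntegral_mono_on hi3 hi2 hΩ.measurableSet fun x hx => (abs_le.1 (h2 x hx)).2

end

theorem f10_eps (C δ : ℝ) (hδ : 0 < δ) : ∃ ε₀ : ℝ, 0 < ε₀ ∧ ε₀ < 1 ∧ 0 < Real.log (1 / ε₀) ∧
    C / Real.log (1 / ε₀) ≤ δ := by
  have h0 : 0 < |C| / δ + 1 := by positivity
  have h1 : Real.log (1 / Real.exp (-(|C| / δ + 1))) = |C| / δ + 1 := by
    rw [one_div, ← Real.exp_neg, neg_neg, Real.log_exp]
  refine ⟨Real.exp (-(|C| / δ + 1)), Real.exp_pos _, ?_, ?_, ?_⟩
  · rw [Real.exp_lt_one_iff]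
    linarith
  · rw [h1]
    exact h0
  · rw [h1, div_le_iff₀ h0]
    have h2 : δ * (|C| / δ + 1) = |C| + δ := by field_simp
    rw [h2]
    linarith [le_abs_self C]

/-- bound of the waiting time -/
theorem f10_wait {R r lB lm lk a1 a0 b t1 : ℝ} (hR : 0 < R) (hr : 8 * R ≤ r)
    (h0 : a1 ≤ b) (h1 : lk ≤ lm + R * (b - a1))
    (ht1 : t1 = 2 / r * max 0 (lB - lm)) (ha0 : a0 = a1 + max 1 t1) :
    a0 - a1 ≤ 1 + 2 / r * (|lB| + |lk|) + 1 / 4 * (b - a1) := by
  have hr0 : 0 < r := by linarith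
  have hRr : R * (2 / r) ≤ 1 / 4 := by
    rw [mul_div_assoc', div_le_iff₀ hr0]
    linarith
  have hT : 0 ≤ b - a1 := by linarith
  have hz : max 0 (lB - lm) ≤ |lB| + (|lk| + R * (b - a1)) := by
    rw [max_le_iff]
    constructor
    · positivity
    · have := le_abs_self lB
      have := neg_abs_le lk
      linarith
  have h2 : t1 ≤ 2 / r * (|lB| + (|lk| + R * (b - a1))) := by
    rw [ht1]
    exact mul_le_mul_of_nonneg_left hz (by positivity)
  have h3 : 2 / r * (R * (b - a1)) ≤ 1 / 4 * (b - a1) := by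
    have := mul_le_mul_of_nonneg_right hRr hT
    linarith
  have h4 : 0 ≤ t1 := by rw [ht1]; positivity
  have h5 : max 1 t1 ≤ 1 + t1 := by
    rw [max_le_iff]
    constructor <;> linarith
  have h6 : 2 / r * (|lB| + (|lk| + R * (b - a1))) =
      2 / r * (|lB| + |lk|) + 2 / r * (R * (b - a1)) := by ring
  rw [ha0]
  linarith

/-- the time estimate -/
theorem f10_time {V R r η lB lm lk LM C1 KA L1 a1 a0 b t1 X0 Y0 Yb : ℝ} (hV : 0 < V) (hR : 0 < R)
    (hr : 8 * R ≤ r) (hη : 0 < η) (h0 : a1 ≤ b) (h1 : lk ≤ lm + R * (b - a1)) (h2 : lm ≤ LM)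
    (ht1 : t1 = 2 / r * max 0 (lB - lm)) (ha0 : a0 = a1 + max 1 t1)
    (hX : - KA - R * V * t1 ≤ X0) (hY0 : 9 / 8 * X0 - L1 / 4 - V * (lm + R * (a0 - a1)) ≤ Y0)
    (hYb : Yb ≤ C1 - V * lk) (hY : η / 4 * (b - a0) ≤ Yb - Y0) :
    b - a1 ≤ 4 / 3 * (4 / η * (|C1| + V * |lk| + 9 / 8 * |KA| + |L1| + V * |LM| + R * V
      + V * |lB|) + 1 + 2 / r * (|lB| + |lk|)) := by
  have hr0 : 0 < r := by linarith
  have hRr : R * (2 / r) ≤ 1 / 4 := by
    rw [mul_div_assoc', div_le_iff₀ hr0]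
    linarith
  have hw := f10_wait hR hr h0 h1 ht1 ha0
  set z := max 0 (lB - lm) with hz
  have hz0 : 0 ≤ z := le_max_left _ _
  have hz1 : z ≤ |lB| + max 0 (-lm) := by
    rw [hz, max_le_iff]
    constructor
    · exact add_nonneg (abs_nonneg _) (le_max_left _ _)
    · have := le_abs_self lB
      have := le_max_right 0 (-lm)
      linarith
  have ht0 : 0 ≤ t1 := by rw [ht1]; positivity
  have hRt : R * t1 ≤ 1 / 4 * z := by
    rw [ht1, ← mul_assoc]
    exact mul_le_mul_of_nonneg_right hRr hz0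
  have hVt : V * (R * t1) ≤ V * (1 / 4 * (|lB| + max 0 (-lm))) :=
    mul_le_mul_of_nonneg_left (by linarith) hV.le
  have h5 : max 1 t1 ≤ 1 + t1 := by
    rw [max_le_iff]
    constructor <;> linarith
  have h6 : V * (lm + R * (a0 - a1)) ≤ V * (lm + R * (1 + t1)) := by
    apply mul_le_mul_of_nonneg_left _ hV.le
    have : R * (a0 - a1) ≤ R * (1 + t1) := mul_le_mul_of_nonneg_left (by linarith) hR.le
    linarith
  have h7 : V * lm + 17 / 8 * (V * (1 / 4 * (|lB| + max 0 (-lm)))) ≤ V * |LM| + V * |lB| := by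
    have hVB : 0 ≤ V * |lB| := by positivity
    rcases le_or_gt 0 lm with h | h
    · rw [max_eq_left (by linarith)]
      have : V * lm ≤ V * |LM| := mul_le_mul_of_nonneg_left (h2.trans (le_abs_self _)) hV.le
      linarith
    · rw [max_eq_right (by linarith)]
      have : 0 ≤ V * |LM| := by positivity
      have : V * lm ≤ 0 := mul_nonpos_of_nonneg_of_nonpos hV.le h.le
      linarith
  have h8 : η / 4 * (b - a0) ≤ |C1| + V * |lk| + 9 / 8 * |KA| + |L1| + V * |LM| + R * V
      + V * |lB| := by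
    have e1 := le_abs_self C1
    have e2 : -(V * lk) ≤ V * |lk| := by
      have := mul_le_mul_of_nonneg_left (neg_abs_le lk) hV.le
      linarith
    have e3 := le_abs_self KA
    have e4 := le_abs_self L1
    have e5 := abs_nonneg L1
    have e6 : V * (lm + R * (1 + t1)) = V * lm + R * V + V * (R * t1) := by ring
    have e7 : R * V * t1 = V * (R * t1) := by ring
    rw [e6] at h6
    rw [e7] at hX
    linarith
  have h9 : b - a0 ≤ 4 / η * (|C1| + V * |lk| + 9 / 8 * |KA| + |L1| + V * |LM| + R * V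
      + V * |lB|) := by
    have e1 : 4 / η * (η / 4 * (b - a0)) = b - a0 := by field_simp
    rw [← e1]
    exact mul_le_mul_of_nonneg_left h8 (by positivity)
  linarith

section
variable {n N : ℕ} {Ω : Set (Sp n)} {P : ℝ} {d : Fin N → ℝ} {m : Sp n → ℝ} {T : Set ℝ}
  {u ut : Fin N → ℝ → Sp n → ℝ} {Du : Fin N → ℝ → Sp n → Sp n} {lu : Fin N → ℝ → Sp n → ℝ}

theorem f10_slice (hs : IsSol Ω d m T u ut Du lu) (j : Fin N) {t : ℝ} (ht : t ∈ T) :
    ContinuousOn (u j t) (closure Ω) :=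
  (hs.cu j).comp (f := fun x => (t, x)) (by fun_prop) (fun x hx => ⟨ht, hx⟩)

/-- derivative of the logarithmic integral -/
theorem f10_dLg (h3 : StmF3) (hD : Dom Ω P) (hm : ContinuousOn m (closure Ω))
    (hd : ∀ j, 0 < d j) (hT : IsOpen T) (hs : IsSol Ω d m T u ut Du lu) {ε R : ℝ} (hε : 0 < ε)
    (k : Fin N) {t : ℝ} (ht : t ∈ T) (hR : ∀ x ∈ closure Ω, |m x - ∑ j, u j t x| ≤ R) :
    ∃ D, HasDerivAt (fun s => Lg Ω ε (u k s)) D t ∧ - (R * vol Ω) ≤ D := by
  have hb := hD.bdd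
  have hO := hD.isOpen
  have h1 := h3 Ω hO hb d m hm T hT u ut Du lu hs ε hε (fun _ => 1) (fun _ => 0)
    ⟨continuousOn_const, continuousOn_const, fun x _ => by
        simpa using hasGradientAt_const x (1 : ℝ)⟩ k t ht
  simp only [one_mul, inner_zero_right, integral_zero, mul_zero, sub_zero] at h1
  refine ⟨_, h1, ?_⟩
  have hn := hs.nonneg
  have hsum : ContinuousOn (fun x => ∑ j, u j t x) (closure Ω) :=
    continuousOn_finsetSum _ (fun j _ => f10_slice hs j ht)
  have hpos : ∀ x ∈ closure Ω, 0 < u k t x + ε := fun x hx => by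
    have := hn k t ht x hx
    linarith
  have hce : ContinuousOn (fun x => ε / (u k t x + ε)) (closure Ω) :=
    continuousOn_const.div ((f10_slice hs k ht).add continuousOn_const)
      fun x hx => (hpos x hx).ne'
  have i1 : IntegrableOn (fun x => m x - ∑ j, u j t x) Ω := p_A2 Ω hb _ (hm.sub hsum)
  have i2 : IntegrableOn (fun x => ε / (u k t x + ε) * (m x - ∑ j, u j t x)) Ω :=
    p_A2 Ω hb _ (hce.mul (hm.sub hsum))
  have hc : IntegrableOn (fun _ : Sp n => R) Ω := integrableOn_const hb.measure_lt_top.ne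
  have h4 : - (R * vol Ω) ≤ (∫ x in Ω, (m x - ∑ j, u j t x)) -
      ∫ x in Ω, ε / (u k t x + ε) * (m x - ∑ j, u j t x) := by
    rw [← integral_sub i1 i2]
    have h5 := setIntegral_mono_on hc.neg (i1.sub i2) hO.measurableSet fun x hx => by
      have hx' := subset_closure hx
      have h6 := hR x hx'
      have h7 := hpos x hx'
      have h8 := hn k t ht x hx'
      have h9 : ε / (u k t x + ε) ≤ 1 := by
        rw [div_le_one h7]
        linarith
      have h10 : 0 ≤ ε / (u k t x + ε) := by positivity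
      have h11 : |(1 - ε / (u k t x + ε)) * (m x - ∑ j, u j t x)| ≤ 1 * R := by
        rw [abs_mul]
        refine mul_le_mul ?_ h6 (abs_nonneg _) zero_le_one
        rw [abs_le]
        constructor <;> linarith
      have h12 := (abs_le.1 h11).1
      simp only [Pi.neg_apply, Pi.sub_apply]
      linarith
    refine le_trans (le_of_eq ?_) h5
    simp only [Pi.neg_apply]
    rw [integral_neg, setIntegral_const, smul_eq_mul, vol]
    ring
  have h5 : 0 ≤ d k * ∫ x in Ω, ‖(u k t x + ε)⁻¹ • Du k t x‖ ^ 2 :=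
    mul_nonneg (hd k).le (setIntegral_nonneg hO.measurableSet fun x _ => by positivity)
  linarith

end

/-- a function whose derivative is at least `c` grows at least by `c` times the length -/
theorem f10_grow {f : ℝ → ℝ} {a b c : ℝ} (hab : a ≤ b)
    (h : ∀ t ∈ Icc a b, ∃ D, HasDerivAt f D t ∧ c ≤ D) : c * (b - a) ≤ f b - f a := by
  choose! D hD using h
  have hm : MonotoneOn (fun t => f t - c * t) (Icc a b) := by
    have hd : ∀ t ∈ Icc a b, HasDerivAt (fun t => f t - c * t) (D t - c) t := fun t ht => by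
      have h1 : HasDerivAt (fun t : ℝ => c * t) c t := by
        simpa using (hasDerivAt_id t).const_mul c
      exact (hD t ht).1.sub h1
    refine monotoneOn_of_deriv_nonneg (convex_Icc a b)
      (fun t ht => (hd t ht).continuousAt.continuousWithinAt)
      (fun t ht => (hd t (interior_subset ht)).differentiableAt.differentiableWithinAt) ?_
    intro t ht
    have ht' := interior_subset ht
    rw [(hd t ht').deriv]
    linarith [(hD t ht').2]
  have := hm ⟨le_rfl, hab⟩ ⟨hab, le_rfl⟩ hab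
  simp only at this
  linarith

/-- the core estimate on an interval where the sup bound holds -/
theorem f10_core (h2 : StmF2) (h3 : StmF3) (h4 : StmF4) (h5 : StmF5) (h7 : StmF7) (h9 : StmF9)
    {n N : ℕ} (Ω : Set (Sp n)) (P : ℝ) (hD : Dom Ω P) (d : Fin N → ℝ) (m : Sp n → ℝ)
    (hm : ContinuousOn m (closure Ω)) (hd : ∀ j, 0 < d j)
    (φ : Sp n → ℝ) (Dφ : Sp n → Sp n) (Φ G : ℝ) (hφ : C1 Ω φ Dφ)
    (hΦ : ∀ x ∈ closure Ω, |φ x| ≤ Φ) (hG : (∫ x in Ω, ‖Dφ x‖ ^ 2) ≤ G)
    (hφ0 : (∫ x in Ω, φ x) = 0) (hφm : (∫ x in Ω, m x * φ x) = -1)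
    (k l : Fin N) (L : Finset (Fin N)) (hkl : k ≠ l) (hkL : k ∉ L) (hlL : l ∉ L)
    (hdk : ∀ j, j ∉ L → d k ≤ d j)
    (K R η β κm ν r : ℝ) (hK : 1 ≤ K) (hR : 0 < R) (hΦ0 : 0 < Φ) (hη : 0 < η) (hη1 : η ≤ 1)
    (hηΦ : η * Φ ≤ 1 / 8) (hηG : 16 * η * d k * G ≤ 1)
    (hηQ : 32 * (N : ℝ) ^ 2 * η * (Φ ^ 2 * (K + 1) ^ 2 * P * vol Ω) ≤ d k)
    (hβ : 0 < β) (hβ1 : β * (R + K * Φ) ≤ η / 16) (hκm : 0 < κm) (hκm1 : 16 * N * Φ * κm ≤ 1)
    (hν : 16 * Φ * ν ≤ 1) (hr : r = d l / P - 2 * R) (hr8 : 8 * R ≤ r)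
    (hr3 : 3 * R * vol Ω / β ≤ r) (hRK : ∀ v : Fin N → Sp n → ℝ,
      (∀ j, ∀ x ∈ closure Ω, 0 ≤ v j x ∧ v j x ≤ K) →
        ∀ x ∈ closure Ω, |m x - ∑ j, v j x| ≤ R) (A κ : ℝ) (hA : 0 < A) (hκ : 0 < κ) :
    ∃ S : ℝ, ∀ (T : Set ℝ), IsOpen T → ∀ (a b : ℝ), a ≤ b → Icc a b ⊆ T →
    ∀ (u ut : Fin N → ℝ → Sp n → ℝ) (Du : Fin N → ℝ → Sp n → Sp n) (lu : Fin N → ℝ → Sp n → ℝ),
      IsSol Ω d m T u ut Du lu → (∀ j, ∀ t ∈ Icc a b, ∀ x ∈ closure Ω, u j t x ≤ K) →
      A ≤ mass Ω (u k a) → (∀ t ∈ Icc a b, (∑ j ∈ L, mass Ω (u j t)) ≤ ν) →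
      κ ≤ mass Ω (u l b) → b - a ≤ S := by
  have hO := hD.isOpen
  have hb := hD.bdd
  have hP := hD.hP
  have hV := f10_vol_pos hD
  set V := vol Ω with hVdef
  have hK0 : 0 ≤ K := by linarith
  have hN : 0 < (N : ℝ) := by
    have : 0 < N := lt_of_le_of_lt (Nat.zero_le _) k.isLt
    exact_mod_cast this
  have hr0 : 0 < r := by linarith
  obtain ⟨KA, hKA⟩ := h9 Ω P hD d m hm k (hd k) K A hA
  have hκe : 0 < κm * Real.exp (-R) := by positivity
  choose Kf hKf using fun i : Fin N => h9 Ω P hD d m hm i (hd i) K (κm * Real.exp (-R)) hκe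
  set L1 := V * Real.log (K + 1) with hL1
  have hlogK : 0 ≤ Real.log (K + 1) := Real.log_nonneg (by linarith)
  have hL10 : 0 ≤ L1 := by positivity
  set K0 := L1 + ∑ i, |Kf i| with hK0def
  have hK00 : 0 ≤ K0 := add_nonneg hL10 (Finset.sum_nonneg fun i _ => abs_nonneg _)
  have hKfi : ∀ i, Kf i + L1 ≤ K0 := fun i => by
    have h := Finset.single_le_sum (f := fun i => |Kf i|) (fun i _ => abs_nonneg _)
      (Finset.mem_univ i)
    have h' := le_abs_self (Kf i)
    rw [hK0def]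
    linarith
  set C1 := 5 / 8 * L1 + 1 / 4 * (Real.log 2 + K0 + L1) + L1 / 4 with hC1
  set lB := Real.log (K * V * r / (2 * R)) with hlB
  set LM := Real.log (K * V) with hLM
  set lk := Real.log κ with hlk
  refine ⟨4 / 3 * (4 / η * (|C1| + V * |lk| + 9 / 8 * |KA| + |L1| + V * |LM| + R * V
      + V * |lB|) + 1 + 2 / r * (|lB| + |lk|)), ?_⟩
  intro T hT a b hab hIcc u ut Du lu hs hM hmk hlow hml
  have hn := hs.nonneg
  have hpt : ∀ t ∈ Icc a b, ∀ x ∈ closure Ω, |m x - ∑ j, u j t x| ≤ R := fun t ht =>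
    hRK (fun j => u j t) fun j x hx => ⟨hn j t (hIcc ht) x hx, hM j t ht x hx⟩
  have hmass := fun j => h4 Ω hO hb d m hm T hT u ut Du lu hs j
  have hbd : ∀ j, ∀ s t, a ≤ s → s ≤ t → t ≤ b →
      mass Ω (u j s) * Real.exp (- (R * (t - s))) ≤ mass Ω (u j t) ∧
      mass Ω (u j t) ≤ mass Ω (u j s) * Real.exp (R * (t - s)) := fun j s t hs1 hst htb =>
    (hmass j).2 R s t hst ((Icc_subset_Icc hs1 htb).trans hIcc)
      fun t' ht' => hpt t' ⟨hs1.trans ht'.1, ht'.2.trans htb⟩
  have hmass0 : ∀ j, ∀ t ∈ Icc a b, 0 ≤ mass Ω (u j t) := fun j t ht =>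
    setIntegral_nonneg hO.measurableSet fun x hx => hn j t (hIcc ht) x (subset_closure hx)
  have hmassK : ∀ j, ∀ t ∈ Icc a b, mass Ω (u j t) ≤ K * V := fun j t ht => by
    have h := setIntegral_mono_on (p_A2 Ω hb _ (f10_slice hs j (hIcc ht)))
      (integrableOn_const hb.measure_lt_top.ne : IntegrableOn (fun _ : Sp n => K) Ω)
      hO.measurableSet fun x hx => hM j t ht x (subset_closure hx)
    rw [setIntegral_const, smul_eq_mul, mul_comm] at h
    exact h
  -- the mass of the fast species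
  have hml0 : 0 < mass Ω (u l b) := lt_of_lt_of_le hκ hml
  have hmlpos : ∀ t ∈ Icc a b, 0 < mass Ω (u l t) := fun t ht => by
    by_contra hneg
    have h0 : mass Ω (u l t) = 0 := le_antisymm (not_lt.1 hneg) (hmass0 l t ht)
    have h1 := (hbd l t b ht.1 ht.2 le_rfl).2
    rw [h0, zero_mul] at h1
    linarith
  have haI : a ∈ Icc a b := ⟨le_rfl, hab⟩
  have hbI : b ∈ Icc a b := ⟨hab, le_rfl⟩
  set μ := mass Ω (u l a) with hμ
  have hμ0 : 0 < μ := hmlpos a haI
  set lm := Real.log μ with hlm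
  have e1 : lk ≤ lm + R * (b - a) := by
    have h1 := hml.trans (hbd l a b le_rfl hab le_rfl).2
    have h2 := Real.log_le_log hκ h1
    rwa [Real.log_mul hμ0.ne' (Real.exp_pos _).ne', Real.log_exp] at h2
  have e2 : lm ≤ LM := Real.log_le_log hμ0 (hmassK l a haI)
  set t1 := 2 / r * max 0 (lB - lm) with ht1
  have ht10 : 0 ≤ t1 := by positivity
  set a0 := a + max 1 t1 with ha0
  have ha0' : a + 1 ≤ a0 := by
    rw [ha0]
    linarith [le_max_left 1 t1]
  have hwait := f10_wait hR hr8 hab e1 ht1 ha0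
  have hbig : 0 ≤ 4 / η * (|C1| + V * |lk| + 9 / 8 * |KA| + |L1| + V * |LM| + R * V
      + V * |lB|) := by positivity
  rcases lt_or_ge b a0 with hcase | hcase
  · linarith
  -- main case
  have h1b : a + 1 ≤ b := ha0'.trans hcase
  have hflat : ∀ t ∈ Icc a0 b, Fl Ω (u l t) ≤ β := by
    intro t ht
    have hat : a ≤ t := by linarith [ht.1]
    have htI : t ∈ Icc a b := ⟨hat, ht.2⟩
    have h1 := h2 Ω P hD d m hm l R K r hR (hd l) hr hr0 T hT a b hab hIcc u ut Du lu hs hpt
      (fun x hx => hM l a haI x hx) hμ0 t htI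
    have hB0 : 0 < K * V * r / (2 * R) := by positivity
    have h6 : Real.exp (- (r * (t - a))) ≤ (μ / (K * V * r / (2 * R))) ^ 2 := by
      have h7 : 2 * (lB - lm) ≤ r * (t - a) := by
        have h8 : r * t1 = 2 * max 0 (lB - lm) := by
          rw [ht1]
          field_simp
        have h9 : r * t1 ≤ r * (t - a) := by
          apply mul_le_mul_of_nonneg_left _ hr0.le
          have := le_max_right 1 t1
          have := ht.1
          linarith
        have h10 := le_max_right 0 (lB - lm)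
        linarith
      have h8 : (μ / (K * V * r / (2 * R))) ^ 2 = Real.exp (- (2 * (lB - lm))) := by
        have h9 : μ / (K * V * r / (2 * R)) = Real.exp (lm - lB) := by
          rw [Real.exp_sub, hlm, hlB, Real.exp_log hμ0, Real.exp_log hB0]
        rw [h9, ← Real.exp_nat_mul]
        congr 1
        push_cast
        ring
      rw [h8]
      exact Real.exp_le_exp.2 (by linarith)
    have h7 : Fl Ω (u l t) ^ 2 ≤ β ^ 2 := by
      have h8 : K ^ 2 * V ^ 3 / μ ^ 2 * Real.exp (- (r * (t - a))) ≤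
          K ^ 2 * V ^ 3 / μ ^ 2 * (μ / (K * V * r / (2 * R))) ^ 2 :=
        mul_le_mul_of_nonneg_left h6 (by positivity)
      have h9 : K ^ 2 * V ^ 3 / μ ^ 2 * (μ / (K * V * r / (2 * R))) ^ 2 =
          4 * R ^ 2 * V / r ^ 2 := by
        field_simp
        norm_num
      rw [h9] at h8
      have h10 : V * (4 * R ^ 2 * V / r ^ 2 + 4 * R ^ 2 * V / r ^ 2) ≤ β ^ 2 := by
        have h11 : 3 * R * V ≤ r * β := by
          rw [div_le_iff₀ hβ] at hr3
          exact hr3
        have h12 : (3 * R * V) ^ 2 ≤ (r * β) ^ 2 := pow_le_pow_left₀ (by positivity) h11 2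
        have h13 : V * (4 * R ^ 2 * V / r ^ 2 + 4 * R ^ 2 * V / r ^ 2) = 8 * (R * V) ^ 2 / r ^ 2 := by
          field_simp
          ring
        rw [h13, div_le_iff₀ (by positivity)]
        nlinarith [sq_nonneg (R * V)]
      refine h1.trans (le_trans ?_ h10)
      exact mul_le_mul_of_nonneg_left (by linarith) hV.le
    exact (abs_le_of_sq_le_sq' h7 hβ.le).2
  -- the choice of the regularisation
  set Kb := |KA| + R * V * (b - a) with hKb
  have hKb0 : 0 ≤ Kb := by
    have : 0 ≤ b - a := by linarith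
    positivity
  set δ := η / (4 * R * (3 + N)) with hδ
  have hδ0 : 0 < δ := by positivity
  set Z := Kb + K0 + V / δ with hZ
  have hZ0 : 0 ≤ Z := by positivity
  set c0 := V * (1 + Real.log (K + 1)) with hc0
  have hc00 : 0 ≤ c0 := by positivity
  obtain ⟨ε, hε0, hε1, hlε, hεδ⟩ := f10_eps (c0 + Kb + Z) δ hδ0
  have hu0 : ∀ j, ∀ t ∈ Icc a b, ∀ x ∈ closure Ω, 0 ≤ u j t x := fun j t ht =>
    hn j t (hIcc ht)
  have hcu : ∀ j, ∀ t ∈ Icc a b, ContinuousOn (u j t) (closure Ω) := fun j t ht =>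
    f10_slice hs j (hIcc ht)
  have hLgle : ∀ j, ∀ t ∈ Icc a b, Lg Ω ε (u j t) ≤ L1 := fun j t ht =>
    f10_Lg_le hO hb (hcu j t ht) (hu0 j t ht) (hM j t ht) hε0 hε1.le
  have hEr : ∀ j, ∀ t ∈ Icc a b, Er Ω ε (u j t) ≤ (c0 - Lg Ω ε (u j t)) / Real.log (1 / ε) :=
    fun j t ht => h5 Ω hO hb (u j t) (hcu j t ht) K (fun x hx => ⟨hu0 j t ht x hx, hM j t ht x hx⟩)
      ε hε0 hε1
  have hEr0 : ∀ j, ∀ t ∈ Icc a b, 0 ≤ Er Ω ε (u j t) := fun j t ht =>
    setIntegral_nonneg hO.measurableSet fun x hx => by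
      have := hu0 j t ht x (subset_closure hx)
      positivity
  have hErV : ∀ j, ∀ t ∈ Icc a b, Er Ω ε (u j t) ≤ V := fun j t ht => by
    have hpos : ∀ x ∈ closure Ω, 0 < u j t x + ε := fun x hx => by
      have := hu0 j t ht x hx
      linarith
    have h := setIntegral_mono_on (p_A2 Ω hb _ ((continuousOn_const (c := ε)).div
        ((hcu j t ht).add continuousOn_const) fun x hx => (hpos x hx).ne'))
      (integrableOn_const hb.measure_lt_top.ne : IntegrableOn (fun _ : Sp n => (1:ℝ)) Ω)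
      hO.measurableSet fun x hx => by
        have h1 := hpos x (subset_closure hx)
        have h2 := hu0 j t ht x (subset_closure hx)
        show ε / (u j t x + ε) ≤ 1
        rw [div_le_one h1]
        linarith
    rw [setIntegral_const, smul_eq_mul, mul_one] at h
    exact h
  -- the lower bound of the logarithmic integral
  have hXa : - KA ≤ Lg Ω ε (u k (a + 1)) :=
    hKA T hT a ((Icc_subset_Icc_right h1b).trans hIcc) u ut Du lu hs
      (fun j t ht => hM j t ⟨ht.1, ht.2.trans h1b⟩) hmk ε hε0 hε1.le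
  have hX : ∀ t ∈ Icc (a + 1) b, - KA - R * V * (t - (a + 1)) ≤ Lg Ω ε (u k t) := by
    intro t ht
    have h := f10_grow (f := fun s => Lg Ω ε (u k s)) (c := - (R * V)) ht.1 fun s hs' => by
      have hsI : s ∈ Icc a b := ⟨by linarith [hs'.1], hs'.2.trans ht.2⟩
      exact f10_dLg h3 hD hm hd hT hs hε0 k (hIcc hsI) (hpt s hsI)
    linarith
  have hXb : ∀ t ∈ Icc (a + 1) b, - Kb ≤ Lg Ω ε (u k t) := by
    intro t ht
    have h := hX t ht
    have h' : R * V * (t - (a + 1)) ≤ R * V * (b - a) :=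
      mul_le_mul_of_nonneg_left (by linarith [ht.2]) (by positivity)
    have := le_abs_self KA
    linarith
  set mid : Finset (Fin N) := Finset.univ.filter (fun j => j ≠ k ∧ j ≠ l ∧ j ∉ L) with hmid
  have hmidmem : ∀ j, j ∈ mid ↔ j ≠ k ∧ j ≠ l ∧ j ∉ L := fun j => by simp [hmid]
  have hgrow : η / 4 * (b - a0) ≤ Psi Ω k l mid K0 η ε φ (fun j => u j b) -
      Psi Ω k l mid K0 η ε φ (fun j => u j a0) := by
    refine f10_grow (f := fun s => Psi Ω k l mid K0 η ε φ (fun j => u j s)) hcase ?_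
    intro t ht
    have htI : t ∈ Icc a b := ⟨by linarith [ht.1], ht.2⟩
    have ht1I : t ∈ Icc (a + 1) b := ⟨by linarith [ht.1], ht.2⟩
    refine h7 Ω P hD d m hm hd φ Dφ Φ G hφ hΦ hG hφ0 hφm k l mid L hkl (by simp [hmidmem])
      (by simp [hmidmem]) hkL hlL ?_ ?_ ?_ K R η β κm ν K0 hK hR hΦ0 hη hη1 hηΦ hηG hηQ hβ.le hβ1
      hκm1 hν T hT u ut Du lu hs t (hIcc htI) (fun j => hM j t htI) (hpt t htI) (hmlpos t htI)
      (hflat t ht) ε hε0 hε1.le ?_ (hlow t htI) ?_
    · rw [Finset.disjoint_left]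
      intro j hj hj'
      exact ((hmidmem j).1 hj).2.2 hj'
    · intro j
      by_cases h1 : j = k
      · exact Or.inl h1
      by_cases h2 : j = l
      · exact Or.inr (Or.inl h2)
      by_cases h3 : j ∈ L
      · exact Or.inr (Or.inr (Or.inr h3))
      · exact Or.inr (Or.inr (Or.inl ((hmidmem j).2 ⟨h1, h2, h3⟩)))
    · intro i hi
      exact hdk i ((hmidmem i).1 hi).2.2
    · -- small mass or large logarithmic integral
      intro i hi
      rcases le_or_gt (mass Ω (u i t)) κm with h | h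
      · exact Or.inl h
      · right
        have h1 := (hbd i (t - 1) t (by linarith [ht1I.1]) (by linarith) ht.2).2
        have h2 : κm * Real.exp (-R) ≤ mass Ω (u i (t - 1)) := by
          have h3 : t - (t - 1) = 1 := by ring
          rw [h3, mul_one] at h1
          have h4 : κm * Real.exp (-R) ≤ mass Ω (u i (t - 1)) * Real.exp R * Real.exp (-R) :=
            mul_le_mul_of_nonneg_right (h.le.trans h1) (Real.exp_pos _).le
          rw [mul_assoc, ← Real.exp_add, add_neg_cancel, Real.exp_zero, mul_one] at h4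
          exact h4
        have h3 : Icc (t - 1) (t - 1 + 1) ⊆ Icc a b := by
          rw [sub_add_cancel]
          exact Icc_subset_Icc (by linarith [ht1I.1]) ht.2
        have h4 := hKf i T hT (t - 1) (h3.trans hIcc) u ut Du lu hs
          (fun j s hs' => hM j s (h3 hs')) h2 ε hε0 hε1.le
        rw [sub_add_cancel] at h4
        have h5 := hLgle k t htI
        have h6 := hKfi i
        linarith
    · -- errors
      have hXt := hXb t ht1I
      have hk : Er Ω ε (u k t) ≤ δ := by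
        refine (hEr k t htI).trans (le_trans ?_ hεδ)
        exact div_le_div_of_nonneg_right (by linarith) hlε.le
      have hi : ∀ i, sg (Lg Ω ε (u i t) - Lg Ω ε (u k t) + K0) * Er Ω ε (u i t) ≤ δ := by
        intro i
        set g := Lg Ω ε (u i t) - Lg Ω ε (u k t) + K0 with hg
        have hE0 := hEr0 i t htI
        rcases le_or_gt (-Z) (Lg Ω ε (u i t)) with h | h
        · have h1 : Er Ω ε (u i t) ≤ δ := by
            refine (hEr i t htI).trans (le_trans ?_ hεδ)
            exact div_le_div_of_nonneg_right (by linarith) hlε.le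
          have h2 := mul_le_mul_of_nonneg_right (f10_sg_le_one g) hE0
          linarith
        · have h1 : sg g ≤ Real.exp (-(V / δ)) := by
            refine (f10_sg_le_exp g).trans (Real.exp_le_exp.2 ?_)
            rw [hg]
            linarith
          have h2 : V * Real.exp (-(V / δ)) ≤ δ := by
            rw [Real.exp_neg, ← div_eq_mul_inv, div_le_iff₀ (Real.exp_pos _)]
            have h3 := Real.add_one_le_exp (V / δ)
            have h4 : δ * (V / δ) = V := by field_simp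
            have h5 := mul_le_mul_of_nonneg_left h3 hδ0.le
            linarith
          calc sg g * Er Ω ε (u i t) ≤ Real.exp (-(V / δ)) * V :=
                mul_le_mul h1 (hErV i t htI) hE0 (Real.exp_pos _).le
            _ ≤ δ := by linarith
      have hsum : ∑ i ∈ mid, sg (Lg Ω ε (u i t) - Lg Ω ε (u k t) + K0) * Er Ω ε (u i t) ≤
          N * δ := by
        refine (Finset.sum_le_card_nsmul mid _ δ fun i _ => hi i).trans ?_
        rw [nsmul_eq_mul]
        refine mul_le_mul_of_nonneg_right ?_ hδ0.le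
        have h1 : mid.card ≤ N := by
          simpa using Finset.card_le_univ mid
        exact_mod_cast h1
      have h1 : R * (3 * δ + N * δ) = η / 4 := by
        rw [hδ]
        field_simp
      rw [← h1]
      exact mul_le_mul_of_nonneg_left (by linarith) hR.le
  -- upper bound
  have hub : Psi Ω k l mid K0 η ε φ (fun j => u j b) ≤ C1 - V * lk := by
    have h1 := f10_phi hO hb (hcu k b hbI) (hu0 k b hbI) (hM k b hbI) hK0 hε0 hε1.le hφ.cont hΦ
      hη.le hηΦ
    have h2 := (abs_le.1 h1).1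
    have hXk := hLgle k b hbI
    have h3 : ∀ i ∈ mid, sp (Lg Ω ε (u i b) - Lg Ω ε (u k b) + K0) ≤
        Real.log 2 + (L1 - Lg Ω ε (u k b) + K0) := fun i _ =>
      f10_sp_le (by linarith [hLgle i b hbI]) (by linarith)
    have h4 : 0 ≤ Real.log 2 + (L1 - Lg Ω ε (u k b) + K0) := by
      have : 0 ≤ Real.log 2 := Real.log_nonneg (by norm_num)
      linarith
    have h5 : ∑ i ∈ mid, sp (Lg Ω ε (u i b) - Lg Ω ε (u k b) + K0) ≤
        N * (Real.log 2 + (L1 - Lg Ω ε (u k b) + K0)) := by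
      refine (Finset.sum_le_card_nsmul mid _ _ h3).trans ?_
      rw [nsmul_eq_mul]
      refine mul_le_mul_of_nonneg_right ?_ h4
      have h1 : mid.card ≤ N := by
        simpa using Finset.card_le_univ mid
      exact_mod_cast h1
    have h6 : (1 / (4 * (N : ℝ))) * ∑ i ∈ mid, sp (Lg Ω ε (u i b) - Lg Ω ε (u k b) + K0) ≤
        1 / 4 * (Real.log 2 + (L1 - Lg Ω ε (u k b) + K0)) := by
      have h7 := mul_le_mul_of_nonneg_left h5 (by positivity : 0 ≤ 1 / (4 * (N : ℝ)))
      refine h7.trans (le_of_eq ?_)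
      field_simp
    have h7 : lk ≤ Real.log (mass Ω (u l b)) := Real.log_le_log hκ hml
    have h8 : V * lk ≤ V * Real.log (mass Ω (u l b)) := mul_le_mul_of_nonneg_left h7 hV.le
    unfold Psi
    rw [← hVdef]
    rw [← hVdef, ← hL1] at h2
    linarith
  -- lower bound
  have ha0I : a0 ∈ Icc a b := ⟨by linarith, hcase⟩
  have hlb : 9 / 8 * Lg Ω ε (u k a0) - L1 / 4 - V * (lm + R * (a0 - a)) ≤
      Psi Ω k l mid K0 η ε φ (fun j => u j a0) := by
    have h1 := f10_phi hO hb (hcu k a0 ha0I) (hu0 k a0 ha0I) (hM k a0 ha0I) hK0 hε0 hε1.le hφ.cont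
      hΦ hη.le hηΦ
    have h2 := (abs_le.1 h1).2
    have h3 : 0 ≤ (1 / (4 * (N : ℝ))) *
        ∑ i ∈ mid, sp (Lg Ω ε (u i a0) - Lg Ω ε (u k a0) + K0) :=
      mul_nonneg (by positivity) (Finset.sum_nonneg fun i _ => f10_sp_nonneg _)
    have h4 : Real.log (mass Ω (u l a0)) ≤ lm + R * (a0 - a) := by
      have h5 := Real.log_le_log (hmlpos a0 ha0I) (hbd l a a0 le_rfl ha0I.1 hcase).2
      rwa [Real.log_mul hμ0.ne' (Real.exp_pos _).ne', Real.log_exp] at h5
    have h5 := mul_le_mul_of_nonneg_left h4 hV.le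
    unfold Psi
    rw [← hVdef]
    rw [← hVdef, ← hL1] at h2
    linarith
  have hX0 : - KA - R * V * t1 ≤ Lg Ω ε (u k a0) := by
    have h := hX a0 ⟨ha0', hcase⟩
    have h' : a0 - (a + 1) ≤ t1 := by
      have h1 : max 1 t1 ≤ 1 + t1 := by
        rw [max_le_iff]
        constructor <;> linarith
      rw [ha0]
      linarith
    have h'' := mul_le_mul_of_nonneg_left h' (by positivity : 0 ≤ R * V)
    linarith
  exact f10_time hV hR hr8 hη hab e1 e2 ht1 ha0 hX0 hlb hub hgrow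

/-- F10 -/
theorem p_F10 (h1 : StmF1) (h2 : StmF2) (h3 : StmF3) (h4 : StmF4) (h5 : StmF5) (h7 : StmF7)
    (h8 : StmF8) (h9 : StmF9) : StmF10 := by
  intro n N Ω P hD m hm hnc dk hdk0
  have hO := hD.isOpen
  have hb := hD.bdd
  have hP := hD.hP
  have hV := f10_vol_pos hD
  obtain ⟨K, hK, hsup⟩ := h1 Ω hO hb m hm
  obtain ⟨φ, Dφ, hφ, hφ0, hφm⟩ := h8 Ω hO hD.nonempty hb m hm hnc
  obtain ⟨Φ', hΦ'⟩ := hb.isCompact_closure.exists_bound_of_continuousOn hφ.cont
  obtain ⟨Rm, hRm⟩ := hb.isCompact_closure.exists_bound_of_continuousOn hm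
  set Φ := |Φ'| + 1 with hΦdef
  have hΦ0 : 0 < Φ := by positivity
  have hΦ : ∀ x ∈ closure Ω, |φ x| ≤ Φ := fun x hx => by
    have h := hΦ' x hx
    rw [Real.norm_eq_abs] at h
    have := le_abs_self Φ'
    linarith
  set G := ∫ x in Ω, ‖Dφ x‖ ^ 2 with hG
  have hG0 : 0 ≤ G := setIntegral_nonneg hO.measurableSet fun x _ => by positivity
  set R := |Rm| + N * K + 1 with hR
  have hR0 : 0 < R := by
    have : 0 ≤ (N : ℝ) * K := by positivity
    positivity
  set Q := 32 * (N : ℝ) ^ 2 * (Φ ^ 2 * (K + 1) ^ 2 * P * vol Ω) with hQ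
  have hQ0 : 0 ≤ Q := by positivity
  set η := min 1 (min (1 / (8 * Φ)) (min (1 / (16 * dk * (G + 1))) (dk / (Q + 1)))) with hη
  have hη0 : 0 < η := by
    refine lt_min one_pos (lt_min (by positivity) (lt_min (by positivity) (by positivity)))
  have hη1 : η ≤ 1 := min_le_left _ _
  have hη2 : η ≤ 1 / (8 * Φ) := (min_le_right _ _).trans (min_le_left _ _)
  have hη3 : η ≤ 1 / (16 * dk * (G + 1)) :=
    (min_le_right _ _).trans ((min_le_right _ _).trans (min_le_left _ _))
  have hη4 : η ≤ dk / (Q + 1) :=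
    (min_le_right _ _).trans ((min_le_right _ _).trans (min_le_right _ _))
  have hηΦ : η * Φ ≤ 1 / 8 := by
    rw [le_div_iff₀ (by positivity)] at hη2
    linarith
  have hηG : 16 * η * dk * G ≤ 1 := by
    rw [le_div_iff₀ (by positivity)] at hη3
    have : 0 ≤ η * (16 * dk) := by positivity
    nlinarith
  have hηQ : η * Q ≤ dk := by
    rw [le_div_iff₀ (by positivity)] at hη4
    nlinarith
  set β := η / (16 * (R + K * Φ)) with hβ
  have hRK0 : 0 < R + K * Φ := by positivity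
  have hβ0 : 0 < β := by positivity
  have hβ1 : β * (R + K * Φ) ≤ η / 16 := by
    rw [hβ]
    apply le_of_eq
    field_simp
  refine ⟨P * (2 * R + max (8 * R) (3 * R * vol Ω / β)), ?_⟩
  intro d hd k l L hdk hkl hkL hlL hout hDl M A κ hA hκ
  set r := d l / P - 2 * R with hr
  have hrm : max (8 * R) (3 * R * vol Ω / β) ≤ r := by
    have h := div_le_div_of_nonneg_right hDl hP.le
    rw [mul_div_cancel_left₀ _ hP.ne'] at h
    rw [hr]
    linarith
  obtain ⟨τ, hτ0, hτ⟩ := hsup d hd M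
  set RM := |Rm| + N * |M| with hRM
  have hRM0 : 0 ≤ RM := by positivity
  have hA' : 0 < A * Real.exp (- (RM * τ)) := by positivity
  set κm := 1 / (16 * (N + 1) * Φ) with hκm
  have hN0 : 0 ≤ (N : ℝ) := Nat.cast_nonneg N
  have hκm0 : 0 < κm := by positivity
  have hκm1 : 16 * N * Φ * κm ≤ 1 := by
    rw [hκm, mul_one_div, div_le_one (by positivity)]
    nlinarith
  set ν := 1 / (16 * Φ) with hν
  have hν0 : 0 < ν := by positivity
  have hν1 : 16 * Φ * ν ≤ 1 := by
    rw [hν]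
    apply le_of_eq
    field_simp
  obtain ⟨S, hS⟩ := f10_core h2 h3 h4 h5 h7 h9 Ω P hD d m hm hd φ Dφ Φ G hφ hΦ le_rfl hφ0 hφm k l L
    hkl hkL hlL (fun j hj => hdk ▸ hout j hj) K R η β κm ν r hK hR0 hΦ0 hη0 hη1 hηΦ
    (by rw [hdk]; exact hηG)
    (by
      rw [hdk]
      have : 32 * (N : ℝ) ^ 2 * η * (Φ ^ 2 * (K + 1) ^ 2 * P * vol Ω) = η * Q := by
        rw [hQ]
        ring
      rw [this]
      exact hηQ)
    hβ0 hβ1 hκm0 hκm1 hν1 hr ((le_max_left _ _).trans hrm) ((le_max_right _ _).trans hrm)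
    (fun v hv x hx => by
      have h1 : |m x| ≤ |Rm| := by
        have := hRm x hx
        rw [Real.norm_eq_abs] at this
        exact this.trans (le_abs_self _)
      have h2 : |∑ k, v k x| ≤ N * K := by
        refine (Finset.abs_sum_le_sum_abs _ _).trans ?_
        refine (Finset.sum_le_card_nsmul _ _ K fun i _ => ?_).trans (le_of_eq ?_)
        · rw [abs_of_nonneg (hv i x hx).1]
          exact (hv i x hx).2
        · simp
      exact (abs_sub _ _).trans (by linarith))
    (A * Real.exp (- (RM * τ))) κ hA' hκ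
  refine ⟨τ + |S|, ν, hν0, ?_⟩
  intro T hT a b hab hIcc u ut Du lu hs hM hmk hlow hml
  have hSa := le_abs_self S
  have hSa0 := abs_nonneg S
  rcases lt_or_ge b (a + τ) with hc | hc
  · linarith
  have hsub : Icc (a + τ) b ⊆ Icc a b := Icc_subset_Icc_left (by linarith)
  have hn := hs.nonneg
  have hmass := (h4 Ω hO hb d m hm T hT u ut Du lu hs k).2 RM a (a + τ) (by linarith)
    ((Icc_subset_Icc_right hc).trans hIcc) (fun t ht x hx => by
      have htI : t ∈ Icc a b := ⟨ht.1, ht.2.trans hc⟩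
      have h1 : |m x| ≤ |Rm| := by
        have := hRm x hx
        rw [Real.norm_eq_abs] at this
        exact this.trans (le_abs_self _)
      have h2 : |∑ k, u k t x| ≤ N * |M| := by
        refine (Finset.abs_sum_le_sum_abs _ _).trans ?_
        refine (Finset.sum_le_card_nsmul _ _ |M| fun i _ => ?_).trans (le_of_eq ?_)
        · rw [abs_of_nonneg (hn i t (hIcc htI) x hx)]
          exact (hM i t htI x hx).trans (le_abs_self _)
        · simp
      exact (abs_sub _ _).trans (by linarith))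
  have hmk' : A * Real.exp (- (RM * τ)) ≤ mass Ω (u k (a + τ)) := by
    refine le_trans ?_ hmass.1
    have h1 : a + τ - a = τ := by ring
    rw [h1]
    exact mul_le_mul_of_nonneg_right hmk (Real.exp_pos _).le
  have h := hS T hT (a + τ) b hc (hsub.trans hIcc) u ut Du lu hs
    (fun j t ht x hx => hτ T hT a b hIcc u ut Du lu hs hM j t ht x hx) hmk'
    (fun t ht => hlow t (hsub ht)) hml
  linarith

end Pool.Agent.Lib.MP_d8ef8f_an.Ff
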