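import Pool.Agent.Lib.MP_d8ef8f_an.Ff.Stm
import Pool.Agent.Lib.MP_d8ef8f_an.Gd.A1
import Pool.Agent.Lib.MP_d8ef8f_an.Gd.A2
import Pool.Agent.Lib.MP_d8ef8f_an.Gd.A3

set_option autoImplicit false

namespace Pool.Agent.Lib.MP_d8ef8f_an.Ff

open Set Filter Topology MeasureTheory
open Pool.Agent.Lib.MP_d8ef8f_an.Gd

private theorem f2_slice {n : ℕ} {Ω : Set (Sp n)} {T : Set ℝ} {E : Type} [TopologicalSpace E]
    {F : ℝ → Sp n → E}
    (hF : ContinuousOn (fun p : ℝ × Sp n => F p.1 p.2) (T ×ˢ closure Ω)) {t : ℝ} (ht : t ∈ T) :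
    ContinuousOn (F t) (closure Ω) := by
  have h1 : ContinuousOn (fun x : Sp n => (t, x)) (closure Ω) := by fun_prop
  exact hF.comp h1 fun x hx => ⟨ht, hx⟩

private theorem f2_lin {n : ℕ} {Ω : Set (Sp n)} (hb : Bornology.IsBounded Ω)
    {F1 F2 : Sp n → ℝ} (h1 : ContinuousOn F1 (closure Ω)) (h2 : ContinuousOn F2 (closure Ω))
    (k1 k2 k0 : ℝ) :
    ∫ x in Ω, (k1 * F1 x + k2 * F2 x + k0) =
      k1 * (∫ x in Ω, F1 x) + k2 * (∫ x in Ω, F2 x) + k0 * volume.real Ω := by
  have i1 := (p_A2 Ω hb F1 h1).const_mul k1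
  have i2 := (p_A2 Ω hb F2 h2).const_mul k2
  have i0 : IntegrableOn (fun _ : Sp n => k0) Ω := integrableOn_const hb.measure_lt_top.ne
  have e1 : ∫ x in Ω, (k1 * F1 x + k2 * F2 x) + k0 =
      (∫ x in Ω, k1 * F1 x + k2 * F2 x) + ∫ _ in Ω, k0 :=
    integral_add (i1.add i2) i0
  have e3 : ∫ x in Ω, k1 * F1 x + k2 * F2 x =
      (∫ x in Ω, k1 * F1 x) + ∫ x in Ω, k2 * F2 x := integral_add i1 i2
  rw [e1, e3, integral_const_mul, integral_const_mul, setIntegral_const,
    smul_eq_mul, mul_comm k0]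

private theorem f2_int_le {n : ℕ} {Ω : Set (Sp n)} (hΩ : IsOpen Ω)
    (hb : Bornology.IsBounded Ω) {H F1 F2 : Sp n → ℝ} (hH : ContinuousOn H (closure Ω))
    (h1 : ContinuousOn F1 (closure Ω)) (h2 : ContinuousOn F2 (closure Ω)) (k1 k2 k0 : ℝ)
    (h : ∀ x ∈ closure Ω, H x ≤ k1 * F1 x + k2 * F2 x + k0) :
    ∫ x in Ω, H x ≤ k1 * (∫ x in Ω, F1 x) + k2 * (∫ x in Ω, F2 x) +
      k0 * volume.real Ω := by
  rw [← f2_lin hb h1 h2]
  refine setIntegral_mono_on (p_A2 Ω hb H hH) (p_A2 Ω hb _ ?_) hΩ.measurableSet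
    fun x hx => h x (subset_closure hx)
  exact ((continuousOn_const.mul h1).add (continuousOn_const.mul h2)).add continuousOn_const

private theorem f2_vol {n : ℕ} {Ω : Set (Sp n)} (hΩ : IsOpen Ω) (hne : Ω.Nonempty)
    (hb : Bornology.IsBounded Ω) : 0 < volume.real Ω :=
  ENNReal.toReal_pos (hΩ.measure_pos volume hne).ne' hb.measure_lt_top.ne

/-- the static inequality -/
private theorem f2_static {n : ℕ} {Ω : Set (Sp n)} {P : ℝ} (hD : Dom Ω P)
    {w lw h wt : Sp n → ℝ} {Dw : Sp n → Sp n} {d R r : ℝ} (hw : NeuLap Ω w Dw lw)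
    (hw0 : ∀ x ∈ closure Ω, 0 ≤ w x) (hh : ContinuousOn h (closure Ω))
    (hR : ∀ x ∈ closure Ω, |h x| ≤ R) (hR0 : 0 < R) (hd : 0 < d) (hr : r = d / P - 2 * R)
    (hr0 : 0 < r) (hwt : ∀ x ∈ closure Ω, wt x = d * lw x + w x * h x)
    {V μ W : ℝ} (hV : V = volume.real Ω) (hμ : μ = ∫ x in Ω, w x) (hμ0 : 0 < μ)
    (hW : W = ∫ x in Ω, w x ^ 2) :
    V ^ 2 * ((∫ x in Ω, 2 * w x * wt x) / μ ^ 2
        - 2 * W * (∫ x in Ω, w x * h x) / μ ^ 3) ≤
      - r * (V ^ 2 * W / μ ^ 2 - V) + R ^ 2 * V / r := by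
  obtain ⟨hΩ, hne, hb, hPo, hP⟩ := hD
  have hV0 : 0 < V := hV ▸ f2_vol hΩ hne hb
  have cw := hw.c1.cont
  have cw2 : ContinuousOn (fun x => w x ^ 2) (closure Ω) := cw.pow 2
  have cl := hw.cont
  -- energy
  set E := ∫ x in Ω, ‖Dw x‖ ^ 2 with hE
  set J2 := ∫ x in Ω, w x ^ 2 * h x with hJ2
  set J1 := ∫ x in Ω, w x * h x with hJ1
  have cJ2 : ContinuousOn (fun x => w x ^ 2 * h x) (closure Ω) := cw2.mul hh
  have cJ1 : ContinuousOn (fun x => w x * h x) (closure Ω) := cw.mul hh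
  have g1 : ∫ x in Ω, lw x * w x = - E := by
    rw [hw.green w Dw hw.c1, hE]
    congr 1
    refine integral_congr_ae (ae_of_all _ fun x => ?_)
    exact real_inner_self_eq_norm_sq _
  have g2 : ∫ x in Ω, 2 * w x * wt x = 2 * d * (∫ x in Ω, lw x * w x) + 2 * J2 := by
    have e := f2_lin hb (F1 := fun x => lw x * w x) (F2 := fun x => w x ^ 2 * h x)
      (cl.mul cw) cJ2 (2 * d) 2 0
    rw [zero_mul, add_zero] at e
    rw [hJ2, ← e]
    refine setIntegral_congr_fun hΩ.measurableSet fun x hx => ?_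
    have := hwt x (subset_closure hx)
    simp only [this]
    ring
  obtain ⟨c, hc⟩ := hPo w Dw hw.c1
  have g3 : ∫ x in Ω, (w x - c) ^ 2 = W - 2 * c * μ + c ^ 2 * V := by
    have e := f2_lin hb (F1 := fun x => w x ^ 2) (F2 := w) cw2 cw 1 (-(2 * c)) (c ^ 2)
    rw [hW, hμ, hV]
    have e2 : ∫ x in Ω, (w x - c) ^ 2 = ∫ x in Ω, (1 * w x ^ 2 + -(2 * c) * w x + c ^ 2) :=
      integral_congr_ae (ae_of_all _ fun x => by simp only; ring)
    rw [e2, e]
    ring
  have g4 : W - μ ^ 2 / V ≤ P * E := by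
    have h1 : W - μ ^ 2 / V ≤ W - 2 * c * μ + c ^ 2 * V := by
      have h2 : 0 ≤ (c * V - μ) ^ 2 / V := by positivity
      have h3 : (c * V - μ) ^ 2 / V = c ^ 2 * V - 2 * c * μ + μ ^ 2 / V := by
        field_simp
        ring
      linarith
    linarith [hc, g3]
  have g5 : 0 ≤ W - μ ^ 2 / V := by
    have h0 : 0 ≤ ∫ x in Ω, (w x - μ / V) ^ 2 := integral_nonneg fun x => sq_nonneg _
    have e := f2_lin hb (F1 := fun x => w x ^ 2) (F2 := w) cw2 cw 1 (-(2 * (μ / V)))
      ((μ / V) ^ 2)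
    have e2 : ∫ x in Ω, (w x - μ / V) ^ 2 =
        ∫ x in Ω, (1 * w x ^ 2 + -(2 * (μ / V)) * w x + (μ / V) ^ 2) :=
      integral_congr_ae (ae_of_all _ fun x => by simp only; ring)
    rw [e2, e, ← hW, ← hμ, ← hV] at h0
    have e3 : 1 * W + -(2 * (μ / V)) * μ + (μ / V) ^ 2 * V = W - μ ^ 2 / V := by
      field_simp
      ring
    linarith
  -- the function `q`
  set y := V ^ 2 * W / μ ^ 2 - V with hy
  have hyn : 0 ≤ y := by
    have h1 : y = (V / μ) ^ 2 * (W - μ ^ 2 / V) := by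
      rw [hy]
      field_simp
    rw [h1]
    positivity
  have hq1 : ContinuousOn (fun x => V / μ * w x) (closure Ω) := continuousOn_const.mul cw
  have key := f2_int_le hΩ hb
    (H := fun x => 2 * ((V / μ * w x) ^ 2 * h x - (1 + y / V) * (V / μ * w x) * h x))
    (F1 := fun x => (V / μ * w x) ^ 2) (F2 := fun x => V / μ * w x)
    (continuousOn_const.mul (((hq1.pow 2).mul hh).sub ((continuousOn_const.mul hq1).mul hh)))
    (hq1.pow 2) hq1 (2 * R + r) (2 * R * (y / V) - 2 * (2 * R + r)) (2 * R + r + R ^ 2 / r) ?_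
  · have e1 : ∫ x in Ω, 2 * ((V / μ * w x) ^ 2 * h x - (1 + y / V) * (V / μ * w x) * h x) =
        2 * (V / μ) ^ 2 * J2 - 2 * (1 + y / V) * (V / μ) * J1 := by
      have e := f2_lin hb (F1 := fun x => w x ^ 2 * h x) (F2 := fun x => w x * h x)
        cJ2 cJ1 (2 * (V / μ) ^ 2) (-(2 * (1 + y / V) * (V / μ))) 0
      rw [zero_mul, add_zero] at e
      rw [hJ2, hJ1, sub_eq_add_neg, ← neg_mul, ← e]
      exact integral_congr_ae (ae_of_all _ fun x => by simp only; ring)
    have e2 : ∫ x in Ω, (V / μ * w x) ^ 2 = (V / μ) ^ 2 * W := by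
      rw [hW, ← integral_const_mul]
      exact integral_congr_ae (ae_of_all _ fun x => by simp only; ring)
    have e3 : ∫ x in Ω, V / μ * w x = V := by
      rw [integral_const_mul, ← hμ]
      field_simp
    rw [e1, e2, e3, ← hV] at key
    have e4 : (V / μ) ^ 2 * W = y + V := by
      rw [hy]
      ring
    rw [e4] at key
    have hμ' : μ ≠ 0 := hμ0.ne'
    have e5 : V ^ 2 * ((∫ x in Ω, 2 * w x * wt x) / μ ^ 2 - 2 * W * J1 / μ ^ 3) =
        - (2 * d * ((V / μ) ^ 2 * E)) +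
          (2 * (V / μ) ^ 2 * J2 - 2 * ((V / μ) ^ 2 * W / V) * (V / μ) * J1) := by
      rw [g2, g1]
      field_simp
      ring
    have e6 : (V / μ) ^ 2 * W / V = 1 + y / V := by
      rw [e4]
      field_simp
      ring
    rw [e5, e6]
    have e7 : y ≤ P * ((V / μ) ^ 2 * E) := by
      have h1 : (V / μ) ^ 2 * (W - μ ^ 2 / V) ≤ (V / μ) ^ 2 * (P * E) :=
        mul_le_mul_of_nonneg_left g4 (by positivity)
      have h2 : (V / μ) ^ 2 * (W - μ ^ 2 / V) = y := by
        rw [mul_sub, e4]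
        field_simp
        ring
      linarith
    have e8 : 2 * (r + 2 * R) * y ≤ 2 * d * ((V / μ) ^ 2 * E) := by
      have h1 : r + 2 * R = d / P := by rw [hr]; ring
      rw [h1]
      have h2 : 2 * (d / P) * y ≤ 2 * (d / P) * (P * ((V / μ) ^ 2 * E)) :=
        mul_le_mul_of_nonneg_left e7 (by positivity)
      have h3 : 2 * (d / P) * (P * ((V / μ) ^ 2 * E)) = 2 * d * ((V / μ) ^ 2 * E) := by
        field_simp
      linarith
    have e9 : (2 * R * (y / V) - 2 * (2 * R + r)) * V = 2 * R * y - 2 * (2 * R + r) * V := by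
      field_simp
    have e10 : (2 * R + r + R ^ 2 / r) * V = (2 * R + r) * V + R ^ 2 * V / r := by
      field_simp
    rw [e9, e10] at key
    linarith
  · intro x hx
    have h1 := hw0 x hx
    set q := V / μ * w x with hq
    have hq0 : 0 ≤ q := by positivity
    have hy0 : 0 ≤ y / V := by positivity
    have h2 := hR x hx
    have h3 : q ^ 2 * h x - (1 + y / V) * q * h x = q * (q - 1) * h x - y / V * q * h x := by
      ring
    rw [h3]
    have h4 : q * (q - 1) * h x ≤ ((q - 1) ^ 2 + |q - 1|) * R := by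
      have h5 : q * (q - 1) * h x ≤ |q * (q - 1) * h x| := le_abs_self _
      have h6 : |q * (q - 1) * h x| = q * |q - 1| * |h x| := by
        rw [abs_mul, abs_mul, abs_of_nonneg hq0]
      have h7 : q * |q - 1| ≤ (q - 1) ^ 2 + |q - 1| := by
        have h8 : q ≤ |q - 1| + 1 := by linarith [le_abs_self (q - 1)]
        have h9 : q * |q - 1| ≤ (|q - 1| + 1) * |q - 1| :=
          mul_le_mul_of_nonneg_right h8 (abs_nonneg _)
        have h10 : |q - 1| * |q - 1| = (q - 1) ^ 2 := by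
          rw [← abs_mul, ← sq, abs_of_nonneg (sq_nonneg _)]
        linarith
      have h8 : q * |q - 1| * |h x| ≤ ((q - 1) ^ 2 + |q - 1|) * R :=
        mul_le_mul h7 h2 (abs_nonneg _) (by positivity)
      linarith
    have h5 : - (y / V * q * h x) ≤ y / V * q * R := by
      have h6 : - (y / V * q * h x) = y / V * q * (- h x) := by ring
      rw [h6]
      exact mul_le_mul_of_nonneg_left ((neg_le_abs _).trans h2) (by positivity)
    have h6 : 2 * R * |q - 1| ≤ r * (q - 1) ^ 2 + R ^ 2 / r := by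
      have h7 : 0 ≤ (r * |q - 1| - R) ^ 2 / r := by positivity
      have h8 : (r * |q - 1| - R) ^ 2 / r = r * |q - 1| ^ 2 - 2 * R * |q - 1| + R ^ 2 / r := by
        field_simp
        ring
      rw [sq_abs] at h8
      linarith
    linarith

/-- Gronwall -/
private theorem f2_gron {a b r c : ℝ} (hr : 0 < r) {y y' : ℝ → ℝ}
    (hy : ∀ t ∈ Icc a b, HasDerivAt y (y' t) t) (h : ∀ t ∈ Icc a b, y' t ≤ - r * y t + c) :
    ∀ t ∈ Icc a b, y t ≤ y a * Real.exp (- (r * (t - a))) + c / r * (1 - Real.exp (- (r * (t - a)))) := by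
  intro t ht
  have hd : ∀ s ∈ Icc a b, HasDerivAt (fun s => (y s - c / r) * Real.exp (r * (s - a)))
      (y' s * Real.exp (r * (s - a)) + (y s - c / r) * (Real.exp (r * (s - a)) * r)) s := by
    intro s hs
    have h1 : HasDerivAt (fun s => Real.exp (r * (s - a))) (Real.exp (r * (s - a)) * r) s := by
      have h2 := ((((hasDerivAt_id s).sub_const a).const_mul r)).exp
      simpa using h2
    exact ((hy s hs).sub_const _).mul h1
  have hanti : AntitoneOn (fun s => (y s - c / r) * Real.exp (r * (s - a))) (Icc a b) := by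
    refine antitoneOn_of_deriv_nonpos (convex_Icc a b)
      (fun s hs => (hd s hs).continuousAt.continuousWithinAt)
      (fun s hs => (hd s (interior_subset hs)).differentiableAt.differentiableWithinAt) ?_
    intro s hs
    have hs' := interior_subset hs
    rw [(hd s hs').deriv]
    have h1 := h s hs'
    have h2 : y' s * Real.exp (r * (s - a)) + (y s - c / r) * (Real.exp (r * (s - a)) * r) =
        Real.exp (r * (s - a)) * (y' s + r * y s - c) := by
      field_simp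
      ring
    rw [h2]
    exact mul_nonpos_of_nonneg_of_nonpos (Real.exp_pos _).le (by linarith)
  have h1 := hanti (left_mem_Icc.2 (ht.1.trans ht.2)) ht ht.1
  simp only [sub_self, mul_zero, Real.exp_zero, mul_one] at h1
  have h2 : Real.exp (r * (t - a)) * Real.exp (- (r * (t - a))) = 1 := by
    rw [← Real.exp_add]
    simp
  have h3 : (y t - c / r) * Real.exp (r * (t - a)) * Real.exp (- (r * (t - a))) ≤
      (y a - c / r) * Real.exp (- (r * (t - a))) :=
    mul_le_mul_of_nonneg_right h1 (Real.exp_pos _).le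
  rw [mul_assoc, h2, mul_one] at h3
  linarith

/-- flattening -/
theorem p_F2 (h4 : StmF4) : StmF2 := by
  intro n N Ω P hD d m hm l R M r hR0 hd hr hr0 T hT a b hab hsub u ut Du lu hsol hR hM hm0
  have hD' := hD
  obtain ⟨hΩ, hne, hb, hPo, hP⟩ := hD
  set V := vol Ω with hV
  have hVr : V = volume.real Ω := rfl
  have hV0 : 0 < V := f2_vol hΩ hne hb
  set h : ℝ → Sp n → ℝ := fun t x => m x - ∑ j, u j t x with hh
  obtain ⟨f1, f2⟩ := h4 Ω hΩ hb d m hm T hT u ut Du lu hsol l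
  have cu : ∀ t ∈ T, ContinuousOn (u l t) (closure Ω) := fun t ht => f2_slice (hsol.cu l) ht
  have ch : ∀ t ∈ T, ContinuousOn (h t) (closure Ω) := fun t ht =>
    hm.sub (continuousOn_finsetSum _ fun j _ => f2_slice (hsol.cu j) ht)
  have hpos : ∀ t ∈ Icc a b, 0 < mass Ω (u l t) := by
    intro t ht
    have h1 := (f2 R a t ht.1 ((Icc_subset_Icc_right ht.2).trans hsub)
      (fun s hs => hR s ⟨hs.1, hs.2.trans ht.2⟩)).1
    exact lt_of_lt_of_le (mul_pos hm0 (Real.exp_pos _)) h1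
  -- the functional
  set W : ℝ → ℝ := fun t => ∫ x in Ω, u l t x ^ 2 with hW
  set y : ℝ → ℝ := fun t => V ^ 2 * W t / mass Ω (u l t) ^ 2 - V with hy
  have hWd : ∀ t ∈ Icc a b, HasDerivAt W (∫ x in Ω, 2 * u l t x * ut l t x) t := by
    intro t ht
    refine p_A3 Ω hb hΩ.measurableSet T hT (fun t x => u l t x ^ 2)
      (fun t x => 2 * u l t x * ut l t x) ((hsol.cu l).pow 2)
      ((continuousOn_const.mul (hsol.cu l)).mul (hsol.ct l)) ?_ t (hsub ht)
    intro s hs x hx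
    have h1 := (hsol.dt l s hs x hx).pow 2
    refine h1.congr_deriv ?_
    simp
  set y' : ℝ → ℝ := fun t => V ^ 2 * ((∫ x in Ω, 2 * u l t x * ut l t x) / mass Ω (u l t) ^ 2
        - 2 * W t * (∫ x in Ω, u l t x * h t x) / mass Ω (u l t) ^ 3) with hy'
  have hyd : ∀ t ∈ Icc a b, HasDerivAt y (y' t) t := by
    intro t ht
    have h1 := hWd t ht
    have h2 := f1 t (hsub ht)
    have h3 : HasDerivAt (fun s => mass Ω (u l s) ^ 2)
        (2 * mass Ω (u l t) * ∫ x in Ω, u l t x * h t x) t := by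
      refine (h2.pow 2).congr_deriv ?_
      simp [hh]
    have hp := (hpos t ht).ne'
    have h4 := ((h1.const_mul (V ^ 2)).div h3 (pow_ne_zero 2 hp)).sub_const V
    refine h4.congr_deriv ?_
    rw [hy']
    simp only
    field_simp
  have hyi : ∀ t ∈ Icc a b, y' t ≤ - r * y t + R ^ 2 * V / r := by
    intro t ht
    have htT := hsub ht
    exact f2_static hD' (hsol.lap l t htT) (hsol.nonneg l t htT) (ch t htT) (hR t ht) hR0 hd hr
      hr0 (hsol.eq l t htT) hVr rfl (hpos t ht) rfl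
  intro t ht
  have g := f2_gron hr0 hyd hyi t ht
  -- initial value
  have ha : a ∈ Icc a b := left_mem_Icc.2 hab
  have hWa : W a ≤ M ^ 2 * V := by
    have h1 := f2_int_le hΩ hb (H := fun x => u l a x ^ 2) (F1 := fun _ => 0) (F2 := fun _ => 0)
      ((cu a (hsub ha)).pow 2) continuousOn_const continuousOn_const 0 0 (M ^ 2) (fun x hx => by
        have h2 := hsol.nonneg l a (hsub ha) x hx
        have h3 := pow_le_pow_left₀ h2 (hM x hx) 2
        linarith)
    have h2 : ∫ x in Ω, u l a x ^ 2 ≤ M ^ 2 * volume.real Ω := by simpa using h1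
    exact h2
  have hya : y a ≤ M ^ 2 * V ^ 3 / mass Ω (u l a) ^ 2 := by
    have h1 : V ^ 2 * W a / mass Ω (u l a) ^ 2 ≤ V ^ 2 * (M ^ 2 * V) / mass Ω (u l a) ^ 2 := by
      gcongr
    have h2 : V ^ 2 * (M ^ 2 * V) = M ^ 2 * V ^ 3 := by ring
    rw [h2] at h1
    rw [hy]
    simp only
    linarith
  -- Cauchy-Schwarz
  set μ := mass Ω (u l t) with hμ
  have hμ0 : 0 < μ := hpos t ht
  have cut := cu t (hsub ht)
  have cq : ContinuousOn (fun x => V * u l t x / μ - 1) (closure Ω) :=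
    ((continuousOn_const.mul cut).div_const _).sub continuousOn_const
  have hys : ∫ x in Ω, (V * u l t x / μ - 1) ^ 2 = y t := by
    have e := f2_lin hb (F1 := fun x => u l t x ^ 2) (F2 := u l t) (cut.pow 2) cut
      (V ^ 2 / μ ^ 2) (-(2 * V / μ)) 1
    have e2 : ∫ x in Ω, (V * u l t x / μ - 1) ^ 2 =
        ∫ x in Ω, (V ^ 2 / μ ^ 2 * u l t x ^ 2 + -(2 * V / μ) * u l t x + 1) :=
      integral_congr_ae (ae_of_all _ fun x => by simp only; field_simp; ring)
    rw [e2, e, hy]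
    have e3 : ∫ x in Ω, u l t x = μ := rfl
    rw [e3, ← hVr]
    simp only [hW, ← hμ]
    field_simp
    ring
  have hcs : Fl Ω (u l t) ^ 2 ≤ V * y t := by
    set A := Fl Ω (u l t) with hA
    have hA' : ∫ x in Ω, |V * u l t x / μ - 1| = A := rfl
    have h1 := f2_int_le hΩ hb (H := fun x => 2 * (A / V) * |V * u l t x / μ - 1|)
      (F1 := fun x => (V * u l t x / μ - 1) ^ 2) (F2 := fun _ => 0)
      (continuousOn_const.mul cq.abs) (cq.pow 2) continuousOn_const 1 0 ((A / V) ^ 2)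
      (fun x hx => by
        have h2 : 0 ≤ (|V * u l t x / μ - 1| - A / V) ^ 2 := sq_nonneg _
        rw [sub_sq, sq_abs] at h2
        linarith)
    rw [hys, integral_const_mul, hA', ← hVr] at h1
    have h3 : 2 * (A / V) * A = 2 * (A ^ 2 / V) := by ring
    have h4 : (A / V) ^ 2 * V = A ^ 2 / V := by field_simp
    rw [h3, h4] at h1
    have h5 : A ^ 2 / V ≤ y t := by linarith
    rw [div_le_iff₀ hV0] at h5
    linarith
  refine hcs.trans (mul_le_mul_of_nonneg_left ?_ hV0.le)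
  have e1 : 0 < Real.exp (- (r * (t - a))) := Real.exp_pos _
  have e2 : y a * Real.exp (- (r * (t - a))) ≤
      M ^ 2 * V ^ 3 / mass Ω (u l a) ^ 2 * Real.exp (- (r * (t - a))) :=
    mul_le_mul_of_nonneg_right hya e1.le
  have e3 : R ^ 2 * V / r / r = R ^ 2 * V / r ^ 2 := by
    rw [div_div, ← sq]
  have e4 : 0 ≤ R ^ 2 * V / r ^ 2 := by positivity
  have e5 : 4 * R ^ 2 * V / r ^ 2 = 4 * (R ^ 2 * V / r ^ 2) := by ring
  rw [e3] at g
  rw [e5]
  have e6 : R ^ 2 * V / r ^ 2 * (1 - Real.exp (- (r * (t - a)))) ≤ R ^ 2 * V / r ^ 2 := by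
    have := mul_nonneg e4 e1.le
    linarith
  linarith

end Pool.Agent.Lib.MP_d8ef8f_an.Ff
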