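import Pool.Agent.Lib.MP_d8ef8f_an.Ff.Stm
import Pool.Agent.Lib.MP_d8ef8f_an.Gd.A1
import Pool.Agent.Lib.MP_d8ef8f_an.Gd.A2
import Pool.Agent.Lib.MP_d8ef8f_an.Gd.A3

/-!
# Piece F3: derivative of the weighted logarithmic integral
-/

set_option autoImplicit false

namespace Pool.Agent.Lib.MP_d8ef8f_an.Ff

open Set Filter Topology MeasureTheory
open Pool.Agent.Lib.MP_d8ef8f_an.Gd

private theorem f3_comp {n : ℕ} {Ω : Set (Sp n)} (hΩ : IsOpen Ω) {φ : Sp n → ℝ}
    {Dφ : Sp n → Sp n} (h : C1 Ω φ Dφ) {G G' : ℝ → ℝ}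
    (hG : ∀ x ∈ closure Ω, HasDerivAt G (G' (φ x)) (φ x))
    (hc : ContinuousOn (fun x => G' (φ x)) (closure Ω)) :
    C1 Ω (fun x => G (φ x)) (fun x => G' (φ x) • Dφ x) := by
  have h1 := p_A1 (ι := Unit) Ω hΩ (fun _ => φ) (fun _ => Dφ) (fun _ => h)
    (fun p => G (p ())) (fun _ p => G' (p ())) (by
      intro x hx
      have h2 := (hG x hx).comp_hasFDerivAt (f := fun p : Unit → ℝ => p ()) (fun _ => φ x)
        (hasFDerivAt_apply (𝕜 := ℝ) (F' := fun _ : Unit => ℝ) () _)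
      refine (h2.congr_of_eventuallyEq (Eventually.of_forall fun p => rfl)).congr_fderiv ?_
      ext v
      simp) (fun _ => hc)
  simpa using h1

private theorem f3_mul {n : ℕ} {Ω : Set (Sp n)} {φ g : Sp n → ℝ} {Dφ Dg : Sp n → Sp n}
    (h1 : C1 Ω φ Dφ) (h2 : C1 Ω g Dg) :
    C1 Ω (fun x => φ x * g x) (fun x => φ x • Dg x + g x • Dφ x) := by
  refine ⟨h1.cont.mul h2.cont, (h1.cont.smul h2.contD).add (h2.cont.smul h1.contD), ?_⟩
  intro x hx
  have e1 := (h1.grad x hx).hasFDerivAt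
  have e2 := (h2.grad x hx).hasFDerivAt
  have e3 := e1.mul e2
  rw [hasGradientAt_iff_hasFDerivAt]
  refine e3.congr_fderiv ?_
  ext v
  simp [InnerProductSpace.toDual_apply_apply, inner_add_left, inner_smul_left]

theorem p_F3 : StmF3 := by
  intro n N Ω hO hb d m hm T hT u ut Du lu hs ε hε φ Dφ hφ i t ht
  have hcu : ∀ j, ContinuousOn (u j t) (closure Ω) := by
    intro j
    exact (hs.cu j).comp (f := fun x => (t, x)) (by fun_prop) (fun x hx => ⟨ht, hx⟩)
  have hcD : ContinuousOn (Du i t) (closure Ω) := by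
    exact (hs.cD i).comp (f := fun x => (t, x)) (by fun_prop) (fun x hx => ⟨ht, hx⟩)
  have hcl : ContinuousOn (lu i t) (closure Ω) := by
    exact (hs.cl i).comp (f := fun x => (t, x)) (by fun_prop) (fun x hx => ⟨ht, hx⟩)
  have hpos : ∀ s ∈ T, ∀ x ∈ closure Ω, 0 < u i s x + ε := fun s hs' x hx => by
    have := hs.nonneg i s hs' x hx
    linarith
  have hφc : ContinuousOn (fun p : ℝ × Sp n => φ p.2) (T ×ˢ closure Ω) :=
    hφ.cont.comp (f := fun p : ℝ × Sp n => p.2) (by fun_prop) (fun p hp => hp.2)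
  -- the derivative under the integral
  have hD0 : HasDerivAt (fun s => ∫ x in Ω, φ x * Real.log (u i s x + ε))
      (∫ x in Ω, φ x * (ut i t x / (u i t x + ε))) t := by
    refine p_A3 Ω hb hO.measurableSet T hT (fun s x => φ x * Real.log (u i s x + ε))
      (fun s x => φ x * (ut i s x / (u i s x + ε))) ?_ ?_ ?_ t ht
    · exact hφc.mul (((hs.cu i).add continuousOn_const).log
        fun p hp' => (hpos p.1 hp'.1 p.2 hp'.2).ne')
    · exact hφc.mul ((hs.ct i).div ((hs.cu i).add continuousOn_const)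
        fun p hp' => (hpos p.1 hp'.1 p.2 hp'.2).ne')
    · intro s hs' x hx
      exact (((hs.dt i s hs' x hx).add_const ε).log (hpos s hs' x hx).ne').const_mul (φ x)
  refine hD0.congr_deriv ?_
  have hL := hs.lap i t ht
  have hp : ∀ x ∈ closure Ω, 0 < u i t x + ε := hpos t ht
  have cw : ContinuousOn (fun x => u i t x + ε) (closure Ω) := (hcu i).add continuousOn_const
  have cinv : ContinuousOn (fun x => (u i t x + ε)⁻¹) (closure Ω) :=
    cw.inv₀ fun x hx => (hp x hx).ne'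
  have hinv : C1 Ω (fun x => (u i t x + ε)⁻¹) (fun x => (-((u i t x + ε) ^ 2)⁻¹) • Du i t x) :=
    f3_comp hO hL.c1 (G := fun p => (p + ε)⁻¹) (G' := fun p => -((p + ε) ^ 2)⁻¹)
      (fun x hx => by
        have h2 := ((hasDerivAt_id (u i t x)).add_const ε).fun_inv (hp x hx).ne'
        refine h2.congr_deriv ?_
        simp [neg_div, one_div]) ((cw.pow 2).inv₀ fun x hx => (pow_pos (hp x hx) 2).ne').neg
  have hgr := hL.green _ _ (f3_mul hφ hinv)
  have ch : ContinuousOn (fun x => m x - ∑ j, u j t x) (closure Ω) :=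
    hm.sub (continuousOn_finsetSum _ fun k _ => hcu k)
  have cE : ContinuousOn (fun x => ε / (u i t x + ε)) (closure Ω) :=
    continuousOn_const.div cw fun x hx => (hp x hx).ne'
  have cG : ContinuousOn (fun x => (u i t x + ε)⁻¹ • Du i t x) (closure Ω) := cinv.smul hcD
  have i1 : IntegrableOn (fun x => lu i t x * (φ x * (u i t x + ε)⁻¹)) Ω :=
    p_A2 Ω hb _ (hcl.mul (hφ.cont.mul cinv))
  have i2 : IntegrableOn (fun x => φ x * (m x - ∑ j, u j t x)) Ω :=
    p_A2 Ω hb _ (hφ.cont.mul ch)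
  have i3 : IntegrableOn (fun x => φ x * (ε / (u i t x + ε)) * (m x - ∑ j, u j t x)) Ω :=
    p_A2 Ω hb _ ((hφ.cont.mul cE).mul ch)
  have i4 : IntegrableOn (fun x => φ x * ‖(u i t x + ε)⁻¹ • Du i t x‖ ^ 2) Ω :=
    p_A2 Ω hb _ (hφ.cont.mul (cG.norm.pow 2))
  have i5 : IntegrableOn (fun x => inner ℝ ((u i t x + ε)⁻¹ • Du i t x) (Dφ x)) Ω :=
    p_A2 Ω hb _ (cG.inner hφ.contD)
  have e1 : ∫ x in Ω, φ x * (ut i t x / (u i t x + ε)) =
      ∫ x in Ω, ((d i * (lu i t x * (φ x * (u i t x + ε)⁻¹)) + φ x * (m x - ∑ j, u j t x))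
        - φ x * (ε / (u i t x + ε)) * (m x - ∑ j, u j t x)) := by
    refine setIntegral_congr_fun hO.measurableSet (fun x hx => ?_)
    have hx' := subset_closure hx
    have h1 := hp x hx'
    have h2 := hs.eq i t ht x hx'
    have h3 : ε / (u i t x + ε) = 1 - u i t x * (u i t x + ε)⁻¹ := by
      field_simp
      ring
    beta_reduce
    rw [h2, h3]
    field_simp
    ring
  have e2 : ∫ x in Ω, lu i t x * (φ x * (u i t x + ε)⁻¹) =
      (∫ x in Ω, φ x * ‖(u i t x + ε)⁻¹ • Du i t x‖ ^ 2)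
        - ∫ x in Ω, inner ℝ ((u i t x + ε)⁻¹ • Du i t x) (Dφ x) := by
    rw [hgr, ← integral_neg, ← integral_sub i4 i5]
    refine setIntegral_congr_fun hO.measurableSet (fun x hx => ?_)
    simp only [inner_add_right, inner_smul_right, inner_smul_left, real_inner_self_eq_norm_sq,
      norm_smul, mul_pow, norm_inv, Real.norm_eq_abs, inv_pow, sq_abs, RCLike.conj_to_real]
    ring
  have e3 := integral_sub ((i1.const_mul (d i)).add i2) i3
  have e4 := integral_add (i1.const_mul (d i)) i2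
  have e5 : ∫ x in Ω, d i * (lu i t x * (φ x * (u i t x + ε)⁻¹)) =
      d i * ∫ x in Ω, lu i t x * (φ x * (u i t x + ε)⁻¹) := integral_const_mul _ _
  rw [e1]
  refine e3.trans ?_
  rw [e5, e2] at e4
  simp only [Pi.add_apply]
  rw [e4]
  ring

end Pool.Agent.Lib.MP_d8ef8f_an.Ff
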