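import Pool.Agent.Lib.MP_d8ef8f_an.Ff.Stm
import Pool.Agent.Lib.MP_d8ef8f_an.Gd.A2

/-!
# Piece F5: the error integral
-/

set_option autoImplicit false

namespace Pool.Agent.Lib.MP_d8ef8f_an.Ff

open Set Filter Topology MeasureTheory
open Pool.Agent.Lib.MP_d8ef8f_an.Gd

private theorem f5_point {p ε M : ℝ} (hε : 0 < ε) (hε1 : ε < 1) (hM : 0 ≤ M) (h1 : ε ≤ p)
    (h2 : p ≤ M + 1) :
    ε / p ≤ ((1 + Real.log (M + 1)) - Real.log p) / Real.log (1 / ε) := by
  have hp : 0 < p := lt_of_lt_of_le hε h1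
  have hL : 0 < Real.log (1 / ε) := Real.log_pos (by rw [lt_div_iff₀ hε]; linarith)
  rw [le_div_iff₀ hL]
  set L := Real.log (1 / ε) with hLdef
  have hq : 0 < p / ε := div_pos hp hε
  have hlq : Real.log (p / ε) = Real.log p + L := by
    rw [hLdef, Real.log_div hp.ne' hε.ne', Real.log_div one_ne_zero hε.ne', Real.log_one]
    ring
  have hlM : 0 ≤ Real.log (M + 1) := Real.log_nonneg (by linarith)
  have hlp : Real.log p ≤ Real.log (M + 1) := Real.log_le_log hp h2
  rcases le_total L (p / ε) with h | h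
  · have h3 : ε / p * L ≤ 1 := by
      have h4 : ε / p * L ≤ ε / p * (p / ε) := mul_le_mul_of_nonneg_left h (by positivity)
      have h5 : ε / p * (p / ε) = 1 := by field_simp
      linarith
    linarith
  · have h3 : Real.log (p / ε) ≤ p / ε - 1 := Real.log_le_sub_one_of_pos hq
    have h4 : ε / p ≤ 1 := (div_le_one hp).2 h1
    have h5 : (p / ε) * (1 - ε / p) ≤ L * (1 - ε / p) :=
      mul_le_mul_of_nonneg_right h (by linarith)
    have h6 : (p / ε) * (1 - ε / p) = p / ε - 1 := by field_simp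
    nlinarith

theorem p_F5 : StmF5 := by
  intro n Ω hO hb w hw M hwM ε hε hε1
  have hc : ContinuousOn (fun x => w x + ε) (closure Ω) := hw.add continuousOn_const
  have hpos : ∀ x ∈ closure Ω, 0 < w x + ε := fun x hx => by
    have := (hwM x hx).1
    linarith
  have i1 : IntegrableOn (fun x => ε / (w x + ε)) Ω :=
    p_A2 Ω hb _ (continuousOn_const.div hc fun x hx => (hpos x hx).ne')
  have i2 : IntegrableOn (fun x => Real.log (w x + ε)) Ω :=
    p_A2 Ω hb _ (hc.log fun x hx => (hpos x hx).ne')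
  have i3 : IntegrableOn (fun _ : Sp n => 1 + Real.log (M + 1)) Ω :=
    p_A2 Ω hb _ continuousOn_const
  have key : Er Ω ε w ≤ ∫ x in Ω, ((1 + Real.log (M + 1)) - Real.log (w x + ε)) /
      Real.log (1 / ε) := by
    unfold Er
    refine setIntegral_mono_on i1 ((i3.sub i2).div_const _) hO.measurableSet ?_
    intro x hx
    have hx' := subset_closure hx
    have h1 := (hwM x hx').1
    have h2 := (hwM x hx').2
    exact f5_point hε hε1 (h1.trans h2) (by linarith) (by linarith)
  have e1 : (∫ x in Ω, ((1 + Real.log (M + 1)) - Real.log (w x + ε)) / Real.log (1 / ε)) =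
      (vol Ω * (1 + Real.log (M + 1)) - Lg Ω ε w) / Real.log (1 / ε) := by
    rw [integral_div, integral_sub i3 i2, setIntegral_const]
    simp [vol, Lg, smul_eq_mul]
  rw [e1] at key
  exact key

end Pool.Agent.Lib.MP_d8ef8f_an.Ff
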