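import Pool.Agent.Lib.MP_d8ef8f_an.Ff.Stm
import Pool.Agent.Lib.MP_d8ef8f_an.Gd.A1
import Pool.Agent.Lib.MP_d8ef8f_an.Gd.A2

/-!
# Piece F6: coupling with a weight of mean zero
-/

set_option autoImplicit false

namespace Pool.Agent.Lib.MP_d8ef8f_an.Ff

open Set Filter Topology MeasureTheory
open Pool.Agent.Lib.MP_d8ef8f_an.Gd

private theorem f6_comp {n : ℕ} {Ω : Set (Sp n)} (hΩ : IsOpen Ω) {φ : Sp n → ℝ}
    {Dφ : Sp n → Sp n} (h : C1 Ω φ Dφ) {G G' : ℝ → ℝ}
    (hG : ∀ x ∈ closure Ω, HasDerivAt G (G' (φ x)) (φ x))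
    (hc : ContinuousOn (fun x => G' (φ x)) (closure Ω)) :
    C1 Ω (fun x => G (φ x)) (fun x => G' (φ x) • Dφ x) := by
  have h1 := p_A1 (ι := Unit) Ω hΩ (fun _ => φ) (fun _ => Dφ) (fun _ => h)
    (fun p => G (p ())) (fun _ p => G' (p ())) (by
      intro x hx
      have h2 := (hG x hx).comp_hasFDerivAt (f := fun p : Unit → ℝ => p ()) (fun _ => φ x)
        (hasFDerivAt_apply (𝕜 := ℝ) (F' := fun _ : Unit => ℝ) () _)
      refine (h2.congr_of_eventuallyEq (Eventually.of_forall fun p => rfl)).congr_fderiv ?_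
      ext v
      simp) (fun _ => hc)
  simpa using h1

/-- `|e^a - e^b| ≤ e^L |a - b|` for `a, b ≤ L` -/
private theorem f6_exp {a b L : ℝ} (ha : a ≤ L) (hb : b ≤ L) :
    |Real.exp a - Real.exp b| ≤ Real.exp L * |a - b| := by
  wlog hab : b ≤ a generalizing a b with H
  · have h1 := H hb ha (le_of_not_ge hab)
    rwa [abs_sub_comm (Real.exp b), abs_sub_comm b] at h1
  · have h1 : 0 ≤ Real.exp a - Real.exp b := sub_nonneg.2 (Real.exp_le_exp.2 hab)
    rw [abs_of_nonneg h1, abs_of_nonneg (sub_nonneg.2 hab)]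
    have h2 : Real.exp b = Real.exp a * Real.exp (b - a) := by
      rw [← Real.exp_add]; ring_nf
    have h3 : b - a + 1 ≤ Real.exp (b - a) := Real.add_one_le_exp _
    have h4 : Real.exp a * (b - a + 1) ≤ Real.exp a * Real.exp (b - a) :=
      mul_le_mul_of_nonneg_left h3 (Real.exp_pos _).le
    have h5 : Real.exp a * (a - b) ≤ Real.exp L * (a - b) :=
      mul_le_mul_of_nonneg_right (Real.exp_le_exp.2 ha) (sub_nonneg.2 hab)
    nlinarith

private theorem f6_amgm {a b s P : ℝ} (hs : 0 < s) (hP : 0 < P) :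
    a * b ≤ s / P * a ^ 2 + b ^ 2 * P / (4 * s) := by
  have h1 : s / P * a ^ 2 + b ^ 2 * P / (4 * s) - a * b =
      (2 * s * a - P * b) ^ 2 / (4 * s * P) := by
    field_simp
    ring
  have h2 : 0 ≤ (2 * s * a - P * b) ^ 2 / (4 * s * P) := by positivity
  linarith

theorem p_F6 : StmF6 := by
  intro n Ω P hΩ w Dw hw M hwM ε hε hε1 φ Φ hφ hφΦ hφ0 s hs
  have hO := hΩ.isOpen
  have hb := hΩ.bdd
  have hP := hΩ.hP
  have hpos : ∀ x ∈ closure Ω, 0 < w x + ε := fun x hx => by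
    have := (hwM x hx).1
    linarith
  have cw : ContinuousOn (fun x => w x + ε) (closure Ω) := hw.cont.add continuousOn_const
  have cinv : ContinuousOn (fun x => (w x + ε)⁻¹) (closure Ω) :=
    cw.inv₀ fun x hx => (hpos x hx).ne'
  have cv : ContinuousOn (fun x => Real.log (w x + ε)) (closure Ω) :=
    cw.log fun x hx => (hpos x hx).ne'
  have hv : C1 Ω (fun x => Real.log (w x + ε)) (fun x => (w x + ε)⁻¹ • Dw x) :=
    f6_comp hO hw (G := fun p => Real.log (p + ε)) (G' := fun p => (p + ε)⁻¹)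
      (fun x hx => by
        have h2 := ((hasDerivAt_id (w x)).add_const ε).log (hpos x hx).ne'
        refine h2.congr_deriv ?_
        simp [one_div]) cinv
  obtain ⟨c, hc⟩ := hΩ.poinc _ _ hv
  obtain ⟨x0, hx0⟩ := hΩ.nonempty
  have hM0 : 0 ≤ M := ((hwM x0 (subset_closure hx0)).1).trans (hwM x0 (subset_closure hx0)).2
  have hM1 : 0 < M + 1 := by linarith
  set L := Real.log (M + 1) with hL
  have hexpL : Real.exp L = M + 1 := Real.exp_log hM1
  have hΦ0 : 0 ≤ Φ := (abs_nonneg _).trans (hφΦ x0 (subset_closure hx0))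
  set e := Real.exp (min c L) with he
  -- pointwise bound
  have hpt : ∀ x ∈ closure Ω, |φ x * (w x + ε - e)| ≤
      s / P * (Real.log (w x + ε) - c) ^ 2 + Φ ^ 2 * (M + 1) ^ 2 * P / (4 * s) := by
    intro x hx
    have h1 := hpos x hx
    have h2 : w x + ε ≤ M + 1 := by
      have := (hwM x hx).2
      linarith
    have hvL : Real.log (w x + ε) ≤ L := Real.log_le_log h1 h2
    have h3 : |w x + ε - e| ≤ (M + 1) * |Real.log (w x + ε) - min c L| := by
      have h4 := f6_exp hvL (min_le_right c L)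
      rwa [Real.exp_log h1, hexpL] at h4
    have h5 : |Real.log (w x + ε) - min c L| ≤ |Real.log (w x + ε) - c| := by
      rcases le_total c L with hcL | hcL
      · rw [min_eq_left hcL]
      · rw [min_eq_right hcL, abs_sub_comm, abs_sub_comm _ c,
          abs_of_nonneg (sub_nonneg.2 hvL), abs_of_nonneg (by linarith)]
        linarith
    have h6 : |φ x * (w x + ε - e)| ≤ |Real.log (w x + ε) - c| * (Φ * (M + 1)) := by
      rw [abs_mul]
      have h7 : |w x + ε - e| ≤ (M + 1) * |Real.log (w x + ε) - c| :=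
        h3.trans (mul_le_mul_of_nonneg_left h5 hM1.le)
      calc |φ x| * |w x + ε - e| ≤ Φ * ((M + 1) * |Real.log (w x + ε) - c|) :=
            mul_le_mul (hφΦ x hx) h7 (abs_nonneg _) hΦ0
        _ = _ := by ring
    have h8 := f6_amgm (a := |Real.log (w x + ε) - c|) (b := Φ * (M + 1)) hs hP
    rw [sq_abs] at h8
    calc _ ≤ _ := h6
      _ ≤ _ := h8
      _ = _ := by ring
  have i1 : IntegrableOn (fun x => φ x * (w x + ε - e)) Ω :=
    p_A2 Ω hb _ (hφ.mul (cw.sub continuousOn_const))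
  have i2 : IntegrableOn (fun x => (Real.log (w x + ε) - c) ^ 2) Ω :=
    p_A2 Ω hb _ ((cv.sub continuousOn_const).pow 2)
  have i3 : IntegrableOn (fun _ : Sp n => Φ ^ 2 * (M + 1) ^ 2 * P / (4 * s)) Ω :=
    p_A2 Ω hb _ continuousOn_const
  have i4 : IntegrableOn (fun x => w x * φ x) Ω := p_A2 Ω hb _ (hw.cont.mul hφ)
  have i5 : IntegrableOn φ Ω := p_A2 Ω hb _ hφ
  have e1 : ∫ x in Ω, w x * φ x = ∫ x in Ω, φ x * (w x + ε - e) := by
    have h1 : ∫ x in Ω, φ x * (w x + ε - e) = ∫ x in Ω, (w x * φ x + (ε - e) * φ x) := by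
      refine setIntegral_congr_fun hO.measurableSet (fun x _ => ?_)
      ring
    rw [h1, integral_add i4 (i5.const_mul _), integral_const_mul, hφ0]
    ring
  rw [e1]
  have h1 : |∫ x in Ω, φ x * (w x + ε - e)| ≤ ∫ x in Ω, |φ x * (w x + ε - e)| :=
    abs_integral_le_integral_abs
  have h2 : ∫ x in Ω, |φ x * (w x + ε - e)| ≤ ∫ x in Ω, (s / P * (Real.log (w x + ε) - c) ^ 2 +
      Φ ^ 2 * (M + 1) ^ 2 * P / (4 * s)) := by
    refine setIntegral_mono_on i1.abs ((i2.const_mul _).add i3) hO.measurableSet ?_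
    intro x hx
    exact hpt x (subset_closure hx)
  have h3 : ∫ x in Ω, (s / P * (Real.log (w x + ε) - c) ^ 2 +
      Φ ^ 2 * (M + 1) ^ 2 * P / (4 * s)) = s / P * (∫ x in Ω, (Real.log (w x + ε) - c) ^ 2) +
      vol Ω * (Φ ^ 2 * (M + 1) ^ 2 * P / (4 * s)) := by
    rw [integral_add (i2.const_mul _) i3, integral_const_mul, setIntegral_const]
    simp [vol, smul_eq_mul]
  have h4 : s / P * (∫ x in Ω, (Real.log (w x + ε) - c) ^ 2) ≤ s * En Ω ε w Dw := by
    have h5 := mul_le_mul_of_nonneg_left hc (by positivity : 0 ≤ s / P)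
    calc _ ≤ _ := h5
      _ = s * En Ω ε w Dw := by
        unfold En
        field_simp
  calc _ ≤ _ := h1
    _ ≤ _ := h2
    _ = _ := h3
    _ ≤ s * En Ω ε w Dw + vol Ω * (Φ ^ 2 * (M + 1) ^ 2 * P / (4 * s)) := by linarith
    _ = _ := by ring

end Pool.Agent.Lib.MP_d8ef8f_an.Ff
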