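import Pool.Agent.Lib.MP_d8ef8f_an.Ff.Stm
import Pool.Agent.Lib.MP_d8ef8f_an.Gd.A2

/-!
# Piece F7: the derivative of the functional
-/

set_option autoImplicit false

namespace Pool.Agent.Lib.MP_d8ef8f_an.Ff

open Set Filter Topology MeasureTheory
open Pool.Agent.Lib.MP_d8ef8f_an.Gd

private theorem f7_sp (g : ℝ) : HasDerivAt sp (sg g) g := by
  have h1 : HasDerivAt (fun x : ℝ => 1 + Real.exp x) (Real.exp g) g :=
    (Real.hasDerivAt_exp g).const_add 1
  exact h1.log (by positivity)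

private theorem f7_sg_pos (g : ℝ) : 0 < sg g := by unfold sg; positivity

private theorem f7_sg_le (g : ℝ) : sg g ≤ 1 := by
  unfold sg
  rw [div_le_one (by positivity)]
  linarith [Real.exp_pos g]

private theorem f7_sg_half {g : ℝ} (hg : 0 ≤ g) : 1 / 2 ≤ sg g := by
  unfold sg
  rw [div_le_div_iff₀ (by norm_num) (by positivity)]
  have := Real.one_le_exp hg
  linarith

/-- `|∫ f g| ≤ R ∫ f'` when `|f| ≤ f'`, `|g| ≤ R` pointwise -/
private theorem f7_abs {n : ℕ} {Ω : Set (Sp n)} (hO : IsOpen Ω) (hb : Bornology.IsBounded Ω)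
    {F F' : Sp n → ℝ} {R : ℝ} (hF : ContinuousOn F (closure Ω))
    (hF' : ContinuousOn F' (closure Ω)) (h : ∀ x ∈ closure Ω, |F x| ≤ R * F' x) :
    |∫ x in Ω, F x| ≤ R * ∫ x in Ω, F' x := by
  have i1 : IntegrableOn F Ω := p_A2 Ω hb _ hF
  have i2 : IntegrableOn F' Ω := p_A2 Ω hb _ hF'
  calc |∫ x in Ω, F x| ≤ ∫ x in Ω, |F x| := abs_integral_le_integral_abs
    _ ≤ ∫ x in Ω, R * F' x := by
      refine setIntegral_mono_on i1.abs (i2.const_mul _) hO.measurableSet ?_
      intro x hx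
      exact h x (subset_closure hx)
    _ = _ := integral_const_mul _ _

private theorem f7_alg {a H V e T TA TE A B Q E R β η Erk TEr ε0 Ms Sk Sl Sm SL : ℝ}
    (ha : 0 ≤ a) (hη : 0 < η) (hR : 0 < R) (hErk : 0 ≤ Erk) (hTEr : 0 ≤ TEr)
    (hε0 : 0 < ε0) (hε04 : ε0 ≤ 1 / 4) (hT : 0 ≤ ε0 * T) (hT4 : ε0 * T ≤ 1 / 4)
    (h1 : |H - V| ≤ R * β) (h2 : |e| ≤ R * Erk) (h3 : |TE| ≤ R * TEr)
    (h4 : |E| * η ≤ R * Erk / 8) (h5 : η * A ≤ a / 8) (h6 : - (a / 8 + η / 8) ≤ η * B)
    (hQ : Q = - 1 - (Sk + Sl + Sm + SL))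
    (h7 : η * |Sk| ≤ a / 8 + η / 16) (h8 : η * |Sl| ≤ Ms) (h9 : R * β + Ms ≤ η / 16)
    (h10 : η * |Sm| ≤ ε0 * TA + η / 16) (h11 : η * |SL| ≤ η / 16)
    (h12 : R * (3 * Erk + TEr) ≤ η / 4) :
    η / 4 ≤ (a + H - e) - V + ε0 * (TA - TE - T * (a - e)) - η * (A - B + Q - E) := by
  have g1 := (abs_le.1 h1).1
  have g2 := abs_le.1 h2
  have g3 := abs_le.1 h3
  have g7 : - (a / 8 + η / 16) ≤ η * Sk := by
    have := mul_le_mul_of_nonneg_left (neg_abs_le Sk) hη.le
    linarith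
  have g8 : - Ms ≤ η * Sl := by
    have := mul_le_mul_of_nonneg_left (neg_abs_le Sl) hη.le
    linarith
  have g10 : - (ε0 * TA + η / 16) ≤ η * Sm := by
    have := mul_le_mul_of_nonneg_left (neg_abs_le Sm) hη.le
    linarith
  have g11 : - (η / 16) ≤ η * SL := by
    have := mul_le_mul_of_nonneg_left (neg_abs_le SL) hη.le
    linarith
  have g4 : - (R * Erk / 8) ≤ η * E := by
    have := mul_le_mul_of_nonneg_left (neg_abs_le E) hη.le
    linarith
  have gT : ε0 * T * a ≤ a / 4 := by nlinarith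
  have hRE : 0 ≤ R * Erk := by positivity
  have hRT : 0 ≤ R * TEr := by positivity
  have ge : - (R * Erk) ≤ - e + ε0 * T * e := by
    have h13 : (1 - ε0 * T) * e ≤ (1 - ε0 * T) * (R * Erk) :=
      mul_le_mul_of_nonneg_left g2.2 (by linarith)
    nlinarith
  have gTE : - (R * TEr) ≤ - (ε0 * TE) := by
    have h13 : ε0 * TE ≤ ε0 * (R * TEr) := mul_le_mul_of_nonneg_left g3.2 hε0.le
    nlinarith
  have gQ : η * Q = - η - (η * Sk + η * Sl + η * Sm + η * SL) := by rw [hQ]; ring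
  have e1 : (a + H - e) - V + ε0 * (TA - TE - T * (a - e)) - η * (A - B + Q - E) =
      a + (H - V) + (- e + ε0 * T * e) + ε0 * TA - ε0 * TE - ε0 * T * a - η * A + η * B
        - η * Q + η * E := by ring
  rw [e1, gQ]
  linarith

theorem p_F7 (h3 : StmF3) (h4 : StmF4) (h6 : StmF6) : StmF7 := by
  intro n N Ω P hΩ d m hm hd φ Dφ Φ G hφ hφΦ hG hφ0 hmφ k l mid L hkl hkm hlm hkL hlL hmL hall hdk
    M R η β κ ν K0 hM hR hΦ hη hη1 hηΦ hηG hηC hβ0 hβ hκ hν T hT u ut Du lu hs t ht huM huR hml hFl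
    ε hε hε1 hmid hL hErr
  have hO := hΩ.isOpen
  have hb := hΩ.bdd
  have hP := hΩ.hP
  have hN : 0 < N := k.pos
  have hN1 : (1 : ℝ) ≤ (N : ℝ) := by exact_mod_cast hN
  have hN0 : (0 : ℝ) < (N : ℝ) := by linarith
  -- continuity
  have hcu : ∀ j, ContinuousOn (u j t) (closure Ω) := by
    intro j
    exact (hs.cu j).comp (f := fun x => (t, x)) (by fun_prop) (fun x hx => ⟨ht, hx⟩)
  have hcD : ∀ j, ContinuousOn (Du j t) (closure Ω) := by
    intro j
    exact (hs.cD j).comp (f := fun x => (t, x)) (by fun_prop) (fun x hx => ⟨ht, hx⟩)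
  have hnn : ∀ j, ∀ x ∈ closure Ω, 0 ≤ u j t x := fun j x hx => hs.nonneg j t ht x hx
  have hpos : ∀ j, ∀ x ∈ closure Ω, 0 < u j t x + ε := fun j x hx => by
    have := hnn j x hx
    linarith
  have cw : ∀ j, ContinuousOn (fun x => u j t x + ε) (closure Ω) := fun j =>
    (hcu j).add continuousOn_const
  have cinv : ∀ j, ContinuousOn (fun x => (u j t x + ε)⁻¹) (closure Ω) := fun j =>
    (cw j).inv₀ fun x hx => (hpos j x hx).ne'
  have cE : ∀ j, ContinuousOn (fun x => ε / (u j t x + ε)) (closure Ω) := fun j =>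
    continuousOn_const.div (cw j) fun x hx => (hpos j x hx).ne'
  have cG : ∀ j, ContinuousOn (fun x => (u j t x + ε)⁻¹ • Du j t x) (closure Ω) := fun j =>
    (cinv j).smul (hcD j)
  have ch : ContinuousOn (fun x => m x - ∑ j, u j t x) (closure Ω) :=
    hm.sub (continuousOn_finsetSum _ fun j _ => hcu j)
  have hvol : 0 < vol Ω := by
    unfold vol
    refine ENNReal.toReal_pos ?_ ?_
    · exact (hO.measure_pos volume hΩ.nonempty).ne'
    · exact hb.measure_lt_top.ne
  -- the derivatives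
  set H : ℝ := ∫ x in Ω, (m x - ∑ j, u j t x) with hH
  set e : Fin N → ℝ := fun i => ∫ x in Ω, (ε / (u i t x + ε)) * (m x - ∑ j, u j t x) with he
  set a : Fin N → ℝ := fun i => d i * En Ω ε (u i t) (Du i t) with ha
  have hone : C1 Ω (fun _ => (1 : ℝ)) (fun _ => (0 : Sp n)) :=
    ⟨continuousOn_const, continuousOn_const, fun x _ => by
      simpa using hasGradientAt_const x (1 : ℝ)⟩
  have hLg : ∀ i, HasDerivAt (fun s => Lg Ω ε (u i s)) (a i + H - e i) t := by
    intro i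
    have h := h3 Ω hO hb d m hm T hT u ut Du lu hs ε hε _ _ hone i t ht
    simpa [Lg, En, ha, hH, he] using h
  have hmass := (h4 Ω hO hb d m hm T hT u ut Du lu hs l).1 t ht
  set W : ℝ := ∫ x in Ω, u l t x * (m x - ∑ i, u i t x) with hW
  have hlog : HasDerivAt (fun s => Real.log (mass Ω (u l s))) (W / mass Ω (u l t)) t :=
    hmass.log hml.ne'
  have hLφ := h3 Ω hO hb d m hm T hT u ut Du lu hs ε hε φ Dφ hφ k t ht
  set A : ℝ := ∫ x in Ω, φ x * ‖(u k t x + ε)⁻¹ • Du k t x‖ ^ 2 with hA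
  set B : ℝ := ∫ x in Ω, inner ℝ ((u k t x + ε)⁻¹ • Du k t x) (Dφ x) with hB
  set Q : ℝ := ∫ x in Ω, φ x * (m x - ∑ j, u j t x) with hQ
  set E : ℝ := ∫ x in Ω, φ x * (ε / (u k t x + ε)) * (m x - ∑ j, u j t x) with hE
  set g : Fin N → ℝ := fun i => Lg Ω ε (u i t) - Lg Ω ε (u k t) + K0 with hg
  have hsp : ∀ i, HasDerivAt (fun s => sp (Lg Ω ε (u i s) - Lg Ω ε (u k s) + K0))
      (sg (g i) * ((a i + H - e i) - (a k + H - e k))) t := by
    intro i
    have h := (f7_sp (g i)).comp t ((((hLg i).sub (hLg k)).add_const K0))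
    exact h
  have hsum : HasDerivAt
      (fun s => ∑ i ∈ mid, sp (Lg Ω ε (u i s) - Lg Ω ε (u k s) + K0))
      (∑ i ∈ mid, sg (g i) * ((a i + H - e i) - (a k + H - e k))) t :=
    HasDerivAt.fun_sum fun i _ => hsp i
  have hder : HasDerivAt (fun s => Psi Ω k l mid K0 η ε φ (fun j => u j s))
      ((a k + H - e k) - vol Ω * (W / mass Ω (u l t))
        + (1 / (4 * (N : ℝ))) * (∑ i ∈ mid, sg (g i) * ((a i + H - e i) - (a k + H - e k)))
        - η * (d k * A - d k * B + Q - E)) t := by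
    have h := ((((hLg k).sub (hlog.const_mul (vol Ω)))).add (hsum.const_mul (1 / (4 * (N : ℝ))))).sub
      (hLφ.const_mul η)
    exact h
  refine ⟨_, hder, ?_⟩
  -- nonnegativity
  have hEn : ∀ i, 0 ≤ En Ω ε (u i t) (Du i t) := fun i => by
    unfold En
    exact setIntegral_nonneg hO.measurableSet fun x _ => by positivity
  have ha0 : ∀ i, 0 ≤ a i := fun i => mul_nonneg (hd i).le (hEn i)
  have hEr0 : ∀ i, 0 ≤ Er Ω ε (u i t) := fun i => by
    unfold Er
    exact setIntegral_nonneg hO.measurableSet fun x hx =>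
      (div_pos hε (hpos i x (subset_closure hx))).le
  have hmass0 : ∀ i, 0 ≤ mass Ω (u i t) := fun i => by
    unfold mass
    exact setIntegral_nonneg hO.measurableSet fun x hx => hnn i x (subset_closure hx)
  -- error terms
  have b2 : ∀ i, |e i| ≤ R * Er Ω ε (u i t) := by
    intro i
    refine f7_abs hO hb ((cE i).mul ch) (cE i) fun x hx => ?_
    rw [abs_mul, abs_of_pos (div_pos hε (hpos i x hx)), mul_comm]
    exact mul_le_mul_of_nonneg_right (huR x hx) (div_pos hε (hpos i x hx)).le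
  have b4 : |E| ≤ (Φ * R) * Er Ω ε (u k t) := by
    refine f7_abs hO hb ((hφ.cont.mul (cE k)).mul ch) (cE k) fun x hx => ?_
    have h1 := div_pos hε (hpos k x hx)
    rw [abs_mul, abs_mul, abs_of_pos h1]
    calc |φ x| * (ε / (u k t x + ε)) * |m x - ∑ j, u j t x|
        ≤ Φ * (ε / (u k t x + ε)) * R :=
          mul_le_mul (mul_le_mul_of_nonneg_right (hφΦ x hx) h1.le) (huR x hx) (abs_nonneg _)
            (by positivity)
      _ = _ := by ring
  -- gradient terms
  have hEnk : En Ω ε (u k t) (Du k t) = ∫ x in Ω, ‖(u k t x + ε)⁻¹ • Du k t x‖ ^ 2 := rfl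
  have iEn : IntegrableOn (fun x => ‖(u k t x + ε)⁻¹ • Du k t x‖ ^ 2) Ω :=
    p_A2 Ω hb _ ((cG k).norm.pow 2)
  have b5 : |A| ≤ Φ * En Ω ε (u k t) (Du k t) := by
    refine f7_abs hO hb (hφ.cont.mul ((cG k).norm.pow 2)) ((cG k).norm.pow 2) fun x hx => ?_
    rw [abs_mul, abs_of_nonneg (by positivity : (0:ℝ) ≤ ‖(u k t x + ε)⁻¹ • Du k t x‖ ^ 2)]
    exact mul_le_mul_of_nonneg_right (hφΦ x hx) (by positivity)
  have iG : IntegrableOn (fun x => ‖Dφ x‖ ^ 2) Ω := p_A2 Ω hb _ (hφ.contD.norm.pow 2)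
  have iB : IntegrableOn (fun x => inner ℝ ((u k t x + ε)⁻¹ • Du k t x) (Dφ x)) Ω :=
    p_A2 Ω hb _ ((cG k).inner hφ.contD)
  have b6 : η * |B| ≤ En Ω ε (u k t) (Du k t) / 8 + 2 * η ^ 2 * G := by
    have h1 : |B| ≤ ∫ x in Ω, |inner ℝ ((u k t x + ε)⁻¹ • Du k t x) (Dφ x)| :=
      abs_integral_le_integral_abs
    have h2 : η * (∫ x in Ω, |inner ℝ ((u k t x + ε)⁻¹ • Du k t x) (Dφ x)|) ≤
        ∫ x in Ω, (1 / 8 * ‖(u k t x + ε)⁻¹ • Du k t x‖ ^ 2 + 2 * η ^ 2 * ‖Dφ x‖ ^ 2) := by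
      rw [← integral_const_mul]
      refine setIntegral_mono_on (iB.abs.const_mul _)
        ((iEn.const_mul _).add (iG.const_mul _)) hO.measurableSet ?_
      intro x _
      have h5 := abs_real_inner_le_norm ((u k t x + ε)⁻¹ • Du k t x) (Dφ x)
      have h6 := mul_le_mul_of_nonneg_left h5 hη.le
      nlinarith [sq_nonneg (‖(u k t x + ε)⁻¹ • Du k t x‖ - 4 * η * ‖Dφ x‖)]
    rw [integral_add (iEn.const_mul _) (iG.const_mul _), integral_const_mul,
      integral_const_mul] at h2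
    have h7 : 2 * η ^ 2 * (∫ x in Ω, ‖Dφ x‖ ^ 2) ≤ 2 * η ^ 2 * G :=
      mul_le_mul_of_nonneg_left hG (by positivity)
    have h8 := mul_le_mul_of_nonneg_left h1 hη.le
    rw [hEnk]
    linarith
  -- the weight integrals
  set S : Fin N → ℝ := fun j => ∫ x in Ω, u j t x * φ x with hS
  have iS : ∀ j, IntegrableOn (fun x => u j t x * φ x) Ω := fun j =>
    p_A2 Ω hb _ ((hcu j).mul hφ.cont)
  have hQS : Q = - 1 - ∑ j, S j := by
    have h1 : Q = ∫ x in Ω, (m x * φ x - ∑ j, u j t x * φ x) := by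
      rw [hQ]
      refine setIntegral_congr_fun hO.measurableSet (fun x _ => ?_)
      simp only [mul_sub, Finset.mul_sum]
      rw [mul_comm]
      congr 1
      exact Finset.sum_congr rfl fun j _ => mul_comm _ _
    have im : IntegrableOn (fun x => m x * φ x) Ω := p_A2 Ω hb _ (hm.mul hφ.cont)
    have is : IntegrableOn (fun x => ∑ j, u j t x * φ x) Ω :=
      integrable_finsetSum _ fun j _ => iS j
    rw [h1, integral_sub im is, integral_finsetSum _ fun j _ => iS j, hmφ]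
  have hsplit : ∑ j, S j = S k + S l + (∑ j ∈ mid, S j) + ∑ j ∈ L, S j := by
    have h1 : (Finset.univ : Finset (Fin N)) = insert k (insert l (mid ∪ L)) := by
      ext j
      simp only [Finset.mem_univ, Finset.mem_insert, Finset.mem_union, true_iff]
      exact hall j
    rw [h1, Finset.sum_insert, Finset.sum_insert, Finset.sum_union hmL]
    · ring
    · simp [hlm, hlL]
    · simp [hkl, hkm, hkL]
  have bS : ∀ j, |S j| ≤ Φ * mass Ω (u j t) := by
    intro j
    refine f7_abs hO hb ((hcu j).mul hφ.cont) (hcu j) fun x hx => ?_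
    rw [abs_mul, abs_of_nonneg (hnn j x hx), mul_comm]
    exact mul_le_mul_of_nonneg_right (hφΦ x hx) (hnn j x hx)
  set C : ℝ := Φ ^ 2 * (M + 1) ^ 2 * P * vol Ω with hC
  have hC0 : 0 < C := by positivity
  have bF6 : ∀ j, ∀ s : ℝ, 0 < s → |S j| ≤ s * En Ω ε (u j t) (Du j t) + C / (4 * s) := by
    intro j s hs'
    exact h6 Ω P hΩ (u j t) (Du j t) (hs.lap j t ht).c1 M
      (fun x hx => ⟨hnn j x hx, huM j x hx⟩) ε hε hε1 φ Φ hφ.cont hφΦ hφ0 s hs'
  have hdk0 := hd k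
  have hNC : 32 * (N : ℝ) ^ 2 * η * C ≤ d k := hηC
  have b7 : η * |S k| ≤ a k / 8 + η / 16 := by
    have h1 := bF6 k (d k / (8 * η)) (by positivity)
    have h2 := mul_le_mul_of_nonneg_left h1 hη.le
    have h5 : η * (d k / (8 * η) * En Ω ε (u k t) (Du k t) + C / (4 * (d k / (8 * η)))) =
        a k / 8 + 2 * η ^ 2 * C / d k := by
      rw [ha]
      field_simp
      ring
    have h7 : 2 * η ^ 2 * C / d k ≤ η / 16 := by
      rw [div_le_iff₀ hdk0]
      have h8 : 32 * η * C ≤ 32 * (N : ℝ) ^ 2 * η * C := by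
        have : (1 : ℝ) ≤ (N : ℝ) ^ 2 := by nlinarith
        have h9 : 0 ≤ 32 * η * C := by positivity
        nlinarith
      have h10 : 32 * η * C ≤ d k := h8.trans hNC
      nlinarith
    rw [h5] at h2
    linarith
  have hmassl : mass Ω (u l t) ≤ M * vol Ω := by
    have h1 : mass Ω (u l t) ≤ ∫ _ in Ω, M := by
      unfold mass
      refine setIntegral_mono_on (p_A2 Ω hb _ (hcu l)) (p_A2 Ω hb _ continuousOn_const)
        hO.measurableSet ?_
      intro x hx
      exact huM l x (subset_closure hx)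
    rw [setIntegral_const, smul_eq_mul, mul_comm] at h1
    exact h1
  have cFl : ContinuousOn (fun x => |vol Ω * u l t x / mass Ω (u l t) - 1|) (closure Ω) :=
    (((continuousOn_const.mul (hcu l)).div_const _).sub continuousOn_const).abs
  have b8 : η * |S l| ≤ M * Φ * β := by
    have h1 : S l = ∫ x in Ω, (u l t x - mass Ω (u l t) / vol Ω) * φ x := by
      have h2 : ∫ x in Ω, (u l t x - mass Ω (u l t) / vol Ω) * φ x =
          ∫ x in Ω, (u l t x * φ x - (mass Ω (u l t) / vol Ω) * φ x) :=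
        setIntegral_congr_fun hO.measurableSet (fun x _ => sub_mul _ _ _)
      rw [h2, integral_sub (iS l) ((p_A2 Ω hb _ hφ.cont : IntegrableOn φ Ω).const_mul _),
        integral_const_mul, hφ0]
      simp [hS]
    have h2 : |S l| ≤ (Φ * (mass Ω (u l t) / vol Ω)) *
        ∫ x in Ω, |vol Ω * u l t x / mass Ω (u l t) - 1| := by
      rw [h1]
      refine f7_abs hO hb (((hcu l).sub continuousOn_const).mul hφ.cont) cFl fun x hx => ?_
      have h5 : u l t x - mass Ω (u l t) / vol Ω =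
          (mass Ω (u l t) / vol Ω) * (vol Ω * u l t x / mass Ω (u l t) - 1) := by
        field_simp
      rw [abs_mul, h5, abs_mul, abs_of_pos (div_pos hml hvol)]
      have h6 : 0 ≤ mass Ω (u l t) / vol Ω * |vol Ω * u l t x / mass Ω (u l t) - 1| := by
        have := div_pos hml hvol
        positivity
      have h7 := mul_le_mul_of_nonneg_left (hφΦ x hx) h6
      linarith
    have h5 : mass Ω (u l t) / vol Ω ≤ M := (div_le_iff₀ hvol).2 hmassl
    have hFl0 : 0 ≤ Fl Ω (u l t) := by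
      unfold Fl
      exact setIntegral_nonneg hO.measurableSet fun x _ => abs_nonneg _
    have h7 : |S l| ≤ Φ * M * β := by
      refine h2.trans ?_
      have h9 : Φ * (mass Ω (u l t) / vol Ω) ≤ Φ * M := mul_le_mul_of_nonneg_left h5 hΦ.le
      exact mul_le_mul h9 hFl hFl0 (by positivity)
    have h8 : η * |S l| ≤ 1 * |S l| := mul_le_mul_of_nonneg_right hη1 (abs_nonneg _)
    linarith
  have b1 : |H - vol Ω * (W / mass Ω (u l t))| ≤ R * β := by
    have h1 : H - vol Ω * (W / mass Ω (u l t)) =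
        ∫ x in Ω, (1 - vol Ω * u l t x / mass Ω (u l t)) * (m x - ∑ j, u j t x) := by
      have h2 : ∫ x in Ω, (1 - vol Ω * u l t x / mass Ω (u l t)) * (m x - ∑ j, u j t x) =
          ∫ x in Ω, ((m x - ∑ j, u j t x) -
            (vol Ω / mass Ω (u l t)) * (u l t x * (m x - ∑ j, u j t x))) := by
        refine setIntegral_congr_fun hO.measurableSet (fun x _ => ?_)
        ring
      rw [h2, integral_sub (p_A2 Ω hb _ ch)
        ((p_A2 Ω hb _ ((hcu l).mul ch) : IntegrableOn _ Ω).const_mul _), integral_const_mul]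
      rw [hH, hW]
      ring
    have h2 : |∫ x in Ω, (1 - vol Ω * u l t x / mass Ω (u l t)) * (m x - ∑ j, u j t x)| ≤
        R * ∫ x in Ω, |vol Ω * u l t x / mass Ω (u l t) - 1| := by
      refine f7_abs hO hb ((continuousOn_const.sub
        ((continuousOn_const.mul (hcu l)).div_const _)).mul ch) cFl fun x hx => ?_
      rw [abs_mul, abs_sub_comm, mul_comm]
      exact mul_le_mul_of_nonneg_right (huR x hx) (abs_nonneg _)
    rw [h1]
    exact h2.trans (mul_le_mul_of_nonneg_left hFl hR.le)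
  -- the middle species
  have hcard : (mid.card : ℝ) ≤ (N : ℝ) := by
    have h1 := Finset.card_le_univ mid
    rw [Fintype.card_fin] at h1
    exact_mod_cast h1
  have bmid : ∀ i ∈ mid, η * |S i| ≤ 1 / (4 * (N : ℝ)) * (sg (g i) * a i) + η / (16 * N) := by
    intro i hi
    have hτ := f7_sg_pos (g i)
    rcases hmid i hi with h | h
    · have h1 := bS i
      have h2 : Φ * mass Ω (u i t) ≤ Φ * κ := mul_le_mul_of_nonneg_left h hΦ.le
      have h5 : Φ * κ ≤ 1 / (16 * N) := by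
        rw [le_div_iff₀ (by positivity)]
        linarith
      have h7 : η * |S i| ≤ η * (1 / (16 * N)) :=
        mul_le_mul_of_nonneg_left (h1.trans (h2.trans h5)) hη.le
      have h8 : 0 ≤ 1 / (4 * (N : ℝ)) * (sg (g i) * a i) := by
        have := ha0 i
        positivity
      have h9 : η * (1 / (16 * (N : ℝ))) = η / (16 * N) := by ring
      linarith
    · have hdi := hd i
      have h1 := bF6 i (d i / (8 * N * η)) (by positivity)
      have h2 := mul_le_mul_of_nonneg_left h1 hη.le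
      have h5 : η * (d i / (8 * N * η) * En Ω ε (u i t) (Du i t) +
          C / (4 * (d i / (8 * N * η)))) = 1 / (4 * (N : ℝ)) * (1 / 2 * a i)
            + 2 * N * η ^ 2 * C / d i := by
        rw [ha]
        field_simp
        ring
      have h7 : 2 * N * η ^ 2 * C / d i ≤ η / (16 * N) := by
        rw [div_le_div_iff₀ hdi (by positivity)]
        have h8 : 32 * (N : ℝ) ^ 2 * η * C ≤ d i := hNC.trans (hdk i hi)
        have h9 := mul_le_mul_of_nonneg_left h8 hη.le
        calc 2 * N * η ^ 2 * C * (16 * N) = η * (32 * (N : ℝ) ^ 2 * η * C) := by ring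
          _ ≤ η * d i := h9
      have h8 : 1 / (4 * (N : ℝ)) * (1 / 2 * a i) ≤ 1 / (4 * (N : ℝ)) * (sg (g i) * a i) := by
        refine mul_le_mul_of_nonneg_left ?_ (by positivity)
        exact mul_le_mul_of_nonneg_right (f7_sg_half h) (ha0 i)
      rw [h5] at h2
      linarith
  have b10 : η * |∑ j ∈ mid, S j| ≤ 1 / (4 * (N : ℝ)) * (∑ i ∈ mid, sg (g i) * a i) + η / 16 := by
    have h1 : |∑ j ∈ mid, S j| ≤ ∑ j ∈ mid, |S j| := Finset.abs_sum_le_sum_abs _ _
    have h2 : η * ∑ j ∈ mid, |S j| ≤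
        ∑ i ∈ mid, (1 / (4 * (N : ℝ)) * (sg (g i) * a i) + η / (16 * N)) := by
      rw [Finset.mul_sum]
      exact Finset.sum_le_sum bmid
    rw [Finset.sum_add_distrib, ← Finset.mul_sum, Finset.sum_const, nsmul_eq_mul] at h2
    have h5 : (mid.card : ℝ) * (η / (16 * N)) ≤ η / 16 := by
      have h7 : (mid.card : ℝ) * (η / (16 * N)) ≤ (N : ℝ) * (η / (16 * N)) :=
        mul_le_mul_of_nonneg_right hcard (by positivity)
      have h8 : (N : ℝ) * (η / (16 * N)) = η / 16 := by field_simp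
      linarith
    have h7 := mul_le_mul_of_nonneg_left h1 hη.le
    linarith
  have b11 : η * |∑ j ∈ L, S j| ≤ η / 16 := by
    have h1 : |∑ j ∈ L, S j| ≤ ∑ j ∈ L, |S j| := Finset.abs_sum_le_sum_abs _ _
    have h2 : ∑ j ∈ L, |S j| ≤ Φ * ν := by
      calc ∑ j ∈ L, |S j| ≤ ∑ j ∈ L, Φ * mass Ω (u j t) := Finset.sum_le_sum fun j _ => bS j
        _ = Φ * ∑ j ∈ L, mass Ω (u j t) := by rw [Finset.mul_sum]
        _ ≤ Φ * ν := mul_le_mul_of_nonneg_left hL hΦ.le
    have h5 : η * |∑ j ∈ L, S j| ≤ η * (Φ * ν) := mul_le_mul_of_nonneg_left (h1.trans h2) hη.le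
    have h7 : η * (Φ * ν) ≤ η * (1 / 16) := mul_le_mul_of_nonneg_left (by linarith) hη.le
    linarith
  have b3 : |∑ i ∈ mid, sg (g i) * e i| ≤ R * ∑ i ∈ mid, sg (g i) * Er Ω ε (u i t) := by
    rw [Finset.mul_sum]
    refine (Finset.abs_sum_le_sum_abs _ _).trans (Finset.sum_le_sum fun i _ => ?_)
    rw [abs_mul, abs_of_pos (f7_sg_pos _)]
    have h1 := mul_le_mul_of_nonneg_left (b2 i) (f7_sg_pos (g i)).le
    linarith
  have hTEr : 0 ≤ ∑ i ∈ mid, sg (g i) * Er Ω ε (u i t) :=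
    Finset.sum_nonneg fun i _ => mul_nonneg (f7_sg_pos _).le (hEr0 i)
  have hTτ : 0 ≤ ∑ i ∈ mid, sg (g i) := Finset.sum_nonneg fun i _ => (f7_sg_pos _).le
  have hTτ' : ∑ i ∈ mid, sg (g i) ≤ (N : ℝ) := by
    calc ∑ i ∈ mid, sg (g i) ≤ ∑ i ∈ mid, (1 : ℝ) := Finset.sum_le_sum fun i _ => f7_sg_le _
      _ = mid.card := by simp
      _ ≤ _ := hcard
  have hsumeq : ∑ i ∈ mid, sg (g i) * ((a i + H - e i) - (a k + H - e k)) =
      (∑ i ∈ mid, sg (g i) * a i) - (∑ i ∈ mid, sg (g i) * e i)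
        - (∑ i ∈ mid, sg (g i)) * (a k - e k) := by
    rw [Finset.sum_mul, ← Finset.sum_sub_distrib, ← Finset.sum_sub_distrib]
    refine Finset.sum_congr rfl fun i _ => ?_
    ring
  rw [hsumeq]
  have hη0 := hη.le
  have hak := ha0 k
  have key := f7_alg (a := a k) (H := H) (V := vol Ω * (W / mass Ω (u l t))) (e := e k)
    (T := ∑ i ∈ mid, sg (g i)) (TA := ∑ i ∈ mid, sg (g i) * a i)
    (TE := ∑ i ∈ mid, sg (g i) * e i) (A := d k * A) (B := d k * B) (Q := Q) (E := E) (R := R)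
    (β := β) (η := η) (Erk := Er Ω ε (u k t))
    (TEr := ∑ i ∈ mid, sg (g i) * Er Ω ε (u i t)) (ε0 := 1 / (4 * (N : ℝ)))
    (Ms := M * Φ * β) (Sk := S k) (Sl := S l) (Sm := ∑ j ∈ mid, S j) (SL := ∑ j ∈ L, S j)
    hak hη hR (hEr0 k) hTEr (by positivity)
    (by rw [div_le_div_iff₀ (by positivity) (by norm_num)]; linarith)
    (by positivity)
    (by
      rw [div_mul_eq_mul_div, one_mul, div_le_div_iff₀ (by positivity) (by norm_num)]
      linarith)
    b1 (b2 k) b3 ?_ ?_ ?_ (by rw [hQS, hsplit]) b7 b8 (by linarith) b10 b11 hErr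
  · exact key
  · have h1 := mul_le_mul_of_nonneg_right b4 hη0
    have h2 : Φ * R * Er Ω ε (u k t) * η = (η * Φ) * (R * Er Ω ε (u k t)) := by ring
    have h5 : (η * Φ) * (R * Er Ω ε (u k t)) ≤ 1 / 8 * (R * Er Ω ε (u k t)) :=
      mul_le_mul_of_nonneg_right hηΦ (mul_nonneg hR.le (hEr0 k))
    linarith
  · have h1 : η * (d k * A) ≤ η * (d k * (Φ * En Ω ε (u k t) (Du k t))) :=
      mul_le_mul_of_nonneg_left (mul_le_mul_of_nonneg_left ((le_abs_self A).trans b5) hdk0.le) hη0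
    have h2 : η * (d k * (Φ * En Ω ε (u k t) (Du k t))) = (η * Φ) * a k := by
      rw [ha]; ring
    have h5 : (η * Φ) * a k ≤ 1 / 8 * a k := mul_le_mul_of_nonneg_right hηΦ hak
    linarith
  · have h1 := mul_le_mul_of_nonneg_left b6 hdk0.le
    have h2 : - (d k * (η * |B|)) ≤ η * (d k * B) := by
      have h5 := mul_le_mul_of_nonneg_left (neg_abs_le B) (by positivity : 0 ≤ η * d k)
      linarith
    have h5 : d k * (En Ω ε (u k t) (Du k t) / 8 + 2 * η ^ 2 * G) = a k / 8 +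
        (η / 8) * (16 * η * d k * G) := by
      rw [ha]; ring
    have h7 : (η / 8) * (16 * η * d k * G) ≤ (η / 8) * 1 :=
      mul_le_mul_of_nonneg_left hηG (by positivity)
    linarith

end Pool.Agent.Lib.MP_d8ef8f_an.Ff
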