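import Pool.Agent.Lib.MP_d8ef8f_an.Ff.Stm
import Pool.Agent.Lib.MP_d8ef8f_an.Gd.A2

/-!
# Piece F8: the weight
-/

set_option autoImplicit false

namespace Pool.Agent.Lib.MP_d8ef8f_an.Ff

open Set Filter Topology MeasureTheory
open Pool.Agent.Lib.MP_d8ef8f_an.Gd

theorem p_F8 : StmF8 := by
  intro n Ω hO hne hb m hm hmne
  by_contra hcon
  push Not at hcon
  have hvpos : 0 < vol Ω := by
    refine ENNReal.toReal_pos (hO.measure_pos _ hne).ne' ?_
    exact (hb.measure_lt_top).ne
  -- every `φ` of mean zero is orthogonal to `m`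
  have horth : ∀ (φ : Sp n → ℝ) (Dφ : Sp n → Sp n), C1 Ω φ Dφ → (∫ x in Ω, φ x) = 0 →
      (∫ x in Ω, m x * φ x) = 0 := by
    intro φ Dφ hφ h0
    by_contra hI
    set I := ∫ x in Ω, m x * φ x with hIdef
    refine hcon (fun x => (-I⁻¹) * φ x) (fun x => (-I⁻¹) • Dφ x) ⟨?_, ?_, ?_⟩ ?_ ?_
    · exact continuousOn_const.mul hφ.cont
    · exact hφ.contD.const_smul (-I⁻¹)
    · intro x hx
      have h1 := (hφ.grad x hx)
      rw [hasGradientAt_iff_hasFDerivAt] at h1 ⊢
      have h2 := h1.const_mul (-I⁻¹)
      simpa using h2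
    · rw [integral_const_mul, h0, mul_zero]
    · have h1 : (fun x => m x * (-I⁻¹ * φ x)) = fun x => (-I⁻¹) * (m x * φ x) := by
        funext x
        ring
      rw [h1, integral_const_mul, ← hIdef]
      field_simp
  set c : ℝ := (∫ x in Ω, m x) / vol Ω with hc
  have hmi : IntegrableOn m Ω := p_A2 Ω hb m hm
  have hfin : volume Ω ≠ ⊤ := (hb.measure_lt_top).ne
  have hae : ∀ᵐ x ∂(volume : Measure (Sp n)), x ∈ Ω → m x - c = 0 := by
    refine hO.ae_eq_zero_of_integral_contDiff_smul_eq_zero ?_ ?_
    · exact (p_A2 Ω hb (fun x => m x - c) (hm.sub continuousOn_const)).locallyIntegrableOn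
    · intro g hg hgc hgs
      have hgcl : ContinuousOn g (closure Ω) := hg.continuous.continuousOn
      have hgi : IntegrableOn g Ω := p_A2 Ω hb g hgcl
      set a : ℝ := (∫ x in Ω, g x) / vol Ω with ha
      have hC1 : C1 Ω (fun x => g x - a)
          (fun x => (InnerProductSpace.toDual ℝ (Sp n)).symm (fderiv ℝ g x)) := by
        refine ⟨hgcl.sub continuousOn_const, ?_, ?_⟩
        · refine ((InnerProductSpace.toDual ℝ (Sp n)).symm.continuous.comp
            (hg.continuous_fderiv (by simp))).continuousOn
        · intro x _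
          rw [hasGradientAt_iff_hasFDerivAt]
          simpa using ((hg.differentiable (by simp) x).hasFDerivAt).sub_const a
      have hconst : ∀ r : ℝ, ∫ _ in Ω, r = r * vol Ω := by
        intro r
        rw [setIntegral_const, smul_eq_mul, mul_comm]
        rfl
      have hint0 : (∫ x in Ω, (g x - a)) = 0 := by
        rw [integral_sub hgi (integrableOn_const hfin), hconst, ha]
        field_simp
        ring
      have h1 := horth _ _ hC1 hint0
      have hmgi : IntegrableOn (fun x => m x * g x) Ω := p_A2 Ω hb _ (hm.mul hgcl)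
      have h2 : (∫ x in Ω, m x * (g x - a)) = (∫ x in Ω, m x * g x) - a * ∫ x in Ω, m x := by
        rw [← integral_const_mul, ← integral_sub hmgi (hmi.const_mul a)]
        refine setIntegral_congr_fun hO.measurableSet fun x _ => ?_
        ring
      have h3 : (∫ x in Ω, (m x - c) * g x) = (∫ x in Ω, m x * g x) - c * ∫ x in Ω, g x := by
        rw [← integral_const_mul, ← integral_sub hmgi (hgi.const_mul c)]
        refine setIntegral_congr_fun hO.measurableSet fun x _ => ?_
        ring
      have h4 : a * (∫ x in Ω, m x) = c * ∫ x in Ω, g x := by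
        rw [ha, hc]
        field_simp
      have h5 : (∫ x in Ω, (m x - c) * g x) = 0 := by
        rw [h3, ← h4, ← h2, h1]
      rw [← setIntegral_eq_integral_of_forall_compl_eq_zero (s := Ω) (fun x hx => ?_)]
      · rw [← h5]
        refine setIntegral_congr_fun hO.measurableSet fun x _ => ?_
        simp only [smul_eq_mul]
        ring
      · have h6 : g x = 0 := by
          by_contra h7
          exact hx (hgs (subset_tsupport g h7))
        rw [h6, zero_smul]
  have hEq : EqOn m (fun _ => c) Ω := by
    refine Measure.eqOn_open_of_ae_eq (μ := volume) ?_ hO (hm.mono subset_closure)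
      continuousOn_const
    refine (ae_restrict_iff' hO.measurableSet).2 ?_
    filter_upwards [hae] with x hx hxO
    have := hx hxO
    linarith
  have hcl : ∀ x ∈ closure Ω, m x = c :=
    hEq.of_subset_closure hm continuousOn_const subset_closure subset_rfl
  obtain ⟨x, hx, y, hy, hxy⟩ := hmne
  exact hxy ((hcl x hx).trans (hcl y hy).symm)

end Pool.Agent.Lib.MP_d8ef8f_an.Ff
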