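import Pool.Agent.Lib.MP_d8ef8f_an.Ff.Stm
import Pool.Agent.Lib.MP_d8ef8f_an.Gd.A1
import Pool.Agent.Lib.MP_d8ef8f_an.Gd.A2
import Pool.Agent.Lib.MP_d8ef8f_an.Gd.A3
import Pool.Agent.Lib.MP_d8ef8f_an.Gd.D0
import Pool.Agent.Lib.MP_d8ef8f_an.Gd.D1

/-!
# Piece F9: logarithmic lower bound after time one
-/

set_option autoImplicit false

namespace Pool.Agent.Lib.MP_d8ef8f_an.Ff

open Set Filter Topology MeasureTheory
open Pool.Agent.Lib.MP_d8ef8f_an.Gd

private theorem f9_comp (a1 : StmA1) {n : ℕ} {Ω : Set (Sp n)} (hΩ : IsOpen Ω) {φ : Sp n → ℝ}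
    {Dφ : Sp n → Sp n} (h : C1 Ω φ Dφ) {G G' : ℝ → ℝ}
    (hG : ∀ x ∈ closure Ω, HasDerivAt G (G' (φ x)) (φ x))
    (hc : ContinuousOn (fun x => G' (φ x)) (closure Ω)) :
    C1 Ω (fun x => G (φ x)) (fun x => G' (φ x) • Dφ x) := by
  have h1 := a1 (ι := Unit) Ω hΩ (fun _ => φ) (fun _ => Dφ) (fun _ => h)
    (fun p => G (p ())) (fun _ p => G' (p ())) (by
      intro x hx
      have h2 := (hG x hx).comp_hasFDerivAt (f := fun p : Unit → ℝ => p ()) (fun _ => φ x)
        (hasFDerivAt_apply (𝕜 := ℝ) (F' := fun _ : Unit => ℝ) () _)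
      refine (h2.congr_of_eventuallyEq (Eventually.of_forall fun p => rfl)).congr_fderiv ?_
      ext v
      simp) (fun _ => hc)
  simpa using h1

private theorem f9_int_le (a2 : StmA2) {n : ℕ} {Ω : Set (Sp n)} (hΩ : IsOpen Ω)
    (hb : Bornology.IsBounded Ω) {H F1 F2 F3 : Sp n → ℝ} (hH : ContinuousOn H (closure Ω))
    (h1 : ContinuousOn F1 (closure Ω)) (h2 : ContinuousOn F2 (closure Ω))
    (h3 : ContinuousOn F3 (closure Ω)) (k1 k2 k3 k0 : ℝ)
    (h : ∀ x ∈ closure Ω, H x ≤ k1 * F1 x + k2 * F2 x + k3 * F3 x + k0) :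
    ∫ x in Ω, H x ≤ k1 * (∫ x in Ω, F1 x) + k2 * (∫ x in Ω, F2 x) + k3 * (∫ x in Ω, F3 x) +
      k0 * volume.real Ω := by
  have i1 := (a2 Ω hb F1 h1).const_mul k1
  have i2 := (a2 Ω hb F2 h2).const_mul k2
  have i3 := (a2 Ω hb F3 h3).const_mul k3
  have i0 : IntegrableOn (fun _ : Sp n => k0) Ω := integrableOn_const hb.measure_lt_top.ne
  have e := setIntegral_mono_on (a2 Ω hb H hH) (((i1.add i2).add i3).add i0) hΩ.measurableSet
    fun x hx => h x (subset_closure hx)
  refine e.trans (le_of_eq ?_)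
  have e1 : ∫ x in Ω, ((k1 * F1 x + k2 * F2 x) + k3 * F3 x) + k0 =
      (∫ x in Ω, (k1 * F1 x + k2 * F2 x) + k3 * F3 x) + ∫ _ in Ω, k0 :=
    integral_add ((i1.add i2).add i3) i0
  have e2 : ∫ x in Ω, (k1 * F1 x + k2 * F2 x) + k3 * F3 x =
      (∫ x in Ω, k1 * F1 x + k2 * F2 x) + ∫ x in Ω, k3 * F3 x :=
    integral_add (i1.add i2) i3
  have e3 : ∫ x in Ω, k1 * F1 x + k2 * F2 x =
      (∫ x in Ω, k1 * F1 x) + ∫ x in Ω, k2 * F2 x := integral_add i1 i2
  change ∫ x in Ω, ((k1 * F1 x + k2 * F2 x) + k3 * F3 x) + k0 = _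
  rw [e1, e2, e3, integral_const_mul, integral_const_mul, integral_const_mul, setIntegral_const,
    smul_eq_mul, mul_comm k0]

private theorem f9_slice {n : ℕ} {Ω : Set (Sp n)} {T : Set ℝ} {E : Type} [TopologicalSpace E]
    {F : ℝ → Sp n → E}
    (hF : ContinuousOn (fun p : ℝ × Sp n => F p.1 p.2) (T ×ˢ closure Ω)) {t : ℝ} (ht : t ∈ T) :
    ContinuousOn (F t) (closure Ω) := by
  have h1 : ContinuousOn (fun x : Sp n => (t, x)) (closure Ω) := by fun_prop
  exact hF.comp h1 fun x hx => ⟨ht, hx⟩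

private theorem f9_var (a2 : StmA2) {n : ℕ} {Ω : Set (Sp n)} (hΩ : IsOpen Ω)
    (hb : Bornology.IsBounded Ω) {v w : Sp n → ℝ} (hv : ContinuousOn v (closure Ω))
    (hw : ContinuousOn w (closure Ω)) {ε A' M1 V c r : ℝ} (hε : 0 < ε)
    (hV : V = volume.real Ω) (hV0 : 0 < V) (hA' : 0 < A') (hM1 : 0 < M1)
    (hvw : ∀ x ∈ closure Ω, v x = Real.log (w x + ε)) (hw0 : ∀ x ∈ closure Ω, 0 ≤ w x)
    (hw1 : ∀ x ∈ closure Ω, w x ≤ M1) (hm : A' ≤ ∫ x in Ω, w x)
    (hr : r = (∫ x in Ω, v x) / V) (hrl : r < Real.log (A' / (2 * V))) :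
    (Real.log (A' / (2 * V)) - r) ^ 2 * (A' / (2 * M1)) ≤ ∫ x in Ω, (v x - c) ^ 2 := by
  set l := Real.log (A' / (2 * V)) with hl
  have hq : 0 < A' / (2 * V) := by positivity
  have hr' : ∫ x in Ω, v x = r * V := by
    rw [hr]
    field_simp
  have c0 : ContinuousOn (fun _ : Sp n => (0:ℝ)) (closure Ω) := continuousOn_const
  have h1 := f9_int_le a2 hΩ hb (H := fun x => (v x - r) ^ 2) ((hv.sub continuousOn_const).pow 2)
    (F1 := fun x => (v x - c) ^ 2) ((hv.sub continuousOn_const).pow 2) hv c0 1 (2 * (c - r)) 0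
    (r ^ 2 - c ^ 2) (fun x hx => by nlinarith)
  rw [hr', ← hV] at h1
  have h2 := f9_int_le a2 hΩ hb (H := w) hw (F1 := fun x => (v x - r) ^ 2)
    ((hv.sub continuousOn_const).pow 2) c0 c0 (M1 / (l - r) ^ 2) 0 0 (A' / (2 * V))
    (fun x hx => by
      have h3 := hvw x hx
      have h4 := hw0 x hx
      have h5 : 0 < l - r := sub_pos.2 hrl
      simp only [mul_zero, add_zero]
      rcases le_or_gt l (v x) with h | h
      · have h6 : (l - r) ^ 2 ≤ (v x - r) ^ 2 := pow_le_pow_left₀ h5.le (by linarith) 2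
        have h7 : M1 ≤ M1 / (l - r) ^ 2 * (v x - r) ^ 2 := by
          rw [div_mul_eq_mul_div, le_div_iff₀ (by positivity)]
          exact mul_le_mul_of_nonneg_left h6 hM1.le
        have := hw1 x hx
        linarith
      · have h6 : w x + ε < A' / (2 * V) := by
          rw [h3] at h
          exact (Real.log_lt_log_iff (by linarith) hq).1 h
        have h7 : 0 ≤ M1 / (l - r) ^ 2 * (v x - r) ^ 2 := by positivity
        linarith)
  have h5 : 0 < l - r := sub_pos.2 hrl
  rw [← hV] at h2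
  have h6 : A' / (2 * V) * V = A' / 2 := by field_simp
  rw [h6] at h2
  have h7 : A' / 2 ≤ M1 / (l - r) ^ 2 * ∫ x in Ω, (v x - r) ^ 2 := by linarith
  rw [div_mul_eq_mul_div, le_div_iff₀ (by positivity)] at h7
  have h8 : (l - r) ^ 2 * (A' / (2 * M1)) ≤ ∫ x in Ω, (v x - r) ^ 2 := by
    have h9 : (l - r) ^ 2 * (A' / (2 * M1)) = A' / 2 * (l - r) ^ 2 / M1 := by
      field_simp
    rw [h9, div_le_iff₀ hM1]
    linarith
  have h9 : 0 ≤ V * (c - r) ^ 2 := by positivity
  nlinarith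

private theorem f9_der (a1 : StmA1) (a2 : StmA2) {n : ℕ} {Ω : Set (Sp n)} (hΩ : IsOpen Ω)
    (hb : Bornology.IsBounded Ω) {P : ℝ} (hPo : Poinc Ω P) (hP : 0 < P) {w wt lw e : Sp n → ℝ}
    {Dw : Sp n → Sp n} {dk R ε : ℝ} (hdk : 0 < dk) (hε : 0 < ε) (hw : NeuLap Ω w Dw lw)
    (hw0 : ∀ x ∈ closure Ω, 0 ≤ w x) (hwt : ContinuousOn wt (closure Ω))
    (heq : ∀ x ∈ closure Ω, wt x = dk * lw x + w x * e x) (he : ∀ x ∈ closure Ω, |e x| ≤ R) :
    ∃ c : ℝ, dk / P * (∫ x in Ω, (Real.log (w x + ε) - c) ^ 2) - R * volume.real Ω ≤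
      ∫ x in Ω, wt x / (w x + ε) := by
  have hp : ∀ x ∈ closure Ω, 0 < w x + ε := fun x hx => by
    have := hw0 x hx
    linarith
  have c0 : ContinuousOn (fun _ : Sp n => (0:ℝ)) (closure Ω) := continuousOn_const
  have cw := hw.c1.cont
  have cwe : ContinuousOn (fun x => w x + ε) (closure Ω) := cw.add continuousOn_const
  have h1 := f9_comp a1 hΩ hw.c1 (G := fun p => Real.log (p + ε)) (G' := fun p => (p + ε)⁻¹)
    (fun x hx => by
      have h2 := ((hasDerivAt_id (w x)).add_const ε).log (hp x hx).ne'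
      simpa using h2) (cwe.inv₀ fun x hx => (hp x hx).ne')
  have h2 := f9_comp a1 hΩ hw.c1 (G := fun p => (p + ε)⁻¹) (G' := fun p => -((p + ε) ^ 2)⁻¹)
    (fun x hx => by
      have h2 := ((hasDerivAt_id (w x)).add_const ε).fun_inv (hp x hx).ne'
      refine h2.congr_deriv ?_
      simp [neg_div, one_div]) ((cwe.pow 2).inv₀ fun x hx => (pow_pos (hp x hx) 2).ne').neg
  obtain ⟨c, hc⟩ := hPo _ _ h1
  have h3 := hw.green _ _ h2
  have h4 : ∫ x in Ω, lw x * (w x + ε)⁻¹ = ∫ x in Ω, ‖(w x + ε)⁻¹ • Dw x‖ ^ 2 := by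
    rw [h3, ← integral_neg]
    refine integral_congr_ae (Eventually.of_forall fun x => ?_)
    simp only [inner_smul_right, real_inner_self_eq_norm_sq, norm_smul, mul_pow, norm_inv,
      Real.norm_eq_abs, inv_pow, sq_abs]
    ring
  refine ⟨c, ?_⟩
  have h5 := f9_int_le a2 hΩ hb (H := fun x => -(wt x / (w x + ε)))
    (hwt.div cwe fun x hx => (hp x hx).ne').neg (F1 := fun x => lw x * (w x + ε)⁻¹)
    (hw.cont.mul (cwe.inv₀ fun x hx => (hp x hx).ne')) c0 c0 (-dk) 0 0 R
    (fun x hx => by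
      have h6 := hp x hx
      have h7 := hw0 x hx
      have h8 : w x / (w x + ε) ≤ 1 := by
        rw [div_le_one h6]
        linarith
      have h9 : 0 ≤ w x / (w x + ε) := div_nonneg h7 h6.le
      have h10 : |w x / (w x + ε) * e x| ≤ R := by
        rw [abs_mul, abs_of_nonneg h9]
        calc w x / (w x + ε) * |e x| ≤ 1 * |e x| :=
              mul_le_mul_of_nonneg_right h8 (abs_nonneg _)
          _ ≤ R := by
            rw [one_mul]
            exact he x hx
      have h11 := neg_abs_le (w x / (w x + ε) * e x)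
      have h12 : wt x / (w x + ε) = dk * (lw x * (w x + ε)⁻¹) + w x / (w x + ε) * e x := by
        rw [heq x hx]
        ring
      rw [h12]
      linarith)
  rw [integral_neg, h4] at h5
  have h6 : dk / P * (∫ x in Ω, (Real.log (w x + ε) - c) ^ 2) ≤
      dk * ∫ x in Ω, ‖(w x + ε)⁻¹ • Dw x‖ ^ 2 := by
    have h7 : dk / P * (∫ x in Ω, (Real.log (w x + ε) - c) ^ 2) ≤
        dk / P * (P * ∫ x in Ω, ‖(w x + ε)⁻¹ • Dw x‖ ^ 2) :=
      mul_le_mul_of_nonneg_left hc (by positivity)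
    refine h7.trans (le_of_eq ?_)
    field_simp
  linarith

/-- F9 -/
theorem p_F9 : StmF9 := by
  intro n N Ω P hB d m hm k hdk M A hA
  have hO := hB.isOpen
  have hb := hB.bdd
  set V := volume.real Ω with hV
  have hV0 : 0 < V := by
    rw [hV, Measure.real]
    exact ENNReal.toReal_pos (hO.measure_pos _ hB.nonempty).ne' hb.measure_lt_top.ne
  have hD0 : StmD0 := p_D0 p_A2 p_A3
  obtain ⟨R0, hR0, hd0⟩ := hD0 (N := N) Ω hO hb d m hm M
  obtain ⟨Rm, hRm⟩ := hb.isCompact_closure.exists_bound_of_continuousOn hm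
  have hP := hB.hP
  set R := |Rm| + N * |M| with hR
  have hR' : 0 ≤ R := by positivity
  set A' := A * Real.exp (-R0) with hA'
  have hA'0 : 0 < A' := by positivity
  set M1 := |M| + 1 with hM1
  have hM10 : 0 < M1 := by positivity
  set κ := d k / P * (A' / (2 * M1)) / V with hκ
  have hκ0 : 0 < κ := by positivity
  set l := Real.log (A' / (2 * V)) with hl
  set Y := max (Real.sqrt (2 * R / κ)) (2 / κ) with hY
  refine ⟨(Y - l) * V, ?_⟩
  intro T hT a haT u ut Du lu hsol hM hA1 ε hε hε1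
  have hn := hsol.nonneg
  have hp : ∀ t ∈ T, ∀ x ∈ closure Ω, 0 < u k t x + ε := fun t ht x hx => by
    have := hn k t ht x hx
    linarith
  -- mass
  have hmass : ∀ t ∈ Icc a (a + 1), A' ≤ ∫ x in Ω, u k t x := by
    intro t ht
    have h1 := (hd0 T hT a t ht.1 ((Icc_subset_Icc_right ht.2).trans haT) u ut Du lu hsol
      (fun j s hs x hx => hM j s ⟨hs.1, hs.2.trans ht.2⟩ x hx) k).1
    refine le_trans ?_ h1
    rw [hA']
    refine mul_le_mul hA1 ?_ (Real.exp_pos _).le (hA.le.trans hA1)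
    apply Real.exp_le_exp.2
    have h2 : t - a ≤ 1 := by
      have := ht.2
      linarith
    nlinarith
  -- derivative
  have hder : ∀ t ∈ T, HasDerivAt (fun s => ∫ x in Ω, Real.log (u k s x + ε))
      (∫ x in Ω, ut k t x / (u k t x + ε)) t := by
    refine p_A3 Ω hb hO.measurableSet T hT (fun s x => Real.log (u k s x + ε))
      (fun s x => ut k s x / (u k s x + ε)) ?_ ?_ ?_
    · exact ((hsol.cu k).add continuousOn_const).log fun p hp' => (hp p.1 hp'.1 p.2 hp'.2).ne'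
    · exact (hsol.ct k).div ((hsol.cu k).add continuousOn_const)
        fun p hp' => (hp p.1 hp'.1 p.2 hp'.2).ne'
    · intro t ht x hx
      exact ((hsol.dt k t ht x hx).add_const ε).log (hp t ht x hx).ne'
  -- Riccati
  have hric := p_D1 R κ hR' hκ0 a (fun t => l - (∫ x in Ω, Real.log (u k t x + ε)) / V)
    (fun t => -((∫ x in Ω, ut k t x / (u k t x + ε)) / V))
    (fun t ht => by
      have h1 := ((hder t (haT ht)).div_const V).const_sub l
      exact h1)
    (fun t ht hpos => by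
      have htT := haT ht
      obtain ⟨c, hc⟩ := f9_der p_A1 p_A2 hO hb hB.poinc hP hdk hε (hsol.lap k t htT)
        (hn k t htT) (f9_slice (hsol.ct k) htT) (e := fun x => m x - ∑ i, u i t x)
        (R := R) (hsol.eq k t htT) (fun x hx => by
          have h1 : |m x| ≤ |Rm| := (hRm x hx).trans (le_abs_self _)
          have h2 : |∑ i, u i t x| ≤ N * |M| := by
            refine (Finset.abs_sum_le_sum_abs _ _).trans ?_
            refine (Finset.sum_le_card_nsmul _ _ |M| fun i _ => ?_).trans (le_of_eq ?_)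
            · rw [abs_of_nonneg (hn i t htT x hx)]
              exact (hM i t ht x hx).trans (le_abs_self _)
            · simp
          exact (abs_sub _ _).trans (by linarith))
      have h3 := f9_var p_A2 hO hb (v := fun x => Real.log (u k t x + ε)) (w := u k t)
        (((f9_slice (hsol.cu k) htT).add continuousOn_const).log
          fun x hx => (hp t htT x hx).ne') (f9_slice (hsol.cu k) htT) (c := c) hε hV hV0 hA'0
        hM10 (fun x hx => rfl) (hn k t htT)
        (fun x hx => by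
          have := (hM k t ht x hx).trans (le_abs_self M)
          linarith) (hmass t ht) rfl (by simpa using sub_pos.1 hpos)
      have h4 := mul_le_mul_of_nonneg_left h3 (by positivity : 0 ≤ d k / P)
      have h5 : κ * (l - (∫ x in Ω, Real.log (u k t x + ε)) / V) ^ 2 =
          d k / P * ((l - (∫ x in Ω, Real.log (u k t x + ε)) / V) ^ 2 * (A' / (2 * M1))) / V := by
        rw [hκ]
        ring
      rw [h5, ← hV] at *
      have h6 : R = R * V / V := by field_simp
      have h7 : R - d k / P * ((l - (∫ x in Ω, Real.log (u k t x + ε)) / V) ^ 2 *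
          (A' / (2 * M1))) / V = (R * V - d k / P * ((l - (∫ x in Ω,
          Real.log (u k t x + ε)) / V) ^ 2 * (A' / (2 * M1)))) / V := by
        rw [sub_div, ← h6]
      rw [h7, ← neg_div]
      refine div_le_div_of_nonneg_right ?_ hV0.le
      linarith)
  -- conclusion
  have h9 : l - (∫ x in Ω, Real.log (u k (a + 1) x + ε)) / V ≤ Y := hric
  have h10 : l * V - (∫ x in Ω, Real.log (u k (a + 1) x + ε)) ≤ Y * V := by
    have := mul_le_mul_of_nonneg_right h9 hV0.le
    rw [sub_mul, div_mul_cancel₀ _ hV0.ne'] at this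
    exact this
  have h11 : Lg Ω ε (u k (a + 1)) = ∫ x in Ω, Real.log (u k (a + 1) x + ε) := rfl
  rw [h11]
  linarith

end Pool.Agent.Lib.MP_d8ef8f_an.Ff
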