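import Pool.Agent.Lib.MP_d8ef8f_an.Ff.StmG
import Pool.Agent.Lib.MP_d8ef8f_an.Ff.F4
import Pool.Agent.Lib.MP_d8ef8f_an.Gd.A1
import Pool.Agent.Lib.MP_d8ef8f_an.Gd.A2
import Pool.Agent.Lib.MP_d8ef8f_an.Gd.A3

/-!
# Piece G1: absolute flattening for a large rate
-/

set_option autoImplicit false

namespace Pool.Agent.Lib.MP_d8ef8f_an.Ff

open Set Filter Topology MeasureTheory
open Pool.Agent.Lib.MP_d8ef8f_an.Gd

private theorem g1_slice {n : ℕ} {Ω : Set (Sp n)} {T : Set ℝ} {E : Type} [TopologicalSpace E]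
    {F : ℝ → Sp n → E}
    (hF : ContinuousOn (fun p : ℝ × Sp n => F p.1 p.2) (T ×ˢ closure Ω)) {t : ℝ} (ht : t ∈ T) :
    ContinuousOn (F t) (closure Ω) := by
  have h1 : ContinuousOn (fun x : Sp n => (t, x)) (closure Ω) := by fun_prop
  exact hF.comp h1 fun x hx => ⟨ht, hx⟩

private theorem g1_lin {n : ℕ} {Ω : Set (Sp n)} (hb : Bornology.IsBounded Ω)
    {F1 F2 : Sp n → ℝ} (h1 : ContinuousOn F1 (closure Ω)) (h2 : ContinuousOn F2 (closure Ω))
    (k1 k2 k0 : ℝ) :
    ∫ x in Ω, (k1 * F1 x + k2 * F2 x + k0) =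
      k1 * (∫ x in Ω, F1 x) + k2 * (∫ x in Ω, F2 x) + k0 * volume.real Ω := by
  have i1 := (p_A2 Ω hb F1 h1).const_mul k1
  have i2 := (p_A2 Ω hb F2 h2).const_mul k2
  have i0 : IntegrableOn (fun _ : Sp n => k0) Ω := integrableOn_const hb.measure_lt_top.ne
  have e1 : ∫ x in Ω, (k1 * F1 x + k2 * F2 x) + k0 =
      (∫ x in Ω, k1 * F1 x + k2 * F2 x) + ∫ _ in Ω, k0 :=
    integral_add (i1.add i2) i0
  have e3 : ∫ x in Ω, k1 * F1 x + k2 * F2 x =
      (∫ x in Ω, k1 * F1 x) + ∫ x in Ω, k2 * F2 x := integral_add i1 i2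
  rw [e1, e3, integral_const_mul, integral_const_mul, setIntegral_const,
    smul_eq_mul, mul_comm k0]

private theorem g1_int_le {n : ℕ} {Ω : Set (Sp n)} (hΩ : IsOpen Ω)
    (hb : Bornology.IsBounded Ω) {H F1 F2 : Sp n → ℝ} (hH : ContinuousOn H (closure Ω))
    (h1 : ContinuousOn F1 (closure Ω)) (h2 : ContinuousOn F2 (closure Ω)) (k1 k2 k0 : ℝ)
    (h : ∀ x ∈ closure Ω, H x ≤ k1 * F1 x + k2 * F2 x + k0) :
    ∫ x in Ω, H x ≤ k1 * (∫ x in Ω, F1 x) + k2 * (∫ x in Ω, F2 x) +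
      k0 * volume.real Ω := by
  rw [← g1_lin hb h1 h2]
  refine setIntegral_mono_on (p_A2 Ω hb H hH) (p_A2 Ω hb _ ?_) hΩ.measurableSet
    fun x hx => h x (subset_closure hx)
  exact ((continuousOn_const.mul h1).add (continuousOn_const.mul h2)).add continuousOn_const

private theorem g1_vol {n : ℕ} {Ω : Set (Sp n)} (hΩ : IsOpen Ω) (hne : Ω.Nonempty)
    (hb : Bornology.IsBounded Ω) : 0 < volume.real Ω :=
  ENNReal.toReal_pos (hΩ.measure_pos volume hne).ne' hb.measure_lt_top.ne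

/-- the static inequality -/
private theorem g1_static {n : ℕ} {Ω : Set (Sp n)} {P : ℝ} (hD : Dom Ω P)
    {w lw h wt : Sp n → ℝ} {Dw : Sp n → Sp n} {d R K r : ℝ} (hw : NeuLap Ω w Dw lw)
    (hw0 : ∀ x ∈ closure Ω, 0 ≤ w x) (hwK : ∀ x ∈ closure Ω, w x ≤ K)
    (hh : ContinuousOn h (closure Ω))
    (hR : ∀ x ∈ closure Ω, |h x| ≤ R) (hK0 : 0 < K) (hd : 0 < d) (hr : r = d / P)
    (hr0 : 0 < r) (hwt : ∀ x ∈ closure Ω, wt x = d * lw x + w x * h x)
    {V μ W : ℝ} (hV : V = volume.real Ω) (hμ : μ = ∫ x in Ω, w x)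
    (hW : W = ∫ x in Ω, w x ^ 2) :
    (∫ x in Ω, 2 * w x * wt x) - 2 * μ * (∫ x in Ω, w x * h x) / V ≤
      - r * (W - μ ^ 2 / V) + R ^ 2 * K ^ 2 * V / r := by
  obtain ⟨hΩ, hne, hb, hPo, hP⟩ := hD
  have hV0 : 0 < V := hV ▸ g1_vol hΩ hne hb
  have cw := hw.c1.cont
  have cw2 : ContinuousOn (fun x => w x ^ 2) (closure Ω) := cw.pow 2
  have cl := hw.cont
  -- energy
  set E := ∫ x in Ω, ‖Dw x‖ ^ 2 with hE
  set J2 := ∫ x in Ω, w x ^ 2 * h x with hJ2
  set J1 := ∫ x in Ω, w x * h x with hJ1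
  have cJ2 : ContinuousOn (fun x => w x ^ 2 * h x) (closure Ω) := cw2.mul hh
  have cJ1 : ContinuousOn (fun x => w x * h x) (closure Ω) := cw.mul hh
  have g1 : ∫ x in Ω, lw x * w x = - E := by
    rw [hw.green w Dw hw.c1, hE]
    congr 1
    refine integral_congr_ae (ae_of_all _ fun x => ?_)
    exact real_inner_self_eq_norm_sq _
  have g2 : ∫ x in Ω, 2 * w x * wt x = 2 * d * (∫ x in Ω, lw x * w x) + 2 * J2 := by
    have e := g1_lin hb (F1 := fun x => lw x * w x) (F2 := fun x => w x ^ 2 * h x)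
      (cl.mul cw) cJ2 (2 * d) 2 0
    rw [zero_mul, add_zero] at e
    rw [hJ2, ← e]
    refine setIntegral_congr_fun hΩ.measurableSet fun x hx => ?_
    have := hwt x (subset_closure hx)
    simp only [this]
    ring
  obtain ⟨c, hc⟩ := hPo w Dw hw.c1
  have g3 : ∫ x in Ω, (w x - c) ^ 2 = W - 2 * c * μ + c ^ 2 * V := by
    have e := g1_lin hb (F1 := fun x => w x ^ 2) (F2 := w) cw2 cw 1 (-(2 * c)) (c ^ 2)
    rw [hW, hμ, hV]
    have e2 : ∫ x in Ω, (w x - c) ^ 2 = ∫ x in Ω, (1 * w x ^ 2 + -(2 * c) * w x + c ^ 2) :=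
      integral_congr_ae (ae_of_all _ fun x => by simp only; ring)
    rw [e2, e]
    ring
  have g4 : W - μ ^ 2 / V ≤ P * E := by
    have h1 : W - μ ^ 2 / V ≤ W - 2 * c * μ + c ^ 2 * V := by
      have h2 : 0 ≤ (c * V - μ) ^ 2 / V := by positivity
      have h3 : (c * V - μ) ^ 2 / V = c ^ 2 * V - 2 * c * μ + μ ^ 2 / V := by
        field_simp
        ring
      linarith
    linarith [hc, g3]
  have g5 : ∫ x in Ω, (w x - μ / V) ^ 2 = W - μ ^ 2 / V := by
    have e := g1_lin hb (F1 := fun x => w x ^ 2) (F2 := w) cw2 cw 1 (-(2 * (μ / V)))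
      ((μ / V) ^ 2)
    have e2 : ∫ x in Ω, (w x - μ / V) ^ 2 =
        ∫ x in Ω, (1 * w x ^ 2 + -(2 * (μ / V)) * w x + (μ / V) ^ 2) :=
      integral_congr_ae (ae_of_all _ fun x => by simp only; ring)
    rw [e2, e, ← hW, ← hμ, ← hV]
    field_simp
    ring
  have cq : ContinuousOn (fun x => (w x - μ / V) ^ 2) (closure Ω) :=
    (cw.sub continuousOn_const).pow 2
  have key := g1_int_le hΩ hb
    (H := fun x => 2 * (w x ^ 2 * h x) + (-(2 * (μ / V))) * (w x * h x) + 0)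
    (F1 := fun x => (w x - μ / V) ^ 2) (F2 := fun _ => 0)
    (((continuousOn_const.mul cJ2).add (continuousOn_const.mul cJ1)).add continuousOn_const)
    cq continuousOn_const r 0 (R ^ 2 * K ^ 2 / r) ?_
  · rw [g1_lin hb cJ2 cJ1, g5, ← hJ2, ← hJ1, ← hV] at key
    have e1 : 2 * r * (W - μ ^ 2 / V) ≤ 2 * d * E := by
      have h2 : 2 * r * (W - μ ^ 2 / V) ≤ 2 * r * (P * E) :=
        mul_le_mul_of_nonneg_left g4 (by positivity)
      have h3 : 2 * r * (P * E) = 2 * d * E := by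
        rw [hr]
        field_simp
      linarith
    rw [g2, g1]
    have e2 : 2 * μ * J1 / V = 2 * (μ / V) * J1 := by ring
    have e3 : R ^ 2 * K ^ 2 / r * V = R ^ 2 * K ^ 2 * V / r := by ring
    rw [e3] at key
    rw [e2]
    linarith
  · intro x hx
    have h1 := hw0 x hx
    have h1K := hwK x hx
    have h2 := hR x hx
    set q := w x - μ / V with hq
    have h3 : 2 * (w x ^ 2 * h x) + (-(2 * (μ / V))) * (w x * h x) + 0 = 2 * (q * (w x * h x)) := by
      rw [hq]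
      ring
    rw [h3]
    have h4 : q * (w x * h x) ≤ |q| * (R * K) := by
      refine (le_abs_self _).trans ?_
      rw [abs_mul, abs_mul, abs_of_nonneg h1]
      refine mul_le_mul_of_nonneg_left ?_ (abs_nonneg _)
      rw [mul_comm R K]
      exact mul_le_mul h1K h2 (abs_nonneg _) hK0.le
    have h7 : 0 ≤ (r * |q| - R * K) ^ 2 / r := by positivity
    have h8 : (r * |q| - R * K) ^ 2 / r =
        r * |q| ^ 2 - 2 * (|q| * (R * K)) + R ^ 2 * K ^ 2 / r := by
      field_simp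
      ring
    rw [h8, sq_abs] at h7
    linarith

/-- Gronwall -/
private theorem g1_gron {a b r c : ℝ} (hr : 0 < r) {y y' : ℝ → ℝ}
    (hy : ∀ t ∈ Icc a b, HasDerivAt y (y' t) t) (h : ∀ t ∈ Icc a b, y' t ≤ - r * y t + c) :
    ∀ t ∈ Icc a b, y t ≤ y a * Real.exp (- (r * (t - a))) + c / r * (1 - Real.exp (- (r * (t - a)))) := by
  intro t ht
  have hd : ∀ s ∈ Icc a b, HasDerivAt (fun s => (y s - c / r) * Real.exp (r * (s - a)))
      (y' s * Real.exp (r * (s - a)) + (y s - c / r) * (Real.exp (r * (s - a)) * r)) s := by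
    intro s hs
    have h1 : HasDerivAt (fun s => Real.exp (r * (s - a))) (Real.exp (r * (s - a)) * r) s := by
      have h2 := ((((hasDerivAt_id s).sub_const a).const_mul r)).exp
      simpa using h2
    exact ((hy s hs).sub_const _).mul h1
  have hanti : AntitoneOn (fun s => (y s - c / r) * Real.exp (r * (s - a))) (Icc a b) := by
    refine antitoneOn_of_deriv_nonpos (convex_Icc a b)
      (fun s hs => (hd s hs).continuousAt.continuousWithinAt)
      (fun s hs => (hd s (interior_subset hs)).differentiableAt.differentiableWithinAt) ?_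
    intro s hs
    have hs' := interior_subset hs
    rw [(hd s hs').deriv]
    have h1 := h s hs'
    have h2 : y' s * Real.exp (r * (s - a)) + (y s - c / r) * (Real.exp (r * (s - a)) * r) =
        Real.exp (r * (s - a)) * (y' s + r * y s - c) := by
      field_simp
      ring
    rw [h2]
    exact mul_nonpos_of_nonneg_of_nonpos (Real.exp_pos _).le (by linarith)
  have h1 := hanti (left_mem_Icc.2 (ht.1.trans ht.2)) ht ht.1
  simp only [sub_self, mul_zero, Real.exp_zero, mul_one] at h1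
  have h2 : Real.exp (r * (t - a)) * Real.exp (- (r * (t - a))) = 1 := by
    rw [← Real.exp_add]
    simp
  have h3 : (y t - c / r) * Real.exp (r * (t - a)) * Real.exp (- (r * (t - a))) ≤
      (y a - c / r) * Real.exp (- (r * (t - a))) :=
    mul_le_mul_of_nonneg_right h1 (Real.exp_pos _).le
  rw [mul_assoc, h2, mul_one] at h3
  linarith

/-- absolute flattening -/
theorem p_G1 : StmG1 := by
  intro n N Ω P hD d m hm i R K hR0 hK0 hd T hT a b hab hsub u ut Du lu hsol hR hK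
  have hD' := hD
  obtain ⟨hΩ, hne, hb, hPo, hP⟩ := hD
  set V := vol Ω with hV
  have hVr : V = volume.real Ω := rfl
  have hV0 : 0 < V := g1_vol hΩ hne hb
  set h : ℝ → Sp n → ℝ := fun t x => m x - ∑ j, u j t x with hh
  obtain ⟨f1, _⟩ := p_F4 Ω hΩ hb d m hm T hT u ut Du lu hsol i
  have cu : ∀ t ∈ T, ContinuousOn (u i t) (closure Ω) := fun t ht => g1_slice (hsol.cu i) ht
  have ch : ∀ t ∈ T, ContinuousOn (h t) (closure Ω) := fun t ht =>
    hm.sub (continuousOn_finsetSum _ fun j _ => g1_slice (hsol.cu j) ht)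
  -- the functional
  set W : ℝ → ℝ := fun t => ∫ x in Ω, u i t x ^ 2 with hW
  set z : ℝ → ℝ := fun t => W t - mass Ω (u i t) ^ 2 / V with hz
  have hzf : ∀ t ∈ T, Zf Ω (u i t) = z t := by
    intro t ht
    have cw := cu t ht
    have e := g1_lin hb (F1 := fun x => u i t x ^ 2) (F2 := u i t) (cw.pow 2) cw 1
      (-(2 * (mass Ω (u i t) / V))) ((mass Ω (u i t) / V) ^ 2)
    have e2 : Zf Ω (u i t) = ∫ x in Ω, (1 * u i t x ^ 2 +
        -(2 * (mass Ω (u i t) / V)) * u i t x + (mass Ω (u i t) / V) ^ 2) :=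
      integral_congr_ae (ae_of_all _ fun x => by simp only; ring)
    have e3 : ∫ x in Ω, u i t x = mass Ω (u i t) := rfl
    rw [e2, e, e3, ← hVr]
    simp only [hz, hW]
    field_simp
    ring
  have hWd : ∀ t ∈ Icc a b, HasDerivAt W (∫ x in Ω, 2 * u i t x * ut i t x) t := by
    intro t ht
    refine p_A3 Ω hb hΩ.measurableSet T hT (fun t x => u i t x ^ 2)
      (fun t x => 2 * u i t x * ut i t x) ((hsol.cu i).pow 2)
      ((continuousOn_const.mul (hsol.cu i)).mul (hsol.ct i)) ?_ t (hsub ht)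
    intro s hs x hx
    have h1 := (hsol.dt i s hs x hx).pow 2
    refine h1.congr_deriv ?_
    simp
  set z' : ℝ → ℝ := fun t => (∫ x in Ω, 2 * u i t x * ut i t x)
        - 2 * mass Ω (u i t) * (∫ x in Ω, u i t x * h t x) / V with hz'
  have hzd : ∀ t ∈ Icc a b, HasDerivAt z (z' t) t := by
    intro t ht
    have h1 := hWd t ht
    have h2 := f1 t (hsub ht)
    have h3 : HasDerivAt (fun s => mass Ω (u i s) ^ 2)
        (2 * mass Ω (u i t) * ∫ x in Ω, u i t x * h t x) t := by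
      refine (h2.pow 2).congr_deriv ?_
      simp [hh]
    exact h1.sub (h3.div_const V)
  have hr0 : 0 < d i / P := div_pos hd hP
  have hzi : ∀ t ∈ Icc a b, z' t ≤ - (d i / P) * z t + R ^ 2 * K ^ 2 * V / (d i / P) := by
    intro t ht
    have htT := hsub ht
    exact g1_static hD' (hsol.lap i t htT) (hsol.nonneg i t htT) (hK t ht) (ch t htT) (hR t ht)
      hK0 hd rfl hr0 (hsol.eq i t htT) hVr rfl rfl
  intro t ht
  have g := g1_gron hr0 hzd hzi t ht
  rw [hzf t (hsub ht)]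
  -- initial value
  have ha : a ∈ Icc a b := left_mem_Icc.2 hab
  have hWa : W a ≤ K ^ 2 * V := by
    have h1 := g1_int_le hΩ hb (H := fun x => u i a x ^ 2) (F1 := fun _ => 0) (F2 := fun _ => 0)
      ((cu a (hsub ha)).pow 2) continuousOn_const continuousOn_const 0 0 (K ^ 2) (fun x hx => by
        have h2 := hsol.nonneg i a (hsub ha) x hx
        have h3 := pow_le_pow_left₀ h2 (hK a ha x hx) 2
        linarith)
    have h2 : ∫ x in Ω, u i a x ^ 2 ≤ K ^ 2 * volume.real Ω := by simpa using h1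
    exact h2
  have hza : z a ≤ K ^ 2 * V := by
    have h1 : 0 ≤ mass Ω (u i a) ^ 2 / V := by positivity
    simp only [hz]
    linarith
  have e1 : 0 < Real.exp (- (d i / P * (t - a))) := Real.exp_pos _
  have e2 : z a * Real.exp (- (d i / P * (t - a))) ≤
      K ^ 2 * V * Real.exp (- (d i / P * (t - a))) :=
    mul_le_mul_of_nonneg_right hza e1.le
  have e3 : R ^ 2 * K ^ 2 * V / (d i / P) / (d i / P) = (P / d i) ^ 2 * (R ^ 2 * K ^ 2 * V) := by
    field_simp
  have e4 : 0 ≤ (P / d i) ^ 2 * (R ^ 2 * K ^ 2 * V) := by positivity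
  rw [e3] at g
  have e6 : (P / d i) ^ 2 * (R ^ 2 * K ^ 2 * V) * (1 - Real.exp (- (d i / P * (t - a)))) ≤
      (P / d i) ^ 2 * (R ^ 2 * K ^ 2 * V) := by
    have := mul_nonneg e4 e1.le
    linarith
  linarith

end Pool.Agent.Lib.MP_d8ef8f_an.Ff
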