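import Pool.Agent.Lib.MP_d8ef8f_an.Ff.StmG
import Pool.Agent.Lib.MP_d8ef8f_an.Ff.F10
import Pool.Agent.Lib.MP_d8ef8f_an.Gd.A2

/-!
# Piece G10: large rates (assembly)
-/

set_option autoImplicit false

namespace Pool.Agent.Lib.MP_d8ef8f_an.Ff

open Set Filter Topology MeasureTheory
open Pool.Agent.Lib.MP_d8ef8f_an.Gd

theorem g10_phiq {n : ℕ} {Ω : Set (Sp n)} (hΩ : IsOpen Ω) (hb : Bornology.IsBounded Ω)
    {w : Sp n → ℝ} (hw : ContinuousOn w (closure Ω)) (h0 : ∀ x ∈ closure Ω, 0 ≤ w x)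
    (hm : 0 < mass Ω w) {φ : Sp n → ℝ} (hφ : ContinuousOn φ (closure Ω)) {Φ : ℝ}
    (hΦ : ∀ x ∈ closure Ω, |φ x| ≤ Φ) :
    |∫ x in Ω, φ x * qr Ω w x| ≤ Φ * vol Ω := by
  have hV : 0 ≤ vol Ω := measureReal_nonneg
  have hq : ContinuousOn (qr Ω w) (closure Ω) :=
    (continuousOn_const.mul hw).div_const _
  have hq0 : ∀ x ∈ closure Ω, 0 ≤ qr Ω w x := fun x hx => by
    unfold qr
    have := h0 x hx
    positivity
  have i1 : IntegrableOn (fun x => φ x * qr Ω w x) Ω := p_A2 Ω hb _ (hφ.mul hq)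
  have i2 : IntegrableOn (fun x => Φ * qr Ω w x) Ω := (p_A2 Ω hb _ hq).const_mul _
  have e : ∫ x in Ω, Φ * qr Ω w x = Φ * vol Ω := by
    rw [integral_const_mul]
    unfold qr
    have e2 : ∫ x in Ω, vol Ω * w x / mass Ω w = vol Ω := by
      have : ∀ x, vol Ω * w x / mass Ω w = vol Ω / mass Ω w * w x := fun x => by ring
      simp only [this]
      rw [integral_const_mul]
      change vol Ω / mass Ω w * mass Ω w = vol Ω
      field_simp
    rw [e2]
  have h1 : ∀ x ∈ Ω, |φ x * qr Ω w x| ≤ Φ * qr Ω w x := fun x hx => by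
    rw [abs_mul, abs_of_nonneg (hq0 x (subset_closure hx))]
    exact mul_le_mul_of_nonneg_right (hΦ x (subset_closure hx)) (hq0 x (subset_closure hx))
  rw [← e, abs_le]
  constructor
  · rw [← integral_neg]
    exact setIntegral_mono_on i2.neg i1 hΩ.measurableSet fun x hx => (abs_le.1 (h1 x hx)).1
  · exact setIntegral_mono_on i1 i2 hΩ.measurableSet fun x hx => (abs_le.1 (h1 x hx)).2

/-- the core estimate on an interval where the sup bound holds -/
theorem g10_core (h3 : StmF3) (h4 : StmF4) (h5 : StmF5) (h9 : StmF9) (g1 : StmG1) (g2 : StmG2)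
    (g5 : StmG5)
    {n N : ℕ} (Ω : Set (Sp n)) (P : ℝ) (hD : Dom Ω P) (d : Fin N → ℝ) (m : Sp n → ℝ)
    (hm : ContinuousOn m (closure Ω)) (hd : ∀ j, 0 < d j)
    (φ : Sp n → ℝ) (Dφ : Sp n → Sp n) (Φ I N2 δ : ℝ) (hφ : C1 Ω φ Dφ)
    (hΦ : ∀ x ∈ closure Ω, |φ x| ≤ Φ) (hN2 : (∫ x in Ω, ‖Dφ x‖ ^ 2) = N2)
    (hφ0 : (∫ x in Ω, φ x) = 0) (hφm : (∫ x in Ω, m x * φ x) = I) (hI : 0 ≤ I) (hδ : 0 ≤ δ)
    (hvar : ∀ (ψ : Sp n → ℝ) (Dψ : Sp n → Sp n), C1 Ω ψ Dψ → (∫ x in Ω, ψ x) = 0 →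
        ((∫ x in Ω, m x * ψ x) - ∫ x in Ω, inner ℝ (Dφ x) (Dψ x)) ^ 2 ≤
          δ ^ 2 * ∫ x in Ω, ‖Dψ x‖ ^ 2)
    (k l : Fin N) (L : Finset (Fin N)) (hkl : k ≠ l) (hkL : k ∉ L) (hlL : l ∉ L)
    (K R Cy Cz c ζ ν γ r : ℝ) (hK : 1 ≤ K) (hR : 0 < R) (hΦ0 : 0 < Φ) (hCy : 0 ≤ Cy)
    (hCz : 0 ≤ Cz) (hc : 0 < c) (hζ : 0 < ζ) (hν : 0 ≤ ν) (hγ : 0 < γ) (hdk1 : 1 ≤ d k)
    (hdk16 : 16 * Φ ≤ d k) (hcl : (1 + c) * d k ≤ d l)
    (hmain : 2 * γ ≤ 2 * I - N2 - I / (1 + c)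
      - (4 * Φ * N2 + 3 * N * Φ * Real.sqrt (vol Ω) * Cz + 2 * R * Φ * Real.sqrt (vol Ω) * Cy
          + N * Cy * Cz) / d k
      - (3 * Φ * ν + Cy * N * Real.sqrt (K * ν))
      - 2 * ζ * R * (Cy ^ 2 + Real.sqrt (vol Ω) * Cy) - δ ^ 2 / (4 * ζ))
    (hr : r = d l / P - 2 * R) (hr8 : 8 * R ≤ r)
    (hCy1 : 8 * R ^ 2 * vol Ω / r ^ 2 ≤ (Cy / d k) ^ 2)
    (hCz1 : ∀ i, i ∉ L → K ^ 2 * vol Ω * Real.exp (- (d i / P)) +
      (P / d i) ^ 2 * (R ^ 2 * K ^ 2 * vol Ω) ≤ (Cz / d k) ^ 2)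
    (hRK : ∀ v : Fin N → Sp n → ℝ,
      (∀ j, ∀ x ∈ closure Ω, 0 ≤ v j x ∧ v j x ≤ K) →
        ∀ x ∈ closure Ω, |m x - ∑ j, v j x| ≤ R) (A κ : ℝ) (hA : 0 < A) (hκ : 0 < κ) :
    ∃ S : ℝ, ∀ (T : Set ℝ), IsOpen T → ∀ (a b : ℝ), a ≤ b → Icc a b ⊆ T →
    ∀ (u ut : Fin N → ℝ → Sp n → ℝ) (Du : Fin N → ℝ → Sp n → Sp n) (lu : Fin N → ℝ → Sp n → ℝ),
      IsSol Ω d m T u ut Du lu → (∀ j, ∀ t ∈ Icc a b, ∀ x ∈ closure Ω, u j t x ≤ K) →
      A ≤ mass Ω (u k a) → (∀ t ∈ Icc a b, (∑ j ∈ L, mass Ω (u j t)) ≤ ν) →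
      κ ≤ mass Ω (u l b) → b - a ≤ S := by
  have hO := hD.isOpen
  have hb := hD.bdd
  have hP := hD.hP
  have hV := f10_vol_pos hD
  set V := vol Ω with hVdef
  have hK0 : 0 ≤ K := by linarith
  have hr0 : 0 < r := by linarith
  have hdk := hd k
  have hdl := hd l
  obtain ⟨KA, hKA⟩ := h9 Ω P hD d m hm k (hd k) K A hA
  set L1 := V * Real.log (K + 1) with hL1
  have hlogK : 0 ≤ Real.log (K + 1) := Real.log_nonneg (by linarith)
  have hL10 : 0 ≤ L1 := by positivity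
  have hηΦ : 2 / d k * Φ ≤ 1 / 8 := by
    rw [div_mul_eq_mul_div, div_le_iff₀ hdk]
    linarith
  have hη : 0 ≤ 2 / d k := by positivity
  set C1 := 9 / 8 * L1 + 1 / d l * (Φ * V) with hC1
  set L1' := L1 + 4 * (1 / d l * (Φ * V) + ζ / 2 * (Cy / d k) ^ 2) with hL1'
  set lB := Real.log (K * V * r / (2 * R)) with hlB
  set LM := Real.log (K * V) with hLM
  set lk := Real.log κ with hlk
  set η' := 4 * (γ / d k) with hη'
  have hη'0 : 0 < η' := by positivity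
  refine ⟨4 / 3 * (4 / η' * (|C1| + V * |lk| + 9 / 8 * |KA| + |L1'| + V * |LM| + R * V
      + V * |lB|) + 1 + 2 / r * (|lB| + |lk|)), ?_⟩
  intro T hT a b hab hIcc u ut Du lu hs hM hmk hlow hml
  have hn := hs.nonneg
  have hpt : ∀ t ∈ Icc a b, ∀ x ∈ closure Ω, |m x - ∑ j, u j t x| ≤ R := fun t ht =>
    hRK (fun j => u j t) fun j x hx => ⟨hn j t (hIcc ht) x hx, hM j t ht x hx⟩
  have hmass := fun j => h4 Ω hO hb d m hm T hT u ut Du lu hs j
  have hbd : ∀ j, ∀ s t, a ≤ s → s ≤ t → t ≤ b →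
      mass Ω (u j s) * Real.exp (- (R * (t - s))) ≤ mass Ω (u j t) ∧
      mass Ω (u j t) ≤ mass Ω (u j s) * Real.exp (R * (t - s)) := fun j s t hs1 hst htb =>
    (hmass j).2 R s t hst ((Icc_subset_Icc hs1 htb).trans hIcc)
      fun t' ht' => hpt t' ⟨hs1.trans ht'.1, ht'.2.trans htb⟩
  have hmass0 : ∀ j, ∀ t ∈ Icc a b, 0 ≤ mass Ω (u j t) := fun j t ht =>
    setIntegral_nonneg hO.measurableSet fun x hx => hn j t (hIcc ht) x (subset_closure hx)
  have hmassK : ∀ j, ∀ t ∈ Icc a b, mass Ω (u j t) ≤ K * V := fun j t ht => by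
    have h := setIntegral_mono_on (p_A2 Ω hb _ (f10_slice hs j (hIcc ht)))
      (integrableOn_const hb.measure_lt_top.ne : IntegrableOn (fun _ : Sp n => K) Ω)
      hO.measurableSet fun x hx => hM j t ht x (subset_closure hx)
    rw [setIntegral_const, smul_eq_mul, mul_comm] at h
    exact h
  -- the mass of the fast species
  have hml0 : 0 < mass Ω (u l b) := lt_of_lt_of_le hκ hml
  have hmlpos : ∀ t ∈ Icc a b, 0 < mass Ω (u l t) := fun t ht => by
    by_contra hneg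
    have h0 : mass Ω (u l t) = 0 := le_antisymm (not_lt.1 hneg) (hmass0 l t ht)
    have h1 := (hbd l t b ht.1 ht.2 le_rfl).2
    rw [h0, zero_mul] at h1
    linarith
  have haI : a ∈ Icc a b := ⟨le_rfl, hab⟩
  have hbI : b ∈ Icc a b := ⟨hab, le_rfl⟩
  set μ := mass Ω (u l a) with hμ
  have hμ0 : 0 < μ := hmlpos a haI
  set lm := Real.log μ with hlm
  have e1 : lk ≤ lm + R * (b - a) := by
    have h1 := hml.trans (hbd l a b le_rfl hab le_rfl).2
    have h2 := Real.log_le_log hκ h1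
    rwa [Real.log_mul hμ0.ne' (Real.exp_pos _).ne', Real.log_exp] at h2
  have e2 : lm ≤ LM := Real.log_le_log hμ0 (hmassK l a haI)
  set t1 := 2 / r * max 0 (lB - lm) with ht1
  have ht10 : 0 ≤ t1 := by positivity
  set a0 := a + max 1 t1 with ha0
  have ha0' : a + 1 ≤ a0 := by
    rw [ha0]
    linarith [le_max_left 1 t1]
  have hwait := f10_wait hR hr8 hab e1 ht1 ha0
  have hbig : 0 ≤ 4 / η' * (|C1| + V * |lk| + 9 / 8 * |KA| + |L1'| + V * |LM| + R * V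
      + V * |lB|) := by positivity
  rcases lt_or_ge b a0 with hcase | hcase
  · linarith
  -- main case
  have h1b : a + 1 ≤ b := ha0'.trans hcase
  have hflat : ∀ t ∈ Icc a0 b, Yq Ω (u l t) ≤ (Cy / d k) ^ 2 := by
    intro t ht
    have hat : a ≤ t := by linarith [ht.1]
    have htI : t ∈ Icc a b := ⟨hat, ht.2⟩
    have h1 := g2 Ω P hD d m hm l R K r hR (hd l) hr hr0 T hT a b hab hIcc u ut Du lu hs hpt
      (fun x hx => hM l a haI x hx) hμ0 t htI
    have hB0 : 0 < K * V * r / (2 * R) := by positivity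
    have h6 : Real.exp (- (r * (t - a))) ≤ (μ / (K * V * r / (2 * R))) ^ 2 := by
      have h7 : 2 * (lB - lm) ≤ r * (t - a) := by
        have h8 : r * t1 = 2 * max 0 (lB - lm) := by
          rw [ht1]
          field_simp
        have h9 : r * t1 ≤ r * (t - a) := by
          apply mul_le_mul_of_nonneg_left _ hr0.le
          have := le_max_right 1 t1
          have := ht.1
          linarith
        have h10 := le_max_right 0 (lB - lm)
        linarith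
      have h8 : (μ / (K * V * r / (2 * R))) ^ 2 = Real.exp (- (2 * (lB - lm))) := by
        have h9 : μ / (K * V * r / (2 * R)) = Real.exp (lm - lB) := by
          rw [Real.exp_sub, hlm, hlB, Real.exp_log hμ0, Real.exp_log hB0]
        rw [h9, ← Real.exp_nat_mul]
        congr 1
        push_cast
        ring
      rw [h8]
      exact Real.exp_le_exp.2 (by linarith)
    have h8 : K ^ 2 * V ^ 3 / μ ^ 2 * Real.exp (- (r * (t - a))) ≤
        K ^ 2 * V ^ 3 / μ ^ 2 * (μ / (K * V * r / (2 * R))) ^ 2 :=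
      mul_le_mul_of_nonneg_left h6 (by positivity)
    have h9 : K ^ 2 * V ^ 3 / μ ^ 2 * (μ / (K * V * r / (2 * R))) ^ 2 =
        4 * R ^ 2 * V / r ^ 2 := by
      field_simp
      norm_num
    rw [h9] at h8
    have h10 : 8 * R ^ 2 * V / r ^ 2 = 4 * R ^ 2 * V / r ^ 2 + 4 * R ^ 2 * V / r ^ 2 := by ring
    linarith
  have hflatZ : ∀ t ∈ Icc (a + 1) b, ∀ i, i ∉ L → Zf Ω (u i t) ≤ (Cz / d k) ^ 2 := by
    intro t ht i hi
    have htI : t ∈ Icc a b := ⟨by linarith [ht.1], ht.2⟩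
    have h1 := g1 Ω P hD d m hm i R K hR (by linarith) (hd i) T hT a b hab hIcc u ut Du lu hs hpt
      (fun t ht => hM i t ht) t htI
    refine h1.trans (le_trans ?_ (hCz1 i hi))
    have h2 : Real.exp (- (d i / P * (t - a))) ≤ Real.exp (- (d i / P)) := by
      apply Real.exp_le_exp.2
      have h3 : 0 ≤ d i / P := by
        have := hd i
        positivity
      have h4 : 1 ≤ t - a := by linarith [ht.1]
      nlinarith
    have h3 := mul_le_mul_of_nonneg_left h2 (by positivity : 0 ≤ K ^ 2 * V)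
    linarith
  -- the choice of the regularisation
  set Kb := |KA| + R * V * (b - a) with hKb
  have hKb0 : 0 ≤ Kb := by
    have : 0 ≤ b - a := by linarith
    positivity
  set δ' := γ / d k / (2 * R) with hδ'
  have hδ'0 : 0 < δ' := by positivity
  set c0 := V * (1 + Real.log (K + 1)) with hc0
  have hc00 : 0 ≤ c0 := by positivity
  obtain ⟨ε, hε0, hε1, hlε, hεδ⟩ := f10_eps (c0 + Kb) δ' hδ'0
  have hu0 : ∀ j, ∀ t ∈ Icc a b, ∀ x ∈ closure Ω, 0 ≤ u j t x := fun j t ht =>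
    hn j t (hIcc ht)
  have hcu : ∀ j, ∀ t ∈ Icc a b, ContinuousOn (u j t) (closure Ω) := fun j t ht =>
    f10_slice hs j (hIcc ht)
  have hLgle : ∀ j, ∀ t ∈ Icc a b, Lg Ω ε (u j t) ≤ L1 := fun j t ht =>
    f10_Lg_le hO hb (hcu j t ht) (hu0 j t ht) (hM j t ht) hε0 hε1.le
  have hEr : ∀ j, ∀ t ∈ Icc a b, Er Ω ε (u j t) ≤ (c0 - Lg Ω ε (u j t)) / Real.log (1 / ε) :=
    fun j t ht => h5 Ω hO hb (u j t) (hcu j t ht) K (fun x hx => ⟨hu0 j t ht x hx, hM j t ht x hx⟩)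
      ε hε0 hε1
  -- the lower bound of the logarithmic integral
  have hXa : - KA ≤ Lg Ω ε (u k (a + 1)) :=
    hKA T hT a ((Icc_subset_Icc_right h1b).trans hIcc) u ut Du lu hs
      (fun j t ht => hM j t ⟨ht.1, ht.2.trans h1b⟩) hmk ε hε0 hε1.le
  have hX : ∀ t ∈ Icc (a + 1) b, - KA - R * V * (t - (a + 1)) ≤ Lg Ω ε (u k t) := by
    intro t ht
    have h := f10_grow (f := fun s => Lg Ω ε (u k s)) (c := - (R * V)) ht.1 fun s hs' => by
      have hsI : s ∈ Icc a b := ⟨by linarith [hs'.1], hs'.2.trans ht.2⟩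
      exact f10_dLg h3 hD hm hd hT hs hε0 k (hIcc hsI) (hpt s hsI)
    linarith
  have hXb : ∀ t ∈ Icc (a + 1) b, - Kb ≤ Lg Ω ε (u k t) := by
    intro t ht
    have h := hX t ht
    have h' : R * V * (t - (a + 1)) ≤ R * V * (b - a) :=
      mul_le_mul_of_nonneg_left (by linarith [ht.2]) (by positivity)
    have := le_abs_self KA
    linarith
  have hgrow : η' / 4 * (b - a0) ≤ Psi2 Ω k l (2 / d k) ζ ε (d l) φ (fun j => u j b) -
      Psi2 Ω k l (2 / d k) ζ ε (d l) φ (fun j => u j a0) := by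
    have e : η' / 4 = γ / d k := by rw [hη']; ring
    rw [e]
    refine f10_grow (f := fun s => Psi2 Ω k l (2 / d k) ζ ε (d l) φ (fun j => u j s)) hcase ?_
    intro t ht
    have htI : t ∈ Icc a b := ⟨by linarith [ht.1], ht.2⟩
    have ht1I : t ∈ Icc (a + 1) b := ⟨by linarith [ht.1], ht.2⟩
    refine g5 Ω P hD d m hm hd φ Dφ Φ I N2 δ hφ hΦ hN2 hφ0 hφm hI hδ hvar k l L hkl hkL hlL
      K R Cy Cz c ζ ν γ hK hR hΦ0 hCy hCz hc hζ hν hγ hdk1 hdk16 hcl hmain T hT u ut Du lu hs t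
      (hIcc htI) (fun j => hM j t htI) (hpt t htI) (hmlpos t htI) (hflat t ht)
      (hflatZ t ht1I) (hlow t htI) ε hε0 hε1.le ?_
    have hk : Er Ω ε (u k t) ≤ δ' := by
      refine (hEr k t htI).trans (le_trans ?_ hεδ)
      exact div_le_div_of_nonneg_right (by linarith [hXb t ht1I]) hlε.le
    have h1 : 2 * R * δ' = γ / d k := by
      rw [hδ']
      field_simp
    rw [← h1]
    exact mul_le_mul_of_nonneg_left hk (by positivity)
  -- upper bound
  have hub : Psi2 Ω k l (2 / d k) ζ ε (d l) φ (fun j => u j b) ≤ C1 - V * lk := by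
    have h1 := f10_phi hO hb (hcu k b hbI) (hu0 k b hbI) (hM k b hbI) hK0 hε0 hε1.le hφ.cont hΦ
      hη hηΦ
    have h2 := (abs_le.1 h1).2
    have hXk := hLgle k b hbI
    have h7 : lk ≤ Real.log (mass Ω (u l b)) := Real.log_le_log hκ hml
    have h8 : V * lk ≤ V * Real.log (mass Ω (u l b)) := mul_le_mul_of_nonneg_left h7 hV.le
    have h9 := g10_phiq hO hb (hcu l b hbI) (hu0 l b hbI) (hmlpos b hbI) hφ.cont hΦ
    have h10 : -(1 / d l * (Φ * V)) ≤ 1 / d l * (∫ x in Ω, φ x * qr Ω (u l b) x) := by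
      have := mul_le_mul_of_nonneg_left (abs_le.1 h9).1 (by positivity : 0 ≤ 1 / d l)
      linarith
    have h11 : 0 ≤ ζ / 2 * Yq Ω (u l b) :=
      mul_nonneg (by positivity) (setIntegral_nonneg hO.measurableSet fun x _ => sq_nonneg _)
    unfold Psi2
    rw [← hVdef]
    rw [← hVdef, ← hL1] at h2
    linarith
  -- lower bound
  have ha0I : a0 ∈ Icc a b := ⟨by linarith, hcase⟩
  have hlb : 9 / 8 * Lg Ω ε (u k a0) - L1' / 4 - V * (lm + R * (a0 - a)) ≤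
      Psi2 Ω k l (2 / d k) ζ ε (d l) φ (fun j => u j a0) := by
    have h1 := f10_phi hO hb (hcu k a0 ha0I) (hu0 k a0 ha0I) (hM k a0 ha0I) hK0 hε0 hε1.le hφ.cont
      hΦ hη hηΦ
    have h2 := (abs_le.1 h1).1
    have h4 : Real.log (mass Ω (u l a0)) ≤ lm + R * (a0 - a) := by
      have h5 := Real.log_le_log (hmlpos a0 ha0I) (hbd l a a0 le_rfl ha0I.1 hcase).2
      rwa [Real.log_mul hμ0.ne' (Real.exp_pos _).ne', Real.log_exp] at h5
    have h5 := mul_le_mul_of_nonneg_left h4 hV.le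
    have h9 := g10_phiq hO hb (hcu l a0 ha0I) (hu0 l a0 ha0I) (hmlpos a0 ha0I) hφ.cont hΦ
    have h10 : 1 / d l * (∫ x in Ω, φ x * qr Ω (u l a0) x) ≤ 1 / d l * (Φ * V) :=
      mul_le_mul_of_nonneg_left (abs_le.1 h9).2 (by positivity : 0 ≤ 1 / d l)
    have h11 : ζ / 2 * Yq Ω (u l a0) ≤ ζ / 2 * (Cy / d k) ^ 2 :=
      mul_le_mul_of_nonneg_left (hflat a0 ⟨le_rfl, hcase⟩) (by positivity)
    unfold Psi2
    rw [← hVdef]
    rw [← hVdef, ← hL1] at h2
    linarith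
  have hX0 : - KA - R * V * t1 ≤ Lg Ω ε (u k a0) := by
    have h := hX a0 ⟨ha0', hcase⟩
    have h' : a0 - (a + 1) ≤ t1 := by
      have h1 : max 1 t1 ≤ 1 + t1 := by
        rw [max_le_iff]
        constructor <;> linarith
      rw [ha0]
      linarith
    have h'' := mul_le_mul_of_nonneg_left h' (by positivity : 0 ≤ R * V)
    linarith
  exact f10_time hV hR hr8 hη'0 hab e1 e2 ht1 ha0 hX0 hlb hub hgrow

theorem g10_exp {x : ℝ} (hx : 0 < x) : Real.exp (-x) ≤ 2 / x ^ 2 := by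
  have h := Real.quadratic_le_exp_of_nonneg hx.le
  rw [Real.exp_neg, inv_eq_one_div, div_le_div_iff₀ (Real.exp_pos x) (by positivity)]
  nlinarith

private theorem g10_a1 {V : ℝ} (hV : 0 < V) : 32 * V ≤ 36 * (V + 1) ^ 2 := by nlinarith

private theorem g10_a2 {V : ℝ} (hV : 0 < V) : V ≤ (V + 1) ^ 2 := by nlinarith

private theorem g10_a3 {R : ℝ} (hR : 0 < R) : 2 + R ^ 2 ≤ (2 + R) ^ 2 := by nlinarith

private theorem g10_a4 {c Λ : ℝ} (hc : 0 < c) (hΛ : 0 < Λ) : c * Λ / (8 * (1 + c)) ≤ Λ := by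
  rw [div_le_iff₀ (by positivity)]
  nlinarith [mul_pos hc hΛ]

private theorem g10_a5 {ζ X γ : ℝ} (hζ : 0 < ζ) (h : ζ * (X + 1) = γ) : ζ * X ≤ γ := by
  nlinarith

private theorem g10_a6 {δ ζ γ : ℝ} (h0 : 0 < δ) (h1 : δ ≤ 1) (h2 : δ ≤ 4 * ζ * γ) :
    δ ^ 2 ≤ γ * (4 * ζ) := by nlinarith

private theorem g10_a7 {X Y s γ : ℝ} (hs : 0 < s) (h2 : Y ≤ X * s) (h3 : s * (2 * (X + 1)) = γ) :
    Y ≤ γ / 2 := by nlinarith

/-- G10 -/
theorem p_G10 (h1 : StmF1) (h3 : StmF3) (h4 : StmF4) (h5 : StmF5) (h9 : StmF9) (g1 : StmG1)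
    (g2 : StmG2) (g4 : StmG4) (g5 : StmG5) : StmG10 := by
  intro n N Ω P hD m hm hnc c hc
  have hO := hD.isOpen
  have hb := hD.bdd
  have hP := hD.hP
  have hV := f10_vol_pos hD
  obtain ⟨K, hK, hsup⟩ := h1 Ω hO hb m hm
  obtain ⟨Rm, hRm⟩ := hb.isCompact_closure.exists_bound_of_continuousOn hm
  obtain ⟨Λ, hΛ, hφex⟩ := g4 Ω P hD m hm hnc
  set V := vol Ω with hVdef
  have hN0 : 0 ≤ (N : ℝ) := Nat.cast_nonneg N
  have hK0 : 0 < K := by linarith
  set R := |Rm| + N * K + 1 with hR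
  have hR0 : 0 < R := by
    have : 0 ≤ (N : ℝ) * K := by positivity
    positivity
  have h1c : 0 < 1 + c := by linarith
  set γ := c * Λ / (8 * (1 + c)) with hγ
  have hγ0 : 0 < γ := by positivity
  have hγ8 : Λ - Λ / (1 + c) = 8 * γ := by
    rw [hγ]
    field_simp
    ring
  have hγΛ : γ ≤ Λ := g10_a4 hc hΛ
  set Cy := 6 * R * P * (V + 1) with hCy
  have hCy0 : 0 ≤ Cy := by positivity
  set Cz := K * P * (V + 1) * (2 + R) with hCz
  have hCz0 : 0 ≤ Cz := by positivity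
  have hsV : 0 ≤ Real.sqrt V := Real.sqrt_nonneg _
  set ζ := γ / (2 * R * (Cy ^ 2 + Real.sqrt V * Cy) + 1) with hζ
  have hζd : 0 < 2 * R * (Cy ^ 2 + Real.sqrt V * Cy) + 1 := by positivity
  have hζ0 : 0 < ζ := by positivity
  have hζ1 : 2 * ζ * R * (Cy ^ 2 + Real.sqrt V * Cy) ≤ γ := by
    have h : ζ * (2 * R * (Cy ^ 2 + Real.sqrt V * Cy) + 1) = γ := by
      rw [hζ]
      field_simp
    have h' := g10_a5 hζ0 h
    linarith
  set δ := min (min 1 (γ / 4)) (4 * ζ * γ) with hδ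
  have hδ0 : 0 < δ := lt_min (lt_min one_pos (by positivity)) (by positivity)
  have hδ1 : δ ≤ 1 := (min_le_left _ _).trans (min_le_left _ _)
  have hδ2 : δ ≤ γ / 4 := (min_le_left _ _).trans (min_le_right _ _)
  have hδ3 : δ ≤ 4 * ζ * γ := min_le_right _ _
  have hδ4 : δ ^ 2 / (4 * ζ) ≤ γ := by
    rw [div_le_iff₀ (by positivity)]
    exact g10_a6 hδ0 hδ1 hδ3
  obtain ⟨φ, Dφ, hφ, hφ0, hI, hN2, hvar⟩ := hφex δ hδ0
  obtain ⟨Φ', hΦ'⟩ := hb.isCompact_closure.exists_bound_of_continuousOn hφ.cont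
  set Φ := |Φ'| + 1 with hΦdef
  have hΦ0 : 0 < Φ := by positivity
  have hΦ : ∀ x ∈ closure Ω, |φ x| ≤ Φ := fun x hx => by
    have h := hΦ' x hx
    rw [Real.norm_eq_abs] at h
    have := le_abs_self Φ'
    linarith
  set I := ∫ x in Ω, m x * φ x with hIdef
  set N2 := ∫ x in Ω, ‖Dφ x‖ ^ 2 with hN2def
  have hI1 := abs_le.1 hI
  have hN1 := abs_le.1 hN2
  have hI0 : 0 ≤ I := by linarith [hI1.1]
  have hN20 : 0 ≤ N2 := setIntegral_nonneg hO.measurableSet fun x _ => by positivity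
  set B := 4 * Φ * N2 + 3 * N * Φ * Real.sqrt V * Cz + 2 * R * Φ * Real.sqrt V * Cy
    + N * Cy * Cz with hB
  have hB0 : 0 ≤ B := by positivity
  set s := γ / (2 * (Cy * N + 1)) with hs
  have hs0 : 0 < s := by positivity
  set ν := min (γ / (6 * Φ)) (s ^ 2 / K) with hν
  have hν0 : 0 < ν := lt_min (by positivity) (by positivity)
  have hν1 : 3 * Φ * ν ≤ γ / 2 := by
    have h : ν ≤ γ / (6 * Φ) := min_le_left _ _
    rw [le_div_iff₀ (by positivity)] at h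
    linarith
  have hν2 : Cy * N * Real.sqrt (K * ν) ≤ γ / 2 := by
    have h : ν ≤ s ^ 2 / K := min_le_right _ _
    rw [le_div_iff₀ hK0] at h
    have h' : Real.sqrt (K * ν) ≤ s := by
      apply Real.sqrt_le_iff.2
      exact ⟨hs0.le, by linarith⟩
    have h2 : Cy * N * Real.sqrt (K * ν) ≤ Cy * N * s :=
      mul_le_mul_of_nonneg_left h' (by positivity)
    have h3 : s * (2 * (Cy * N + 1)) = γ := by
      rw [hs]
      field_simp
    exact g10_a7 hs0 h2 h3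
  refine ⟨max (max 1 (16 * Φ)) (max (B / γ) (10 * R * P)), ?_⟩
  intro d hd k l L hDk hkl hkL hlL hout hcl M A κ hA hκ
  have hD1 : 1 ≤ d k := ((le_max_left _ _).trans (le_max_left _ _)).trans hDk
  have hD2 : 16 * Φ ≤ d k := ((le_max_right _ _).trans (le_max_left _ _)).trans hDk
  have hD3 : B / γ ≤ d k := ((le_max_left _ _).trans (le_max_right _ _)).trans hDk
  have hD4 : 10 * R * P ≤ d k := ((le_max_right _ _).trans (le_max_right _ _)).trans hDk
  have hdk := hd k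
  have hBk : B / d k ≤ γ := by
    rw [div_le_iff₀ hγ0] at hD3
    rw [div_le_iff₀ hdk]
    linarith
  have hkl' : d k ≤ d l := hout l hlL
  set r := d l / P - 2 * R with hr
  have hdlP : 10 * R ≤ d l / P := by
    rw [le_div_iff₀ hP]
    linarith
  have hr8 : 8 * R ≤ r := by
    rw [hr]
    linarith
  have hr2 : d l / (2 * P) ≤ r := by
    have h : d l / (2 * P) = d l / P / 2 := by
      field_simp
    rw [hr, h]
    linarith
  have hr0 : 0 < r := by linarith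
  have hdl := hd l
  have hCy1 : 8 * R ^ 2 * V / r ^ 2 ≤ (Cy / d k) ^ 2 := by
    have h1 : (d l / (2 * P)) ^ 2 ≤ r ^ 2 := pow_le_pow_left₀ (by positivity) hr2 2
    have h2 : 8 * R ^ 2 * V / r ^ 2 ≤ 8 * R ^ 2 * V / (d l / (2 * P)) ^ 2 :=
      div_le_div_of_nonneg_left (by positivity) (by positivity) h1
    have h3 : 8 * R ^ 2 * V / (d l / (2 * P)) ^ 2 = 32 * R ^ 2 * P ^ 2 * V / d l ^ 2 := by
      field_simp
      ring
    have h4 : 32 * R ^ 2 * P ^ 2 * V / d l ^ 2 ≤ 32 * R ^ 2 * P ^ 2 * V / d k ^ 2 :=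
      div_le_div_of_nonneg_left (by positivity) (by positivity)
        (pow_le_pow_left₀ hdk.le hkl' 2)
    have h5 : 32 * R ^ 2 * P ^ 2 * V ≤ Cy ^ 2 := by
      have h6 : Cy ^ 2 = R ^ 2 * P ^ 2 * (36 * (V + 1) ^ 2) := by
        rw [hCy]
        ring
      have h7 : 32 * R ^ 2 * P ^ 2 * V = R ^ 2 * P ^ 2 * (32 * V) := by ring
      rw [h6, h7]
      exact mul_le_mul_of_nonneg_left (g10_a1 hV) (by positivity)
    rw [div_pow]
    refine h2.trans (h3.le.trans (h4.trans ?_))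
    exact div_le_div_of_nonneg_right h5 (by positivity)
  have hCz1 : ∀ i, i ∉ L → K ^ 2 * V * Real.exp (- (d i / P)) +
      (P / d i) ^ 2 * (R ^ 2 * K ^ 2 * V) ≤ (Cz / d k) ^ 2 := by
    intro i hi
    have hdi := hd i
    have hki := hout i hi
    have h1 := g10_exp (x := d i / P) (by positivity)
    have h2 : K ^ 2 * V * Real.exp (- (d i / P)) ≤ K ^ 2 * V * (2 / (d i / P) ^ 2) :=
      mul_le_mul_of_nonneg_left h1 (by positivity)
    have h3 : K ^ 2 * V * (2 / (d i / P) ^ 2) + (P / d i) ^ 2 * (R ^ 2 * K ^ 2 * V) =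
        K ^ 2 * P ^ 2 * (V * (2 + R ^ 2)) / d i ^ 2 := by
      field_simp
    have h4 : K ^ 2 * P ^ 2 * (V * (2 + R ^ 2)) / d i ^ 2 ≤
        K ^ 2 * P ^ 2 * (V * (2 + R ^ 2)) / d k ^ 2 :=
      div_le_div_of_nonneg_left (by positivity) (by positivity)
        (pow_le_pow_left₀ hdk.le hki 2)
    have h5 : K ^ 2 * P ^ 2 * (V * (2 + R ^ 2)) ≤ Cz ^ 2 := by
      have h6 : Cz ^ 2 = K ^ 2 * P ^ 2 * ((V + 1) ^ 2 * (2 + R) ^ 2) := by
        rw [hCz]
        ring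
      rw [h6]
      refine mul_le_mul_of_nonneg_left ?_ (by positivity)
      have h7 : V ≤ (V + 1) ^ 2 := g10_a2 hV
      have h8 : 2 + R ^ 2 ≤ (2 + R) ^ 2 := g10_a3 hR0
      exact mul_le_mul h7 h8 (by positivity) (by positivity)
    have h10 : (Cz / d k) ^ 2 = Cz ^ 2 / d k ^ 2 := div_pow _ _ _
    rw [h10]
    have h9 : K ^ 2 * P ^ 2 * (V * (2 + R ^ 2)) / d k ^ 2 ≤ Cz ^ 2 / d k ^ 2 :=
      div_le_div_of_nonneg_right h5 (by positivity)
    linarith
  have hmain : 2 * γ ≤ 2 * I - N2 - I / (1 + c)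
      - (4 * Φ * N2 + 3 * N * Φ * Real.sqrt V * Cz + 2 * R * Φ * Real.sqrt V * Cy
          + N * Cy * Cz) / d k
      - (3 * Φ * ν + Cy * N * Real.sqrt (K * ν))
      - 2 * ζ * R * (Cy ^ 2 + Real.sqrt V * Cy) - δ ^ 2 / (4 * ζ) := by
    have h1 : I / (1 + c) ≤ Λ / (1 + c) + δ := by
      have h2 : I / (1 + c) ≤ (Λ + δ) / (1 + c) :=
        div_le_div_of_nonneg_right (by linarith [hI1.2]) h1c.le
      have h3 : δ / (1 + c) ≤ δ := div_le_self hδ0.le (by linarith)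
      rw [add_div] at h2
      linarith
    linarith [hI1.1, hN1.2]
  obtain ⟨τ, hτ0, hτ⟩ := hsup d hd M
  set RM := |Rm| + N * |M| with hRM
  have hRM0 : 0 ≤ RM := by positivity
  have hA' : 0 < A * Real.exp (- (RM * τ)) := by positivity
  obtain ⟨S, hS⟩ := g10_core h3 h4 h5 h9 g1 g2 g5 Ω P hD d m hm hd φ Dφ Φ I N2 δ hφ hΦ rfl hφ0 rfl
    hI0 hδ0.le hvar k l L hkl hkL hlL K R Cy Cz c ζ ν γ r hK hR0 hΦ0 hCy0 hCz0 hc hζ0 hν0.le hγ0 hD1
    hD2 hcl hmain hr hr8 hCy1 hCz1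
    (fun v hv x hx => by
      have h1 : |m x| ≤ |Rm| := by
        have := hRm x hx
        rw [Real.norm_eq_abs] at this
        exact this.trans (le_abs_self _)
      have h2 : |∑ k, v k x| ≤ N * K := by
        refine (Finset.abs_sum_le_sum_abs _ _).trans ?_
        refine (Finset.sum_le_card_nsmul _ _ K fun i _ => ?_).trans (le_of_eq ?_)
        · rw [abs_of_nonneg (hv i x hx).1]
          exact (hv i x hx).2
        · simp
      exact (abs_sub _ _).trans (by linarith))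
    (A * Real.exp (- (RM * τ))) κ hA' hκ
  refine ⟨τ + |S|, ν, hν0, ?_⟩
  intro T hT a b hab hIcc u ut Du lu hs' hM hmk hlow hml
  have hSa := le_abs_self S
  have hSa0 := abs_nonneg S
  rcases lt_or_ge b (a + τ) with hc' | hc'
  · linarith
  have hsub : Icc (a + τ) b ⊆ Icc a b := Icc_subset_Icc_left (by linarith)
  have hn := hs'.nonneg
  have hmass := (h4 Ω hO hb d m hm T hT u ut Du lu hs' k).2 RM a (a + τ) (by linarith)
    ((Icc_subset_Icc_right hc').trans hIcc) (fun t ht x hx => by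
      have htI : t ∈ Icc a b := ⟨ht.1, ht.2.trans hc'⟩
      have h1 : |m x| ≤ |Rm| := by
        have := hRm x hx
        rw [Real.norm_eq_abs] at this
        exact this.trans (le_abs_self _)
      have h2 : |∑ k, u k t x| ≤ N * |M| := by
        refine (Finset.abs_sum_le_sum_abs _ _).trans ?_
        refine (Finset.sum_le_card_nsmul _ _ |M| fun i _ => ?_).trans (le_of_eq ?_)
        · rw [abs_of_nonneg (hn i t (hIcc htI) x hx)]
          exact (hM i t htI x hx).trans (le_abs_self _)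
        · simp
      exact (abs_sub _ _).trans (by linarith))
  have hmk' : A * Real.exp (- (RM * τ)) ≤ mass Ω (u k (a + τ)) := by
    refine le_trans ?_ hmass.1
    have h1 : a + τ - a = τ := by ring
    rw [h1]
    exact mul_le_mul_of_nonneg_right hmk (Real.exp_pos _).le
  have h := hS T hT (a + τ) b hc' (hsub.trans hIcc) u ut Du lu hs'
    (fun j t ht x hx => hτ T hT a b hIcc u ut Du lu hs' hM j t ht x hx) hmk'
    (fun t ht => hlow t (hsub ht)) hml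
  linarith

end Pool.Agent.Lib.MP_d8ef8f_an.Ff
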