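import Pool.Agent.Lib.MP_d8ef8f_an.Ff.StmG
import Pool.Agent.Lib.MP_d8ef8f_an.Ff.F4
import Pool.Agent.Lib.MP_d8ef8f_an.Gd.A2
import Pool.Agent.Lib.MP_d8ef8f_an.Gd.A3

/-!
# Piece G3: derivatives of `∫ φ q` and of `∫ (q - 1)²`
-/

set_option autoImplicit false

namespace Pool.Agent.Lib.MP_d8ef8f_an.Ff

open Set Filter Topology MeasureTheory
open Pool.Agent.Lib.MP_d8ef8f_an.Gd

private theorem g3_lin {n : ℕ} {Ω : Set (Sp n)} (hb : Bornology.IsBounded Ω)
    {F1 F2 : Sp n → ℝ} (h1 : ContinuousOn F1 (closure Ω)) (h2 : ContinuousOn F2 (closure Ω))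
    (k1 k2 k0 : ℝ) :
    ∫ x in Ω, (k1 * F1 x + k2 * F2 x + k0) =
      k1 * (∫ x in Ω, F1 x) + k2 * (∫ x in Ω, F2 x) + k0 * vol Ω := by
  have i1 := (p_A2 Ω hb F1 h1).const_mul k1
  have i2 := (p_A2 Ω hb F2 h2).const_mul k2
  have i0 : IntegrableOn (fun _ : Sp n => k0) Ω := integrableOn_const hb.measure_lt_top.ne
  have e1 : ∫ x in Ω, (k1 * F1 x + k2 * F2 x) + k0 =
      (∫ x in Ω, k1 * F1 x + k2 * F2 x) + ∫ _ in Ω, k0 :=
    integral_add (i1.add i2) i0
  have e3 : ∫ x in Ω, k1 * F1 x + k2 * F2 x =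
      (∫ x in Ω, k1 * F1 x) + ∫ x in Ω, k2 * F2 x := integral_add i1 i2
  rw [e1, e3, integral_const_mul, integral_const_mul, setIntegral_const,
    smul_eq_mul, mul_comm k0]
  rfl

/-- `∫ (q - 1)²` in terms of `∫ w²` -/
private theorem g3_yq {n : ℕ} {Ω : Set (Sp n)} (hb : Bornology.IsBounded Ω) {w : Sp n → ℝ}
    (cw : ContinuousOn w (closure Ω)) (hm : mass Ω w ≠ 0) :
    Yq Ω w = vol Ω ^ 2 * (∫ x in Ω, w x ^ 2) / mass Ω w ^ 2 - vol Ω := by
  have e := g3_lin hb (F1 := fun x => w x ^ 2) (F2 := w) (cw.pow 2) cw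
    (vol Ω ^ 2 / mass Ω w ^ 2) (-(2 * vol Ω / mass Ω w)) 1
  have e2 : Yq Ω w = ∫ x in Ω,
      (vol Ω ^ 2 / mass Ω w ^ 2 * w x ^ 2 + -(2 * vol Ω / mass Ω w) * w x + 1) := by
    unfold Yq qr
    exact integral_congr_ae (ae_of_all _ fun x => by simp only; field_simp; ring)
  have e3 : ∫ x in Ω, w x = mass Ω w := rfl
  rw [e2, e, e3]
  field_simp
  ring

theorem p_G3 : StmG3 := by
  intro n N Ω hO hne hb d m hm T hT u ut Du lu hs φ Dφ hφ l t ht hμ0
  have hV0 : vol Ω ≠ 0 := by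
    have h1 : 0 < volume.real Ω :=
      ENNReal.toReal_pos (hO.measure_pos volume hne).ne' hb.measure_lt_top.ne
    exact h1.ne'
  have hcu : ∀ j, ∀ s ∈ T, ContinuousOn (u j s) (closure Ω) := by
    intro j s hs'
    exact (hs.cu j).comp (f := fun x => (s, x)) (by fun_prop) (fun x hx => ⟨hs', hx⟩)
  have hcD : ContinuousOn (Du l t) (closure Ω) :=
    (hs.cD l).comp (f := fun x => (t, x)) (by fun_prop) (fun x hx => ⟨ht, hx⟩)
  have hcl : ContinuousOn (lu l t) (closure Ω) :=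
    (hs.cl l).comp (f := fun x => (t, x)) (by fun_prop) (fun x hx => ⟨ht, hx⟩)
  have cw := hcu l t ht
  have ch : ContinuousOn (fun x => m x - ∑ j, u j t x) (closure Ω) :=
    hm.sub (continuousOn_finsetSum _ fun k _ => hcu k t ht)
  have hφc : ContinuousOn (fun p : ℝ × Sp n => φ p.2) (T ×ˢ closure Ω) :=
    hφ.cont.comp (f := fun p : ℝ × Sp n => p.2) (by fun_prop) (fun p hp => hp.2)
  have hL := hs.lap l t ht
  -- mass
  have dμ := (p_F4 Ω hO hb d m hm T hT u ut Du lu hs l).1 t ht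
  set μ' := ∫ x in Ω, u l t x * (m x - ∑ j, u j t x) with hμ'
  -- `∫ φ u`
  have dJ : HasDerivAt (fun s => ∫ x in Ω, φ x * u l s x) (∫ x in Ω, φ x * ut l t x) t :=
    p_A3 Ω hb hO.measurableSet T hT (fun s x => φ x * u l s x) (fun s x => φ x * ut l s x)
      (hφc.mul (hs.cu l)) (hφc.mul (hs.ct l))
      (fun s hs' x hx => (hs.dt l s hs' x hx).const_mul (φ x)) t ht
  have eJ : ∫ x in Ω, φ x * ut l t x =
      d l * (- ∫ x in Ω, inner ℝ (Du l t x) (Dφ x)) +
        ∫ x in Ω, φ x * u l t x * (m x - ∑ j, u j t x) := by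
    rw [← hL.green φ Dφ hφ]
    have e := g3_lin hb (F1 := fun x => lu l t x * φ x)
      (F2 := fun x => φ x * u l t x * (m x - ∑ j, u j t x)) (hcl.mul hφ.cont)
      ((hφ.cont.mul cw).mul ch) (d l) 1 0
    rw [zero_mul, add_zero, one_mul] at e
    rw [← e]
    refine setIntegral_congr_fun hO.measurableSet fun x hx => ?_
    have := hs.eq l t ht x (subset_closure hx)
    simp only [this]
    ring
  -- `∫ u²`
  have dW : HasDerivAt (fun s => ∫ x in Ω, u l s x ^ 2) (∫ x in Ω, 2 * u l t x * ut l t x) t := by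
    refine p_A3 Ω hb hO.measurableSet T hT (fun s x => u l s x ^ 2)
      (fun s x => 2 * u l s x * ut l s x) ((hs.cu l).pow 2)
      ((continuousOn_const.mul (hs.cu l)).mul (hs.ct l)) ?_ t ht
    intro s hs' x hx
    have h1 := (hs.dt l s hs' x hx).pow 2
    refine h1.congr_deriv ?_
    simp
  have eW : ∫ x in Ω, 2 * u l t x * ut l t x =
      2 * d l * (- ∫ x in Ω, ‖Du l t x‖ ^ 2) +
        2 * ∫ x in Ω, u l t x ^ 2 * (m x - ∑ j, u j t x) := by
    have g1 : ∫ x in Ω, lu l t x * u l t x = - ∫ x in Ω, ‖Du l t x‖ ^ 2 := by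
      rw [hL.green (u l t) (Du l t) hL.c1]
      congr 1
      refine integral_congr_ae (ae_of_all _ fun x => ?_)
      exact real_inner_self_eq_norm_sq _
    rw [← g1]
    have e := g3_lin hb (F1 := fun x => lu l t x * u l t x)
      (F2 := fun x => u l t x ^ 2 * (m x - ∑ j, u j t x)) (hcl.mul cw) ((cw.pow 2).mul ch)
      (2 * d l) 2 0
    rw [zero_mul, add_zero] at e
    rw [← e]
    refine setIntegral_congr_fun hO.measurableSet fun x hx => ?_
    have := hs.eq l t ht x (subset_closure hx)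
    simp only [this]
    ring
  set μ := mass Ω (u l t) with hμ
  have hμne : μ ≠ 0 := hμ0.ne'
  -- the integrals with `q`
  have q1 : ∫ x in Ω, inner ℝ (Dqr Ω (u l t) (Du l t) x) (Dφ x) =
      vol Ω / μ * ∫ x in Ω, inner ℝ (Du l t x) (Dφ x) := by
    rw [← integral_const_mul]
    refine integral_congr_ae (ae_of_all _ fun x => ?_)
    simp only [Dqr, inner_smul_left, RCLike.conj_to_real, ← hμ]
  have q2 : ∫ x in Ω, φ x * qr Ω (u l t) x * (m x - ∑ j, u j t x) =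
      vol Ω / μ * ∫ x in Ω, φ x * u l t x * (m x - ∑ j, u j t x) := by
    rw [← integral_const_mul]
    refine integral_congr_ae (ae_of_all _ fun x => ?_)
    simp only [qr, ← hμ]
    ring
  have q3 : ∫ x in Ω, qr Ω (u l t) x * (m x - ∑ j, u j t x) = vol Ω / μ * μ' := by
    rw [hμ', ← integral_const_mul]
    refine integral_congr_ae (ae_of_all _ fun x => ?_)
    simp only [qr, ← hμ]
    ring
  have q4 : ∀ s, ∫ x in Ω, φ x * qr Ω (u l s) x =
      vol Ω * (∫ x in Ω, φ x * u l s x) / mass Ω (u l s) := by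
    intro s
    have h1 : vol Ω * (∫ x in Ω, φ x * u l s x) / mass Ω (u l s) =
        vol Ω / mass Ω (u l s) * ∫ x in Ω, φ x * u l s x := by ring
    rw [h1, ← integral_const_mul]
    refine integral_congr_ae (ae_of_all _ fun x => ?_)
    simp only [qr]
    ring
  have q5 : ∫ x in Ω, ‖Dqr Ω (u l t) (Du l t) x‖ ^ 2 =
      (vol Ω / μ) ^ 2 * ∫ x in Ω, ‖Du l t x‖ ^ 2 := by
    rw [← integral_const_mul]
    refine integral_congr_ae (ae_of_all _ fun x => ?_)
    simp only [Dqr, norm_smul, mul_pow, Real.norm_eq_abs, sq_abs, ← hμ]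
  have q6 : ∫ x in Ω, (qr Ω (u l t) x - 1) * qr Ω (u l t) x * (m x - ∑ j, u j t x) =
      (vol Ω / μ) ^ 2 * (∫ x in Ω, u l t x ^ 2 * (m x - ∑ j, u j t x)) -
        vol Ω / μ * μ' := by
    have e := g3_lin hb (F1 := fun x => u l t x ^ 2 * (m x - ∑ j, u j t x))
      (F2 := fun x => u l t x * (m x - ∑ j, u j t x)) ((cw.pow 2).mul ch) (cw.mul ch)
      ((vol Ω / μ) ^ 2) (-(vol Ω / μ)) 0
    rw [zero_mul, add_zero, ← hμ', neg_mul, ← sub_eq_add_neg] at e
    rw [← e]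
    refine integral_congr_ae (ae_of_all _ fun x => ?_)
    simp only [qr, ← hμ]
    ring
  have q7 : ∫ x in Ω, (qr Ω (u l t) x - 1) * qr Ω (u l t) x =
      (vol Ω / μ) ^ 2 * (∫ x in Ω, u l t x ^ 2) - vol Ω := by
    have e := g3_lin hb (F1 := fun x => u l t x ^ 2) (F2 := u l t) (cw.pow 2) cw
      ((vol Ω / μ) ^ 2) (-(vol Ω / μ)) 0
    have e3 : ∫ x in Ω, u l t x = μ := rfl
    have e4 : -(vol Ω / μ) * μ = - vol Ω := by
      field_simp
    rw [zero_mul, add_zero, e3, e4, ← sub_eq_add_neg] at e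
    rw [← e]
    refine integral_congr_ae (ae_of_all _ fun x => ?_)
    simp only [qr, ← hμ]
    ring
  constructor
  · have hfun : (fun s => ∫ x in Ω, φ x * qr Ω (u l s) x) =
        fun s => vol Ω * (∫ x in Ω, φ x * u l s x) / mass Ω (u l s) := funext q4
    rw [hfun]
    refine ((dJ.const_mul (vol Ω)).div dμ hμne).congr_deriv ?_
    rw [q1, q2, q3, q4 t, eJ, ← hμ]
    field_simp
  · have hev : (fun s => Yq Ω (u l s)) =ᶠ[𝓝 t]
        fun s => vol Ω ^ 2 * (∫ x in Ω, u l s x ^ 2) / mass Ω (u l s) ^ 2 - vol Ω := by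
      have h1 : ∀ᶠ s in 𝓝 t, s ∈ T := hT.mem_nhds ht
      have h2 : ∀ᶠ s in 𝓝 t, mass Ω (u l s) ≠ 0 :=
        dμ.continuousAt.eventually_ne hμne
      filter_upwards [h1, h2] with s hs1 hs2
      exact g3_yq hb (hcu l s hs1) hs2
    refine HasDerivAt.congr_of_eventuallyEq ?_ hev
    have h3 : HasDerivAt (fun s => mass Ω (u l s) ^ 2) (2 * μ * μ') t := by
      refine (dμ.pow 2).congr_deriv ?_
      simp [hμ]
    refine (((dW.const_mul (vol Ω ^ 2)).div h3 (pow_ne_zero 2 hμne)).sub_const (vol Ω)).congr_deriv ?_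
    rw [q5, q6, q3, q7, eW, ← hμ]
    field_simp
    ring

end Pool.Agent.Lib.MP_d8ef8f_an.Ff
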