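import Pool.Agent.Lib.MP_d8ef8f_an.Ff.StmG
import Pool.Agent.Lib.MP_d8ef8f_an.Ff.F8
import Pool.Agent.Lib.MP_d8ef8f_an.Gd.A2

/-!
# G4: almost maximisers
-/

set_option autoImplicit false

namespace Pool.Agent.Lib.MP_d8ef8f_an.Ff

open Set Filter Topology MeasureTheory
open Pool.Agent.Lib.MP_d8ef8f_an.Gd

private theorem g4_lin {n : ℕ} {Ω : Set (Sp n)} {φ ψ : Sp n → ℝ} {Dφ Dψ : Sp n → Sp n}
    (h : C1 Ω φ Dφ) (h' : C1 Ω ψ Dψ) (a s : ℝ) :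
    C1 Ω (fun x => a * φ x + s * ψ x) (fun x => a • Dφ x + s • Dψ x) := by
  refine ⟨(continuousOn_const.mul h.cont).add (continuousOn_const.mul h'.cont),
    (h.contD.const_smul a).add (h'.contD.const_smul s), fun x hx => ?_⟩
  have h1 := h.grad x hx
  have h2 := h'.grad x hx
  rw [hasGradientAt_iff_hasFDerivAt] at h1 h2 ⊢
  have h3 : HasFDerivAt (fun x => a * φ x + s * ψ x)
      (a • InnerProductSpace.toDual ℝ (Sp n) (Dφ x) +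
        s • InnerProductSpace.toDual ℝ (Sp n) (Dψ x) : Sp n →L[ℝ] ℝ) x :=
    (h1.const_mul a).add (h2.const_mul s)
  refine h3.congr_fderiv ?_
  simp

/-- expansion of the functional -/
private theorem g4_exp {n : ℕ} {Ω : Set (Sp n)} (hb : Bornology.IsBounded Ω) {m φ ψ : Sp n → ℝ}
    {Dφ Dψ : Sp n → Sp n} (hm : ContinuousOn m (closure Ω)) (h : C1 Ω φ Dφ) (h' : C1 Ω ψ Dψ)
    (a s : ℝ) :
    2 * (∫ x in Ω, m x * (a * φ x + s * ψ x)) - ∫ x in Ω, ‖a • Dφ x + s • Dψ x‖ ^ 2 =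
      2 * (a * (∫ x in Ω, m x * φ x) + s * ∫ x in Ω, m x * ψ x) -
        (a ^ 2 * (∫ x in Ω, ‖Dφ x‖ ^ 2) + 2 * a * s * (∫ x in Ω, inner ℝ (Dφ x) (Dψ x)) +
          s ^ 2 * ∫ x in Ω, ‖Dψ x‖ ^ 2) := by
  have i1 : IntegrableOn (fun x => m x * φ x) Ω := p_A2 Ω hb _ (hm.mul h.cont)
  have i2 : IntegrableOn (fun x => m x * ψ x) Ω := p_A2 Ω hb _ (hm.mul h'.cont)
  have i3 : IntegrableOn (fun x => ‖Dφ x‖ ^ 2) Ω := p_A2 Ω hb _ (h.contD.norm.pow 2)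
  have i4 : IntegrableOn (fun x => ‖Dψ x‖ ^ 2) Ω := p_A2 Ω hb _ (h'.contD.norm.pow 2)
  have i5 : IntegrableOn (fun x => (inner ℝ (Dφ x) (Dψ x) : ℝ)) Ω :=
    p_A2 Ω hb _ (h.contD.inner h'.contD)
  have e1 : (∫ x in Ω, m x * (a * φ x + s * ψ x)) =
      a * (∫ x in Ω, m x * φ x) + s * ∫ x in Ω, m x * ψ x := by
    rw [← integral_const_mul, ← integral_const_mul,
      ← integral_add (i1.const_mul a) (i2.const_mul s)]
    refine integral_congr_ae (Eventually.of_forall fun x => ?_)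
    ring
  have e2 : (∫ x in Ω, ‖a • Dφ x + s • Dψ x‖ ^ 2) =
      a ^ 2 * (∫ x in Ω, ‖Dφ x‖ ^ 2) + 2 * a * s * (∫ x in Ω, inner ℝ (Dφ x) (Dψ x)) +
          s ^ 2 * ∫ x in Ω, ‖Dψ x‖ ^ 2 := by
    have i35 : IntegrableOn (fun x => a ^ 2 * ‖Dφ x‖ ^ 2 +
        2 * a * s * (inner ℝ (Dφ x) (Dψ x) : ℝ)) Ω := (i3.const_mul _).add (i5.const_mul _)
    rw [← integral_const_mul, ← integral_const_mul, ← integral_const_mul,
      ← integral_add (i3.const_mul _) (i5.const_mul _), ← integral_add i35 (i4.const_mul _)]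
    refine integral_congr_ae (Eventually.of_forall fun x => ?_)
    simp only
    rw [norm_add_sq_real, norm_smul, norm_smul, inner_smul_left, inner_smul_right,
      mul_pow, mul_pow, Real.norm_eq_abs, Real.norm_eq_abs, sq_abs, sq_abs]
    simp only [conj_trivial]
    ring
  rw [e1, e2]

/-- upper bound of the functional -/
private theorem g4_up {n : ℕ} {Ω : Set (Sp n)} {P : ℝ} (hD : Dom Ω P) {m φ : Sp n → ℝ}
    {Dφ : Sp n → Sp n} (hm : ContinuousOn m (closure Ω)) (h : C1 Ω φ Dφ)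
    (h0 : (∫ x in Ω, φ x) = 0) :
    2 * (∫ x in Ω, m x * φ x) - ∫ x in Ω, ‖Dφ x‖ ^ 2 ≤ P * ∫ x in Ω, m x ^ 2 := by
  obtain ⟨c, hc⟩ := hD.poinc φ Dφ h
  have hP := hD.hP
  have hb := hD.bdd
  have i1 : IntegrableOn (fun x => 2 * (m x * φ x)) Ω :=
    p_A2 Ω hb _ (continuousOn_const.mul (hm.mul h.cont))
  have i2 : IntegrableOn (fun x => 1 / P * (φ x - c) ^ 2) Ω :=
    p_A2 Ω hb _ (continuousOn_const.mul ((h.cont.sub continuousOn_const).pow 2))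
  have i3 : IntegrableOn (fun x => 2 * c / P * φ x) Ω :=
    p_A2 Ω hb _ (continuousOn_const.mul h.cont)
  have i4 : IntegrableOn (fun x => P * m x ^ 2) Ω :=
    p_A2 Ω hb _ (continuousOn_const.mul (hm.pow 2))
  have h1 : ∫ x in Ω, 2 * (m x * φ x) ≤
      ∫ x in Ω, (1 / P * (φ x - c) ^ 2 + 2 * c / P * φ x) + P * m x ^ 2 := by
    refine setIntegral_mono_on i1 ((i2.add i3).add i4) hD.isOpen.measurableSet fun x _ => ?_
    have h2 : 0 ≤ 1 / P * (φ x - P * m x) ^ 2 := by positivity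
    have h3 : 0 ≤ 1 / P * c ^ 2 := by positivity
    have h4 : 1 / P * (φ x - P * m x) ^ 2 =
        1 / P * φ x ^ 2 - 2 * (m x * φ x) + P * m x ^ 2 := by
      field_simp
      ring
    have h5 : 1 / P * (φ x - c) ^ 2 + 2 * c / P * φ x = 1 / P * φ x ^ 2 + 1 / P * c ^ 2 := by
      field_simp
      ring
    linarith
  have i23 : IntegrableOn (fun x => 1 / P * (φ x - c) ^ 2 + 2 * c / P * φ x) Ω := i2.add i3
  rw [integral_add i23 i4, integral_add i2 i3, integral_const_mul, integral_const_mul,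
    integral_const_mul, integral_const_mul, h0] at h1
  have h2 : 1 / P * (∫ x in Ω, (φ x - c) ^ 2) ≤ ∫ x in Ω, ‖Dφ x‖ ^ 2 := by
    rw [one_div, inv_mul_le_iff₀ hP]
    exact hc
  linarith

theorem p_G4 : StmG4 := by
  intro n Ω P hD m hm hne
  have hb := hD.bdd
  set V : Set ℝ := {v | ∃ (φ : Sp n → ℝ) (Dφ : Sp n → Sp n), C1 Ω φ Dφ ∧ (∫ x in Ω, φ x) = 0 ∧
    v = 2 * (∫ x in Ω, m x * φ x) - ∫ x in Ω, ‖Dφ x‖ ^ 2} with hV
  have hbdd : BddAbove V := by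
    refine ⟨P * ∫ x in Ω, m x ^ 2, ?_⟩
    rintro v ⟨φ, Dφ, h, h0, rfl⟩
    exact g4_up hD hm h h0
  set Λ := sSup V with hΛ
  have hle : ∀ (φ : Sp n → ℝ) (Dφ : Sp n → Sp n), C1 Ω φ Dφ → (∫ x in Ω, φ x) = 0 →
      2 * (∫ x in Ω, m x * φ x) - ∫ x in Ω, ‖Dφ x‖ ^ 2 ≤ Λ := fun φ Dφ h h0 =>
    le_csSup hbdd ⟨φ, Dφ, h, h0, rfl⟩
  -- linear combinations
  have hlin : ∀ (φ ψ : Sp n → ℝ) (Dφ Dψ : Sp n → Sp n), C1 Ω φ Dφ → C1 Ω ψ Dψ →
      (∫ x in Ω, φ x) = 0 → (∫ x in Ω, ψ x) = 0 → ∀ a s : ℝ,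
      2 * (a * (∫ x in Ω, m x * φ x) + s * ∫ x in Ω, m x * ψ x) -
        (a ^ 2 * (∫ x in Ω, ‖Dφ x‖ ^ 2) + 2 * a * s * (∫ x in Ω, inner ℝ (Dφ x) (Dψ x)) +
          s ^ 2 * ∫ x in Ω, ‖Dψ x‖ ^ 2) ≤ Λ := by
    intro φ ψ Dφ Dψ h h' h0 h0' a s
    rw [← g4_exp hb hm h h' a s]
    refine hle _ _ (g4_lin h h' a s) ?_
    rw [integral_add ((p_A2 Ω hb _ h.cont).const_mul a) ((p_A2 Ω hb _ h'.cont).const_mul s),
      integral_const_mul, integral_const_mul, h0, h0']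
    ring
  have hpos : 0 < Λ := by
    obtain ⟨φ, Dφ, h, h0, h1⟩ := p_F8 Ω hD.isOpen hD.nonempty hb m hm hne
    have hN : 0 ≤ ∫ x in Ω, ‖Dφ x‖ ^ 2 := integral_nonneg fun x => by positivity
    set N0 := ∫ x in Ω, ‖Dφ x‖ ^ 2
    have h2 := hlin φ φ Dφ Dφ h h h0 h0 (-(1 / (N0 + 1))) 0
    rw [h1] at h2
    have h3 : (1 / (N0 + 1)) ^ 2 * N0 ≤ 1 / (N0 + 1) := by
      have h4 : (1 / (N0 + 1)) ^ 2 * N0 = 1 / (N0 + 1) * (N0 / (N0 + 1)) := by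
        field_simp
      rw [h4]
      have h5 : N0 / (N0 + 1) ≤ 1 := by
        rw [div_le_one (by linarith)]
        linarith
      have h6 : 0 ≤ 1 / (N0 + 1) := by positivity
      nlinarith
    have h4 : 0 < 1 / (N0 + 1) := by positivity
    nlinarith
  refine ⟨Λ, hpos, fun δ hδ => ?_⟩
  obtain ⟨ρ, hρ, hρ1, hρ2, hρ3⟩ : ∃ ρ : ℝ, 0 < ρ ∧ ρ ≤ δ ^ 2 ∧ ρ ≤ δ / 2 ∧
      Λ * ρ ≤ (δ / 4) ^ 2 := by
    refine ⟨min (min (δ ^ 2) (δ / 2)) (δ ^ 2 / (16 * Λ)), ?_, ?_, ?_, ?_⟩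
    · refine lt_min (lt_min (by positivity) (by positivity)) (by positivity)
    · exact (min_le_left _ _).trans (min_le_left _ _)
    · exact (min_le_left _ _).trans (min_le_right _ _)
    · have h1 : min (min (δ ^ 2) (δ / 2)) (δ ^ 2 / (16 * Λ)) ≤ δ ^ 2 / (16 * Λ) :=
        min_le_right _ _
      refine (mul_le_mul_of_nonneg_left h1 hpos.le).trans (le_of_eq ?_)
      field_simp
      ring
  have hVne : V.Nonempty := by
    refine ⟨_, fun _ => 0, fun _ => 0, ⟨continuousOn_const, continuousOn_const, fun x _ => ?_⟩,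
      by simp, rfl⟩
    rw [hasGradientAt_iff_hasFDerivAt, map_zero]
    exact hasFDerivAt_const _ _
  obtain ⟨v, ⟨φ, Dφ, h, h0, rfl⟩, hv⟩ := exists_lt_of_lt_csSup hVne
    (show Λ - ρ < sSup V by linarith)
  have hv2 := hle φ Dφ h h0
  have hI : (∫ x in Ω, m x * φ x) ^ 2 ≤ Λ * ∫ x in Ω, ‖Dφ x‖ ^ 2 := by
    have h1 : discrim (∫ x in Ω, ‖Dφ x‖ ^ 2) (-(2 * ∫ x in Ω, m x * φ x)) Λ ≤ 0 := by
      refine discrim_le_zero fun s => ?_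
      have h2 := hlin φ φ Dφ Dφ h h h0 h0 s 0
      nlinarith
    rw [discrim] at h1
    nlinarith
  set I := ∫ x in Ω, m x * φ x with hIdef
  set N0 := ∫ x in Ω, ‖Dφ x‖ ^ 2 with hNdef
  have hI2 : (I - Λ) ^ 2 ≤ (δ / 4) ^ 2 := by
    have h1 : Λ * N0 ≤ Λ * (2 * I - Λ + ρ) := mul_le_mul_of_nonneg_left (by linarith) hpos.le
    nlinarith
  have hI3 : |I - Λ| ≤ δ / 4 := abs_le_of_sq_le_sq hI2 (by positivity)
  have hI4 := abs_le.1 hI3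
  refine ⟨φ, Dφ, h, h0, ?_, ?_, ?_⟩
  · exact hI3.trans (by linarith)
  · rw [abs_le]
    constructor
    · linarith [hI4.1]
    · linarith [hI4.2]
  · intro ψ Dψ h' h0'
    have hN' : 0 ≤ ∫ x in Ω, ‖Dψ x‖ ^ 2 := integral_nonneg fun x => by positivity
    have h1 : discrim (∫ x in Ω, ‖Dψ x‖ ^ 2)
        (-(2 * ((∫ x in Ω, m x * ψ x) - ∫ x in Ω, inner ℝ (Dφ x) (Dψ x)))) ρ ≤ 0 := by
      refine discrim_le_zero fun s => ?_
      have h2 := hlin φ ψ Dφ Dψ h h' h0 h0' 1 s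
      nlinarith
    rw [discrim] at h1
    have h2 : ρ * (∫ x in Ω, ‖Dψ x‖ ^ 2) ≤ δ ^ 2 * ∫ x in Ω, ‖Dψ x‖ ^ 2 :=
      mul_le_mul_of_nonneg_right hρ1 hN'
    nlinarith

end Pool.Agent.Lib.MP_d8ef8f_an.Ff
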