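import Pool.Agent.Lib.MP_d8ef8f_an.Ff.StmG
import Pool.Agent.Lib.MP_d8ef8f_an.Ff.F3
import Pool.Agent.Lib.MP_d8ef8f_an.Ff.F4

/-!
# Piece G5: the derivative of the functional for large rates
-/

set_option autoImplicit false

namespace Pool.Agent.Lib.MP_d8ef8f_an.Ff

open Set Filter Topology MeasureTheory
open Pool.Agent.Lib.MP_d8ef8f_an.Gd

section tools

variable {n : ℕ} {Ω : Set (Sp n)}

private theorem g5_mono (hO : IsOpen Ω) (hb : Bornology.IsBounded Ω) {f g : Sp n → ℝ}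
    (hf : ContinuousOn f (closure Ω)) (hg : ContinuousOn g (closure Ω))
    (h : ∀ x ∈ closure Ω, f x ≤ g x) : ∫ x in Ω, f x ≤ ∫ x in Ω, g x :=
  setIntegral_mono_on (p_A2 Ω hb f hf) (p_A2 Ω hb g hg) hO.measurableSet
    fun x hx => h x (subset_closure hx)

private theorem g5_abs (hO : IsOpen Ω) (hb : Bornology.IsBounded Ω) {f g : Sp n → ℝ}
    (hf : ContinuousOn f (closure Ω)) (hg : ContinuousOn g (closure Ω))
    (h : ∀ x ∈ closure Ω, |f x| ≤ g x) : |∫ x in Ω, f x| ≤ ∫ x in Ω, g x :=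
  abs_integral_le_integral_abs.trans (g5_mono hO hb hf.abs hg h)

private theorem g5_sub (hb : Bornology.IsBounded Ω) {f g : Sp n → ℝ}
    (hf : ContinuousOn f (closure Ω)) (hg : ContinuousOn g (closure Ω)) :
    ∫ x in Ω, (f x - g x) = (∫ x in Ω, f x) - ∫ x in Ω, g x :=
  integral_sub (p_A2 Ω hb f hf) (p_A2 Ω hb g hg)

private theorem g5_add (hb : Bornology.IsBounded Ω) {f g : Sp n → ℝ}
    (hf : ContinuousOn f (closure Ω)) (hg : ContinuousOn g (closure Ω)) :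
    ∫ x in Ω, (f x + g x) = (∫ x in Ω, f x) + ∫ x in Ω, g x :=
  integral_add (p_A2 Ω hb f hf) (p_A2 Ω hb g hg)

private theorem g5_const (c : ℝ) : ∫ _ in Ω, c = c * vol Ω := by
  rw [setIntegral_const, smul_eq_mul, mul_comm]
  rfl

/-- Cauchy-Schwarz -/
private theorem g5_CS (hb : Bornology.IsBounded Ω) {f g : Sp n → ℝ}
    (hf : ContinuousOn f (closure Ω)) (hg : ContinuousOn g (closure Ω)) :
    |∫ x in Ω, f x * g x| ≤
      Real.sqrt (∫ x in Ω, f x ^ 2) * Real.sqrt (∫ x in Ω, g x ^ 2) := by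
  have key : ∀ s : ℝ, 0 ≤ (∫ x in Ω, g x ^ 2) * (s * s) +
      (-(2 * ∫ x in Ω, f x * g x)) * s + ∫ x in Ω, f x ^ 2 := by
    intro s
    have h1 : 0 ≤ ∫ x in Ω, (f x - s * g x) ^ 2 := integral_nonneg fun x => sq_nonneg _
    have h2 : ∫ x in Ω, (f x - s * g x) ^ 2 =
        ∫ x in Ω, ((f x ^ 2 - (2 * s) * (f x * g x)) + (s * s) * g x ^ 2) := by
      congr 1
      ext x
      ring
    have c1 : ContinuousOn (fun x => (2 * s) * (f x * g x)) (closure Ω) :=
      continuousOn_const.mul (hf.mul hg)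
    have c2 : ContinuousOn (fun x => (s * s) * g x ^ 2) (closure Ω) :=
      continuousOn_const.mul (hg.pow 2)
    have e1 : ∫ x in Ω, ((f x ^ 2 - (2 * s) * (f x * g x)) + (s * s) * g x ^ 2) =
        (∫ x in Ω, (f x ^ 2 - (2 * s) * (f x * g x))) + ∫ x in Ω, (s * s) * g x ^ 2 :=
      g5_add hb ((hf.pow 2).sub c1) c2
    have e2 : ∫ x in Ω, (f x ^ 2 - (2 * s) * (f x * g x)) =
        (∫ x in Ω, f x ^ 2) - ∫ x in Ω, (2 * s) * (f x * g x) := g5_sub hb (hf.pow 2) c1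
    rw [h2, e1, e2, integral_const_mul, integral_const_mul] at h1
    linarith
  have h := discrim_le_zero key
  unfold discrim at h
  rw [← Real.sqrt_mul (integral_nonneg fun x => sq_nonneg _)]
  apply Real.abs_le_sqrt
  linarith

private theorem g5_L1 (hb : Bornology.IsBounded Ω) {f : Sp n → ℝ}
    (hf : ContinuousOn f (closure Ω)) :
    ∫ x in Ω, |f x| ≤ Real.sqrt (vol Ω) * Real.sqrt (∫ x in Ω, f x ^ 2) := by
  have h := (le_abs_self _).trans (g5_CS hb hf.abs (continuousOn_const (c := (1 : ℝ))))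
  simp only [sq_abs, mul_one, one_pow] at h
  rw [g5_const, one_mul] at h
  linarith

/-- quadratic inequality for vector fields -/
private theorem g5_vec (hb : Bornology.IsBounded Ω) {F G : Sp n → Sp n}
    (hF : ContinuousOn F (closure Ω)) (hG : ContinuousOn G (closure Ω)) (a : ℝ) :
    0 ≤ a ^ 2 * (∫ x in Ω, ‖F x‖ ^ 2) - 2 * a * (∫ x in Ω, inner ℝ (F x) (G x))
      + ∫ x in Ω, ‖G x‖ ^ 2 := by
  have h1 : 0 ≤ ∫ x in Ω, ‖a • F x - G x‖ ^ 2 := integral_nonneg fun x => sq_nonneg _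
  have h2 : ∫ x in Ω, ‖a • F x - G x‖ ^ 2 =
      ∫ x in Ω, ((a ^ 2 * ‖F x‖ ^ 2 - (2 * a) * inner ℝ (F x) (G x)) + ‖G x‖ ^ 2) := by
    congr 1
    ext x
    rw [norm_sub_sq_real, norm_smul, mul_pow, Real.norm_eq_abs, sq_abs, real_inner_smul_left]
    ring
  have c1 : ContinuousOn (fun x => a ^ 2 * ‖F x‖ ^ 2) (closure Ω) :=
    continuousOn_const.mul (hF.norm.pow 2)
  have c2 : ContinuousOn (fun x => (2 * a) * inner ℝ (F x) (G x)) (closure Ω) :=
    continuousOn_const.mul (hF.inner hG)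
  have e1 : ∫ x in Ω, ((a ^ 2 * ‖F x‖ ^ 2 - (2 * a) * inner ℝ (F x) (G x)) + ‖G x‖ ^ 2) =
      (∫ x in Ω, (a ^ 2 * ‖F x‖ ^ 2 - (2 * a) * inner ℝ (F x) (G x))) + ∫ x in Ω, ‖G x‖ ^ 2 :=
    g5_add hb (c1.sub c2) (hG.norm.pow 2)
  rw [h2, e1, g5_sub hb c1 c2, integral_const_mul, integral_const_mul] at h1
  exact h1

/-- the mean of `q h` -/
private theorem g5_mean (hO : IsOpen Ω) (hb : Bornology.IsBounded Ω) (hV : 0 < vol Ω)
    {q h : Sp n → ℝ} (hq : ContinuousOn q (closure Ω)) (hh : ContinuousOn h (closure Ω)) {R : ℝ}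
    (hR : ∀ x ∈ closure Ω, |h x| ≤ R) (hq0 : ∀ x ∈ closure Ω, 0 ≤ q x)
    (hqV : ∫ x in Ω, q x = vol Ω) : |(∫ x in Ω, q x * h x) / vol Ω| ≤ R := by
  have h1 : |∫ x in Ω, q x * h x| ≤ ∫ x in Ω, R * q x :=
    g5_abs hO hb (hq.mul hh) (continuousOn_const.mul hq) (fun x hx => by
      rw [abs_mul, abs_of_nonneg (hq0 x hx), mul_comm]
      exact mul_le_mul_of_nonneg_right (hR x hx) (hq0 x hx))
  rw [integral_const_mul, hqV] at h1
  rw [abs_div, abs_of_pos hV, div_le_iff₀ hV]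
  exact h1

/-- the coupling of `φ` with `q h` -/
private theorem g5_fl (hO : IsOpen Ω) (hb : Bornology.IsBounded Ω) (hV : 0 < vol Ω)
    {φ q h : Sp n → ℝ} (hφ : ContinuousOn φ (closure Ω)) (hq : ContinuousOn q (closure Ω))
    (hh : ContinuousOn h (closure Ω)) {R Φ : ℝ} (hR0 : 0 ≤ R) (hΦ0 : 0 ≤ Φ)
    (hR : ∀ x ∈ closure Ω, |h x| ≤ R) (hΦ : ∀ x ∈ closure Ω, |φ x| ≤ Φ)
    (hq0 : ∀ x ∈ closure Ω, 0 ≤ q x) (hqV : ∫ x in Ω, q x = vol Ω)
    (hφ0 : ∫ x in Ω, φ x = 0) :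
    (∫ x in Ω, φ x * q x * h x) - (∫ x in Ω, q x * h x) / vol Ω * (∫ x in Ω, φ x * q x) ≤
      (∫ x in Ω, φ x * h x) +
        2 * R * Φ * (Real.sqrt (vol Ω) * Real.sqrt (∫ x in Ω, (q x - 1) ^ 2)) := by
  have cq1 : ContinuousOn (fun x => q x - 1) (closure Ω) := hq.sub continuousOn_const
  have hL := g5_L1 hb cq1
  have h1 : (∫ x in Ω, φ x * q x * h x) - (∫ x in Ω, φ x * h x) =
      ∫ x in Ω, φ x * (q x - 1) * h x := by
    have e : ∫ x in Ω, (φ x * q x * h x - φ x * h x) =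
        (∫ x in Ω, φ x * q x * h x) - (∫ x in Ω, φ x * h x) :=
      g5_sub hb ((hφ.mul hq).mul hh) (hφ.mul hh)
    rw [← e]
    congr 1
    ext x
    ring
  have h2 : ∫ x in Ω, φ x * q x = ∫ x in Ω, φ x * (q x - 1) := by
    have e : ∫ x in Ω, φ x * (q x - 1) = ∫ x in Ω, (φ x * q x - φ x) := by
      congr 1
      ext x
      ring
    have e2 : ∫ x in Ω, (φ x * q x - φ x) = (∫ x in Ω, φ x * q x) - ∫ x in Ω, φ x :=
      g5_sub hb (hφ.mul hq) hφ
    rw [e, e2, hφ0, sub_zero]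
  have h3 : |∫ x in Ω, φ x * (q x - 1) * h x| ≤ ∫ x in Ω, R * Φ * |q x - 1| :=
    g5_abs hO hb ((hφ.mul cq1).mul hh) (continuousOn_const.mul cq1.abs) (fun x hx => by
      rw [abs_mul, abs_mul]
      have a1 := hR x hx
      have a2 := hΦ x hx
      calc |φ x| * |q x - 1| * |h x| ≤ Φ * |q x - 1| * R := by gcongr
        _ = _ := by ring)
  have h4 : |∫ x in Ω, φ x * (q x - 1)| ≤ ∫ x in Ω, Φ * |q x - 1| :=
    g5_abs hO hb (hφ.mul cq1) (continuousOn_const.mul cq1.abs) (fun x hx => by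
      rw [abs_mul]
      exact mul_le_mul_of_nonneg_right (hΦ x hx) (abs_nonneg _))
  rw [integral_const_mul] at h3 h4
  have h5 := g5_mean hO hb hV hq hh hR hq0 hqV
  set X := Real.sqrt (vol Ω) * Real.sqrt (∫ x in Ω, (q x - 1) ^ 2) with hX
  have hX0 : 0 ≤ X := by positivity
  have h6 : |(∫ x in Ω, q x * h x) / vol Ω * (∫ x in Ω, φ x * q x)| ≤ R * (Φ * X) := by
    rw [abs_mul, h2]
    apply mul_le_mul h5 (h4.trans (mul_le_mul_of_nonneg_left hL hΦ0)) (abs_nonneg _) hR0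
  have h7 : |∫ x in Ω, φ x * (q x - 1) * h x| ≤ R * Φ * X :=
    h3.trans (mul_le_mul_of_nonneg_left hL (mul_nonneg hR0 hΦ0))
  have h8 := (abs_le.1 h6).1
  have h9 := (abs_le.1 h7).2
  linarith

/-- the quadratic term -/
private theorem g5_qq (hO : IsOpen Ω) (hb : Bornology.IsBounded Ω) (hV : 0 < vol Ω)
    {q h : Sp n → ℝ} (hq : ContinuousOn q (closure Ω))
    (hh : ContinuousOn h (closure Ω)) {R : ℝ} (hR0 : 0 ≤ R)
    (hR : ∀ x ∈ closure Ω, |h x| ≤ R)
    (hq0 : ∀ x ∈ closure Ω, 0 ≤ q x) (hqV : ∫ x in Ω, q x = vol Ω) :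
    (∫ x in Ω, (q x - 1) * q x * h x) -
        (∫ x in Ω, q x * h x) / vol Ω * (∫ x in Ω, (q x - 1) * q x) ≤
      2 * R * ((∫ x in Ω, (q x - 1) ^ 2) +
        Real.sqrt (vol Ω) * Real.sqrt (∫ x in Ω, (q x - 1) ^ 2)) := by
  have cq1 : ContinuousOn (fun x => q x - 1) (closure Ω) := hq.sub continuousOn_const
  have hL := g5_L1 hb cq1
  have c1 : ContinuousOn (fun x => (q x - 1) ^ 2 + |q x - 1|) (closure Ω) :=
    (cq1.pow 2).add cq1.abs
  have hb1 : ∀ x, |(q x - 1) * q x| ≤ (q x - 1) ^ 2 + |q x - 1| := by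
    intro x
    have e : (q x - 1) * q x = (q x - 1) ^ 2 + (q x - 1) := by ring
    rw [e]
    refine (abs_add_le _ _).trans ?_
    rw [abs_of_nonneg (sq_nonneg _)]
  have h3 : |∫ x in Ω, (q x - 1) * q x * h x| ≤ ∫ x in Ω, R * ((q x - 1) ^ 2 + |q x - 1|) :=
    g5_abs hO hb ((cq1.mul hq).mul hh) (continuousOn_const.mul c1) (fun x hx => by
      rw [abs_mul, mul_comm]
      exact mul_le_mul (hR x hx) (hb1 x) (abs_nonneg _) hR0)
  have h4 : |∫ x in Ω, (q x - 1) * q x| ≤ ∫ x in Ω, ((q x - 1) ^ 2 + |q x - 1|) :=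
    g5_abs hO hb (cq1.mul hq) c1 (fun x hx => hb1 x)
  have e1 : ∫ x in Ω, ((q x - 1) ^ 2 + |q x - 1|) =
      (∫ x in Ω, (q x - 1) ^ 2) + ∫ x in Ω, |q x - 1| := g5_add hb (cq1.pow 2) cq1.abs
  rw [integral_const_mul] at h3
  rw [e1] at h3 h4
  have h5 := g5_mean hO hb hV hq hh hR hq0 hqV
  set X := Real.sqrt (vol Ω) * Real.sqrt (∫ x in Ω, (q x - 1) ^ 2) with hX
  set y := ∫ x in Ω, (q x - 1) ^ 2 with hy
  have h7 : |∫ x in Ω, (q x - 1) * q x * h x| ≤ R * (y + X) :=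
    h3.trans (mul_le_mul_of_nonneg_left (by linarith) hR0)
  have h6 : |(∫ x in Ω, q x * h x) / vol Ω * (∫ x in Ω, (q x - 1) * q x)| ≤ R * (y + X) := by
    rw [abs_mul]
    apply mul_le_mul h5 (h4.trans (by linarith)) (abs_nonneg _) hR0
  have h8 := (abs_le.1 h6).1
  have h9 := (abs_le.1 h7).2
  linarith

/-- pairing of a function of mean zero with a function close to its mean -/
private theorem g5_pair (hb : Bornology.IsBounded Ω) {f w : Sp n → ℝ}
    (hf : ContinuousOn f (closure Ω)) (hw : ContinuousOn w (closure Ω))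
    (hf0 : ∫ x in Ω, f x = 0) :
    |∫ x in Ω, f x * w x| ≤ Real.sqrt (∫ x in Ω, f x ^ 2) * Real.sqrt (Zf Ω w) := by
  have h1 : ∫ x in Ω, f x * w x = ∫ x in Ω, f x * (w x - mass Ω w / vol Ω) := by
    have e : ∫ x in Ω, f x * (w x - mass Ω w / vol Ω) =
        ∫ x in Ω, (f x * w x - mass Ω w / vol Ω * f x) := by
      congr 1
      ext x
      ring
    have e2 : ∫ x in Ω, (f x * w x - mass Ω w / vol Ω * f x) =
        (∫ x in Ω, f x * w x) - ∫ x in Ω, mass Ω w / vol Ω * f x :=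
      g5_sub hb (hf.mul hw) (continuousOn_const.mul hf)
    rw [e, e2, integral_const_mul, hf0, mul_zero, sub_zero]
  rw [h1]
  exact g5_CS hb hf (hw.sub continuousOn_const)

/-- the variance is at most the second moment -/
private theorem g5_Zf (hO : IsOpen Ω) (hb : Bornology.IsBounded Ω) (hV : 0 < vol Ω)
    {w : Sp n → ℝ} (hw : ContinuousOn w (closure Ω)) {K : ℝ}
    (h0 : ∀ x ∈ closure Ω, 0 ≤ w x) (h1 : ∀ x ∈ closure Ω, w x ≤ K) :
    Zf Ω w ≤ K * mass Ω w := by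
  unfold Zf
  set μ := mass Ω w / vol Ω with hμ
  have hm : mass Ω w = μ * vol Ω := by
    rw [hμ]
    field_simp
  have hm' : ∫ x in Ω, w x = μ * vol Ω := hm
  have h2 : ∫ x in Ω, (w x - μ) ^ 2 = (∫ x in Ω, (w x ^ 2 - 2 * μ * w x)) + μ ^ 2 * vol Ω := by
    have e : ∫ x in Ω, ((w x ^ 2 - 2 * μ * w x) + μ ^ 2) =
        (∫ x in Ω, (w x ^ 2 - 2 * μ * w x)) + ∫ _ in Ω, μ ^ 2 :=
      g5_add hb ((hw.pow 2).sub (continuousOn_const.mul hw)) continuousOn_const
    rw [← g5_const, ← e]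
    congr 1
    ext x
    ring
  have h3 : ∫ x in Ω, w x ^ 2 ≤ ∫ x in Ω, K * w x :=
    g5_mono hO hb (hw.pow 2) (continuousOn_const.mul hw) (fun x hx => by
      have a1 := h0 x hx
      have a2 := h1 x hx
      nlinarith)
  rw [integral_const_mul] at h3
  have e3 : ∫ x in Ω, (w x ^ 2 - 2 * μ * w x) =
      (∫ x in Ω, w x ^ 2) - ∫ x in Ω, 2 * μ * w x :=
    g5_sub hb (hw.pow 2) (continuousOn_const.mul hw)
  rw [h2, e3, integral_const_mul, hm']
  have h4 : (∫ x in Ω, w x ^ 2) ≤ K * mass Ω w := h3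
  have h5 : 0 ≤ μ ^ 2 * vol Ω := by positivity
  nlinarith

/-- the integral of `φ U` -/
private theorem g5_PU (hO : IsOpen Ω) (hb : Bornology.IsBounded Ω) {N : ℕ}
    {φ : Sp n → ℝ} (hφ : ContinuousOn φ (closure Ω)) {w : Fin N → Sp n → ℝ}
    (hw : ∀ j, ContinuousOn (w j) (closure Ω)) (hw0 : ∀ j, ∀ x ∈ closure Ω, 0 ≤ w j x) {Φ : ℝ}
    (hΦ0 : 0 ≤ Φ) (hΦ : ∀ x ∈ closure Ω, |φ x| ≤ Φ) (hφ0 : ∫ x in Ω, φ x = 0)
    (L : Finset (Fin N)) {Z ν : ℝ} (hZ0 : 0 ≤ Z) (hZ : ∀ i, i ∉ L → Zf Ω (w i) ≤ Z ^ 2)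
    (hν : (∑ j ∈ L, mass Ω (w j)) ≤ ν) :
    |∫ x in Ω, φ x * ∑ j, w j x| ≤ N * (Φ * Real.sqrt (vol Ω) * Z) + Φ * ν := by
  have h1 : ∫ x in Ω, φ x * ∑ j, w j x = ∑ j, ∫ x in Ω, φ x * w j x := by
    rw [← integral_finsetSum]
    · congr 1
      ext x
      rw [Finset.mul_sum]
    · intro j _
      exact p_A2 Ω hb _ (hφ.mul (hw j))
  have h2 : Real.sqrt (∫ x in Ω, φ x ^ 2) ≤ Φ * Real.sqrt (vol Ω) := by
    have e : ∫ x in Ω, φ x ^ 2 ≤ Φ ^ 2 * vol Ω := by
      rw [← g5_const]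
      exact g5_mono hO hb (hφ.pow 2) continuousOn_const (fun x hx => by
        rw [← sq_abs]
        exact pow_le_pow_left₀ (abs_nonneg _) (hΦ x hx) 2)
    refine (Real.sqrt_le_sqrt e).trans (le_of_eq ?_)
    rw [Real.sqrt_mul (sq_nonneg _), Real.sqrt_sq hΦ0]
  have h3 : ∀ j, |∫ x in Ω, φ x * w j x| ≤
      Φ * Real.sqrt (vol Ω) * Z + if j ∈ L then Φ * mass Ω (w j) else 0 := by
    intro j
    split_ifs with hj
    · have h4 : |∫ x in Ω, φ x * w j x| ≤ ∫ x in Ω, Φ * w j x :=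
        g5_abs hO hb (hφ.mul (hw j)) (continuousOn_const.mul (hw j)) (fun x hx => by
          rw [abs_mul, abs_of_nonneg (hw0 j x hx)]
          exact mul_le_mul_of_nonneg_right (hΦ x hx) (hw0 j x hx))
      rw [integral_const_mul] at h4
      have h5 : 0 ≤ Φ * Real.sqrt (vol Ω) * Z := by positivity
      have h6 : ∫ x in Ω, w j x = mass Ω (w j) := rfl
      rw [h6] at h4
      linarith
    · rw [add_zero]
      refine (g5_pair hb hφ (hw j) hφ0).trans ?_
      have h5 : Real.sqrt (Zf Ω (w j)) ≤ Z := by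
        rw [Real.sqrt_le_left hZ0]
        exact hZ j hj
      exact mul_le_mul h2 h5 (Real.sqrt_nonneg _) (by positivity)
  rw [h1]
  refine (Finset.abs_sum_le_sum_abs _ _).trans ((Finset.sum_le_sum fun j _ => h3 j).trans ?_)
  rw [Finset.sum_add_distrib, Finset.sum_const, Finset.card_univ, Fintype.card_fin, nsmul_eq_mul,
    Finset.sum_ite_mem, Finset.univ_inter, ← Finset.mul_sum]
  have := mul_le_mul_of_nonneg_left hν hΦ0
  linarith

/-- the integral of `(1 - q) U` -/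
private theorem g5_QU (hO : IsOpen Ω) (hb : Bornology.IsBounded Ω) (hV : 0 < vol Ω) {N : ℕ}
    {f : Sp n → ℝ} (hf : ContinuousOn f (closure Ω)) {w : Fin N → Sp n → ℝ}
    (hw : ∀ j, ContinuousOn (w j) (closure Ω)) (hw0 : ∀ j, ∀ x ∈ closure Ω, 0 ≤ w j x) {K Y : ℝ}
    (hK0 : 0 ≤ K) (hK : ∀ j, ∀ x ∈ closure Ω, w j x ≤ K) (hf0 : ∫ x in Ω, f x = 0)
    (hY0 : 0 ≤ Y) (hY : ∫ x in Ω, f x ^ 2 ≤ Y ^ 2)
    (L : Finset (Fin N)) {Z ν : ℝ} (hZ0 : 0 ≤ Z) (hZ : ∀ i, i ∉ L → Zf Ω (w i) ≤ Z ^ 2)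
    (hν : (∑ j ∈ L, mass Ω (w j)) ≤ ν) :
    |∫ x in Ω, f x * ∑ j, w j x| ≤ N * (Y * (Z + Real.sqrt (K * ν))) := by
  have h1 : ∫ x in Ω, f x * ∑ j, w j x = ∑ j, ∫ x in Ω, f x * w j x := by
    rw [← integral_finsetSum]
    · congr 1
      ext x
      rw [Finset.mul_sum]
    · intro j _
      exact p_A2 Ω hb _ (hf.mul (hw j))
  have h2 : Real.sqrt (∫ x in Ω, f x ^ 2) ≤ Y := by
    rw [Real.sqrt_le_left hY0]
    exact hY
  have hm0 : ∀ j, 0 ≤ mass Ω (w j) := fun j =>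
    setIntegral_nonneg hO.measurableSet fun x hx => hw0 j x (subset_closure hx)
  have h3 : ∀ j, |∫ x in Ω, f x * w j x| ≤ Y * (Z + Real.sqrt (K * ν)) := by
    intro j
    refine (g5_pair hb hf (hw j) hf0).trans ?_
    refine mul_le_mul h2 ?_ (Real.sqrt_nonneg _) hY0
    by_cases hj : j ∈ L
    · have h4 := g5_Zf hO hb hV (hw j) (hw0 j) (hK j)
      have h5 : mass Ω (w j) ≤ ν :=
        (Finset.single_le_sum (fun i _ => hm0 i) hj).trans hν
      have h6 : Real.sqrt (Zf Ω (w j)) ≤ Real.sqrt (K * ν) :=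
        Real.sqrt_le_sqrt (h4.trans (mul_le_mul_of_nonneg_left h5 hK0))
      linarith
    · have h5 : Real.sqrt (Zf Ω (w j)) ≤ Z := by
        rw [Real.sqrt_le_left hZ0]
        exact hZ j hj
      have := Real.sqrt_nonneg (K * ν)
      linarith
  rw [h1]
  refine (Finset.abs_sum_le_sum_abs _ _).trans ((Finset.sum_le_sum fun j _ => h3 j).trans ?_)
  rw [Finset.sum_const, Finset.card_univ, Fintype.card_fin, nsmul_eq_mul]

/-- `1 - q` is of class `C1` -/
private theorem g5_C1 {w : Sp n → ℝ} {Dw : Sp n → Sp n} (h : C1 Ω w Dw) :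
    C1 Ω (fun x => 1 - qr Ω w x) (fun x => - Dqr Ω w Dw x) := by
  have hqr : ∀ x, qr Ω w x = (vol Ω / mass Ω w) * w x := fun x => by
    unfold qr
    ring
  have hcD : ContinuousOn (fun x => - Dqr Ω w Dw x) (closure Ω) := by
    unfold Dqr
    exact (h.contD.const_smul (vol Ω / mass Ω w)).neg
  simp only [hqr]
  refine ⟨continuousOn_const.sub (continuousOn_const.mul h.cont), hcD, ?_⟩
  intro x hx
  have e1 := (h.grad x hx).hasFDerivAt
  have e3 := (e1.const_mul (vol Ω / mass Ω w)).const_sub 1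
  rw [hasGradientAt_iff_hasFDerivAt]
  refine e3.congr_fderiv ?_
  ext v
  simp [Dqr, InnerProductSpace.toDual_apply_apply]

end tools

/-- first term -/
private theorem g5_T1 {D Φ E Eφ G N2 : ℝ} (hD : 0 < D) (hΦ : 0 < Φ) (h16 : 16 * Φ ≤ D)
    (hN2 : 0 ≤ N2) (h1 : - (Φ * E) ≤ Eφ)
    (h2 : 0 ≤ (D - 2 * Φ) ^ 2 * E - 2 * (D - 2 * Φ) * G + N2) :
    - (N2 * (1 / D)) - 4 * Φ * N2 * (1 / D) ^ 2 ≤ D * E + 2 * Eφ - 2 * G := by
  have ha : 0 < D - 2 * Φ := by linarith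
  have h3 : - (N2 / (D - 2 * Φ)) ≤ (D - 2 * Φ) * E - 2 * G := by
    have e : (D - 2 * Φ) ^ 2 * E - 2 * (D - 2 * Φ) * G + N2 =
        (D - 2 * Φ) * (((D - 2 * Φ) * E - 2 * G) + N2 / (D - 2 * Φ)) := by
      field_simp
    rw [e] at h2
    have := (mul_nonneg_iff_of_pos_left ha).1 h2
    linarith
  have h4 : N2 / (D - 2 * Φ) ≤ N2 * (1 / D) + 4 * Φ * N2 * (1 / D) ^ 2 := by
    have e : N2 * (1 / D) + 4 * Φ * N2 * (1 / D) ^ 2 = N2 * ((D + 4 * Φ) / D ^ 2) := by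
      field_simp
    rw [e, div_eq_mul_inv]
    apply mul_le_mul_of_nonneg_left _ hN2
    rw [inv_eq_one_div, div_le_div_iff₀ ha (by positivity)]
    nlinarith
  linarith

/-- second term -/
private theorem g5_T2 {D dl ζ δ ρ W QU B : ℝ} (hD : 0 < D) (hDl : D ≤ dl) (hζ : 0 < ζ)
    (hW0 : 0 ≤ W) (hρ : ρ ^ 2 ≤ δ ^ 2 * W) (hQU : |QU| ≤ B) :
    - (δ ^ 2 / (4 * ζ) * (1 / D)) - B ≤ ρ - QU + ζ * dl * W := by
  have hdl : 0 < dl := by linarith
  have h1 := (abs_le.1 hQU).2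
  have hs : 0 < ζ * dl := by positivity
  have h2 : |ρ| ≤ ζ * dl * W + δ ^ 2 / (4 * (ζ * dl)) := by
    apply abs_le_of_sq_le_sq _ (by positivity)
    refine hρ.trans ?_
    have e0 : ζ * dl * W * (δ ^ 2 / (4 * (ζ * dl))) = δ ^ 2 * W / 4 := by
      field_simp
    nlinarith [sq_nonneg (ζ * dl * W - δ ^ 2 / (4 * (ζ * dl)))]
  have h3 : δ ^ 2 / (4 * (ζ * dl)) ≤ δ ^ 2 / (4 * ζ) * (1 / D) := by
    have e : δ ^ 2 / (4 * ζ) * (1 / D) = δ ^ 2 / (4 * (ζ * D)) := by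
      field_simp
    rw [e]
    apply div_le_div_of_nonneg_left (sq_nonneg _) (by positivity)
    nlinarith
  have h4 := (abs_le.1 h2).1
  linarith

theorem p_G5 (h3 : StmG3) : StmG5 := by
  intro n N Ω P hDom d m hm hdpos φ Dφ Φ I N2 δ hφ hΦ hN2 hφ0 hI hI0 hδ0 hopt k l L hkl hkL hlL
    K R Cy Cz c ζ ν γ hK hR0 hΦ0 hCy hCz hc hζ hν hγ hdk1 hdk16 hdl hbr T hT u ut Du lu hs t ht
    huK hR hmass hY hZ hL ε hε hε1 hEr
  have hO := hDom.isOpen
  have hb := hDom.bdd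
  have hV : 0 < vol Ω := by
    unfold vol
    rw [Measure.real]
    exact ENNReal.toReal_pos (hO.measure_pos _ hDom.nonempty).ne' hb.measure_lt_top.ne
  set V := vol Ω with hVdef
  have hcu : ∀ j, ContinuousOn (u j t) (closure Ω) := by
    intro j
    exact (hs.cu j).comp (f := fun x => (t, x)) (by fun_prop) (fun x hx => ⟨ht, hx⟩)
  have hcD : ∀ j, ContinuousOn (Du j t) (closure Ω) := by
    intro j
    exact (hs.cD j).comp (f := fun x => (t, x)) (by fun_prop) (fun x hx => ⟨ht, hx⟩)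
  have hn : ∀ j, ∀ x ∈ closure Ω, 0 ≤ u j t x := fun j x hx => hs.nonneg j t ht x hx
  have hcU : ContinuousOn (fun x => ∑ j, u j t x) (closure Ω) :=
    continuousOn_finsetSum _ fun j _ => hcu j
  have ch : ContinuousOn (fun x => m x - ∑ j, u j t x) (closure Ω) := hm.sub hcU
  -- the relative density
  set q : Sp n → ℝ := fun x => qr Ω (u l t) x with hq
  set Dq : Sp n → Sp n := fun x => Dqr Ω (u l t) (Du l t) x with hDq
  set μ := mass Ω (u l t) with hμ
  have hq' : ∀ x, q x = V / μ * u l t x := fun x => by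
    show V * u l t x / μ = _
    ring
  have cq : ContinuousOn q (closure Ω) := by
    have : q = fun x => V / μ * u l t x := funext hq'
    rw [this]
    exact continuousOn_const.mul (hcu l)
  have cDq : ContinuousOn Dq (closure Ω) := by
    show ContinuousOn (fun x => (V / μ) • Du l t x) (closure Ω)
    exact (hcD l).const_smul (V / μ)
  have hq0 : ∀ x ∈ closure Ω, 0 ≤ q x := fun x hx => by
    rw [hq']
    have := hn l x hx
    positivity
  have hqV : ∫ x in Ω, q x = V := by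
    simp only [hq']
    rw [integral_const_mul]
    have : ∫ x in Ω, u l t x = μ := rfl
    rw [this]
    field_simp
  -- derivatives
  have hp : ∀ x ∈ closure Ω, 0 < u k t x + ε := fun x hx => by
    have := hn k x hx
    linarith
  set gv : Sp n → Sp n := fun x => (u k t x + ε)⁻¹ • Du k t x with hgv
  have cgv : ContinuousOn gv (closure Ω) :=
    (((hcu k).add continuousOn_const).inv₀ fun x hx => (hp x hx).ne').smul (hcD k)
  set E := ∫ x in Ω, ‖gv x‖ ^ 2 with hE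
  set Eφ := ∫ x in Ω, φ x * ‖gv x‖ ^ 2 with hEφ
  set G := ∫ x in Ω, inner ℝ (gv x) (Dφ x) with hG
  set H := ∫ x in Ω, (m x - ∑ j, u j t x) with hH
  set eK := ∫ x in Ω, (ε / (u k t x + ε)) * (m x - ∑ j, u j t x) with heK
  set Hφ := ∫ x in Ω, φ x * (m x - ∑ j, u j t x) with hHφ
  set eφ := ∫ x in Ω, φ x * (ε / (u k t x + ε)) * (m x - ∑ j, u j t x) with heφ
  set QH := ∫ x in Ω, q x * (m x - ∑ j, u j t x) with hQH
  set GQ := ∫ x in Ω, inner ℝ (Dq x) (Dφ x) with hGQ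
  set PQH := ∫ x in Ω, φ x * q x * (m x - ∑ j, u j t x) with hPQH
  set PQ := ∫ x in Ω, φ x * q x with hPQ
  set W := ∫ x in Ω, ‖Dq x‖ ^ 2 with hW
  set QQH := ∫ x in Ω, (q x - 1) * q x * (m x - ∑ j, u j t x) with hQQH
  set QQ := ∫ x in Ω, (q x - 1) * q x with hQQ
  have C10 : C1 Ω (fun _ => (1 : ℝ)) (fun _ => 0) :=
    ⟨continuousOn_const, continuousOn_const, fun x _ => by simpa using hasGradientAt_const x (1 : ℝ)⟩
  have hLg : HasDerivAt (fun s => Lg Ω ε (u k s)) (d k * E + H - eK) t := by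
    have h := p_F3 Ω hO hb d m hm T hT u ut Du lu hs ε hε (fun _ => 1) (fun _ => 0) C10 k t ht
    simp only [one_mul, inner_zero_right, integral_zero, mul_zero, sub_zero] at h
    exact h
  have hLf : HasDerivAt (fun s => ∫ x in Ω, φ x * Real.log (u k s x + ε))
      (d k * Eφ - d k * G + Hφ - eφ) t :=
    p_F3 Ω hO hb d m hm T hT u ut Du lu hs ε hε φ Dφ hφ k t ht
  have hMs := (p_F4 Ω hO hb d m hm T hT u ut Du lu hs l).1 t ht
  have hLM : HasDerivAt (fun s => V * Real.log (mass Ω (u l s))) QH t := by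
    have h1 := (hMs.log hmass.ne').const_mul V
    refine h1.congr_deriv ?_
    have e : QH = V / μ * ∫ x in Ω, u l t x * (m x - ∑ i, u i t x) := by
      rw [hQH, ← integral_const_mul]
      congr 1
      ext x
      rw [hq']
      ring
    rw [e]
    ring
  obtain ⟨hQ1, hQ2⟩ := h3 Ω hO hDom.nonempty hb d m hm T hT u ut Du lu hs φ Dφ hφ l t ht hmass
  have hψ := (((hLg.sub hLM).add (hLf.const_mul (2 / d k))).sub
    (hQ1.const_mul (1 / d l))).sub (hQ2.const_mul (ζ / 2))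
  refine ⟨_, hψ, ?_⟩
  -- constants
  have hD : 0 < d k := hdpos k
  have hDl0 : 0 < d l := hdpos l
  have hDl : d k ≤ d l := by
    have h1 : 0 ≤ c * d k := mul_nonneg hc.le hD.le
    have h2 : (1 + c) * d k = d k + c * d k := by ring
    rw [h2] at hdl
    linarith
  set D := d k with hDdef
  set dl := d l with hdldef
  have hi0 : 0 < 1 / D := by positivity
  have hi1 : 1 / D ≤ 1 := by
    rw [div_le_one hD]
    exact hdk1
  set i := 1 / D with hi
  have hDi : D * i = 1 := by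
    rw [hi]
    field_simp
  have hN20 : 0 ≤ N2 := by
    rw [← hN2]
    exact integral_nonneg fun x => sq_nonneg _
  have hE0 : 0 ≤ E := integral_nonneg fun x => sq_nonneg _
  have hW0 : 0 ≤ W := integral_nonneg fun x => sq_nonneg _
  have hsV : 0 ≤ Real.sqrt V := Real.sqrt_nonneg _
  -- first term
  have hT1 : - (N2 * i) - 4 * Φ * N2 * i ^ 2 ≤ D * E + 2 * Eφ - 2 * G := by
    have h1 : - (Φ * E) ≤ Eφ := by
      have h := g5_abs hO hb (f := fun x => φ x * ‖gv x‖ ^ 2) (g := fun x => Φ * ‖gv x‖ ^ 2)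
        (hφ.cont.mul (cgv.norm.pow 2)) (continuousOn_const.mul (cgv.norm.pow 2)) (fun x hx => by
          rw [abs_mul, abs_of_nonneg (sq_nonneg ‖gv x‖)]
          exact mul_le_mul_of_nonneg_right (hΦ x hx) (sq_nonneg _))
      rw [integral_const_mul] at h
      exact (abs_le.1 h).1
    have h2 := g5_vec hb cgv hφ.contD (D - 2 * Φ)
    rw [hN2] at h2
    exact g5_T1 hD hΦ0 hdk16 hN20 h1 h2
  -- second term
  have cq1 : ContinuousOn (fun x => q x - 1) (closure Ω) := cq.sub continuousOn_const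
  have c1q : ContinuousOn (fun x => 1 - q x) (closure Ω) := continuousOn_const.sub cq
  have h1q : ∫ x in Ω, (1 - q x) = 0 := by
    rw [g5_sub hb continuousOn_const cq, hqV, g5_const]
    ring
  have hYi : Yq Ω (u l t) ≤ (Cy * i) ^ 2 := by
    have e : Cy * i = Cy / D := by
      rw [hi]
      ring
    rw [e]
    exact hY
  have hYq : Yq Ω (u l t) = ∫ x in Ω, (q x - 1) ^ 2 := rfl
  have hCyi : 0 ≤ Cy * i := by positivity
  have hCzi : 0 ≤ Cz * i := by positivity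
  have hYs : Real.sqrt (∫ x in Ω, (q x - 1) ^ 2) ≤ Cy * i := by
    rw [Real.sqrt_le_left hCyi, ← hYq]
    exact hYi
  have hZi : ∀ j, j ∉ L → Zf Ω (u j t) ≤ (Cz * i) ^ 2 := by
    intro j hj
    have e : Cz * i = Cz / D := by
      rw [hi]
      ring
    rw [e]
    exact hZ j hj
  set QU := ∫ x in Ω, (1 - q x) * ∑ j, u j t x with hQU
  have hQUb : |QU| ≤ N * (Cy * i * (Cz * i + Real.sqrt (K * ν))) := by
    refine g5_QU hO hb hV c1q hcu hn (by linarith) huK h1q hCyi ?_ L hCzi hZi hL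
    have e : ∫ x in Ω, (1 - q x) ^ 2 = ∫ x in Ω, (q x - 1) ^ 2 := by
      congr 1
      ext x
      ring
    rw [e, ← hYq]
    exact hYi
  set mQ := ∫ x in Ω, m x * (1 - q x) with hmQ
  have hHQ : H - QH = mQ - QU := by
    have e1 : ∫ x in Ω, ((m x - ∑ j, u j t x) - q x * (m x - ∑ j, u j t x)) = H - QH :=
      g5_sub hb ch (cq.mul ch)
    have e2 : ∫ x in Ω, (m x * (1 - q x) - (1 - q x) * ∑ j, u j t x) = mQ - QU :=
      g5_sub hb (hm.mul c1q) (c1q.mul hcU)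
    rw [← e1, ← e2]
    congr 1
    ext x
    ring
  have hρ : (mQ + GQ) ^ 2 ≤ δ ^ 2 * W := by
    have h := hopt _ _ (g5_C1 (Ω := Ω) (hs.lap l t ht).c1) h1q
    have e1 : ∫ x in Ω, inner ℝ (Dφ x) (-Dqr Ω (u l t) (Du l t) x) = - GQ := by
      rw [hGQ, ← integral_neg]
      congr 1
      ext x
      rw [inner_neg_right, real_inner_comm]
    have e2 : ∫ x in Ω, ‖-Dqr Ω (u l t) (Du l t) x‖ ^ 2 = W := by
      rw [hW]
      congr 1
      ext x
      rw [norm_neg]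
    rw [e1, e2, sub_neg_eq_add] at h
    exact h
  have hT2 := g5_T2 hD hDl hζ hW0 hρ hQUb
  rw [← hi] at hT2
  -- third term
  set PU := ∫ x in Ω, φ x * ∑ j, u j t x with hPU
  have hPUb : |PU| ≤ N * (Φ * Real.sqrt V * (Cz * i)) + Φ * ν :=
    g5_PU hO hb hφ.cont hcu hn hΦ0.le hΦ hφ0 L hCzi hZi hL
  have hHφ' : Hφ = I - PU := by
    have e1 : ∫ x in Ω, (m x * φ x - φ x * ∑ j, u j t x) =
        (∫ x in Ω, m x * φ x) - ∫ x in Ω, φ x * ∑ j, u j t x :=
      g5_sub hb (hm.mul hφ.cont) (hφ.cont.mul hcU)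
    rw [← hI, hPU, ← e1, hHφ]
    congr 1
    ext x
    ring
  set X := Real.sqrt V * Real.sqrt (∫ x in Ω, (q x - 1) ^ 2) with hX
  have hX0 : 0 ≤ X := by positivity
  have hXb : X ≤ Real.sqrt V * (Cy * i) := mul_le_mul_of_nonneg_left hYs hsV
  have hA : PQH - QH / V * PQ ≤ Hφ + 2 * R * Φ * X :=
    g5_fl hO hb hV hφ.cont cq ch hR0.le hΦ0.le hR hΦ hq0 hqV hφ0
  have hB : QQH - QH / V * QQ ≤ 2 * R * ((∫ x in Ω, (q x - 1) ^ 2) + X) :=
    g5_qq hO hb hV cq ch hR0.le hR hq0 hqV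
  rw [← hYq] at hB
  -- errors
  have hp0 : ∀ x ∈ closure Ω, 0 ≤ ε / (u k t x + ε) := fun x hx =>
    (div_pos hε (hp x hx)).le
  have cE : ContinuousOn (fun x => ε / (u k t x + ε)) (closure Ω) :=
    continuousOn_const.div ((hcu k).add continuousOn_const) fun x hx => (hp x hx).ne'
  have hEr0 : 0 ≤ Er Ω ε (u k t) :=
    setIntegral_nonneg hO.measurableSet fun x hx => hp0 x (subset_closure hx)
  have heKb : |eK| ≤ R * Er Ω ε (u k t) := by
    have h := g5_abs hO hb (f := fun x => (ε / (u k t x + ε)) * (m x - ∑ j, u j t x))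
      (g := fun x => R * (ε / (u k t x + ε))) (cE.mul ch) (continuousOn_const.mul cE)
      (fun x hx => by
        rw [abs_mul, abs_of_nonneg (hp0 x hx), mul_comm]
        exact mul_le_mul_of_nonneg_right (hR x hx) (hp0 x hx))
    rw [integral_const_mul] at h
    exact h
  have heφb : |eφ| ≤ Φ * R * Er Ω ε (u k t) := by
    have h := g5_abs hO hb (f := fun x => φ x * (ε / (u k t x + ε)) * (m x - ∑ j, u j t x))
      (g := fun x => Φ * R * (ε / (u k t x + ε))) ((hφ.cont.mul cE).mul ch)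
      (continuousOn_const.mul cE)
      (fun x hx => by
        rw [abs_mul, abs_mul, abs_of_nonneg (hp0 x hx)]
        have a1 := hR x hx
        have a2 := hΦ x hx
        have a3 := hp0 x hx
        calc |φ x| * (ε / (u k t x + ε)) * |m x - ∑ j, u j t x|
            ≤ Φ * (ε / (u k t x + ε)) * R := by gcongr
          _ = _ := by ring)
    rw [integral_const_mul] at h
    exact h
  set er := Er Ω ε (u k t) with her
  -- the value
  have hval : D * E + H - eK - QH + 2 / D * (D * Eφ - D * G + Hφ - eφ)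
      - 1 / dl * (-(dl * GQ) + PQH - QH / V * PQ)
      - ζ / 2 * (-(2 * dl * W) + 2 * QQH - 2 * (QH / V) * QQ) =
      (D * E + 2 * Eφ - 2 * G) + (mQ + GQ - QU + ζ * dl * W)
      - (1 / dl) * (PQH - QH / V * PQ) + 2 * i * Hφ - eK - 2 * i * eφ
      - ζ * (QQH - QH / V * QQ) := by
    have e1 : H = QH + (mQ - QU) := by linarith
    have e2 : 2 / D * (D * Eφ - D * G + Hφ - eφ) =
        2 * Eφ - 2 * G + 2 * i * Hφ - 2 * i * eφ := by
      rw [hi]
      field_simp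
    have e3 : 1 / dl * (-(dl * GQ) + PQH - QH / V * PQ) =
        - GQ + (1 / dl) * (PQH - QH / V * PQ) := by
      have : (1 / dl) * dl = 1 := by field_simp
      calc 1 / dl * (-(dl * GQ) + PQH - QH / V * PQ) =
          - (((1 / dl) * dl) * GQ) + (1 / dl) * (PQH - QH / V * PQ) := by ring
        _ = _ := by rw [this]; ring
    rw [e2, e3, e1]
    ring
  show γ / D ≤ D * E + H - eK - QH + 2 / D * (D * Eφ - D * G + Hφ - eφ)
      - 1 / dl * (-(dl * GQ) + PQH - QH / V * PQ)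
      - ζ / 2 * (-(2 * dl * W) + 2 * QQH - 2 * (QH / V) * QQ)
  rw [hval]
  set A := PQH - QH / V * PQ with hAdef
  set B := QQH - QH / V * QQ with hBdef
  set pu := N * (Φ * Real.sqrt V * (Cz * i)) + Φ * ν with hpu
  have hpu0 : 0 ≤ pu := by positivity
  have hPU1 := abs_le.1 hPUb
  -- third term
  have hT3 : (1 / dl) * A ≤ I / (1 + c) * i + i * (pu + 2 * R * Φ * (Real.sqrt V * (Cy * i))) := by
    have h1 : A ≤ I + (pu + 2 * R * Φ * (Real.sqrt V * (Cy * i))) := by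
      have h2 : 2 * R * Φ * X ≤ 2 * R * Φ * (Real.sqrt V * (Cy * i)) :=
        mul_le_mul_of_nonneg_left hXb (by positivity)
      have := hPU1.1
      linarith
    have h3 : 1 / dl ≤ i / (1 + c) := by
      rw [hi, div_div]
      apply one_div_le_one_div_of_le (by positivity)
      linarith
    have h4 : 1 / dl ≤ i := one_div_le_one_div_of_le hD hDl
    have h5 : 0 ≤ 1 / dl := by positivity
    have h6 : 0 ≤ pu + 2 * R * Φ * (Real.sqrt V * (Cy * i)) := by positivity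
    calc (1 / dl) * A ≤ (1 / dl) * (I + (pu + 2 * R * Φ * (Real.sqrt V * (Cy * i)))) :=
          mul_le_mul_of_nonneg_left h1 h5
      _ = (1 / dl) * I + (1 / dl) * (pu + 2 * R * Φ * (Real.sqrt V * (Cy * i))) := by ring
      _ ≤ (i / (1 + c)) * I + i * (pu + 2 * R * Φ * (Real.sqrt V * (Cy * i))) := by
          gcongr
      _ = _ := by ring
  have hT4 : 2 * i * (I - pu) ≤ 2 * i * Hφ := by
    apply mul_le_mul_of_nonneg_left _ (by positivity)
    rw [hHφ']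
    have := hPU1.2
    linarith
  have hT5 : - (γ * i) ≤ - eK - 2 * i * eφ := by
    have h1 := (abs_le.1 heKb).2
    have h2 := (abs_le.1 heφb).2
    have h3 : 2 * i * eφ ≤ R * er := by
      have h4 : 16 * Φ * i ≤ 1 := by
        have := mul_le_mul_of_nonneg_right hdk16 hi0.le
        rw [hDi] at this
        exact this
      calc 2 * i * eφ ≤ 2 * i * (Φ * R * er) := mul_le_mul_of_nonneg_left h2 (by positivity)
        _ = (2 * Φ * i) * (R * er) := by ring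
        _ ≤ 1 * (R * er) := by
            have h5 : 0 ≤ Φ * i := by positivity
            exact mul_le_mul_of_nonneg_right (by linarith) (by positivity)
        _ = R * er := one_mul _
    have h5 : γ / D = γ * i := by
      rw [hi]
      ring
    rw [h5] at hEr
    linarith
  have hT6 : ζ * B ≤ 2 * ζ * R * (Cy ^ 2 + Real.sqrt V * Cy) * i := by
    have h1 : Yq Ω (u l t) + X ≤ (Cy ^ 2 + Real.sqrt V * Cy) * i := by
      have h2 : (Cy * i) ^ 2 ≤ Cy ^ 2 * i := by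
        rw [mul_pow]
        apply mul_le_mul_of_nonneg_left _ (sq_nonneg _)
        rw [sq]
        exact mul_le_of_le_one_left hi0.le hi1
      have h3 : Real.sqrt V * (Cy * i) = Real.sqrt V * Cy * i := by ring
      linarith
    calc ζ * B ≤ ζ * (2 * R * (Yq Ω (u l t) + X)) := mul_le_mul_of_nonneg_left hB hζ.le
      _ ≤ ζ * (2 * R * ((Cy ^ 2 + Real.sqrt V * Cy) * i)) := by gcongr
      _ = _ := by ring
  have h5 : γ / D = γ * i := by
    rw [hi]
    ring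
  rw [h5]
  have e9 : (4 * Φ * N2 + 3 * N * Φ * Real.sqrt V * Cz + 2 * R * Φ * Real.sqrt V * Cy
          + N * Cy * Cz) / D = (4 * Φ * N2 + 3 * N * Φ * Real.sqrt V * Cz +
          2 * R * Φ * Real.sqrt V * Cy + N * Cy * Cz) * i := by
    rw [hi]
    ring
  rw [e9] at hbr
  have hfin := mul_le_mul_of_nonneg_right hbr hi0.le
  set rK := Real.sqrt (K * ν) with hrK
  set sV := Real.sqrt V with hsVd
  set I1 := I / (1 + c) with hI1
  set δζ := δ ^ 2 / (4 * ζ) with hδζ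
  have e10 : (2 * I - N2 - I1 - (4 * Φ * N2 + 3 * N * Φ * sV * Cz +
          2 * R * Φ * sV * Cy + N * Cy * Cz) * i - (3 * Φ * ν + Cy * N * rK)
          - 2 * ζ * R * (Cy ^ 2 + sV * Cy) - δζ) * i =
      (- (N2 * i) - 4 * Φ * N2 * i ^ 2) + (- (δζ * i) - N * (Cy * i * (Cz * i + rK)))
      - (I1 * i + i * (pu + 2 * R * Φ * (sV * (Cy * i)))) + 2 * i * (I - pu)
      - 2 * ζ * R * (Cy ^ 2 + sV * Cy) * i := by
    rw [hpu]
    ring
  linarith

end Pool.Agent.Lib.MP_d8ef8f_an.Ff
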