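import Pool.Agent.Lib.MP_d8ef8f_an.Ff.Main
import Pool.Agent.Lib.MP_d8ef8f_an.Ff.G1
import Pool.Agent.Lib.MP_d8ef8f_an.Ff.G2
import Pool.Agent.Lib.MP_d8ef8f_an.Ff.G3
import Pool.Agent.Lib.MP_d8ef8f_an.Ff.G4
import Pool.Agent.Lib.MP_d8ef8f_an.Ff.G5

/-!
# All rates large: assembly
-/

set_option autoImplicit false

namespace Pool.Agent.Lib.MP_d8ef8f_an.Ff

theorem g10_all : StmG10 :=
  p_G10 p_F1 p_F3 p_F4 p_F5 p_F9 p_G1 (p_G2 p_F4) p_G4 (p_G5 p_G3)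

end Pool.Agent.Lib.MP_d8ef8f_an.Ff
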