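import Pool.Agent.Lib.MP_d8ef8f_an.Gd.Stm

/-!
# Attraction with a threshold independent of the mass of the base species

`StmZU` is `StmZ` with `ν` chosen before `A` (same proof).
-/

set_option autoImplicit false

namespace Pool.Agent.Lib.MP_d8ef8f_an.Ff

open Set Filter Topology MeasureTheory
open Pool.Agent.Lib.MP_d8ef8f_an.Gd

/-- `StmZ` with `ν` chosen before `A` -/
def StmZU : Prop :=
  ∀ {n N : ℕ} (Ω : Set (Sp n)) (d : Fin N → ℝ) (m : Sp n → ℝ) (k : Fin N) (θ : Sp n → ℝ)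
    (Dθ : Sp n → Sp n) (lθ : Sp n → ℝ) (P : ℝ), Base Ω d m k θ Dθ lθ P →
    ∀ (f : (Fin N → ℝ) → ℝ) (g : Fin N → (Fin N → ℝ) → ℝ) (h : Fin N → Fin N → (Fin N → ℝ) → ℝ),
      Dens d k f g h → ∀ M : ℝ, ∀ η : ℝ, 0 < η →
    ∃ ν : ℝ, 0 < ν ∧ ∀ A : ℝ, 0 < A → ∃ τ : ℝ, 0 < τ ∧
    ∀ (T : Set ℝ), IsOpen T → ∀ (a b : ℝ), a + 1 ≤ b → Icc a b ⊆ T →
    ∀ (u ut : Fin N → ℝ → Sp n → ℝ) (Du : Fin N → ℝ → Sp n → Sp n) (lu : Fin N → ℝ → Sp n → ℝ),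
      IsSol Ω d m T u ut Du lu → (∀ j, ∀ t ∈ Icc a b, ∀ x ∈ closure Ω, u j t x ≤ M) →
      A ≤ (∫ x in Ω, u k a x) →
      (∀ t ∈ Icc a b, (∫ x in Ω, ∑ j ∈ Finset.univ.filter (fun j => j < k), u j t x) ≤ ν) →
      ∀ t ∈ Icc (a + 1 + τ) b,
        (∫ x in Ω, (u k t x - θ x) ^ 2) ≤ η ∧ ∀ j, k < j → (∫ x in Ω, u j t x ^ 2) ≤ η

theorem p_ZU (b1 : StmB1) (b2 : StmB2) (b3 : StmB3) (c : StmC) (d2 : StmD2) (e1 : StmE1)
    (e2 : StmE2) (e3 : StmE3) (e4 : StmE4) : StmZU := by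
  intro n N Ω d m k θ Dθ lθ P B f g h D M η hη
  obtain ⟨ν₂, hν₂, hν₂1, E2⟩ := e2 Ω d m k θ Dθ lθ P B f g h D M η hη
  obtain ⟨ν₁, hν₁, C1'⟩ := c Ω d m k θ Dθ lθ P B f g h D M (ν₂ / 2) (by positivity)
  obtain ⟨c0, C0, hc0, hC0, B3⟩ := b3 Ω d m k θ Dθ lθ P B f g h D M
  have hr : 0 < c0 * ν₁ / (4 * C0) := by positivity
  refine ⟨c0 * ν₁ / (4 * C0), hr, ?_⟩
  intro A hA
  obtain ⟨K, D2⟩ := d2 Ω d m k θ Dθ lθ P B M A hA
  obtain ⟨M1, E3⟩ := e3 Ω d m k θ Dθ lθ P B f g h D M K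
  set p := Pmin Ω k f θ with hp
  set M2 := max M1 (p + ν₂) with hM2
  obtain ⟨ε₀, hε₀, hε₀1, E1⟩ := e1 Ω d m k θ Dθ lθ P B f g h D M M2 (c0 * ν₁ / (4 * C0)) hr
  set ε := min ε₀ ν₂ with hε
  have hε0 : 0 < ε := lt_min hε₀ hν₂
  have hε1 : ε ≤ 1 := (min_le_left _ _).trans hε₀1
  have hlt : p + ν₂ / 2 < M2 := lt_of_lt_of_le (by linarith) (le_max_right _ _)
  have hκ : 0 < c0 * ν₁ / 2 := by positivity
  refine ⟨(M2 - (p + ν₂ / 2)) / (c0 * ν₁ / 2), div_pos (by linarith) hκ, ?_⟩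
  intro T hT a b hab hsub u ut Du lu hu hM hmass hlow t ht
  have hsubT : ∀ s ∈ Icc (a + 1) b, s ∈ T := fun s hs => hsub ⟨by linarith [hs.1], hs.2⟩
  have hbd : ∀ s ∈ Icc (a + 1) b, ∀ j, ∀ x ∈ closure Ω, 0 ≤ u j s x ∧ u j s x ≤ M :=
    fun s hs j x hx => ⟨hu.nonneg j s (hsubT s hs) x hx, hM j s ⟨by linarith [hs.1], hs.2⟩ x hx⟩
  have hcont : ∀ s ∈ Icc (a + 1) b, ∀ j, ContinuousOn (u j s) (closure Ω) :=
    fun s hs j => (hu.lap j s (hsubT s hs)).c1.cont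
  have key := e4 (a + 1) b (c0 * ν₁ / 2) (p + ν₂ / 2) M2 hab hκ hlt
    (fun s => Phi Ω k f θ ε (fun j => u j s))
    (fun s => ∫ x in Ω, θ x * ∑ j, g j (sh k ε θ (fun j => u j s) x) * ut j s x)
    (fun s hs => b2 Ω d m k θ Dθ lθ P B f g h D ε hε0 T hT u ut Du lu hu s (hsubT s hs)) ?_ ?_
    t ⟨by
      have := ht.1
      have : 0 < (M2 - (p + ν₂ / 2)) / (c0 * ν₁ / 2) := div_pos (by linarith) hκ
      linarith [ht.1], ht.2⟩ ht.1
  · have ht' : t ∈ Icc (a + 1) b := ⟨by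
      have : 0 < (M2 - (p + ν₂ / 2)) / (c0 * ν₁ / 2) := div_pos (by linarith) hκ
      linarith [ht.1], ht.2⟩
    refine E2 ε hε0 (min_le_right _ _) (fun j => u j t) (hcont t ht') (hbd t ht') ?_
    have key' : Phi Ω k f θ ε (fun j => u j t) ≤ p + ν₂ / 2 := key
    linarith
  · have h1 : a + 1 ∈ Icc (a + 1) b := ⟨le_refl _, hab⟩
    have := D2 T hT a (fun s hs => hsub ⟨hs.1, hs.2.trans hab⟩) u ut Du lu hu
      (fun j s hs x hx => hM j s ⟨hs.1, hs.2.trans hab⟩ x hx) hmass ε hε0 hε1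
    exact (E3 ε hε0 hε1 (fun j => u j (a + 1)) (hcont _ h1) (hbd _ h1) this).trans
      (le_max_left _ _)
  · intro s hs hys hyM
    have hsT := hsubT s hs
    have e : ∫ x in Ω, θ x * ∑ j, g j (sh k ε θ (fun j => u j s) x) * ut j s x
        = ∫ x in Ω, θ x * ∑ j, g j (sh k ε θ (fun j => u j s) x) *
          (d j * lu j s x + u j s x * (m x - ∑ i, u i s x)) := by
      refine setIntegral_congr_fun B.isOpen.measurableSet fun x hx => ?_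
      refine congrArg (fun q => θ x * q) ?_
      exact Finset.sum_congr rfl fun j _ => by rw [hu.eq j s hsT x (subset_closure hx)]
    have e' := b1 Ω d m k θ Dθ lθ P B f g h D ε hε0 (fun j => u j s) (fun j => Du j s)
      (fun j => lu j s) (fun j => hu.lap j s hsT) (fun j x hx => hu.nonneg j s hsT x hx)
    have e'' := B3 ε hε0 hε1 (fun j => u j s) (fun j => Du j s) (fun j => (hu.lap j s hsT).c1)
      (hbd s hs)
    have hDis : ν₁ < Dis Ω k θ Dθ ε (fun j => u j s) (fun j => Du j s) := by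
      by_contra hcon
      have := C1' ε hε0 hε1 (fun j => u j s) (fun j => Du j s) (fun j => (hu.lap j s hsT).c1)
        (hbd s hs) (not_lt.mp hcon)
      have hys' : p + ν₂ / 2 < Phi Ω k f θ ε (fun j => u j s) := hys
      linarith
    have hE := E1 ε hε0 (min_le_left _ _) (fun j => u j s) (hcont s hs) (hbd s hs) hyM
    have hL := hlow s ⟨by linarith [hs.1], hs.2⟩
    show (∫ x in Ω, θ x * ∑ j, g j (sh k ε θ (fun j => u j s) x) * ut j s x) ≤ -(c0 * ν₁ / 2)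
    rw [e, e']
    refine e''.trans ?_
    have i1 : c0 * ν₁ ≤ c0 * Dis Ω k θ Dθ ε (fun j => u j s) (fun j => Du j s) :=
      mul_le_mul_of_nonneg_left hDis.le hc0.le
    have i2 := mul_le_mul_of_nonneg_left hL hC0.le
    have i3 := mul_le_mul_of_nonneg_left hE hC0.le
    have i4 : C0 * (c0 * ν₁ / (4 * C0)) = c0 * ν₁ / 4 := by field_simp
    rw [i4] at i2 i3
    linarith

end Pool.Agent.Lib.MP_d8ef8f_an.Ff
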