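import Pool.Agent.Lib.MP_d8ef8f_an.Ff.At
import Pool.Agent.Lib.MP_d8ef8f_an.Ff.Z
import Pool.Agent.Lib.MP_d8ef8f_an.Ff.F1
import Pool.Agent.Lib.MP_d8ef8f_an.Ff.F2
import Pool.Agent.Lib.MP_d8ef8f_an.Ff.F3
import Pool.Agent.Lib.MP_d8ef8f_an.Ff.F4
import Pool.Agent.Lib.MP_d8ef8f_an.Ff.F5
import Pool.Agent.Lib.MP_d8ef8f_an.Ff.F6
import Pool.Agent.Lib.MP_d8ef8f_an.Ff.F7
import Pool.Agent.Lib.MP_d8ef8f_an.Ff.F8
import Pool.Agent.Lib.MP_d8ef8f_an.Ff.F9
import Pool.Agent.Lib.MP_d8ef8f_an.Ff.F10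
import Pool.Agent.Lib.MP_d8ef8f_an.Ff.G10
import Pool.Agent.Lib.MP_d8ef8f_an.Gd.Main

/-!
# Near and far species
-/

set_option autoImplicit false

namespace Pool.Agent.Lib.MP_d8ef8f_an.Ff

open Set Filter Topology MeasureTheory
open Pool.Agent.Lib.MP_d8ef8f_an.Gd

theorem zU_all : StmZU :=
  p_ZU (p_B1 p_A1 p_A2) (p_B2 p_A3) (p_B3 p_A2) (p_C p_A1 p_A2)
    (p_D2 p_A1 p_A2 p_A3 (p_D0 p_A2 p_A3) p_D1) (p_E1 p_A2) (p_E2 p_A2) (p_E3 p_A2) p_E4

theorem f10_all : StmF10 :=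
  p_F10 p_F1 (p_F2 p_F4) p_F3 p_F4 p_F5 (p_F7 p_F3 p_F4 p_F6) p_F8 p_F9

/-- **far species die out.** `D x` is a threshold for the rate of a species that dies out when a
species with rate `x` is present; `D x ≤ (1 + c) x` for large `x`. -/
theorem far_dies (g10 : StmG10) {n : ℕ} (N : ℕ) {Ω : Set (Sp n)} {P : ℝ} (hD : Dom Ω P)
    {m : Sp n → ℝ} (hm : ContinuousOn m (closure Ω))
    (hnc : ∃ x ∈ closure Ω, ∃ y ∈ closure Ω, m x ≠ m y) {c : ℝ} (hc : 0 < c) :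
    ∃ D : ℝ → ℝ, (∃ D₀ : ℝ, ∀ x, D₀ ≤ x → D x ≤ (1 + c) * x) ∧
      ∀ (d : Fin N → ℝ), (∀ j, 0 < d j) → ∀ (k l : Fin N) (L : Finset (Fin N)),
        k ≠ l → k ∉ L → l ∉ L → (∀ j, j ∉ L → d k ≤ d j) → D (d k) ≤ d l → Dies Ω d m k l L := by
  classical
  choose! D1 HD1 using fun (dk : ℝ) (h : 0 < dk) => f10_all N Ω P hD m hm hnc dk h
  obtain ⟨D0, HD0⟩ := g10 N Ω P hD m hm hnc c hc
  refine ⟨fun x => if D0 ≤ x then (1 + c) * x else D1 x, ⟨D0, fun x hx => ?_⟩, ?_⟩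
  · simp [hx]
  · intro d hd k l L hkl hkL hlL hout hfar
    by_cases h : D0 ≤ d k
    · simp only [h, if_true] at hfar
      exact HD0 d hd k l L h hkl hkL hlL hout hfar
    · simp only [h, if_false] at hfar
      exact HD1 (d k) (hd k) d hd k l L rfl hkl hkL hlL hout hfar

/-- **attraction from the attraction towards `E_k` among the near species** -/
theorem attr_of_near (g10 : StmG10) {n : ℕ} (N : ℕ) {Ω : Set (Sp n)} {P : ℝ} (hD : Dom Ω P)
    {m : Sp n → ℝ} (hm : ContinuousOn m (closure Ω))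
    (hnc : ∃ x ∈ closure Ω, ∃ y ∈ closure Ω, m x ≠ m y) {c : ℝ} (hc : 0 < c) :
    ∃ D : ℝ → ℝ, (∃ D₀ : ℝ, ∀ x, D₀ ≤ x → D x ≤ (1 + c) * x) ∧
      ∀ (d : Fin N → ℝ), (∀ j, 0 < d j) → StrictMono d → ∀ k l : Fin N, k ≤ l →
      (∀ j, l < j → D (d k) ≤ d j) → ∀ θ : Sp n → ℝ,
      AttrSU Ω d m k θ (Finset.univ.filter (fun j => j < k) ∪
        Finset.univ.filter (fun j => l < j)) → Attr Ω d m k θ := by
  classical
  obtain ⟨D, hD0, HD⟩ := far_dies g10 N hD hm hnc hc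
  refine ⟨D, hD0, ?_⟩
  intro d hd hmono k l hkl hfar θ hA
  apply attr_of_attrS hD.bdd
  set L : Finset (Fin N) := Finset.univ.filter (fun j => j < k) with hL
  set F : Finset (Fin N) := Finset.univ.filter (fun j => l < j) with hF
  have hLm : ∀ j, j ∈ L ↔ j < k := fun j => by simp [hL]
  have hFm : ∀ j, j ∈ F ↔ l < j := fun j => by simp [hF]
  refine attrS_of_dies hD hm ?_ ?_ hA
  · rw [Finset.disjoint_left]
    intro j hj hj'
    exact absurd ((hLm j).1 hj) (not_lt.2 (hkl.trans ((hFm j).1 hj').le))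
  · intro j hj
    have hlj := (hFm j).1 hj
    have hkj : k < j := lt_of_le_of_lt hkl hlj
    refine HD d hd k j L hkj.ne (by simp [hLm]) (by simp [hLm, hkj.le]) ?_ (hfar j hlj)
    intro i hi
    have : ¬ i < k := fun h => hi ((hLm i).2 h)
    exact hmono.monotone (not_lt.1 this)

/-- a density gives the uniform attraction property -/
theorem attrU_of_dens {n N : ℕ} {Ω : Set (Sp n)} {P : ℝ} (hD : Dom Ω P) {d : Fin N → ℝ}
    (hd : ∀ j, 0 < d j) {m : Sp n → ℝ} (hm : ContinuousOn m (closure Ω))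
    (hnc : ∃ x ∈ closure Ω, ∃ y ∈ closure Ω, m x ≠ m y) (k : Fin N) {θ : Sp n → ℝ}
    (hθ : IsSteady Ω (d k) m θ) (hDens : ∃ f g h, Dens d k f g h) : AttrU Ω d m k θ := by
  intro M η hη
  obtain ⟨Dθ, lθ, hst⟩ := hθ
  obtain ⟨f, g, h, D⟩ := hDens
  have hB : Base Ω d m k θ Dθ lθ P :=
    { isOpen := hD.isOpen, nonempty := hD.nonempty, bdd := hD.bdd, poinc := hD.poinc,
      hP := hD.hP, hd := hd, hm := hm, st := hst,
      nc := Gd.p_F2 p_A2 Ω hD.isOpen hD.nonempty hD.bdd P hD.poinc (d k) (hd k) m hm hnc θ Dθ lθ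
        hst }
  exact zU_all Ω d m k θ Dθ lθ P hB f g h D M η hη

/-- the near species: the indices in `(k, l]` -/
def nearSet {N : ℕ} (k l : Fin N) : Finset (Fin N) := Finset.univ.filter (fun j => k < j ∧ j ≤ l)

theorem card_nearSet {N : ℕ} (k l : Fin N) (hkl : k ≤ l) :
    ((nearSet k l).card : ℝ) = ((l : ℕ) : ℝ) - ((k : ℕ) : ℝ) := by
  have h : nearSet k l = Finset.Ioc k l := by
    ext j
    simp [nearSet]
  rw [h, Fin.card_Ioc, Nat.cast_sub (Fin.le_def.1 hkl)]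

/-- renumbering: species `k` first, then the near species -/
theorem exists_perm_near {N : ℕ} (k l : Fin N) (hkl : k ≤ l) :
    ∃ (σ : Equiv.Perm (Fin N)) (k' : Fin N), σ k' = k ∧
      (∀ j, j < k' ↔ σ j ∈ (Finset.univ.filter (fun j => j < k) ∪
        Finset.univ.filter (fun j => l < j) : Finset (Fin N))) ∧
      (∀ j, k' < j → k < σ j ∧ σ j ≤ l) := by
  classical
  set L : Finset (Fin N) := Finset.univ.filter (fun j => j < k) with hL
  set F : Finset (Fin N) := Finset.univ.filter (fun j => l < j) with hF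
  have hLm : ∀ j, j ∈ L ↔ j < k := fun j => by simp [hL]
  have hFm : ∀ j, j ∈ F ↔ l < j := fun j => by simp [hF]
  have hkLF : k ∉ L ∪ F := by simp [hLm, hFm, hkl]
  obtain ⟨σ, k', hk', hσ⟩ := exists_perm k (L ∪ F) hkLF
  refine ⟨σ, k', hk', hσ, ?_⟩
  intro j hj
  have h1 : σ j ∉ L ∪ F := fun h => absurd ((hσ j).2 h) (not_lt.2 hj.le)
  have h2 : σ j ≠ k := fun h => by
    have : j = k' := σ.injective (h.trans hk'.symm)
    exact absurd this hj.ne'
  rw [Finset.mem_union, hLm, hFm] at h1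
  push Not at h1
  exact ⟨lt_of_le_of_ne h1.1 h2.symm, h1.2⟩

/-- **near attraction** under the explicit condition of `exists_dens` -/
theorem near_df {n N : ℕ} {Ω : Set (Sp n)} {P : ℝ} (hD : Dom Ω P)
    {m : Sp n → ℝ} (hm : ContinuousOn m (closure Ω))
    (hnc : ∃ x ∈ closure Ω, ∃ y ∈ closure Ω, m x ≠ m y) {d : Fin N → ℝ} (hd : ∀ j, 0 < d j)
    (hmono : StrictMono d) (k l : Fin N) (hkl : k ≤ l)
    (hnear : ∀ i j, k < i → i ≤ j → j ≤ l →
        32 * (((l : ℕ) : ℝ) - ((k : ℕ) : ℝ)) * d j ^ 2 * (d j - d i) ^ 2 ≤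
          d k ^ 3 * (d i - d k))
    {θ : Sp n → ℝ} (hθ : IsSteady Ω (d k) m θ) :
    AttrSU Ω d m k θ (Finset.univ.filter (fun j => j < k) ∪
        Finset.univ.filter (fun j => l < j)) := by
  obtain ⟨σ, k', hk', hσ, habove⟩ := exists_perm_near k l hkl
  refine attrSU_of_perm hD.bdd σ k' k _ hk' hσ ?_
  refine attrU_of_dens hD (fun j => hd (σ j)) hm hnc k' (by rw [hk']; exact hθ) ?_
  by_cases hex : ∃ j, k' < j
  · obtain ⟨j0, hj0⟩ := hex
    have hkl' : k < l := (habove j0 hj0).1.trans_le (habove j0 hj0).2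
    obtain ⟨i1, hi1⟩ : ∃ i : Fin N, (i : ℕ) = (k : ℕ) + 1 :=
      ⟨⟨(k : ℕ) + 1, lt_of_le_of_lt (Nat.succ_le_of_lt hkl') l.isLt⟩, rfl⟩
    have hki : k < i1 := by
      rw [Fin.lt_def]
      omega
    have hil : i1 ≤ l := by
      rw [Fin.le_def]
      have := Fin.lt_def.1 hkl'
      omega
    have H : DfData (fun j => d (σ j)) k' (d i1 - d k) (d l - d k)
        (((l : ℕ) : ℝ) - ((k : ℕ) : ℝ)) := by
      have hnn : (((l : ℕ) : ℝ) - ((k : ℕ) : ℝ)) = ((nearSet k l).card : ℝ) :=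
        (card_nearSet k l hkl).symm
      refine ⟨hd _, sub_pos.2 (hmono hki), ?_, ?_, ?_, ?_, ?_⟩
      · have := hmono.monotone hil
        linarith
      · intro j hj
        obtain ⟨h1, h2⟩ := habove j hj
        have h3 : i1 ≤ σ j := by
          rw [Fin.le_def]
          have := Fin.lt_def.1 h1
          omega
        have h4 := hmono.monotone h3
        have h5 := hmono.monotone h2
        simp only [hk']
        constructor <;> linarith
      · have h1 : (k : ℕ) + 1 ≤ (l : ℕ) := Fin.lt_def.1 hkl'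
        have h2 : ((k : ℕ) : ℝ) + 1 ≤ ((l : ℕ) : ℝ) := by exact_mod_cast h1
        linarith
      · rw [hnn]
        have h1 : (Finset.univ.filter (fun j => k' < j)).card ≤ (nearSet k l).card := by
          refine Finset.card_le_card_of_injOn (fun j => σ j) ?_ σ.injective.injOn
          intro j hj
          have hj' := (Finset.mem_filter.1 (Finset.mem_coe.1 hj)).2
          simpa [nearSet] using habove j hj'
        exact_mod_cast h1
      · have h1 := hnear i1 l hki hil le_rfl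
        simp only [hk']
        have h2 : d k + (d l - d k) = d l := by ring
        have h3 : d l - d k - (d i1 - d k) = d l - d i1 := by ring
        rw [h2, h3]
        linarith
    exact ⟨_, _, _, dens_of_data H⟩
  · have H : DfData (fun j => d (σ j)) k' 1 1 1 := by
      refine ⟨hd _, one_pos, le_rfl, ?_, le_rfl, ?_, ?_⟩
      · intro i hi
        exact absurd ⟨i, hi⟩ hex
      · have : Finset.univ.filter (fun j => k' < j) = ∅ := by
          rw [Finset.filter_eq_empty_iff]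
          intro i _ hi
          exact hex ⟨i, hi⟩
        rw [this]
        simp
      · have := hd (σ k')
        have : 0 ≤ 1 * d (σ k') ^ 3 := by positivity
        linarith
    exact ⟨_, _, _, dens_of_data H⟩

/-- **Morse decomposition for near/far rates** -/
theorem morse_near_far (g10 : StmG10) {n : ℕ} (N : ℕ) (Ω : Set (Sp n)) (hΩ : Domain Ω)
    (m : Sp n → ℝ) (hm : ContinuousOn m (closure Ω))
    (hnc : ∃ x ∈ closure Ω, ∃ y ∈ closure Ω, m x ≠ m y) {c : ℝ} (hc : 0 < c) :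
    ∃ D : ℝ → ℝ, (∃ D₀ : ℝ, ∀ x, D₀ ≤ x → D x ≤ (1 + c) * x) ∧
      ∀ (d : Fin N → ℝ), (∀ j, 0 < d j) → StrictMono d →
      (∀ k : Fin N, ∃ l : Fin N, k ≤ l ∧ (∀ i j, k < i → i ≤ j → j ≤ l →
        32 * (((l : ℕ) : ℝ) - ((k : ℕ) : ℝ)) * d j ^ 2 * (d j - d i) ^ 2 ≤
          d k ^ 3 * (d i - d k)) ∧ (∀ j, l < j → D (d k) ≤ d j)) →
      ∀ θ : Fin N → Sp n → ℝ, (∀ j, IsSteady Ω (d j) m (θ j)) → IsMorse Ω d m (Eqm θ) := by
  obtain ⟨P, hP0, hP⟩ := p_P Ω hΩ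
  have hD : Dom Ω P := ⟨hΩ.isOpen, hΩ.nonempty, hΩ.bdd, hP, hP0⟩
  obtain ⟨D, hD0, HD⟩ := attr_of_near g10 N hD hm hnc hc
  refine ⟨D, hD0, ?_⟩
  intro d hd hmono hcond θ hθ
  refine morse_of_attr p_A2 (p_D0 p_A2 p_A3) (Gd.p_F1 p_A2) Gd.p_F3 Ω hΩ.isOpen hΩ.nonempty hΩ.bdd
    d m hm θ hθ fun k => ?_
  obtain ⟨l, hkl, h1, h2⟩ := hcond k
  exact HD d hd hmono k l hkl h2 (θ k) (near_df hD hm hnc hd hmono k l hkl h1 (hθ k))

end Pool.Agent.Lib.MP_d8ef8f_an.Ff
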