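import Pool.Agent.Lib.MP_d8ef8f_an.Ff.G10all
import Pool.Agent.Lib.MP_d8ef8f_an.Ge.Main
import Pool.Agent.Lib.MP_d8ef8f_an.Gd.Tz

/-!
# Near species without a condition on gaps
-/

set_option autoImplicit false

namespace Pool.Agent.Lib.MP_d8ef8f_an.Ff

open Set Filter Topology MeasureTheory
open Pool.Agent.Lib.MP_d8ef8f_an.Gd

/-- the small number `1 / (64000 (1 + log n)²)` -/
noncomputable def cn (n : ℕ) : ℝ := 1 / (64000 * (1 + Real.log n) ^ 2)

theorem cn_pos (n : ℕ) : 0 < cn n := by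
  unfold cn
  have h : 0 ≤ Real.log (n : ℝ) := Real.log_natCast_nonneg n
  positivity

theorem cn_anti {a b : ℕ} (h : a ≤ b) : cn b ≤ cn a := by
  unfold cn
  have ha : 0 ≤ Real.log (a : ℝ) := Real.log_natCast_nonneg a
  have hab : Real.log (a : ℝ) ≤ Real.log (b : ℝ) := by
    rcases Nat.eq_zero_or_pos a with h0 | h0
    · subst h0
      simpa using Real.log_natCast_nonneg b
    · exact Real.log_le_log (by exact_mod_cast h0) (by exact_mod_cast h)
  apply one_div_le_one_div_of_le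
  · positivity
  · have : (1 + Real.log (a : ℝ)) ^ 2 ≤ (1 + Real.log (b : ℝ)) ^ 2 :=
      pow_le_pow_left₀ (by linarith) (by linarith) 2
    linarith

/-- **near attraction**, rates within the factor `1 + 1 / (64000 (1 + log (l - k))²)` -/
theorem near_t0 {n N : ℕ} {Ω : Set (Sp n)} (hΩ : Domain Ω)
    {m : Sp n → ℝ} (hm : ContinuousOn m (closure Ω))
    (hnc : ∃ x ∈ closure Ω, ∃ y ∈ closure Ω, m x ≠ m y) {d : Fin N → ℝ} (hd : ∀ j, 0 < d j)
    (hmono : StrictMono d) (k l : Fin N) (hkl : k ≤ l)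
    (hnear : ∀ j, k < j → j ≤ l → d j ≤ (1 + cn ((l : ℕ) - (k : ℕ))) * d k)
    {θ : Sp n → ℝ} (hθ : IsSteady Ω (d k) m θ) :
    AttrSU Ω d m k θ (Finset.univ.filter (fun j => j < k) ∪
        Finset.univ.filter (fun j => l < j)) := by
  obtain ⟨σ, k', hk', hσ, habove⟩ := exists_perm_near k l hkl
  refine attrSU_of_perm hΩ.bdd σ k' k _ hk' hσ ?_
  refine attrU_of_densE hΩ hm hnc (fun j => hd (σ j)) k' ?_ (by rw [hk']; exact hθ)
  refine densE_of_near (fun j => d (σ j)) k' (hd _) ?_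
  intro j hj
  obtain ⟨h1, h2⟩ := habove j hj
  simp only [hk']
  refine ⟨hmono h1, (hnear (σ j) h1 h2).trans ?_⟩
  refine mul_le_mul_of_nonneg_right ?_ (hd k).le
  have h3 : (Finset.univ.filter (fun j => k' < j)).card ≤ (l : ℕ) - (k : ℕ) := by
    have h4 : (Finset.univ.filter (fun j => k' < j)).card ≤ (nearSet k l).card := by
      refine Finset.card_le_card_of_injOn (fun j => σ j) ?_ σ.injective.injOn
      intro j hj
      have hj' := (Finset.mem_filter.1 (Finset.mem_coe.1 hj)).2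
      simpa [nearSet] using habove j hj'
    have h5 : (nearSet k l).card = (l : ℕ) - (k : ℕ) := by
      have h : nearSet k l = Finset.Ioc k l := by
        ext j
        simp [nearSet]
      rw [h, Fin.card_Ioc]
    rwa [h5] at h4
  have h6 := cn_anti h3
  unfold cn at h6 ⊢
  unfold Jk
  linarith

/-- the largest index with rate at most `(1 + c) d k` -/
theorem exists_split {N : ℕ} {d : Fin N → ℝ} (hd : ∀ j, 0 < d j) (hmono : StrictMono d) {c : ℝ}
    (hc : 0 < c) (k : Fin N) : ∃ l : Fin N, k ≤ l ∧ (∀ j, j ≤ l → d j ≤ (1 + c) * d k) ∧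
      ∀ j, l < j → (1 + c) * d k < d j := by
  classical
  set S : Finset (Fin N) := Finset.univ.filter (fun j => d j ≤ (1 + c) * d k) with hS
  have hkS : k ∈ S := by
    have := hd k
    simp only [hS, Finset.mem_filter, Finset.mem_univ, true_and]
    nlinarith
  refine ⟨S.max' ⟨k, hkS⟩, S.le_max' k hkS, ?_, ?_⟩
  · intro j hj
    have h1 := (Finset.mem_filter.1 (S.max'_mem ⟨k, hkS⟩)).2
    exact (hmono.monotone hj).trans h1
  · intro j hj
    by_contra h
    have h1 : j ∈ S := Finset.mem_filter.2 ⟨Finset.mem_univ _, not_lt.1 h⟩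
    exact absurd (S.le_max' j h1) (not_le.2 hj)

end Pool.Agent.Lib.MP_d8ef8f_an.Ff
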