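import Pool.Agent.Lib.MP_d8ef8f_an.Gd.Stm

/-!
# The fast species lemma: statements of the pieces

Setting of `Gd`. A species `l` whose rate `d l` is large (depending on `Ω, m, N, d k` only) dies out
when species `k` is present. Every piece is a proposition `StmF...`; a piece is finished when a
file proves it (the pieces `StmA1`, `StmA2`, `StmA3`, `StmD1` of `Gd` are proved there).
-/

set_option autoImplicit false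

namespace Pool.Agent.Lib.MP_d8ef8f_an.Ff

open Set Filter Topology MeasureTheory
open Pool.Agent.Lib.MP_d8ef8f_an.Gd

/-- the domain with its Poincaré constant -/
structure Dom {n : ℕ} (Ω : Set (Sp n)) (P : ℝ) : Prop where
  isOpen : IsOpen Ω
  nonempty : Ω.Nonempty
  bdd : Bornology.IsBounded Ω
  poinc : Poinc Ω P
  hP : 0 < P

/-- volume of the domain -/
noncomputable def vol {n : ℕ} (Ω : Set (Sp n)) : ℝ := volume.real Ω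

/-- mass -/
noncomputable def mass {n : ℕ} (Ω : Set (Sp n)) (w : Sp n → ℝ) : ℝ := ∫ x in Ω, w x

/-- regularised logarithmic integral -/
noncomputable def Lg {n : ℕ} (Ω : Set (Sp n)) (ε : ℝ) (w : Sp n → ℝ) : ℝ :=
  ∫ x in Ω, Real.log (w x + ε)

/-- the error integral `∫ ε / (w + ε)` -/
noncomputable def Er {n : ℕ} (Ω : Set (Sp n)) (ε : ℝ) (w : Sp n → ℝ) : ℝ :=
  ∫ x in Ω, ε / (w x + ε)

/-- `∫ |∇ log (w + ε)|²` -/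
noncomputable def En {n : ℕ} (Ω : Set (Sp n)) (ε : ℝ) (w : Sp n → ℝ) (Dw : Sp n → Sp n) : ℝ :=
  ∫ x in Ω, ‖(w x + ε)⁻¹ • Dw x‖ ^ 2

/-- deviation from flatness `∫ |w / mean w - 1|` -/
noncomputable def Fl {n : ℕ} (Ω : Set (Sp n)) (w : Sp n → ℝ) : ℝ :=
  ∫ x in Ω, |vol Ω * w x / mass Ω w - 1|

/-- **F1** sup bound: after a uniform time every component is at most `K = K(Ω, m)`.
Proof. `|m| ≤ K₁ - 1`, `K₁ ≥ 1`, `κ t = K₁ + |M| e^{-K₁ (t-a)}`, `y t = ∫ (max (u_j - κ) 0)^4`;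
`y' = 4 ∫ (max (u_j - κ) 0)^3 (ut_j - κ')` (A3), Green with `ψ = (max (u_j - κ) 0)^3` (A1), on
`u_j > κ`: `u_j (m - U) - κ' ≤ u_j (K₁ - u_j) - κ (K₁ - κ) ≤ K₁ (u_j - κ)`, so `y' ≤ 4 K₁ y`,
`y a = 0`, hence `y = 0` on `[a,b]`, `u_j ≤ κ` on `Ω`, then on the closure. `K = K₁ + 1`, `τ` with
`|M| e^{-K₁ τ} ≤ 1`. -/
def StmF1 : Prop :=
  ∀ {n : ℕ} (Ω : Set (Sp n)), IsOpen Ω → Bornology.IsBounded Ω → ∀ (m : Sp n → ℝ),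
    ContinuousOn m (closure Ω) → ∃ K : ℝ, 1 ≤ K ∧ ∀ {N : ℕ} (d : Fin N → ℝ), (∀ j, 0 < d j) →
    ∀ M : ℝ, ∃ τ : ℝ, 0 ≤ τ ∧ ∀ (T : Set ℝ), IsOpen T → ∀ (a b : ℝ), Icc a b ⊆ T →
    ∀ (u ut : Fin N → ℝ → Sp n → ℝ) (Du : Fin N → ℝ → Sp n → Sp n) (lu : Fin N → ℝ → Sp n → ℝ),
      IsSol Ω d m T u ut Du lu → (∀ j, ∀ t ∈ Icc a b, ∀ x ∈ closure Ω, u j t x ≤ M) →
      ∀ j, ∀ t ∈ Icc (a + τ) b, ∀ x ∈ closure Ω, u j t x ≤ K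

/-- **F2** flattening of a fast species.
Proof. `q = vol u_l / mass u_l`, `y t = ∫ (q - 1)²`, `q_t = d_l Δ q + q (h - ⟨q h⟩)`,
`⟨q h⟩ = vol⁻¹ ∫ q h`, `h = m - U`, `|h| ≤ R`, `∫ q = vol`; Green with `ψ = q - 1` and Poincaré
(`∫ (q-1)² ≤ ∫ (q-c)²` as `∫ (q - 1) = 0`) give, `r = d_l/P - 2R > 0`,
`y' ≤ - (2 d_l/P) y + 4 R y + 4 R √(vol y) ≤ - r y + 4 R² vol / r`. Gronwall;
`y a ≤ ∫ q² ≤ M² vol³ / mass²`; `(∫ |q-1|)² ≤ vol y` (Cauchy-Schwarz). Masses stay positive: `StmF4`.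
-/
def StmF2 : Prop :=
  ∀ {n N : ℕ} (Ω : Set (Sp n)) (P : ℝ), Dom Ω P → ∀ (d : Fin N → ℝ) (m : Sp n → ℝ),
    ContinuousOn m (closure Ω) → ∀ (l : Fin N) (R M r : ℝ), 0 < R → 0 < d l → r = d l / P - 2 * R →
    0 < r → ∀ (T : Set ℝ), IsOpen T → ∀ (a b : ℝ), a ≤ b → Icc a b ⊆ T →
    ∀ (u ut : Fin N → ℝ → Sp n → ℝ) (Du : Fin N → ℝ → Sp n → Sp n) (lu : Fin N → ℝ → Sp n → ℝ),
      IsSol Ω d m T u ut Du lu →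
      (∀ t ∈ Icc a b, ∀ x ∈ closure Ω, |m x - ∑ j, u j t x| ≤ R) →
      (∀ x ∈ closure Ω, u l a x ≤ M) → 0 < mass Ω (u l a) →
      ∀ t ∈ Icc a b, Fl Ω (u l t) ^ 2 ≤ vol Ω *
        (M ^ 2 * vol Ω ^ 3 / mass Ω (u l a) ^ 2 * Real.exp (- (r * (t - a)))
          + 4 * R ^ 2 * vol Ω / r ^ 2)

/-- **F3** derivative of `∫ φ log (u_i + ε)`.
Proof. A3; `ut = d_i lu + u_i h`; Green with `ψ = φ / (u_i + ε)` (A1), `u/(u+ε) = 1 - ε/(u+ε)`. -/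
def StmF3 : Prop :=
  ∀ {n N : ℕ} (Ω : Set (Sp n)), IsOpen Ω → Bornology.IsBounded Ω → ∀ (d : Fin N → ℝ)
    (m : Sp n → ℝ), ContinuousOn m (closure Ω) → ∀ (T : Set ℝ), IsOpen T →
    ∀ (u ut : Fin N → ℝ → Sp n → ℝ) (Du : Fin N → ℝ → Sp n → Sp n) (lu : Fin N → ℝ → Sp n → ℝ),
      IsSol Ω d m T u ut Du lu → ∀ ε : ℝ, 0 < ε → ∀ (φ : Sp n → ℝ) (Dφ : Sp n → Sp n),
      C1 Ω φ Dφ → ∀ i, ∀ t ∈ T,
      HasDerivAt (fun s => ∫ x in Ω, φ x * Real.log (u i s x + ε))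
        (d i * (∫ x in Ω, φ x * ‖(u i t x + ε)⁻¹ • Du i t x‖ ^ 2)
          - d i * (∫ x in Ω, inner ℝ ((u i t x + ε)⁻¹ • Du i t x) (Dφ x))
          + (∫ x in Ω, φ x * (m x - ∑ j, u j t x))
          - ∫ x in Ω, φ x * (ε / (u i t x + ε)) * (m x - ∑ j, u j t x)) t

/-- **F4** masses: derivative and exponential bounds with explicit constant. -/
def StmF4 : Prop :=
  ∀ {n N : ℕ} (Ω : Set (Sp n)), IsOpen Ω → Bornology.IsBounded Ω → ∀ (d : Fin N → ℝ)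
    (m : Sp n → ℝ), ContinuousOn m (closure Ω) → ∀ (T : Set ℝ), IsOpen T →
    ∀ (u ut : Fin N → ℝ → Sp n → ℝ) (Du : Fin N → ℝ → Sp n → Sp n) (lu : Fin N → ℝ → Sp n → ℝ),
      IsSol Ω d m T u ut Du lu → ∀ j,
      (∀ t ∈ T, HasDerivAt (fun s => mass Ω (u j s))
        (∫ x in Ω, u j t x * (m x - ∑ i, u i t x)) t) ∧
      ∀ (R a b : ℝ), a ≤ b → Icc a b ⊆ T →
        (∀ t ∈ Icc a b, ∀ x ∈ closure Ω, |m x - ∑ i, u i t x| ≤ R) →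
        mass Ω (u j a) * Real.exp (- (R * (b - a))) ≤ mass Ω (u j b) ∧
        mass Ω (u j b) ≤ mass Ω (u j a) * Real.exp (R * (b - a))

/-- **F5** the error integral. Proof: pointwise, `p = w + ε ∈ [ε, M+1]`,
`ε / p ≤ (1 + log (M+1) - log p) / log (1/ε)`. -/
def StmF5 : Prop :=
  ∀ {n : ℕ} (Ω : Set (Sp n)), IsOpen Ω → Bornology.IsBounded Ω → ∀ (w : Sp n → ℝ),
    ContinuousOn w (closure Ω) → ∀ M : ℝ, (∀ x ∈ closure Ω, 0 ≤ w x ∧ w x ≤ M) →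
    ∀ ε : ℝ, 0 < ε → ε < 1 →
      Er Ω ε w ≤ (vol Ω * (1 + Real.log (M + 1)) - Lg Ω ε w) / Real.log (1 / ε)

/-- **F6** coupling: `∫ w φ` is controlled by the logarithmic energy when `∫ φ = 0`.
Proof. `v = log (w + ε) ≤ L = log (M+1)`, Poincaré constant `c` of `v`, `c' = min c L`,
`|w + ε - e^{c'}| ≤ (M+1) |v - c'|`, `|v - c'| ≤ |v - c|`;
`|φ (w + ε - e^{c'})| ≤ (s/P) (v-c)² + Φ² (M+1)² P / (4 s)`. -/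
def StmF6 : Prop :=
  ∀ {n : ℕ} (Ω : Set (Sp n)) (P : ℝ), Dom Ω P → ∀ (w : Sp n → ℝ) (Dw : Sp n → Sp n),
    C1 Ω w Dw → ∀ M : ℝ, (∀ x ∈ closure Ω, 0 ≤ w x ∧ w x ≤ M) → ∀ ε : ℝ, 0 < ε → ε ≤ 1 →
    ∀ (φ : Sp n → ℝ) (Φ : ℝ), ContinuousOn φ (closure Ω) → (∀ x ∈ closure Ω, |φ x| ≤ Φ) →
    (∫ x in Ω, φ x) = 0 → ∀ s : ℝ, 0 < s →
      |∫ x in Ω, w x * φ x| ≤ s * En Ω ε w Dw + Φ ^ 2 * (M + 1) ^ 2 * P * vol Ω / (4 * s)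

/-- the softplus function -/
noncomputable def sp (g : ℝ) : ℝ := Real.log (1 + Real.exp g)

/-- its derivative -/
noncomputable def sg (g : ℝ) : ℝ := Real.exp g / (1 + Real.exp g)

/-- the functional -/
noncomputable def Psi {n N : ℕ} (Ω : Set (Sp n)) (k l : Fin N) (mid : Finset (Fin N))
    (K0 η ε : ℝ) (φ : Sp n → ℝ) (u : Fin N → Sp n → ℝ) : ℝ :=
  Lg Ω ε (u k) - vol Ω * Real.log (mass Ω (u l))
    + (1 / (4 * (N : ℝ))) * ∑ i ∈ mid, sp (Lg Ω ε (u i) - Lg Ω ε (u k) + K0)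
    - η * ∫ x in Ω, φ x * Real.log (u k x + ε)

/-- **F7** the derivative of the functional is at least `η / 4`.
Proof. Write `h = m - U`, `a_i = d_i En_i`, `τ_i = sg (..)`, `ε₀ = 1/(4N)`. By F3 (with `φ = 1` and
with `φ`) and F4 the derivative is
`a_k + ∫h - e_k - vol ∫ u_l h / mass_l + ε₀ ∑ τ_i (a_i - a_k + e_k - e_i)
  - η (d_k ∫ φ |∇v_k|² - d_k ∫ ∇v_k·∇φ + ∫ φ h - e_φ)`, `|e_i| ≤ R Er_i`, `|e_φ| ≤ Φ R Er_k`.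
* `|∫ h - vol ∫ u_l h / mass_l| ≤ R Fl_l`
* `η d_k |∫ ∇v_k·∇φ| ≤ a_k/8 + 2 η² d_k G ≤ a_k / 8 + η/8`
* `- ∫ φ h = 1 + ∑_j ∫ u_j φ`; for `j = k`: F6 with `s = d_k/(8η)`; for `i ∈ mid` with `τ_i ≥ 1/2`:
  F6 with `s = ε₀ d_i/(2η)`; otherwise (`mass ≤ κ`) `≤ Φ κ`; for `l`: `|∫ u_l φ| ≤ M Φ Fl_l`;
  for `j ∈ L`: `Φ ν`. -/
def StmF7 : Prop :=
  ∀ {n N : ℕ} (Ω : Set (Sp n)) (P : ℝ), Dom Ω P → ∀ (d : Fin N → ℝ) (m : Sp n → ℝ),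
    ContinuousOn m (closure Ω) → (∀ j, 0 < d j) →
    ∀ (φ : Sp n → ℝ) (Dφ : Sp n → Sp n) (Φ G : ℝ), C1 Ω φ Dφ → (∀ x ∈ closure Ω, |φ x| ≤ Φ) →
    (∫ x in Ω, ‖Dφ x‖ ^ 2) ≤ G → (∫ x in Ω, φ x) = 0 → (∫ x in Ω, m x * φ x) = -1 →
    ∀ (k l : Fin N) (mid L : Finset (Fin N)), k ≠ l → k ∉ mid → l ∉ mid → k ∉ L → l ∉ L →
    Disjoint mid L → (∀ j, j = k ∨ j = l ∨ j ∈ mid ∨ j ∈ L) → (∀ i ∈ mid, d k ≤ d i) →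
    ∀ (M R η β κ ν K0 : ℝ), 1 ≤ M → 0 < R → 0 < Φ → 0 < η → η ≤ 1 → η * Φ ≤ 1 / 8 →
    16 * η * d k * G ≤ 1 → 32 * (N : ℝ) ^ 2 * η * (Φ ^ 2 * (M + 1) ^ 2 * P * vol Ω) ≤ d k →
    0 ≤ β → β * (R + M * Φ) ≤ η / 16 → 16 * N * Φ * κ ≤ 1 → 16 * Φ * ν ≤ 1 →
    ∀ (T : Set ℝ), IsOpen T →
    ∀ (u ut : Fin N → ℝ → Sp n → ℝ) (Du : Fin N → ℝ → Sp n → Sp n) (lu : Fin N → ℝ → Sp n → ℝ),
      IsSol Ω d m T u ut Du lu → ∀ t ∈ T, (∀ j, ∀ x ∈ closure Ω, u j t x ≤ M) →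
      (∀ x ∈ closure Ω, |m x - ∑ j, u j t x| ≤ R) → 0 < mass Ω (u l t) → Fl Ω (u l t) ≤ β →
    ∀ ε : ℝ, 0 < ε → ε ≤ 1 →
      (∀ i ∈ mid, mass Ω (u i t) ≤ κ ∨ 0 ≤ Lg Ω ε (u i t) - Lg Ω ε (u k t) + K0) →
      (∑ j ∈ L, mass Ω (u j t)) ≤ ν →
      R * (3 * Er Ω ε (u k t) +
        ∑ i ∈ mid, sg (Lg Ω ε (u i t) - Lg Ω ε (u k t) + K0) * Er Ω ε (u i t)) ≤ η / 4 →
      ∃ ψ' : ℝ, HasDerivAt (fun s => Psi Ω k l mid K0 η ε φ (fun j => u j s)) ψ' t ∧ η / 4 ≤ ψ'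

/-- **F8** the weight. Proof: otherwise `∫ m φ = 0` for all `φ` of mean zero; with `c` the mean of
`m`, `∫ (m - c) g = 0` for every smooth compactly supported `g` (put `φ = g - mean g`), so `m = c`
almost everywhere in `Ω` (`ae_eq_zero_of_integral_contDiff_smul_eq_zero`, see `Gd/F2.lean`) and by
continuity on the closure. -/
def StmF8 : Prop :=
  ∀ {n : ℕ} (Ω : Set (Sp n)), IsOpen Ω → Ω.Nonempty → Bornology.IsBounded Ω → ∀ (m : Sp n → ℝ),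
    ContinuousOn m (closure Ω) → (∃ x ∈ closure Ω, ∃ y ∈ closure Ω, m x ≠ m y) →
    ∃ (φ : Sp n → ℝ) (Dφ : Sp n → Sp n), C1 Ω φ Dφ ∧ (∫ x in Ω, φ x) = 0 ∧
      (∫ x in Ω, m x * φ x) = -1

/-- **F9** logarithmic lower bound after time one (as `StmD2`, without steady state). -/
def StmF9 : Prop :=
  ∀ {n N : ℕ} (Ω : Set (Sp n)) (P : ℝ), Dom Ω P → ∀ (d : Fin N → ℝ) (m : Sp n → ℝ),
    ContinuousOn m (closure Ω) → ∀ k : Fin N, 0 < d k →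
    ∀ (M A : ℝ), 0 < A → ∃ K : ℝ, ∀ (T : Set ℝ), IsOpen T → ∀ (a : ℝ), Icc a (a + 1) ⊆ T →
    ∀ (u ut : Fin N → ℝ → Sp n → ℝ) (Du : Fin N → ℝ → Sp n → Sp n) (lu : Fin N → ℝ → Sp n → ℝ),
      IsSol Ω d m T u ut Du lu →
      (∀ j, ∀ t ∈ Icc a (a + 1), ∀ x ∈ closure Ω, u j t x ≤ M) →
      A ≤ mass Ω (u k a) → ∀ ε : ℝ, 0 < ε → ε ≤ 1 → - K ≤ Lg Ω ε (u k (a + 1))

/-- **F10** a fast species dies out: if it has mass `≥ κ'` at the end then the interval is short.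
`D` depends on `Ω, m, N, d k` only. -/
def StmF10 : Prop :=
  ∀ {n : ℕ} (N : ℕ) (Ω : Set (Sp n)) (P : ℝ), Dom Ω P → ∀ (m : Sp n → ℝ),
    ContinuousOn m (closure Ω) → (∃ x ∈ closure Ω, ∃ y ∈ closure Ω, m x ≠ m y) →
    ∀ dk : ℝ, 0 < dk → ∃ D : ℝ, ∀ (d : Fin N → ℝ), (∀ j, 0 < d j) →
    ∀ (k l : Fin N) (L : Finset (Fin N)), d k = dk → k ≠ l → k ∉ L → l ∉ L →
    (∀ j, j ∉ L → dk ≤ d j) → D ≤ d l → ∀ (M A κ : ℝ), 0 < A → 0 < κ →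
    ∃ S ν : ℝ, 0 < ν ∧ ∀ (T : Set ℝ), IsOpen T → ∀ (a b : ℝ), a ≤ b → Icc a b ⊆ T →
    ∀ (u ut : Fin N → ℝ → Sp n → ℝ) (Du : Fin N → ℝ → Sp n → Sp n) (lu : Fin N → ℝ → Sp n → ℝ),
      IsSol Ω d m T u ut Du lu → (∀ j, ∀ t ∈ Icc a b, ∀ x ∈ closure Ω, u j t x ≤ M) →
      A ≤ mass Ω (u k a) → (∀ t ∈ Icc a b, (∑ j ∈ L, mass Ω (u j t)) ≤ ν) →
      κ ≤ mass Ω (u l b) → b - a ≤ S

end Pool.Agent.Lib.MP_d8ef8f_an.Ff
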