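import Pool.Agent.Lib.MP_d8ef8f_an.Ff.Stm

/-!
# Fast species when all rates are large: statements of the pieces

`StmG10`: for every `c > 0` there is `D₀ = D₀(Ω, m, N, c)` such that, if `d k ≥ D₀` and all rates
outside the low set `L` are at least `d k`, every species `l` with `d l ≥ (1 + c) d k` dies out when
species `k` is present.
-/

set_option autoImplicit false

namespace Pool.Agent.Lib.MP_d8ef8f_an.Ff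

open Set Filter Topology MeasureTheory
open Pool.Agent.Lib.MP_d8ef8f_an.Gd

/-- relative density `q = w / mean w` -/
noncomputable def qr {n : ℕ} (Ω : Set (Sp n)) (w : Sp n → ℝ) (x : Sp n) : ℝ :=
  vol Ω * w x / mass Ω w

/-- gradient of the relative density -/
noncomputable def Dqr {n : ℕ} (Ω : Set (Sp n)) (w : Sp n → ℝ) (Dw : Sp n → Sp n) (x : Sp n) :
    Sp n :=
  (vol Ω / mass Ω w) • Dw x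

/-- `∫ (q - 1)²` -/
noncomputable def Yq {n : ℕ} (Ω : Set (Sp n)) (w : Sp n → ℝ) : ℝ :=
  ∫ x in Ω, (qr Ω w x - 1) ^ 2

/-- `∫ (w - mean w)²` -/
noncomputable def Zf {n : ℕ} (Ω : Set (Sp n)) (w : Sp n → ℝ) : ℝ :=
  ∫ x in Ω, (w x - mass Ω w / vol Ω) ^ 2

/-- **G1** absolute flattening.
Proof. `z t = Zf (u_i t)`, `z' = 2 ∫ (u - ū) ut = - 2 d ∫ |∇u|² + 2 ∫ (u - ū) u h
≤ - (2 d/P) z + 2 R K √(vol z) ≤ - (d/P) z + R² K² vol P / d` (A3, Green with `ψ = u - ū`, Poincaré and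
`∫ (u-ū)² ≤ ∫ (u-c)²`), `z a ≤ ∫ u² ≤ K² vol`; Gronwall. -/
def StmG1 : Prop :=
  ∀ {n N : ℕ} (Ω : Set (Sp n)) (P : ℝ), Dom Ω P → ∀ (d : Fin N → ℝ) (m : Sp n → ℝ),
    ContinuousOn m (closure Ω) → ∀ (i : Fin N) (R K : ℝ), 0 < R → 0 < K → 0 < d i →
    ∀ (T : Set ℝ), IsOpen T → ∀ (a b : ℝ), a ≤ b → Icc a b ⊆ T →
    ∀ (u ut : Fin N → ℝ → Sp n → ℝ) (Du : Fin N → ℝ → Sp n → Sp n) (lu : Fin N → ℝ → Sp n → ℝ),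
      IsSol Ω d m T u ut Du lu →
      (∀ t ∈ Icc a b, ∀ x ∈ closure Ω, |m x - ∑ j, u j t x| ≤ R) →
      (∀ t ∈ Icc a b, ∀ x ∈ closure Ω, u i t x ≤ K) →
      ∀ t ∈ Icc a b, Zf Ω (u i t) ≤
        K ^ 2 * vol Ω * Real.exp (- (d i / P * (t - a))) + (P / d i) ^ 2 * (R ^ 2 * K ^ 2 * vol Ω)

/-- **G2** relative flattening in `L²`: the proof of `F2` without the last step. -/
def StmG2 : Prop :=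
  ∀ {n N : ℕ} (Ω : Set (Sp n)) (P : ℝ), Dom Ω P → ∀ (d : Fin N → ℝ) (m : Sp n → ℝ),
    ContinuousOn m (closure Ω) → ∀ (l : Fin N) (R M r : ℝ), 0 < R → 0 < d l → r = d l / P - 2 * R →
    0 < r → ∀ (T : Set ℝ), IsOpen T → ∀ (a b : ℝ), a ≤ b → Icc a b ⊆ T →
    ∀ (u ut : Fin N → ℝ → Sp n → ℝ) (Du : Fin N → ℝ → Sp n → Sp n) (lu : Fin N → ℝ → Sp n → ℝ),
      IsSol Ω d m T u ut Du lu →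
      (∀ t ∈ Icc a b, ∀ x ∈ closure Ω, |m x - ∑ j, u j t x| ≤ R) →
      (∀ x ∈ closure Ω, u l a x ≤ M) → 0 < mass Ω (u l a) →
      ∀ t ∈ Icc a b, Yq Ω (u l t) ≤
        M ^ 2 * vol Ω ^ 3 / mass Ω (u l a) ^ 2 * Real.exp (- (r * (t - a)))
          + 4 * R ^ 2 * vol Ω / r ^ 2

/-- **G3** derivatives of `∫ φ q` and of `∫ (q - 1)²`.
Proof. A3 for `∫ φ u`, `∫ u²` and the masses (F4), Green with `φ` and with `u`; quotient rule: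
`∫ φ q = vol (∫ φ u) / mass`, `∫ (q-1)² = vol² (∫ u²) / mass² - vol`. -/
def StmG3 : Prop :=
  ∀ {n N : ℕ} (Ω : Set (Sp n)), IsOpen Ω → Ω.Nonempty → Bornology.IsBounded Ω →
    ∀ (d : Fin N → ℝ) (m : Sp n → ℝ), ContinuousOn m (closure Ω) → ∀ (T : Set ℝ), IsOpen T →
    ∀ (u ut : Fin N → ℝ → Sp n → ℝ) (Du : Fin N → ℝ → Sp n → Sp n) (lu : Fin N → ℝ → Sp n → ℝ),
      IsSol Ω d m T u ut Du lu → ∀ (φ : Sp n → ℝ) (Dφ : Sp n → Sp n), C1 Ω φ Dφ →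
      ∀ l, ∀ t ∈ T, 0 < mass Ω (u l t) →
      HasDerivAt (fun s => ∫ x in Ω, φ x * qr Ω (u l s) x)
        (- (d l * ∫ x in Ω, inner ℝ (Dqr Ω (u l t) (Du l t) x) (Dφ x))
          + (∫ x in Ω, φ x * qr Ω (u l t) x * (m x - ∑ j, u j t x))
          - (∫ x in Ω, qr Ω (u l t) x * (m x - ∑ j, u j t x)) / vol Ω *
              ∫ x in Ω, φ x * qr Ω (u l t) x) t ∧
      HasDerivAt (fun s => Yq Ω (u l s))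
        (- (2 * d l * ∫ x in Ω, ‖Dqr Ω (u l t) (Du l t) x‖ ^ 2)
          + 2 * (∫ x in Ω, (qr Ω (u l t) x - 1) * qr Ω (u l t) x * (m x - ∑ j, u j t x))
          - 2 * ((∫ x in Ω, qr Ω (u l t) x * (m x - ∑ j, u j t x)) / vol Ω) *
              ∫ x in Ω, (qr Ω (u l t) x - 1) * qr Ω (u l t) x) t

/-- **G4** almost maximisers. Proof. `F φ = 2 ∫ m φ - ∫ |∇φ|²` over `C1` functions with `∫ φ = 0`;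
`Λ = sup F` is finite (`∫ m φ = ∫ (m - mean m) (φ - c)`, Poincaré: `F φ ≤ 2 A √P ‖∇φ‖ - ‖∇φ‖² ≤ A² P`,
`A² = ∫ (m - mean m)²`) and positive (some `φ` has `∫ m φ ≠ 0`, use `s φ` with small `s`; F8).
If `F φ ≥ Λ - ρ`: from `F (φ + s ψ) ≤ Λ` for all `s`: `(∫ m ψ - ∫ ∇φ·∇ψ)² ≤ ρ ∫ |∇ψ|²`;
from `F (s φ) ≤ Λ`: `I² ≤ Λ N`, `N ≤ 2 I - Λ + ρ`, so `(I - Λ)² ≤ Λ ρ` and `|N - Λ|` is small too
(`2 I - N ∈ [Λ - ρ, Λ]`). -/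
def StmG4 : Prop :=
  ∀ {n : ℕ} (Ω : Set (Sp n)) (P : ℝ), Dom Ω P → ∀ (m : Sp n → ℝ), ContinuousOn m (closure Ω) →
    (∃ x ∈ closure Ω, ∃ y ∈ closure Ω, m x ≠ m y) →
    ∃ Λ : ℝ, 0 < Λ ∧ ∀ δ : ℝ, 0 < δ → ∃ (φ : Sp n → ℝ) (Dφ : Sp n → Sp n), C1 Ω φ Dφ ∧
      (∫ x in Ω, φ x) = 0 ∧ |(∫ x in Ω, m x * φ x) - Λ| ≤ δ ∧ |(∫ x in Ω, ‖Dφ x‖ ^ 2) - Λ| ≤ δ ∧
      ∀ (ψ : Sp n → ℝ) (Dψ : Sp n → Sp n), C1 Ω ψ Dψ → (∫ x in Ω, ψ x) = 0 →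
        ((∫ x in Ω, m x * ψ x) - ∫ x in Ω, inner ℝ (Dφ x) (Dψ x)) ^ 2 ≤
          δ ^ 2 * ∫ x in Ω, ‖Dψ x‖ ^ 2

/-- the functional for large rates -/
noncomputable def Psi2 {n N : ℕ} (Ω : Set (Sp n)) (k l : Fin N) (η ζ ε dl : ℝ) (φ : Sp n → ℝ)
    (u : Fin N → Sp n → ℝ) : ℝ :=
  Lg Ω ε (u k) - vol Ω * Real.log (mass Ω (u l)) + η * (∫ x in Ω, φ x * Real.log (u k x + ε))
    - 1 / dl * (∫ x in Ω, φ x * qr Ω (u l) x) - ζ / 2 * Yq Ω (u l)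

/-- **G5** the derivative of the functional is at least `γ / d_k`.
Proof. `h = m - U`, `q = qr (u_l)`, `y = Yq`, `V = vol`, `I = ∫ m φ`, `N2 = ∫ |∇φ|²`, `η = 2/d_k`. By F3
(with `1` and `φ`), F4, G3 the derivative is
`a_k + ∫ (1-q) h - e_k + η (d_k ∫ φ|∇v|² - d_k ∫ ∇v·∇φ + ∫ φh - e_φ)
  - (1/d_l) (- d_l ∫ ∇q·∇φ + ∫ φqh - ⟨qh⟩ ∫ φq) + ζ d_l ∫|∇q|² - ζ (∫(q-1)qh - ⟨qh⟩∫(q-1)q)`.
* `a_k (1 - ηΦ) - η d_k ∫∇v·∇φ ≥ - η² d_k N2/(4 (1-ηΦ)) ≥ - N2/d_k (1 + 4Φ/d_k)` as `ηΦ ≤ 1/8`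
* `η ∫ φh = η I - η ∫ φU`, `- (1/d_l)(∫φqh - ⟨qh⟩∫φq) ≥ - (I + |∫φU| + 2 R Φ √(V y))/d_l`
* `∫ (1-q) h = ∫ m (1-q) - ∫ (1-q)(U - Ū)`; by the hypothesis on `φ` with `ψ = 1 - q`:
  `∫ m (1-q) = - ∫ ∇φ·∇q + ρ`, `|ρ| ≤ δ ‖∇q‖ ≤ ζ d_l ‖∇q‖² + δ²/(4 ζ d_l)`; the term `∫∇φ·∇q` cancels
* `|∫(q-1)q(h - ⟨qh⟩)| ≤ 2R (y + √(V y))`
* `|∫ φU| ≤ N Φ √V Cz/d_k + Φ ν`, `‖U - Ū‖ ≤ N Cz/d_k + N √(K ν)`, `√y ≤ Cy/d_k`, `d_k ≥ 1`,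
  `1/d_l ≤ 1/((1+c) d_k)`. -/
def StmG5 : Prop :=
  ∀ {n N : ℕ} (Ω : Set (Sp n)) (P : ℝ), Dom Ω P → ∀ (d : Fin N → ℝ) (m : Sp n → ℝ),
    ContinuousOn m (closure Ω) → (∀ j, 0 < d j) →
    ∀ (φ : Sp n → ℝ) (Dφ : Sp n → Sp n) (Φ I N2 δ : ℝ), C1 Ω φ Dφ →
    (∀ x ∈ closure Ω, |φ x| ≤ Φ) → (∫ x in Ω, ‖Dφ x‖ ^ 2) = N2 → (∫ x in Ω, φ x) = 0 →
    (∫ x in Ω, m x * φ x) = I → 0 ≤ I → 0 ≤ δ →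
    (∀ (ψ : Sp n → ℝ) (Dψ : Sp n → Sp n), C1 Ω ψ Dψ → (∫ x in Ω, ψ x) = 0 →
        ((∫ x in Ω, m x * ψ x) - ∫ x in Ω, inner ℝ (Dφ x) (Dψ x)) ^ 2 ≤
          δ ^ 2 * ∫ x in Ω, ‖Dψ x‖ ^ 2) →
    ∀ (k l : Fin N) (L : Finset (Fin N)), k ≠ l → k ∉ L → l ∉ L →
    ∀ (K R Cy Cz c ζ ν γ : ℝ), 1 ≤ K → 0 < R → 0 < Φ → 0 ≤ Cy → 0 ≤ Cz → 0 < c → 0 < ζ → 0 ≤ ν →
    0 < γ → 1 ≤ d k → 16 * Φ ≤ d k → (1 + c) * d k ≤ d l →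
    2 * γ ≤ 2 * I - N2 - I / (1 + c)
      - (4 * Φ * N2 + 3 * N * Φ * Real.sqrt (vol Ω) * Cz + 2 * R * Φ * Real.sqrt (vol Ω) * Cy
          + N * Cy * Cz) / d k
      - (3 * Φ * ν + Cy * N * Real.sqrt (K * ν))
      - 2 * ζ * R * (Cy ^ 2 + Real.sqrt (vol Ω) * Cy) - δ ^ 2 / (4 * ζ) →
    ∀ (T : Set ℝ), IsOpen T →
    ∀ (u ut : Fin N → ℝ → Sp n → ℝ) (Du : Fin N → ℝ → Sp n → Sp n) (lu : Fin N → ℝ → Sp n → ℝ),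
      IsSol Ω d m T u ut Du lu → ∀ t ∈ T, (∀ j, ∀ x ∈ closure Ω, u j t x ≤ K) →
      (∀ x ∈ closure Ω, |m x - ∑ j, u j t x| ≤ R) → 0 < mass Ω (u l t) →
      Yq Ω (u l t) ≤ (Cy / d k) ^ 2 → (∀ i, i ∉ L → Zf Ω (u i t) ≤ (Cz / d k) ^ 2) →
      (∑ j ∈ L, mass Ω (u j t)) ≤ ν →
    ∀ ε : ℝ, 0 < ε → ε ≤ 1 → 2 * R * Er Ω ε (u k t) ≤ γ / d k →
      ∃ ψ' : ℝ, HasDerivAt (fun s => Psi2 Ω k l (2 / d k) ζ ε (d l) φ (fun j => u j s)) ψ' t ∧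
        γ / d k ≤ ψ'

/-- **G10** for large rates every species with rate at least `(1 + c) d_k` dies out. -/
def StmG10 : Prop :=
  ∀ {n : ℕ} (N : ℕ) (Ω : Set (Sp n)) (P : ℝ), Dom Ω P → ∀ (m : Sp n → ℝ),
    ContinuousOn m (closure Ω) → (∃ x ∈ closure Ω, ∃ y ∈ closure Ω, m x ≠ m y) →
    ∀ c : ℝ, 0 < c → ∃ D : ℝ, ∀ (d : Fin N → ℝ), (∀ j, 0 < d j) →
    ∀ (k l : Fin N) (L : Finset (Fin N)), D ≤ d k → k ≠ l → k ∉ L → l ∉ L →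
    (∀ j, j ∉ L → d k ≤ d j) → (1 + c) * d k ≤ d l → ∀ (M A κ : ℝ), 0 < A → 0 < κ →
    ∃ S ν : ℝ, 0 < ν ∧ ∀ (T : Set ℝ), IsOpen T → ∀ (a b : ℝ), a ≤ b → Icc a b ⊆ T →
    ∀ (u ut : Fin N → ℝ → Sp n → ℝ) (Du : Fin N → ℝ → Sp n → Sp n) (lu : Fin N → ℝ → Sp n → ℝ),
      IsSol Ω d m T u ut Du lu → (∀ j, ∀ t ∈ Icc a b, ∀ x ∈ closure Ω, u j t x ≤ M) →
      A ≤ mass Ω (u k a) → (∀ t ∈ Icc a b, (∑ j ∈ L, mass Ω (u j t)) ≤ ν) →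
      κ ≤ mass Ω (u l b) → b - a ≤ S

end Pool.Agent.Lib.MP_d8ef8f_an.Ff
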